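import Pool.Agent.Lib_MP_418a80_t3.Fam

/-!
# MP_418a80_an, T4: data of the abelian step, elements with phases

`G / H = V`, `H = ker p`, `V` a finite dimensional space, `s : V → G` a continuous section which
need not be multiplicative; representations `ρ : V → GL(U)` on abelian quotients `U` of `H`.
-/

set_option autoImplicit false
set_option linter.unusedVariables false
set_option linter.unusedSectionVars false

open Topology Filter MeasureTheory
open scoped RealInnerProductSpace ComplexConjugate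

namespace Pool.Agent.AbCoc

universe u v w z z'

/-- a continuous homomorphism onto `V` with a continuous section -/
structure VSec (G : Type w) [Group G] [TopologicalSpace G] (V : Type z) [NormedAddCommGroup V]
    [InnerProductSpace ℝ V] where
  p : G → V
  hp : Continuous p
  pmul : ∀ g h, p (g * h) = p g + p h
  s : V → G
  hs : Continuous s
  s_zero : s 0 = 1
  ps : ∀ v, p (s v) = v

namespace VSec
variable {G : Type w} [Group G] [TopologicalSpace G] {V : Type z} [NormedAddCommGroup V]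
    [InnerProductSpace ℝ V] (R : VSec G V)

theorem p_one : R.p 1 = 0 := by
  have := R.pmul 1 1
  rw [mul_one] at this
  simpa using this

theorem p_inv (g : G) : R.p g⁻¹ = -R.p g := by
  have := R.pmul g g⁻¹
  rw [mul_inv_cancel, R.p_one] at this
  rw [eq_neg_iff_add_eq_zero, add_comm]
  exact this.symm

theorem p_conj (v : V) (h : G) (hh : R.p h = 0) : R.p ((R.s v)⁻¹ * h * R.s v) = 0 := by
  rw [R.pmul, R.pmul, R.p_inv, R.ps, hh]
  simp

theorem p_conj' (v : V) (h : G) (hh : R.p h = 0) : R.p (R.s v * h * (R.s v)⁻¹) = 0 := by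
  rw [R.pmul, R.pmul, R.p_inv, R.ps, hh]
  simp

/-- the defect of multiplicativity of the section -/
theorem p_defect (v v' : V) : R.p ((R.s (v + v'))⁻¹ * (R.s v * R.s v')) = 0 := by
  rw [R.pmul, R.pmul, R.p_inv, R.ps, R.ps, R.ps]
  simp

end VSec

/-- an abelian quotient `ξ : H → U` of `H = ker p`, on which `V = G / H` acts by `ρ` -/
structure WtV {G : Type w} [Group G] [TopologicalSpace G] {V : Type z} [NormedAddCommGroup V]
    [InnerProductSpace ℝ V] (R : VSec G V) (U : Type z') [NormedAddCommGroup U]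
    [NormedSpace ℝ U] where
  /-- only the values on `ker p` matter -/
  ξ : G → U
  hξ : Continuous ξ
  ξ_mul : ∀ g h, R.p g = 0 → R.p h = 0 → ξ (g * h) = ξ g + ξ h
  ω : U → G
  hω : Continuous ω
  pω : ∀ l, R.p (ω l) = 0
  ξω : ∀ l, ξ (ω l) = l
  ρ : V → U →L[ℝ] U
  hρ : Continuous ρ
  ρ_add : ∀ s t, ρ (s + t) = (ρ s).comp (ρ t)
  ρ_zero : ρ 0 = ContinuousLinearMap.id ℝ U
  ξ_conj : ∀ v h, R.p h = 0 → ξ (R.s v * h * (R.s v)⁻¹) = ρ v (ξ h)

section
variable {A : Type u} [CStarAlgebra A] {K : Type v} [NormedAddCommGroup K]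
  [InnerProductSpace ℂ K] [CompleteSpace K]
variable {G : Type w} [Group G] [TopologicalSpace G] {T : TrAlg A K} (S : TrAct G T)
  {V : Type z} [NormedAddCommGroup V] [InnerProductSpace ℝ V]
  {U : Type z'} [NormedAddCommGroup U] [NormedSpace ℝ U]

/-- the phases `g_l(v)` -/
noncomputable def WtV.ph {R : VSec G V} (W : WtV R U) (χ : U →L[ℝ] ℝ) (l : U) (v : V) : ℂ :=
  ch (χ (W.ρ (-v) l))

/-- elements of the corner `b A b`, `‖e‖₂ = 1`, `‖e‖² ≤ C`, near-invariant under `ker p` (error `κ` on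
`D`), with `γ_v γ_v' e ≈ γ_(v+v') e`, whose translates are multiplied by the phases `g l v` under the
elements `β l` of `ker p`, for `l ∈ Λ`; all this for `|v| ≤ T0` -/
structure TrAct.NEltV (R : VSec G V) (g : U → V → ℂ) (b : A) (T0 : ℝ) (D : Set G) (κ : ℝ)
    (Λ : Set U) (C : ℝ) (e : A) (β : U → G) : Prop where
  lft : b * e = e
  rgt : e * b = e
  nrm : ‖T.ι e‖ = 1
  op : ‖e‖ ^ 2 ≤ C
  nearH : ∀ h ∈ D, R.p h = 0 → ∀ v : V, ‖v‖ ≤ T0 →
    ‖T.ι (S.α h (S.α (R.s v) e) - S.α (R.s v) e)‖ ≤ κ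
  mul : ∀ v v' : V, ‖v‖ ≤ T0 → ‖v'‖ ≤ T0 →
    ‖T.ι (S.α (R.s v) (S.α (R.s v') e) - S.α (R.s (v + v')) e)‖ ≤ κ
  pβ : ∀ l, R.p (β l) = 0
  phase : ∀ l ∈ Λ, ∀ v : V, ‖v‖ ≤ T0 →
    ‖T.ι (S.α (β l) (S.α (R.s v) e) - g l v • S.α (R.s v) e)‖ ≤ κ

variable {S} in
theorem TrAct.NEltV.mono {R : VSec G V} {g : U → V → ℂ} {b : A} {T0 : ℝ} {D : Set G} {κ : ℝ}
    {Λ : Set U} {C : ℝ} {e : A} {β : U → G} (h : S.NEltV R g b T0 D κ Λ C e β) {T0' κ' : ℝ}
    {D' : Set G} {Λ' : Set U} (hT : T0' ≤ T0) (hD : D' ⊆ D) (hκ : κ ≤ κ') (hΛ : Λ' ⊆ Λ) :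
    S.NEltV R g b T0' D' κ' Λ' C e β where
  lft := h.lft
  rgt := h.rgt
  nrm := h.nrm
  op := h.op
  nearH := fun x hx hp v hv => (h.nearH x (hD hx) hp v (hv.trans hT)).trans hκ
  mul := fun v v' hv hv' => (h.mul v v' (hv.trans hT) (hv'.trans hT)).trans hκ
  pβ := h.pβ
  phase := fun l hl v hv => (h.phase l (hΛ hl) v (hv.trans hT)).trans hκ

/-- the conclusion of the periodic lemma in one corner, for families of mass `≤ 1` -/
def TrAct.PerAtV (R : VSec G V) (b : A) (s0 : V) (ε δ : ℝ) : Prop :=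
  ∀ C : ℝ, ∃ (D : Set G) (κ : ℝ), IsCompact D ∧ 0 < κ ∧
    ∀ (J : Type) [Fintype J] (y : J → A), (∀ j, b * y j = y j) → (∀ j, y j * b = y j) →
      T.Dm C y → T.ms y ≤ 1 → (∀ h ∈ D, R.p h = 0 → ∑ j, ‖T.ι (S.α h (y j) - y j)‖ ^ 2 ≤ κ) →
      (∀ v : V, ‖v‖ ≤ δ → ∑ j, ‖T.ι (S.α (R.s v) (y j) - y j)‖ ^ 2 ≤ ε) →
      ∑ j, ‖T.ι (S.α (R.s s0) (y j) - y j)‖ ^ 2 ≤ 100 * ε

variable {S} in
theorem TrAct.PerAtV.mono {R : VSec G V} {b : A} {s0 : V} {ε δ : ℝ} (h : S.PerAtV R b s0 ε δ)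
    {δ' : ℝ} (hδ : δ ≤ δ') : S.PerAtV R b s0 ε δ' := by
  intro C
  obtain ⟨D, κ, hD, hκ, h⟩ := h C
  exact ⟨D, κ, hD, hκ, fun J _ y h1 h2 h3 h4 h5 h6 => h J y h1 h2 h3 h4 h5
    fun v hv => h6 v (hv.trans hδ)⟩

end

end Pool.Agent.AbCoc
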