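import Pool.Agent.Lib_MP_418a80_t4.KeyAb
import Pool.Agent.Lib_MP_418a80_t3.KeyIso

/-!
# MP_418a80_an, T4: the abelian step for `KeyAll`

`G → V` a continuous homomorphism with a continuous section and kernel `H`, representations `ρ_i` of
`V` on abelian quotients `U_i` of `H`. If `KeyAll H` and the elements `v` with
`(ρ_i v - 1) ^ 2 = 0` for all `i` belong to a closed subgroup of `V` without lines, then `KeyAll G`.
-/

set_option autoImplicit false
set_option linter.unusedVariables false
set_option linter.unusedSectionVars false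

open MeasureTheory Topology Filter
open scoped RealInnerProductSpace

namespace Pool.Agent.AbCoc

universe u v w z z' z''

/-! ### transport of towers -/

section tower
variable {G : Type w} [Group G] [TopologicalSpace G] [IsTopologicalGroup G] [T2Space G]
  [SecondCountableTopology G] [LocallyCompactSpace G]
variable {H : Type w} [Group H] [TopologicalSpace H] [IsTopologicalGroup H] [T2Space H]
  [SecondCountableTopology H] [LocallyCompactSpace H]

/-- `KeyAll` of the image of a closed subgroup under a closed embedding -/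
theorem KeyAll.map_closed (j : H →* G) (hj : IsClosedEmbedding j) (N : Subgroup H)
    (hN : IsClosed (N : Set H)) (hK : KeyAll.{u, v, w} N) : KeyAll.{u, v, w} (N.map j) := by
  have hcl : IsClosed ((N.map j : Subgroup G) : Set G) := by
    rw [Subgroup.coe_map]
    exact hj.isClosedMap _ hN
  have : LocallyCompactSpace N := hN.isClosedEmbedding_subtypeVal.locallyCompactSpace
  have : SecondCountableTopology N :=
    inferInstanceAs (SecondCountableTopology ((N : Set H) : Set H))
  have : LocallyCompactSpace (N.map j) := hcl.isClosedEmbedding_subtypeVal.locallyCompactSpace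
  have : SecondCountableTopology (N.map j) :=
    inferInstanceAs (SecondCountableTopology ((N.map j : Set G) : Set G))
  obtain ⟨i, hi⟩ : ∃ i : N →* (N.map j : Subgroup G), ∀ n, (i n : G) = j (n : H) :=
    ⟨{ toFun := fun n => ⟨j n, Subgroup.mem_map_of_mem j n.2⟩
       map_one' := Subtype.ext (map_one j)
       map_mul' := fun a b => Subtype.ext (map_mul j _ _) }, fun n => rfl⟩
  refine KeyAll.congr i ?_ ?_ hK
  · have h1 : IsClosedEmbedding (fun n : N => j (n : H)) :=
      hj.comp hN.isClosedEmbedding_subtypeVal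
    have h2 : (fun n : N => j (n : H)) = Subtype.val ∘ i := funext fun n => (hi n).symm
    rw [h2] at h1
    exact IsClosedEmbedding.of_comp hcl.isClosedEmbedding_subtypeVal.isEmbedding h1
  · rintro ⟨g, hg⟩
    obtain ⟨x, hx, rfl⟩ := Subgroup.mem_map.1 hg
    exact ⟨⟨x, hx⟩, Subtype.ext (hi _)⟩

/-- images of towers under closed embeddings -/
theorem KTower.map (j : H →* G) (hj : IsClosedEmbedding j) {N : Subgroup H}
    (h : KTower.{u, v, w} N) : KTower.{u, v, w} (N.map j) := by
  classical
  induction h with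
  | bot =>
    rw [Subgroup.map_bot]
    exact KTower.bot
  | step N N' m p hm hN hp hK _ ih =>
    have hinv : ∀ x, Function.invFun j (j x) = x := Function.leftInverse_invFun hj.injective
    refine KTower.step (N.map j) (N'.map j) m (p ∘ Function.invFun j) hm ?_
      ⟨?_, ?_, ?_, ?_, Subgroup.map_mono hp.le⟩ (hK.map_closed j hj N hN) ih
    · rw [Subgroup.coe_map]
      exact hj.isClosedMap _ hN
    · rw [Subgroup.coe_map, hj.isInducing.continuousOn_image_iff]
      refine hp.cont.congr fun x hx => ?_
      simp only [Function.comp_apply, hinv]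
    · intro s hs t ht
      obtain ⟨x, hx, rfl⟩ := Subgroup.mem_map.1 hs
      obtain ⟨y, hy, rfl⟩ := Subgroup.mem_map.1 ht
      simp only [Function.comp_apply]
      rw [← map_mul, hinv, hinv, hinv]
      exact hp.mul x hx y hy
    · intro q
      obtain ⟨x, hx, hq⟩ := hp.surj q
      refine ⟨j x, Subgroup.mem_map_of_mem j hx, ?_⟩
      simp only [Function.comp_apply, hinv]
      exact hq
    · intro s hs
      obtain ⟨x, hx, rfl⟩ := Subgroup.mem_map.1 hs
      simp only [Function.comp_apply, hinv]
      rw [hp.ker x hx]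
      constructor
      · exact fun h => Subgroup.mem_map_of_mem j h
      · intro h
        obtain ⟨y, hy, hyx⟩ := Subgroup.mem_map.1 h
        rwa [← hj.injective hyx]

end tower

/-! ### restriction to subspaces -/

namespace VSec
variable {G : Type w} [Group G] [TopologicalSpace G] {V : Type z} [NormedAddCommGroup V]
    [InnerProductSpace ℝ V] (R : VSec G V)

/-- the preimage of a subspace -/
def pre (V' : Submodule ℝ V) : Subgroup G where
  carrier := {g | R.p g ∈ V'}
  one_mem' := by
    change R.p 1 ∈ V'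
    rw [R.p_one]
    exact V'.zero_mem
  mul_mem' {a b} ha hb := by
    change R.p (a * b) ∈ V'
    rw [R.pmul]
    exact V'.add_mem ha hb
  inv_mem' {a} ha := by
    change R.p a⁻¹ ∈ V'
    rw [R.p_inv]
    exact V'.neg_mem ha

theorem mem_pre (V' : Submodule ℝ V) (g : G) : g ∈ R.pre V' ↔ R.p g ∈ V' := Iff.rfl

/-- the kernel -/
def ker : Subgroup G where
  carrier := {g | R.p g = 0}
  one_mem' := R.p_one
  mul_mem' {a b} ha hb := by
    change R.p (a * b) = 0
    have ha' : R.p a = 0 := ha
    have hb' : R.p b = 0 := hb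
    rw [R.pmul, ha', hb', add_zero]
  inv_mem' {a} ha := by
    change R.p a⁻¹ = 0
    have ha' : R.p a = 0 := ha
    rw [R.p_inv, ha', neg_zero]

theorem mem_ker (g : G) : g ∈ R.ker ↔ R.p g = 0 := Iff.rfl

theorem isClosed_ker : IsClosed (R.ker : Set G) := isClosed_singleton.preimage R.hp

theorem isClosed_pre [FiniteDimensional ℝ V] (V' : Submodule ℝ V) :
    IsClosed (R.pre V' : Set G) :=
  (Submodule.closed_of_finiteDimensional V').preimage R.hp

/-- the section over a subspace -/
def sub (V' : Submodule ℝ V) : VSec (R.pre V') V' where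
  p g := ⟨R.p g, g.2⟩
  hp := (R.hp.comp continuous_subtype_val).subtype_mk _
  pmul g h := Subtype.ext (R.pmul _ _)
  s v := ⟨R.s v, (R.mem_pre V' _).2 ((R.ps v).symm ▸ v.2)⟩
  hs := (R.hs.comp continuous_subtype_val).subtype_mk _
  s_zero := Subtype.ext R.s_zero
  ps v := Subtype.ext (R.ps _)

theorem mem_ker_sub (V' : Submodule ℝ V) (g : R.pre V') : g ∈ (R.sub V').ker ↔ R.p g = 0 := by
  rw [mem_ker]
  exact ⟨fun h => congrArg Subtype.val h, fun h => Subtype.ext h⟩

/-- the kernels agree -/
theorem exists_kerIso [T2Space G] [FiniteDimensional ℝ V] (V' : Submodule ℝ V) :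
    ∃ j : R.ker →* (R.sub V').ker, IsClosedEmbedding j ∧ Function.Surjective j := by
  obtain ⟨j, hj⟩ : ∃ j : R.ker →* (R.sub V').ker, ∀ x, ((j x : R.pre V') : G) = x :=
    ⟨{ toFun := fun x => ⟨⟨x, by
          have hx : R.p x = 0 := x.2
          rw [mem_pre, hx]
          exact V'.zero_mem⟩, by
          rw [mem_ker_sub]
          exact x.2⟩
       map_one' := rfl
       map_mul' := fun _ _ => rfl }, fun _ => rfl⟩
  have h0 : IsClosedEmbedding (fun y : (R.sub V').ker => ((y : R.pre V') : G)) :=
    (R.isClosed_pre V').isClosedEmbedding_subtypeVal.comp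
      (R.sub V').isClosed_ker.isClosedEmbedding_subtypeVal
  refine ⟨j, ?_, fun y => ⟨⟨y, (R.mem_ker_sub V' y).1 y.2⟩, ?_⟩⟩
  · have h1 : IsClosedEmbedding (fun x : R.ker => (x : G)) :=
      R.isClosed_ker.isClosedEmbedding_subtypeVal
    have h2 : (fun x : R.ker => (x : G))
        = (fun y : (R.sub V').ker => ((y : R.pre V') : G)) ∘ j := funext fun x => (hj x).symm
    rw [h2] at h1
    exact IsClosedEmbedding.of_comp h0.isEmbedding h1
  · exact Subtype.ext (Subtype.ext (hj _))

end VSec

/-- restriction of the representation to a subspace -/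
def WtV.sub {G : Type w} [Group G] [TopologicalSpace G] {V : Type z} [NormedAddCommGroup V]
    [InnerProductSpace ℝ V] {R : VSec G V} {U : Type z'} [NormedAddCommGroup U]
    [NormedSpace ℝ U] (W : WtV R U) (V' : Submodule ℝ V) : WtV (R.sub V') U where
  ξ g := W.ξ g
  hξ := W.hξ.comp continuous_subtype_val
  ξ_mul g h hg hh := W.ξ_mul _ _ (congrArg Subtype.val hg) (congrArg Subtype.val hh)
  ω l := ⟨W.ω l, by
    rw [VSec.mem_pre, W.pω]
    exact V'.zero_mem⟩
  hω := W.hω.subtype_mk _
  pω l := Subtype.ext (W.pω l)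
  ξω l := W.ξω l
  ρ v := W.ρ v
  hρ := W.hρ.comp continuous_subtype_val
  ρ_add s t := W.ρ_add _ _
  ρ_zero := W.ρ_zero
  ξ_conj v h hh := W.ξ_conj _ _ (congrArg Subtype.val hh)

/-! ### the induction -/

section ind
variable {G : Type w} [Group G] [TopologicalSpace G] [IsTopologicalGroup G] [T2Space G]
  [SecondCountableTopology G] [LocallyCompactSpace G]
  {V : Type z} [NormedAddCommGroup V] [InnerProductSpace ℝ V] [FiniteDimensional ℝ V]

/-- the subgroup `⟪chi0, p g⟫ ∈ 2 π ℤ` -/
def VSec.circ (R : VSec G V) (chi0 : V) : Subgroup G where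
  carrier := {g | ∃ n : ℤ, ⟪chi0, R.p g⟫ = n * (2 * Real.pi)}
  one_mem' := ⟨0, by rw [R.p_one, inner_zero_right, Int.cast_zero, zero_mul]⟩
  mul_mem' {a b} ha hb := by
    obtain ⟨n, hn⟩ := ha
    obtain ⟨m, hm⟩ := hb
    refine ⟨n + m, ?_⟩
    rw [R.pmul, inner_add_right, hn, hm]
    push_cast
    ring
  inv_mem' {a} ha := by
    obtain ⟨n, hn⟩ := ha
    refine ⟨-n, ?_⟩
    rw [R.p_inv, inner_neg_right, hn]
    push_cast
    ring

theorem VSec.mem_circ (R : VSec G V) (chi0 : V) (g : G) :
    g ∈ R.circ chi0 ↔ ∃ n : ℤ, ⟪chi0, R.p g⟫ = n * (2 * Real.pi) := Iff.rfl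

theorem VSec.isClosed_circ (R : VSec G V) (chi0 : V) : IsClosed (R.circ chi0 : Set G) := by
  have e : (R.circ chi0 : Set G) = (fun g => ch ⟪chi0, R.p g⟫) ⁻¹' {1} := by
    ext g
    rw [SetLike.mem_coe, R.mem_circ, Set.mem_preimage, Set.mem_singleton_iff, ch_eq_one_iff]
  rw [e]
  exact isClosed_singleton.preimage (continuous_ch.comp (continuous_const.inner R.hp))

/-- `KeyAll` of `p⁻¹(2 π ℤ)` from `KeyAll` of `p⁻¹(0)` and a tower of `ker p` -/
theorem VSec.keyAll_circ (R : VSec G V) (chi0 : V)
    (hK : KeyAll.{u, v, w} (R.pre (ℝ ∙ chi0)ᗮ)) (hne : R.ker ≠ ⊥)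
    (ht : KTower.{u, v, w} (⊤ : Subgroup R.ker)) : KeyAll.{u, v, w} (R.circ chi0) := by
  obtain ⟨V', hV'⟩ : ∃ V' : Submodule ℝ V, V' = (ℝ ∙ chi0)ᗮ := ⟨_, rfl⟩
  have hmem : ∀ v, v ∈ V' ↔ ⟪chi0, v⟫ = 0 := fun v => by
    rw [hV']
    exact Submodule.mem_orthogonal_singleton_iff_inner_right
  rw [← hV'] at hK
  have hcl := R.isClosed_circ chi0
  have : LocallyCompactSpace (R.circ chi0) := hcl.isClosedEmbedding_subtypeVal.locallyCompactSpace
  have : SecondCountableTopology (R.circ chi0) :=
    inferInstanceAs (SecondCountableTopology ((R.circ chi0 : Set G) : Set G))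
  have hkc := R.isClosed_ker
  have : LocallyCompactSpace R.ker := hkc.isClosedEmbedding_subtypeVal.locallyCompactSpace
  have : SecondCountableTopology R.ker :=
    inferInstanceAs (SecondCountableTopology ((R.ker : Set G) : Set G))
  have hpc := R.isClosed_pre V'
  have : LocallyCompactSpace (R.pre V') := hpc.isClosedEmbedding_subtypeVal.locallyCompactSpace
  have : SecondCountableTopology (R.pre V') :=
    inferInstanceAs (SecondCountableTopology ((R.pre V' : Set G) : Set G))
  -- the inclusions
  have hle : R.pre V' ≤ R.circ chi0 := fun g hg => ⟨0, by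
    rw [(hmem _).1 hg, Int.cast_zero, zero_mul]⟩
  have hle2 : R.ker ≤ R.pre V' := fun g hg => by
    have hg' : R.p g = 0 := hg
    rw [R.mem_pre, hg']
    exact V'.zero_mem
  obtain ⟨j, hj⟩ : ∃ j : R.ker →* R.circ chi0, ∀ x, (j x : G) = x :=
    ⟨Subgroup.inclusion (hle2.trans hle), fun _ => rfl⟩
  obtain ⟨i, hi⟩ : ∃ i : R.pre V' →* R.circ chi0, ∀ x, (i x : G) = x :=
    ⟨Subgroup.inclusion hle, fun _ => rfl⟩
  have hjc : IsClosedEmbedding j := by
    have h1 : IsClosedEmbedding (fun x : R.ker => (x : G)) := hkc.isClosedEmbedding_subtypeVal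
    have h2 : (fun x : R.ker => (x : G)) = Subtype.val ∘ j := funext fun x => (hj x).symm
    rw [h2] at h1
    exact IsClosedEmbedding.of_comp hcl.isClosedEmbedding_subtypeVal.isEmbedding h1
  have hic : IsClosedEmbedding i := by
    have h1 : IsClosedEmbedding (fun x : R.pre V' => (x : G)) := hpc.isClosedEmbedding_subtypeVal
    have h2 : (fun x : R.pre V' => (x : G)) = Subtype.val ∘ i := funext fun x => (hi x).symm
    rw [h2] at h1
    exact IsClosedEmbedding.of_comp hcl.isClosedEmbedding_subtypeVal.isEmbedding h1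
  obtain ⟨N, hN⟩ : ∃ N : Subgroup (R.circ chi0), N = (⊤ : Subgroup (R.pre V')).map i := ⟨_, rfl⟩
  obtain ⟨N', hN'⟩ : ∃ N' : Subgroup (R.circ chi0), N' = (⊤ : Subgroup R.ker).map j := ⟨_, rfl⟩
  have hNm : ∀ g : R.circ chi0, g ∈ N ↔ ⟪chi0, R.p g⟫ = 0 := by
    intro g
    rw [hN, Subgroup.mem_map]
    constructor
    · rintro ⟨x, _, rfl⟩
      rw [hi]
      exact (hmem _).1 x.2
    · intro h
      exact ⟨⟨g, (hmem _).2 h⟩, Subgroup.mem_top _, Subtype.ext (hi _)⟩
  have hNm' : ∀ g : R.circ chi0, g ∈ N' ↔ R.p g = 0 := by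
    intro g
    rw [hN', Subgroup.mem_map]
    constructor
    · rintro ⟨x, _, rfl⟩
      rw [hj]
      exact x.2
    · intro h
      exact ⟨⟨g, h⟩, Subgroup.mem_top _, Subtype.ext (hj _)⟩
  have hKN : KeyAll.{u, v, w} N := by
    rw [hN]
    have hK' : KeyAll.{u, v, w} (⊤ : Subgroup (R.pre V')) := by
      have hct : IsClosed ((⊤ : Subgroup (R.pre V')) : Set (R.pre V')) := isClosed_univ
      have : LocallyCompactSpace (⊤ : Subgroup (R.pre V')) :=
        hct.isClosedEmbedding_subtypeVal.locallyCompactSpace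
      have : SecondCountableTopology (⊤ : Subgroup (R.pre V')) :=
        inferInstanceAs (SecondCountableTopology (((⊤ : Subgroup (R.pre V')) : Set (R.pre V')) :
          Set (R.pre V')))
      obtain ⟨k, hk⟩ : ∃ k : R.pre V' →* (⊤ : Subgroup (R.pre V')), ∀ x, (k x : R.pre V') = x :=
        ⟨{ toFun := fun x => ⟨x, Subgroup.mem_top x⟩
           map_one' := rfl
           map_mul' := fun _ _ => rfl }, fun _ => rfl⟩
      refine KeyAll.congr k ?_ (fun y => ⟨y, Subtype.ext (hk _)⟩) hK
      have h1 : IsClosedEmbedding (fun x : R.pre V' => x) := IsClosedEmbedding.id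
      have h2 : (fun x : R.pre V' => x) = Subtype.val ∘ k := funext fun x => (hk x).symm
      rw [h2] at h1
      exact IsClosedEmbedding.of_comp hct.isClosedEmbedding_subtypeVal.isEmbedding h1
    exact hK'.map_closed i hic ⊤ isClosed_univ
  have hNcl : IsClosed (N : Set (R.circ chi0)) := by
    rw [hN, Subgroup.coe_map]
    exact hic.isClosedMap _ isClosed_univ
  have htN' : KTower.{u, v, w} N' := by
    rw [hN']
    exact ht.map j hjc
  have htN : KTower.{u, v, w} N := by
    rcases Nat.eq_zero_or_pos (Module.finrank ℝ V') with h0 | h0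
    · have hV0 : V' = ⊥ := Submodule.finrank_eq_zero.1 h0
      have e : N = N' := by
        ext g
        rw [hNm, hNm', ← hmem, hV0, Submodule.mem_bot]
      rw [e]
      exact htN'
    · obtain ⟨b⟩ : Nonempty (OrthonormalBasis (Fin (Module.finrank ℝ V')) ℝ V') :=
        ⟨stdOrthonormalBasis ℝ V'⟩
      refine KTower.step N N' (Module.finrank ℝ V')
        (fun g => b.repr (V'.orthogonalProjectionOnto (R.p g))) h0 hNcl
        ⟨?_, ?_, ?_, ?_, ?_⟩ hKN htN'
      · exact (b.repr.continuous.comp ((V'.orthogonalProjectionOnto).continuous.comp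
          (R.hp.comp continuous_subtype_val))).continuousOn
      · intro s _ t _
        rw [Subgroup.coe_mul, R.pmul, map_add, map_add]
      · intro q
        refine ⟨⟨R.s (b.repr.symm q : V'), ⟨0, ?_⟩⟩, ?_, ?_⟩
        · rw [R.ps, (hmem _).1 (b.repr.symm q).2, Int.cast_zero, zero_mul]
        · rw [hNm]
          change ⟪chi0, R.p (R.s _)⟫ = 0
          rw [R.ps]
          exact (hmem _).1 (b.repr.symm q).2
        · change b.repr (V'.orthogonalProjectionOnto (R.p (R.s (b.repr.symm q : V')))) = q
          rw [R.ps, Submodule.orthogonalProjectionOnto_mem_subspace_eq_self,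
            LinearIsometryEquiv.apply_symm_apply]
      · intro g hg
        rw [hNm']
        have hg' : R.p g ∈ V' := (hmem _).2 ((hNm g).1 hg)
        constructor
        · intro h
          have h1 : V'.orthogonalProjectionOnto (R.p g) = 0 := b.repr.map_eq_zero_iff.1 h
          have h2 : V'.orthogonalProjectionOnto (R.p g) = ⟨R.p g, hg'⟩ :=
            Submodule.orthogonalProjectionOnto_mem_subspace_eq_self (⟨R.p g, hg'⟩ : V')
          rw [h2] at h1
          exact congrArg Subtype.val h1
        · intro h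
          rw [h, map_zero, map_zero]
      · intro g hg
        rw [hNm]
        rw [(hNm' g).1 hg, inner_zero_right]
  -- open and normal
  have hnorm : N.Normal := by
    constructor
    intro n hn g
    rw [hNm] at hn ⊢
    rw [Subgroup.coe_mul, Subgroup.coe_mul, Subgroup.coe_inv, R.pmul, R.pmul, R.p_inv,
      inner_add_right, inner_add_right, inner_neg_right, hn]
    ring
  have hopen : IsOpen (N : Set (R.circ chi0)) := by
    have e : (N : Set (R.circ chi0))
        = (fun g : R.circ chi0 => ⟪chi0, R.p g⟫) ⁻¹' Set.Ioo (-(2 * Real.pi)) (2 * Real.pi) := by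
      ext g
      rw [SetLike.mem_coe, hNm, Set.mem_preimage, Set.mem_Ioo]
      have hpi := Real.pi_pos
      constructor
      · intro h
        rw [h]
        constructor <;> linarith
      · rintro ⟨h1, h2⟩
        obtain ⟨n, hn⟩ := g.2
        rw [hn] at h1 h2 ⊢
        have h3 : (-1 : ℝ) < n := by nlinarith
        have h4 : (n : ℝ) < 1 := by nlinarith
        have h5 : (-1 : ℤ) < n := by exact_mod_cast h3
        have h6 : n < (1 : ℤ) := by exact_mod_cast h4
        have h7 : n = 0 := by omega
        rw [h7, Int.cast_zero, zero_mul]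
    rw [e]
    exact isOpen_Ioo.preimage (continuous_const.inner (R.hp.comp continuous_subtype_val))
  have hNne : N ≠ ⊥ := by
    obtain ⟨x, hx⟩ := (Subgroup.ne_bot_iff_exists_ne_one).1 hne
    refine (Subgroup.ne_bot_iff_exists_ne_one).2 ⟨⟨j x, ?_⟩, ?_⟩
    · rw [hNm, hj]
      have hx' : R.p x = 0 := x.2
      rw [hx', inner_zero_right]
    · intro h
      apply hx
      have h1 : j x = 1 := congrArg Subtype.val h
      exact hjc.injective (by rw [h1, map_one])
  exact keyAll_of_kTower N hopen hNne htN

/-- the abelian step, by induction on the dimension -/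
theorem keyAll_ab_aux {I : Type z''} {U : I → Type z'} [∀ i, NormedAddCommGroup (U i)]
    [∀ i, NormedSpace ℝ (U i)] [∀ i, FiniteDimensional ℝ (U i)] (n : ℕ) :
    ∀ (G : Type w) [Group G] [TopologicalSpace G] [IsTopologicalGroup G] [T2Space G]
      [SecondCountableTopology G] [LocallyCompactSpace G]
      (V : Type z) [NormedAddCommGroup V] [InnerProductSpace ℝ V] [FiniteDimensional ℝ V]
      (R : VSec G V) (W : ∀ i, WtV R (U i)) (K : AddSubgroup V), Module.finrank ℝ V = n →
      IsClosed (K : Set V) → (∀ v : V, (∀ t : ℝ, t • v ∈ K) → v = 0) →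
      (∀ v, (∀ i l, (W i).ρ v ((W i).ρ v l - l) = (W i).ρ v l - l) → v ∈ K) →
      KeyAll.{u, v, w} R.ker → R.ker ≠ ⊥ → (K ≠ ⊥ → KTower.{u, v, w} (⊤ : Subgroup R.ker)) →
      KeyAll.{u, v, w} G := by
  induction n with
  | zero =>
    intro G _ _ _ _ _ _ V _ _ _ R W K hfr hKc hKl hK hH hne ht
    have hs : Subsingleton V := Module.finrank_zero_iff.1 hfr
    have hcl := R.isClosed_ker
    have : LocallyCompactSpace R.ker := hcl.isClosedEmbedding_subtypeVal.locallyCompactSpace
    have : SecondCountableTopology R.ker :=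
      inferInstanceAs (SecondCountableTopology ((R.ker : Set G) : Set G))
    refine KeyAll.congr R.ker.subtype hcl.isClosedEmbedding_subtypeVal (fun g => ?_) hH
    exact ⟨⟨g, Subsingleton.elim _ _⟩, rfl⟩
  | succ n ih =>
    intro G _ _ _ _ _ _ V _ _ _ R W K hfr hKc hKl hK hH hne ht
    have hfact : Fact (Module.finrank ℝ V = n + 1) := ⟨hfr⟩
    -- the inductive hypothesis for hyperplanes
    have hhyp : ∀ chi0 : V, chi0 ≠ 0 → KeyAll.{u, v, w} (R.pre (ℝ ∙ chi0)ᗮ) := by
      intro chi0 h0
      obtain ⟨V', hV'⟩ : ∃ V' : Submodule ℝ V, V' = (ℝ ∙ chi0)ᗮ := ⟨_, rfl⟩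
      have hfr' : Module.finrank ℝ V' = n := by
        rw [hV']
        exact Submodule.finrank_orthogonal_span_singleton h0
      rw [← hV']
      have hpc := R.isClosed_pre V'
      have : LocallyCompactSpace (R.pre V') :=
        hpc.isClosedEmbedding_subtypeVal.locallyCompactSpace
      have : SecondCountableTopology (R.pre V') :=
        inferInstanceAs (SecondCountableTopology ((R.pre V' : Set G) : Set G))
      have hkc := R.isClosed_ker
      have : LocallyCompactSpace R.ker := hkc.isClosedEmbedding_subtypeVal.locallyCompactSpace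
      have : SecondCountableTopology R.ker :=
        inferInstanceAs (SecondCountableTopology ((R.ker : Set G) : Set G))
      have hkc' := (R.sub V').isClosed_ker
      have : LocallyCompactSpace (R.sub V').ker :=
        hkc'.isClosedEmbedding_subtypeVal.locallyCompactSpace
      have : SecondCountableTopology (R.sub V').ker :=
        inferInstanceAs (SecondCountableTopology (((R.sub V').ker : Set (R.pre V')) :
          Set (R.pre V')))
      obtain ⟨j, hj, hjs⟩ := R.exists_kerIso V'
      refine ih (R.pre V') V' (R.sub V') (fun i => (W i).sub V')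
        (K.comap V'.subtype.toAddMonoidHom) hfr' (hKc.preimage continuous_subtype_val) ?_ ?_
        (KeyAll.congr j hj hjs hH) ?_ ?_
      · intro v hv
        apply Subtype.ext
        exact hKl v fun t => hv t
      · intro v hv
        exact hK v hv
      · obtain ⟨x, hx⟩ := (Subgroup.ne_bot_iff_exists_ne_one).1 hne
        refine (Subgroup.ne_bot_iff_exists_ne_one).2 ⟨j x, fun h => hx ?_⟩
        exact hj.injective (by rw [h, map_one])
      · intro hK'
        have h1 : K ≠ ⊥ := by
          intro h
          apply hK'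
          rw [h]
          ext v
          rw [AddSubgroup.mem_comap, AddSubgroup.mem_bot, AddSubgroup.mem_bot]
          exact ⟨fun h => Subtype.ext h, fun h => congrArg Subtype.val h⟩
        have h2 := (ht h1).map j hj
        have e : (⊤ : Subgroup R.ker).map j = ⊤ := by
          rw [← MonoidHom.range_eq_map, MonoidHom.range_eq_top]
          exact hjs
        rwa [e] at h2
    by_cases hbot : K = ⊥
    · -- the line step
      obtain ⟨chi0, h0⟩ : ∃ chi0 : V, chi0 ≠ 0 := by
        have : Nontrivial V := Module.nontrivial_of_finrank_pos (R := ℝ) (by omega)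
        exact exists_ne 0
      refine keyAll_of_ab_line R W R.ker (fun g => Iff.rfl) hH chi0 h0 (R.pre (ℝ ∙ chi0)ᗮ)
        (fun g => Submodule.mem_orthogonal_singleton_iff_inner_right) (hhyp chi0 h0)
        fun v hv => ?_
      have h1 := hK v hv
      rw [hbot, AddSubgroup.mem_bot] at h1
      rw [h1, inner_zero_right]
    · -- the circle step
      obtain ⟨q, hq⟩ : ∃ q : V, q ∉ K := by
        by_contra hcon
        push Not at hcon
        obtain ⟨x, hx⟩ : ∃ x : V, x ≠ 0 := by
          have : Nontrivial V := Module.nontrivial_of_finrank_pos (R := ℝ) (by omega)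
          exact exists_ne 0
        exact hx (hKl x fun t => hcon _)
      obtain ⟨chi0, h1, h2⟩ := exists_dual_sep K hKc q hq
      have h0 : chi0 ≠ 0 := by
        rintro rfl
        apply h2
        rw [inner_zero_right, ch_zero]
      refine keyAll_of_ab_circle R W R.ker (fun g => Iff.rfl) hH chi0 h0 (R.circ chi0)
        (fun g => Iff.rfl) (R.keyAll_circ chi0 (hhyp chi0 h0) hne (ht hbot)) fun v hv => ?_
      rw [real_inner_comm]
      exact h1 v (hK v hv)

/-- **The abelian step.** `R : G → V` a continuous homomorphism with a continuous section, `ρ_i` the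
representations of `V` on abelian quotients `U_i` of `H = ker p`. If `K ⊆ V` is a closed subgroup
without lines which contains all `v` with `(ρ_i v - 1) ^ 2 = 0` for all `i`, and `KeyAll H`, `H ≠ 1`,
and `H` has a tower if `K ≠ 0`, then `KeyAll G`. -/
theorem keyAll_ab (R : VSec G V) {I : Type z''} {U : I → Type z'} [∀ i, NormedAddCommGroup (U i)]
    [∀ i, NormedSpace ℝ (U i)] [∀ i, FiniteDimensional ℝ (U i)] (W : ∀ i, WtV R (U i))
    (K : AddSubgroup V) (hKc : IsClosed (K : Set V)) (hKl : ∀ v : V, (∀ t : ℝ, t • v ∈ K) → v = 0)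
    (hK : ∀ v, (∀ i l, (W i).ρ v ((W i).ρ v l - l) = (W i).ρ v l - l) → v ∈ K)
    (hH : KeyAll.{u, v, w} R.ker) (hne : R.ker ≠ ⊥)
    (ht : K ≠ ⊥ → KTower.{u, v, w} (⊤ : Subgroup R.ker)) : KeyAll.{u, v, w} G :=
  keyAll_ab_aux (Module.finrank ℝ V) G V R W K rfl hKc hKl hK hH hne ht

end ind

end Pool.Agent.AbCoc
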