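import Pool.Agent.Lib_MP_418a80_t4.V0

/-!
# MP_418a80_an, T4 (abelian step): amplitudes
-/

set_option autoImplicit false
set_option linter.unusedVariables false
set_option linter.unusedSectionVars false

open Topology Filter MeasureTheory
open scoped RealInnerProductSpace ComplexConjugate

namespace Pool.Agent.AbCoc

universe u v w z

section
variable {n : ℕ}

private theorem sn_apply_le (v : EuclideanSpace ℝ (Fin n)) (i : Fin n) : |v i| ≤ sn v := by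
  rw [← Real.norm_eq_abs]
  exact norm_le_pi_norm (WithLp.ofLp v : Fin n → ℝ) i

private theorem sn_le_iff {v : EuclideanSpace ℝ (Fin n)} {r : ℝ} (hr : 0 ≤ r) :
    sn v ≤ r ↔ ∀ i, |v i| ≤ r := by
  unfold sn
  rw [pi_norm_le_iff_of_nonneg hr]
  rfl

theorem sn_le_norm (v : EuclideanSpace ℝ (Fin n)) : sn v ≤ ‖v‖ := by
  rw [sn_le_iff (norm_nonneg _)]
  intro i
  rw [← Real.norm_eq_abs]
  exact PiLp.norm_apply_le v i

theorem norm_le_sn (v : EuclideanSpace ℝ (Fin n)) : ‖v‖ ≤ √n * sn v := by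
  rw [EuclideanSpace.norm_eq]
  have h0 : 0 ≤ sn v := norm_nonneg _
  have h1 : ∑ i, ‖v i‖ ^ 2 ≤ ∑ _i : Fin n, sn v ^ 2 := by
    refine Finset.sum_le_sum fun i _ => pow_le_pow_left₀ (norm_nonneg _) ?_ 2
    rw [Real.norm_eq_abs]
    exact sn_apply_le v i
  rw [Finset.sum_const, Finset.card_univ, Fintype.card_fin, nsmul_eq_mul] at h1
  calc √(∑ i, ‖v i‖ ^ 2) ≤ √((n : ℝ) * sn v ^ 2) := Real.sqrt_le_sqrt h1
    _ = √n * sn v := by rw [Real.sqrt_mul (Nat.cast_nonneg n), Real.sqrt_sq h0]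

theorem sn_nonneg (v : EuclideanSpace ℝ (Fin n)) : 0 ≤ sn v := norm_nonneg _

theorem sn_add_le (v w : EuclideanSpace ℝ (Fin n)) : sn (v + w) ≤ sn v + sn w := by
  unfold sn
  rw [WithLp.ofLp_add]
  exact norm_add_le _ _

theorem sn_neg (v : EuclideanSpace ℝ (Fin n)) : sn (-v) = sn v := by
  unfold sn
  rw [WithLp.ofLp_neg]
  exact norm_neg _

theorem continuous_sn : Continuous (sn : EuclideanSpace ℝ (Fin n) → ℝ) := by
  unfold sn
  exact (PiLp.continuous_ofLp 2 (fun _ : Fin n => ℝ)).norm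

theorem isCompact_sn (T : ℝ) : IsCompact {v : EuclideanSpace ℝ (Fin n) | sn v ≤ T} := by
  refine (isCompact_closedBall (0 : EuclideanSpace ℝ (Fin n)) (√n * T)).of_isClosed_subset
    (isClosed_le continuous_sn continuous_const) ?_
  intro v hv
  rw [mem_closedBall_zero_iff]
  exact (norm_le_sn v).trans (mul_le_mul_of_nonneg_left hv (Real.sqrt_nonneg _))

theorem sn_gv {a : ℝ} (ha : 0 ≤ a) (j : Fin n → ℤ) : sn (a • gv j) = a * ‖j‖ := by
  unfold sn
  have h1 : (WithLp.ofLp (a • gv j) : Fin n → ℝ) = a • (fun i => (j i : ℝ)) := rfl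
  rw [h1, norm_smul, Real.norm_eq_abs, abs_of_nonneg ha]
  congr 1

/-- the grid contains all points of the cube of size `3 T0` -/
theorem mem_box {a T0 : ℝ} (ha : 0 < a) (hT0 : 0 < T0) {j : Fin n → ℤ}
    (h : sn (a • gv j) ≤ 3 * T0) : j ∈ gbox n (gN (a / T0)) := by
  rw [sn_gv ha.le] at h
  refine mem_gbox_gN' (div_pos ha hT0) ?_
  rw [div_mul_eq_mul_div, div_le_iff₀ hT0]
  exact h

theorem hatV_nonneg (T0 : ℝ) (v : EuclideanSpace ℝ (Fin n)) : 0 ≤ hatV T0 v := le_max_left _ _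

theorem hatV_le_one {T0 : ℝ} (hT0 : 0 < T0) (v : EuclideanSpace ℝ (Fin n)) : hatV T0 v ≤ 1 := by
  unfold hatV
  refine max_le zero_le_one ?_
  have : 0 ≤ sn v / T0 := div_nonneg (norm_nonneg _) hT0.le
  linarith

theorem continuous_hatV (T0 : ℝ) : Continuous (hatV T0 : EuclideanSpace ℝ (Fin n) → ℝ) := by
  unfold hatV
  exact continuous_const.max (continuous_const.sub (continuous_sn.div_const T0))

theorem hatV_lip {T0 : ℝ} (hT0 : 0 < T0) (v w : EuclideanSpace ℝ (Fin n)) :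
    |hatV T0 v - hatV T0 w| ≤ sn (v - w) / T0 := by
  have h1 : |sn v - sn w| ≤ sn (v - w) := by
    unfold sn
    rw [WithLp.ofLp_sub]
    exact abs_norm_sub_norm_le _ _
  unfold hatV
  rw [max_comm 0, max_comm 0]
  refine (abs_max_sub_max_le_abs _ _ _).trans ?_
  have h2 : 1 - sn v / T0 - (1 - sn w / T0) = -((sn v - sn w) / T0) := by ring
  rw [h2, abs_neg, abs_div, abs_of_pos hT0]
  exact div_le_div_of_nonneg_right h1 hT0.le

private theorem hatV_zero {T0 : ℝ} (hT0 : 0 < T0) {v : EuclideanSpace ℝ (Fin n)} (h : T0 < sn v) :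
    hatV T0 v = 0 := by
  unfold hatV
  refine max_eq_left ?_
  have : 1 < sn v / T0 := (one_lt_div hT0).2 h
  linarith

theorem SH.cf {T0 : ℝ} (hT0 : 0 < T0) {F : EuclideanSpace ℝ (Fin n) → ℂ} (h : SH T0 F) :
    CF T0 F := by
  refine ⟨h.cont, fun v => (h.le v).trans (hatV_le_one hT0 v), fun v hv => ?_⟩
  have h1 := h.le v
  rw [hatV_zero hT0 hv] at h1
  exact norm_le_zero_iff.1 h1

theorem SH.hat (T0 : ℝ) : SH T0 (fun v : EuclideanSpace ℝ (Fin n) => (hatV T0 v : ℂ)) := by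
  refine ⟨Complex.continuous_ofReal.comp (continuous_hatV T0), fun v => ?_⟩
  rw [Complex.norm_real, Real.norm_eq_abs, abs_of_nonneg (hatV_nonneg T0 v)]

theorem SH.mul {T0 : ℝ} {F u : EuclideanSpace ℝ (Fin n) → ℂ} (h : SH T0 F) (hu : Continuous u)
    (hu1 : ∀ v, ‖u v‖ = 1) : SH T0 (fun v => u v * F v) := by
  refine ⟨hu.mul h.cont, fun v => ?_⟩
  rw [norm_mul, hu1, one_mul]
  exact h.le v

theorem CF.mul {T : ℝ} {F u : EuclideanSpace ℝ (Fin n) → ℂ} (h : CF T F) (hu : Continuous u)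
    (hu1 : ∀ v, ‖u v‖ = 1) : CF T (fun v => u v * F v) := by
  refine ⟨hu.mul h.cont, fun v => ?_, fun v hv => ?_⟩
  · rw [norm_mul, hu1, one_mul]
    exact h.bd v
  · rw [h.supp v hv, mul_zero]

/-- translation by `w` -/
theorem CF.shift {T T' : ℝ} {F : EuclideanSpace ℝ (Fin n) → ℂ} (h : CF T F)
    (w : EuclideanSpace ℝ (Fin n)) (hw : sn w ≤ T') : CF (T + T') (fun v => F (v - w)) := by
  refine ⟨h.cont.comp (continuous_id.sub continuous_const), fun v => h.bd _, fun v hv => ?_⟩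
  apply h.supp
  have h1 : sn v ≤ sn (v - w) + sn w := by
    have h2 := sn_add_le (v - w) w
    rwa [sub_add_cancel] at h2
  linarith

theorem CF.mono {T T' : ℝ} {F : EuclideanSpace ℝ (Fin n) → ℂ} (h : CF T F) (hT : T ≤ T') :
    CF T' F := by
  exact ⟨h.cont, h.bd, fun v hv => h.supp v (hT.trans_lt hv)⟩

/-- uniform continuity -/
theorem CF.unif {T : ℝ} {F : EuclideanSpace ℝ (Fin n) → ℂ} (h : CF T F) {ε : ℝ} (hε : 0 < ε) :
    ∃ δ : ℝ, 0 < δ ∧ ∀ v w, ‖v - w‖ ≤ δ → ‖F v - F w‖ ≤ ε := by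
  have h1 : HasCompactSupport F := by
    refine HasCompactSupport.intro (isCompact_sn T) ?_
    intro v hv
    apply h.supp
    simpa using hv
  have h2 : UniformContinuous F := h1.uniformContinuous_of_continuous h.cont
  obtain ⟨δ, hδ, h3⟩ := Metric.uniformContinuous_iff.1 h2 ε hε
  refine ⟨δ / 2, by positivity, fun v w hvw => ?_⟩
  have h4 : dist v w < δ := by
    rw [dist_eq_norm]
    linarith
  have h5 := h3 h4
  rw [dist_eq_norm] at h5
  exact h5.le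

private theorem hatV_grid {a T0 : ℝ} (ha : 0 < a) (j : Fin n → ℤ) :
    hatV T0 (a • gv j) = hatf (a / T0) j := by
  unfold hatV hatf
  rw [sn_gv ha.le]
  congr 2
  ring

private theorem norm_gf {a T0 : ℝ} (F : EuclideanSpace ℝ (Fin n) → ℂ) (j : Fin n → ℤ) :
    ‖gf a T0 F j‖ = ‖F (a • gv j)‖ / √(hN n (a / T0)) := by
  unfold gf
  rw [norm_mul, Complex.norm_real, Real.norm_eq_abs, abs_of_nonneg (inv_nonneg.2 (Real.sqrt_nonneg _))]
  rfl

/-- the grid amplitudes of two functions which are uniformly close -/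
theorem gf_sub_sq {a T0 : ℝ} (ha : 0 < a) (haT : a ≤ T0) {F F' : EuclideanSpace ℝ (Fin n) → ℂ}
    {ω : ℝ} (h : ∀ v, ‖F v - F' v‖ ≤ ω) :
    ∑ j ∈ gbox n (gN (a / T0)), ‖gf a T0 F j - gf a T0 F' j‖ ^ 2 ≤ 4 * 13 ^ n * ω ^ 2 := by
  have hT0 : 0 < T0 := ha.trans_le haT
  have hτ : 0 < a / T0 := div_pos ha hT0
  have hτ1 : a / T0 ≤ 1 := (div_le_one hT0).2 haT
  have hω : 0 ≤ ω := (norm_nonneg _).trans (h 0)
  have hNp := hN_pos (n := n) hτ hτ1
  have h1 : ∀ j ∈ gbox n (gN (a / T0)), ‖gf a T0 F j - gf a T0 F' j‖ ^ 2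
      ≤ ω ^ 2 / hN n (a / T0) := by
    intro j _
    have h2 : gf a T0 F j - gf a T0 F' j = gf a T0 (fun v => F v - F' v) j := by
      unfold gf
      ring
    rw [h2, norm_gf, div_pow, Real.sq_sqrt hNp.le]
    exact div_le_div_of_nonneg_right (pow_le_pow_left₀ (norm_nonneg _) (h _) 2) hNp.le
  refine (Finset.sum_le_sum h1).trans ?_
  rw [Finset.sum_const, nsmul_eq_mul]
  have h2 := card_le_hN (n := n) hτ hτ1
  calc ((gbox n (gN (a / T0))).card : ℝ) * (ω ^ 2 / hN n (a / T0))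
      ≤ (4 * 13 ^ n * hN n (a / T0)) * (ω ^ 2 / hN n (a / T0)) :=
        mul_le_mul_of_nonneg_right h2 (by positivity)
    _ = 4 * 13 ^ n * ω ^ 2 := by field_simp

theorem gf_sq {a T0 : ℝ} (ha : 0 < a) (haT : a ≤ T0) {F : EuclideanSpace ℝ (Fin n) → ℂ}
    (h : ∀ v, ‖F v‖ ≤ 1) :
    ∑ j ∈ gbox n (gN (a / T0)), ‖gf a T0 F j‖ ^ 2 ≤ 4 * 13 ^ n := by
  have h1 := gf_sub_sq (n := n) (F := F) (F' := fun _ => 0) ha haT (ω := 1)
    (fun v => by rw [sub_zero]; exact h v)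
  have h2 : ∀ j, gf a T0 (fun _ : EuclideanSpace ℝ (Fin n) => (0 : ℂ)) j = 0 := by
    intro j
    unfold gf
    rw [zero_mul]
  simpa [h2] using h1

theorem gf_sq_le_one {a T0 : ℝ} (ha : 0 < a) (haT : a ≤ T0) {F : EuclideanSpace ℝ (Fin n) → ℂ}
    (h : SH T0 F) : ∑ j ∈ gbox n (gN (a / T0)), ‖gf a T0 F j‖ ^ 2 ≤ 1 := by
  have hT0 : 0 < T0 := ha.trans_le haT
  have hτ : 0 < a / T0 := div_pos ha hT0
  have hτ1 : a / T0 ≤ 1 := (div_le_one hT0).2 haT
  rw [← sum_hf_sq (n := n) hτ hτ1]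
  refine Finset.sum_le_sum fun j _ => pow_le_pow_left₀ (norm_nonneg _) ?_ 2
  rw [norm_gf]
  unfold hf
  rw [← hatV_grid ha]
  exact div_le_div_of_nonneg_right (h.le _) (Real.sqrt_nonneg _)

theorem gf_sq_eq_one {a T0 : ℝ} (ha : 0 < a) (haT : a ≤ T0) {F : EuclideanSpace ℝ (Fin n) → ℂ}
    (h : ∀ v, ‖F v‖ = hatV T0 v) : ∑ j ∈ gbox n (gN (a / T0)), ‖gf a T0 F j‖ ^ 2 = 1 := by
  have hT0 : 0 < T0 := ha.trans_le haT
  have hτ : 0 < a / T0 := div_pos ha hT0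
  have hτ1 : a / T0 ≤ 1 := (div_le_one hT0).2 haT
  rw [← sum_hf_sq (n := n) hτ hτ1]
  refine Finset.sum_congr rfl fun j _ => ?_
  rw [norm_gf, h, hatV_grid ha]
  rfl

/-- the support of the grid amplitudes -/
theorem gf_ne_zero {a T0 T : ℝ} {F : EuclideanSpace ℝ (Fin n) → ℂ} (h : CF T F)
    {j : Fin n → ℤ} (hj : gf a T0 F j ≠ 0) : sn (a • gv j) ≤ T := by
  by_contra h1
  rw [not_le] at h1
  apply hj
  unfold gf
  rw [h.supp _ h1, zero_mul]

/-- translation of the grid amplitudes by grid points -/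
theorem gf_shift (a T0 : ℝ) (F : EuclideanSpace ℝ (Fin n) → ℂ) (m j : Fin n → ℤ) :
    gf a T0 F (j - m) = gf a T0 (fun v => F (v - a • gv m)) j := by
  have h1 : gv (j - m) = gv j - gv m := by
    have h2 := gv_add (j - m) m
    rw [sub_add_cancel] at h2
    rw [h2, add_sub_cancel_right]
  unfold gf
  rw [h1, smul_sub]

private theorem rd_coord {a : ℝ} (ha : 0 < a) (w : EuclideanSpace ℝ (Fin n)) (i : Fin n) :
    |w i - a * (rd a w i : ℝ)| ≤ a ∧ |a * (rd a w i : ℝ)| ≤ |w i| := by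
  unfold rd
  have h0 : w i / a * a = w i := div_mul_cancel₀ _ ha.ne'
  by_cases h : 0 ≤ w i
  · rw [if_pos h]
    have h1 : (0 : ℝ) ≤ (⌊w i / a⌋ : ℝ) := by
      exact_mod_cast Int.floor_nonneg.2 (div_nonneg h ha.le)
    have h2 : (⌊w i / a⌋ : ℝ) ≤ w i / a := Int.floor_le _
    have h3 : w i / a < (⌊w i / a⌋ : ℝ) + 1 := Int.lt_floor_add_one _
    have h4 : a * (⌊w i / a⌋ : ℝ) ≤ w i := by nlinarith
    have h5 : w i ≤ a * (⌊w i / a⌋ : ℝ) + a := by nlinarith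
    have h6 : 0 ≤ a * (⌊w i / a⌋ : ℝ) := mul_nonneg ha.le h1
    refine ⟨?_, ?_⟩
    · rw [abs_le]
      constructor <;> linarith
    · rw [abs_of_nonneg h6, abs_of_nonneg h]
      exact h4
  · rw [if_neg h]
    rw [not_le] at h
    have h1 : (⌈w i / a⌉ : ℝ) ≤ 0 := by
      have h2 : ⌈w i / a⌉ ≤ 0 := Int.ceil_le.2 (by
        rw [Int.cast_zero]
        exact (div_neg_of_neg_of_pos h ha).le)
      exact_mod_cast h2
    have h2 : w i / a ≤ (⌈w i / a⌉ : ℝ) := Int.le_ceil _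
    have h3 : (⌈w i / a⌉ : ℝ) < w i / a + 1 := Int.ceil_lt_add_one _
    have h4 : w i ≤ a * (⌈w i / a⌉ : ℝ) := by nlinarith
    have h5 : a * (⌈w i / a⌉ : ℝ) ≤ w i + a := by nlinarith
    have h6 : a * (⌈w i / a⌉ : ℝ) ≤ 0 := mul_nonpos_of_nonneg_of_nonpos ha.le h1
    refine ⟨?_, ?_⟩
    · rw [abs_le]
      constructor <;> linarith
    · rw [abs_of_nonpos h6, abs_of_neg h]
      linarith

private theorem rd_apply {a : ℝ} (ha : 0 < a) (w : EuclideanSpace ℝ (Fin n)) (i : Fin n) :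
    |(w - a • gv (rd a w)) i| ≤ a := (rd_coord ha w i).1

/-- rounding -/
theorem rd_dist {a : ℝ} (ha : 0 < a) (w : EuclideanSpace ℝ (Fin n)) :
    ‖w - a • gv (rd a w)‖ ≤ √n * a := by
  refine (norm_le_sn _).trans (mul_le_mul_of_nonneg_left ?_ (Real.sqrt_nonneg _))
  rw [sn_le_iff ha.le]
  exact rd_apply ha w

theorem rd_zero (a : ℝ) : rd a (0 : EuclideanSpace ℝ (Fin n)) = 0 := by
  funext i
  unfold rd
  simp

theorem rd_sn {a : ℝ} (ha : 0 < a) (w : EuclideanSpace ℝ (Fin n)) :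
    sn (a • gv (rd a w)) ≤ sn w := by
  rw [sn_le_iff (sn_nonneg w)]
  intro i
  exact ((rd_coord ha w i).2).trans (sn_apply_le w i)

end

end Pool.Agent.AbCoc
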