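import Pool.Agent.Lib_MP_418a80_t4.V0
import Pool.Agent.Lib_MP_418a80_t3.Heis4

/-!
# MP_418a80_an, T4 (abelian step): duality for closed subgroups
-/

set_option autoImplicit false
set_option linter.unusedVariables false
set_option linter.unusedSectionVars false

open Topology Filter MeasureTheory
open scoped RealInnerProductSpace ComplexConjugate

namespace Pool.Agent.AbCoc

universe u v w z

section
variable {V : Type z} [NormedAddCommGroup V] [InnerProductSpace ℝ V] [FiniteDimensional ℝ V]

/-- a discrete subgroup is the annihilator of its annihilator, inside its span; the functional may be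
chosen to vanish on the orthogonal complement of the span -/
private theorem ann_discrete (L : Submodule ℤ V) (hL : DiscreteTopology L) (q : V)
    (hq : q ∈ Submodule.span ℝ (L : Set V)) (hqL : q ∉ L) :
    ∃ f : V →ₗ[ℝ] ℝ, (∀ x ∈ L, ∃ n : ℤ, f x = n) ∧ (∀ x ∈ (Submodule.span ℝ (L : Set V))ᗮ, f x = 0) ∧
      ∀ n : ℤ, f q ≠ n := by
  classical
  set Sp := Submodule.span ℝ (L : Set V) with hSp
  have : Module.Finite ℤ L := inferInstance
  have : Module.Free ℤ L := inferInstance
  let b := Module.Free.chooseBasis ℤ L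
  let ι := Module.Free.ChooseBasisIndex ℤ L
  let bv : ι → V := fun i => ((b i : L) : V)
  -- the basis spans `L`
  have hspanZ : Submodule.span ℤ (Set.range bv) = L := by
    have h1 : Set.range bv = L.subtype '' Set.range b := by
      rw [← Set.range_comp]
      rfl
    rw [h1, ← Submodule.map_span, b.span_eq, Submodule.map_top, Submodule.range_subtype]
  have hspanR : Submodule.span ℝ (Set.range bv) = Sp := by
    apply le_antisymm
    · rw [Submodule.span_le]
      rintro _ ⟨i, rfl⟩
      exact Submodule.subset_span (b i).2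
    · rw [hSp, Submodule.span_le]
      intro x hx
      rw [SetLike.mem_coe, ← hspanZ] at hx
      exact Submodule.span_le_restrictScalars ℤ ℝ _ hx
  have hdisc : DiscreteTopology (Submodule.span ℤ (Set.range bv)) := by
    rw [hspanZ]
    exact hL
  have hrank := Real.finrank_eq_int_finrank_of_discrete hdisc
  have hli : LinearIndependent ℝ bv := by
    rw [linearIndependent_iff_card_eq_finrank_span, hrank]
    unfold Set.finrank
    rw [hspanZ]
    exact (Module.finrank_eq_card_chooseBasisIndex ℤ L).symm
  -- the dual basis on the span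
  let B := Module.Basis.span hli
  have hB : ∀ i, ((B i : Submodule.span ℝ (Set.range bv)) : V) = bv i := fun i => by
    simp [B]
  have hqs : q ∈ Submodule.span ℝ (Set.range bv) := by
    rw [hspanR]
    exact hq
  -- a coordinate which is not an integer
  have hex : ∃ i, ∀ n : ℤ, B.repr ⟨q, hqs⟩ i ≠ n := by
    by_contra hcon
    push Not at hcon
    choose c hc using hcon
    apply hqL
    have h1 : (⟨q, hqs⟩ : Submodule.span ℝ (Set.range bv)) = ∑ i, (B.repr ⟨q, hqs⟩ i) • B i :=
      (B.sum_repr _).symm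
    have h2 : q = ∑ i, c i • bv i := by
      have h3 := congrArg Subtype.val h1
      simp only [Submodule.coe_sum, Submodule.coe_smul, hB] at h3
      rw [h3]
      refine Finset.sum_congr rfl fun i _ => ?_
      rw [hc i, Int.cast_smul_eq_zsmul]
    rw [h2]
    exact Submodule.sum_mem _ fun i _ => L.smul_mem _ (b i).2
  obtain ⟨i, hi⟩ := hex
  have hpr : ∀ x ∈ Submodule.span ℝ (Set.range bv),
      ((Submodule.span ℝ (Set.range bv)).orthogonalProjectionOnto x : V) = x := by
    intro x hx
    exact congrArg Subtype.val (Submodule.orthogonalProjectionOnto_mem_subspace_eq_self ⟨x, hx⟩)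
  have hpr' : ∀ x (hx : x ∈ Submodule.span ℝ (Set.range bv)),
      (Submodule.span ℝ (Set.range bv)).orthogonalProjectionOnto x = ⟨x, hx⟩ := by
    intro x hx
    exact Subtype.ext (hpr x hx)
  refine ⟨(B.coord i).comp ((Submodule.span ℝ (Set.range bv)).orthogonalProjectionOnto : V →ₗ[ℝ] _), ?_, ?_, ?_⟩
  · intro x hx
    have hx' : x ∈ Submodule.span ℝ (Set.range bv) := by
      rw [hspanR]
      exact Submodule.subset_span hx
    refine ⟨b.repr ⟨x, hx⟩ i, ?_⟩
    show B.repr ((Submodule.span ℝ (Set.range bv)).orthogonalProjectionOnto x) i = _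
    rw [hpr' x hx']
    have h1 : (⟨x, hx'⟩ : Submodule.span ℝ (Set.range bv)) = ∑ j, ((b.repr ⟨x, hx⟩ j : ℤ) : ℝ) • B j := by
      apply Subtype.ext
      simp only [Submodule.coe_sum, Submodule.coe_smul, hB]
      have h2 := congrArg Subtype.val (b.sum_repr ⟨x, hx⟩)
      simp only [Submodule.coe_sum, Submodule.coe_smul] at h2
      refine h2.symm.trans (Finset.sum_congr rfl fun j _ => ?_)
      rw [Int.cast_smul_eq_zsmul]
    rw [h1, map_sum, Finsupp.finsetSum_apply]
    simp [Finsupp.single_apply]
  · intro x hx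
    show B.repr ((Submodule.span ℝ (Set.range bv)).orthogonalProjectionOnto x) i = 0
    have h1 : (Submodule.span ℝ (Set.range bv)).orthogonalProjectionOnto x = 0 := by
      apply Submodule.orthogonalProjectionOnto_apply_of_mem_orthogonal
      rw [hspanR]
      exact hx
    rw [h1]
    simp
  · intro n
    show B.repr ((Submodule.span ℝ (Set.range bv)).orthogonalProjectionOnto q) i ≠ n
    rw [hpr' q hqs]
    exact hi n

end

/-- a closed subgroup of a finite dimensional space is the annihilator of its annihilator -/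
theorem exists_ann {V : Type z} [NormedAddCommGroup V] [InnerProductSpace ℝ V]
    [FiniteDimensional ℝ V] (H : AddSubgroup V) (hc : IsClosed (H : Set V)) (q : V) (hq : q ∉ H) :
    ∃ s0 : V, (∀ x ∈ H, ch ⟪x, s0⟫ = 1) ∧ ch ⟪q, s0⟫ ≠ 1 := by
  classical
  -- the largest subspace
  let W : Submodule ℝ V :=
    { carrier := {v | ∀ c : ℝ, c • v ∈ H}
      add_mem' := fun {a b} ha hb c => by
        rw [smul_add]
        exact H.add_mem (ha c) (hb c)
      zero_mem' := fun c => by
        rw [smul_zero]
        exact H.zero_mem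
      smul_mem' := fun r v hv c => by
        rw [smul_smul]
        exact hv _ }
  have hW : ∀ q, q ∈ W ↔ ∀ c : ℝ, c • q ∈ H := fun q => Iff.rfl
  have hWH : ∀ v ∈ W, v ∈ H := fun v hv => by simpa using hv 1
  obtain ⟨r0, hr0, hcone⟩ := tangent_cone H hc W hW (1 / 2) (by norm_num)
  -- the discrete part
  let L : Submodule ℤ V := AddSubgroup.toIntSubmodule (H ⊓ Wᗮ.toAddSubgroup)
  have hLmem : ∀ x, x ∈ L ↔ x ∈ H ∧ x ∈ Wᗮ := fun x => Iff.rfl
  have hLdisc : DiscreteTopology L := by
    refine discreteTopology_iff_isOpen_singleton_zero.mpr ⟨Metric.ball 0 r0, Metric.isOpen_ball, ?_⟩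
    ext x
    simp only [Set.mem_preimage, Metric.mem_ball, dist_zero_right, Set.mem_singleton_iff]
    constructor
    · intro hx
      obtain ⟨h1, h2⟩ := (hLmem _).1 x.2
      have h3 := hcone _ h1 hx.le
      have h4 : ‖(x : V)‖ ≤ Metric.infDist (x : V) (W : Set V) := by
        refine (Metric.le_infDist ⟨0, W.zero_mem⟩).2 fun w hw => ?_
        have h5 : ⟪(x : V), w⟫ = 0 := by
          rw [real_inner_comm]
          exact h2 w hw
        have h6 : ‖(x : V) - w‖ ^ 2 = ‖(x : V)‖ ^ 2 + ‖w‖ ^ 2 := by
          rw [norm_sub_sq_real, h5]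
          ring
        rw [dist_eq_norm]
        exact le_of_sq_le_sq (by rw [h6]; nlinarith [sq_nonneg ‖w‖]) (norm_nonneg _)
      have h5 : ‖(x : V)‖ = 0 := le_antisymm (by linarith) (norm_nonneg _)
      exact Subtype.ext (norm_eq_zero.1 h5)
    · rintro rfl
      simpa using hr0
  set Sp := Submodule.span ℝ (L : Set V) with hSp
  have hSpW : Sp ≤ Wᗮ := by
    rw [hSp, Submodule.span_le]
    intro x hx
    exact ((hLmem x).1 hx).2
  -- decomposition
  have hdec : ∀ x ∈ H, ∃ y ∈ W, ∃ l ∈ L, x = y + l := by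
    intro x hx
    obtain ⟨y, hy, l, hl, rfl⟩ := W.exists_add_mem_mem_orthogonal x
    refine ⟨y, hy, l, (hLmem _).2 ⟨?_, hl⟩, rfl⟩
    have := H.sub_mem hx (hWH y hy)
    rwa [add_sub_cancel_left] at this
  obtain ⟨w, hw, q', hq', rfl⟩ := W.exists_add_mem_mem_orthogonal q
  have hq'L : q' ∉ L := fun h => hq (H.add_mem (hWH w hw) ((hLmem _).1 h).1)
  by_cases hqs : q' ∈ Sp
  · obtain ⟨f, f1, f2, f3⟩ := ann_discrete L hLdisc q' hqs hq'L
    have hWSp : ∀ y ∈ W, f y = 0 := by
      intro y hy
      apply f2
      intro x hx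
      have h1 := hSpW hx y hy
      rw [real_inner_comm]
      exact h1
    let F : V →L[ℝ] ℝ := LinearMap.toContinuousLinearMap f
    let s := (InnerProductSpace.toDual ℝ V).symm F
    have hs : ∀ x, ⟪x, (2 * Real.pi) • s⟫ = 2 * Real.pi * f x := by
      intro x
      rw [real_inner_smul_right, real_inner_comm, InnerProductSpace.toDual_symm_apply]
      rfl
    refine ⟨(2 * Real.pi) • s, ?_, ?_⟩
    · intro x hx
      obtain ⟨y, hy, l, hl, rfl⟩ := hdec x hx
      obtain ⟨n, hn⟩ := f1 l hl
      rw [hs, map_add, hWSp y hy, zero_add, hn]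
      unfold ch
      rw [Complex.exp_eq_one_iff]
      exact ⟨n, by push_cast; ring⟩
    · rw [hs, map_add, hWSp w hw, zero_add]
      intro h
      unfold ch at h
      rw [Complex.exp_eq_one_iff] at h
      obtain ⟨n, hn⟩ := h
      apply f3 n
      have h1 : ((2 * Real.pi * f q' : ℝ) : ℂ) = ((n * (2 * Real.pi) : ℝ) : ℂ) := by
        have h2 : (((2 * Real.pi * f q' : ℝ) : ℂ) - ((n * (2 * Real.pi) : ℝ) : ℂ)) * Complex.I = 0 := by
          rw [sub_mul, hn]
          push_cast
          ring
        rcases mul_eq_zero.1 h2 with h3 | h3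
        · exact sub_eq_zero.1 h3
        · exact absurd h3 Complex.I_ne_zero
      have h2 := Complex.ofReal_injective h1
      have h3 : (2 * Real.pi) * (f q' - n) = 0 := by linarith
      rcases mul_eq_zero.1 h3 with h4 | h4
      · exact absurd h4 (by positivity)
      · linarith
  · obtain ⟨a, ha, s, hs, hdecq⟩ := Sp.exists_add_mem_mem_orthogonal q'
    have hs0 : s ≠ 0 := by
      rintro rfl
      apply hqs
      rw [hdecq, add_zero]
      exact ha
    have hsn : 0 < ‖s‖ := norm_pos_iff.2 hs0
    have hsW : s ∈ Wᗮ := by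
      have h1 : s = q' - a := by rw [hdecq, add_sub_cancel_left]
      rw [h1]
      exact Wᗮ.sub_mem hq' (hSpW ha)
    refine ⟨(Real.pi / ‖s‖ ^ 2) • s, ?_, ?_⟩
    · intro x hx
      obtain ⟨y, hy, l, hl, rfl⟩ := hdec x hx
      have h1 : ⟪y, s⟫ = 0 := hsW y hy
      have h2 : ⟪l, s⟫ = 0 := hs l (Submodule.subset_span hl)
      rw [real_inner_smul_right, inner_add_left, h1, h2, add_zero, mul_zero]
      unfold ch
      simp
    · have h1 : ⟪w, s⟫ = 0 := hsW w hw
      have h2 : ⟪a, s⟫ = 0 := hs a ha
      rw [real_inner_smul_right, hdecq, inner_add_left, inner_add_left, h1, h2, zero_add, zero_add,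
        real_inner_self_eq_norm_sq, div_mul_cancel₀ _ (by positivity)]
      unfold ch
      rw [Complex.exp_pi_mul_I]
      norm_num

end Pool.Agent.AbCoc
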