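import Pool.Agent.Lib_MP_418a80_t3.Comp3

/-!
# MP_418a80_an, T4: cells of almost multiplicative orbits (line and circle)
-/

set_option autoImplicit false
set_option linter.unusedVariables false
set_option linter.unusedSectionVars false

open MeasureTheory Topology Filter
open scoped ENNReal NNReal ComplexConjugate

namespace Pool.Agent.AbCoc

universe u v w z

private theorem ct1_sq3 (a b c : ℝ) : (a + b + c) ^ 2 ≤ 3 * a ^ 2 + 3 * b ^ 2 + 3 * c ^ 2 := by
  nlinarith [sq_nonneg (a - b), sq_nonneg (b - c), sq_nonneg (a - c)]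

private theorem ct1_sq2 (a b : ℝ) : (a + b) ^ 2 ≤ 2 * a ^ 2 + 2 * b ^ 2 := by
  nlinarith [sq_nonneg (a - b)]

/-! ### the cyclic shift -/

theorem sum_cyc {E : Type*} [AddCommMonoid E] (N m : ℕ) (F : ℕ → E) :
    ∑ k ∈ Finset.range N, F ((k + m) % N) = ∑ k ∈ Finset.range N, F k := by
  rcases Nat.eq_zero_or_pos N with hN | hN
  · subst hN
    simp
  induction m generalizing F with
  | zero =>
    refine Finset.sum_congr rfl fun k hk => ?_
    rw [add_zero, Nat.mod_eq_of_lt (Finset.mem_range.1 hk)]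
  | succ m ih =>
    have e1 : ∀ k, F ((k + (m + 1)) % N) = (fun j => F ((j + 1) % N)) ((k + m) % N) := by
      intro k
      change F ((k + (m + 1)) % N) = F (((k + m) % N + 1) % N)
      rw [Nat.mod_add_mod, add_assoc]
    rw [Finset.sum_congr rfl fun k _ => e1 k, ih fun j => F ((j + 1) % N)]
    obtain ⟨n, rfl⟩ : ∃ n, N = n + 1 := ⟨N - 1, by omega⟩
    rw [Finset.sum_range_succ, Finset.sum_range_succ' F]
    congr 1
    · refine Finset.sum_congr rfl fun k hk => ?_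
      have := Finset.mem_range.1 hk
      rw [Nat.mod_eq_of_lt (by omega)]
    · rw [Nat.mod_self]

theorem cell_cyc {E : Type*} [AddCommGroup E] [Module ℂ E] (N M : ℕ) (hN : 0 < N) (m : ℕ)
    (v : ℕ → E) (i : ℕ) :
    cell N M (fun k => v ((k + m) % N)) i
      = ch (2 * Real.pi / N * ((i : ℝ) - M) * m) • cell N M v i := by
  have hNr : (N : ℝ) ≠ 0 := by exact_mod_cast hN.ne'
  unfold cell
  rw [smul_comm (ch _)]
  congr 1
  rw [Finset.smul_sum]
  rw [← sum_cyc N m fun k => ch (2 * Real.pi / N * ((i : ℝ) - M) * m) •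
    ch (-(2 * Real.pi / N * ((i : ℝ) - M) * k)) • v k]
  refine Finset.sum_congr rfl fun k _ => ?_
  rw [← smul_assoc (ch _) (ch _), smul_eq_mul, ← ch_add]
  congr 1
  obtain ⟨d, hd⟩ : ∃ d : ℕ, d = (k + m) / N := ⟨_, rfl⟩
  have h1 : (((k + m) % N : ℕ) : ℝ) = k + m - N * (d : ℝ) := by
    have h2 := Nat.mod_add_div (k + m) N
    rw [← hd] at h2
    have h3 : (((k + m) % N : ℕ) : ℝ) + N * (d : ℝ) = k + m := by
      exact_mod_cast h2
    linarith
  rw [h1]
  have h4 : 2 * Real.pi / N * ((i : ℝ) - M) * m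
      + -(2 * Real.pi / N * ((i : ℝ) - M) * (k + m - N * (d : ℝ)))
      = -(2 * Real.pi / N * ((i : ℝ) - M) * k)
        + ((((i : ℤ) - M) * (d : ℤ) : ℤ) : ℝ) * (2 * Real.pi) := by
    push_cast
    field_simp
    ring
  rw [h4, ch_add]
  have h5 : ch (((((i : ℤ) - M) * (d : ℤ) : ℤ) : ℝ) * (2 * Real.pi)) = 1 :=
    (ch_eq_one_iff _).2 ⟨_, rfl⟩
  rw [h5, mul_one]

/-! ### the precision -/

section
variable {A : Type u} [CStarAlgebra A] {K : Type v} [NormedAddCommGroup K]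
  [InnerProductSpace ℂ K] [CompleteSpace K] {T : TrAlg A K}

theorem TrAlg.cell_sq (T : TrAlg A K) (N M : ℕ) (Λ : A →ₗ[ℂ] A) (v : ℕ → A) :
    ∑ i ∈ Finset.range N, ‖T.ι (Λ (cell N M v i))‖ ^ 2
      = ∑ k ∈ Finset.range N, ‖T.ι (Λ (v k))‖ ^ 2 := by
  have e1 : ∀ i, T.ι (Λ (cell N M v i)) = cell N M (fun k : ℕ => T.ι (Λ (v k))) i := fun i =>
    map_cell N M (T.ι.toLinearMap ∘ₗ Λ) _ i
  simp only [e1]
  rw [cell_norm_sq]

theorem TrAlg.cell_sq_sub (T : TrAlg A K) (N M : ℕ) (Λ : A →ₗ[ℂ] A) (v v' : ℕ → A) :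
    ∑ i ∈ Finset.range N, ‖T.ι (Λ (cell N M v i) - cell N M v' i)‖ ^ 2
      = ∑ k ∈ Finset.range N, ‖T.ι (Λ (v k) - v' k)‖ ^ 2 := by
  have e1 : ∀ i, T.ι (Λ (cell N M v i) - cell N M v' i)
      = cell N M (fun k : ℕ => T.ι (Λ (v k) - v' k)) i := by
    intro i
    rw [map_cell N M Λ, cell_sub]
    exact map_cell N M T.ι.toLinearMap _ i
  simp only [e1]
  rw [cell_norm_sq]

/-- precision of the cells of a sequence, from shifts of the sequence -/
theorem TrAlg.ct_prec (T : TrAlg A K) (N M : ℕ) (hN : 0 < N) (hNM : 2 * M ≤ N)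
    (hNM' : N ≤ 2 * M + 1) (η : ℝ) (hη : 0 < η) (v v' v1 : ℕ → A) (Λ : A →ₗ[ℂ] A) (u : ℝ) (m : ℕ)
    (hu1 : m * η ≤ u) (hu2 : u ≤ (m + 1) * η) (ε1 δ δ2 : ℝ)
    (h1 : ∑ i ∈ Finset.range N, ‖T.ι (cell N M v' i
      - ch (2 * Real.pi / N * ((i : ℝ) - M) * m) • cell N M v i)‖ ^ 2 ≤ ε1)
    (h1' : ∑ i ∈ Finset.range N, ‖T.ι (cell N M v1 i
      - ch (2 * Real.pi / N * ((i : ℝ) - M)) • cell N M v i)‖ ^ 2 ≤ ε1)
    (h2 : ∑ k ∈ Finset.range N, ‖T.ι (v1 k - v k)‖ ^ 2 ≤ δ2)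
    (h3 : ∑ k ∈ Finset.range N, ‖T.ι (Λ (v k) - v' k)‖ ^ 2 ≤ δ) :
    ∑ i ∈ Finset.range N, ‖T.ι (Λ (cell N M v i)
        - ch (2 * Real.pi / (N * η) * ((i : ℝ) - M) * u) • cell N M v i)‖ ^ 2
      ≤ 3 * δ + 3 * ε1 + 3 * (2 * ε1 + 2 * δ2) := by
  have hNr : (0 : ℝ) < N := by exact_mod_cast hN
  set p : ℕ → ℝ := fun i => 2 * Real.pi / (N * η) * ((i : ℝ) - M) with hp
  have hpη : ∀ i, p i * η = 2 * Real.pi / N * ((i : ℝ) - M) := by
    intro i
    rw [hp]
    simp only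
    field_simp
  have hphase : ∀ i ∈ Finset.range N, |p i * η| ≤ Real.pi := by
    intro i hi
    rw [Finset.mem_range] at hi
    have e1 : p i * η = 2 * Real.pi * ((i : ℝ) - M) / N := by
      rw [hpη]
      ring
    rw [e1, abs_div, Nat.abs_cast, div_le_iff₀ hNr, abs_mul, abs_of_pos (by positivity)]
    have h4 : |(i : ℝ) - M| ≤ M := by
      have a1 : (i : ℝ) ≤ 2 * M := by
        have : i ≤ 2 * M := by omega
        exact_mod_cast this
      have a2 : (0 : ℝ) ≤ i := Nat.cast_nonneg _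
      rw [abs_le]
      constructor <;> linarith
    have h5 : (2 : ℝ) * M ≤ N := by exact_mod_cast hNM
    have h6 : 2 * Real.pi * |(i : ℝ) - M| ≤ 2 * Real.pi * M :=
      mul_le_mul_of_nonneg_left h4 (by positivity)
    nlinarith [Real.pi_pos]
  have hcs : ∑ i ∈ Finset.range N, ‖T.ι ((ch (p i * η) - 1) • cell N M v i)‖ ^ 2
      ≤ 2 * ε1 + 2 * δ2 := by
    have h4 : ∀ i, ‖T.ι ((ch (p i * η) - 1) • cell N M v i)‖ ^ 2
        ≤ 2 * ‖T.ι (cell N M v1 i - ch (2 * Real.pi / N * ((i : ℝ) - M)) • cell N M v i)‖ ^ 2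
          + 2 * ‖T.ι (cell N M v1 i - cell N M v i)‖ ^ 2 := by
      intro i
      have e1 : (ch (p i * η) - 1) • cell N M v i
          = -(cell N M v1 i - ch (2 * Real.pi / N * ((i : ℝ) - M)) • cell N M v i)
            + (cell N M v1 i - cell N M v i) := by
        rw [sub_smul, one_smul, hpη]
        abel
      have e2 : ‖T.ι ((ch (p i * η) - 1) • cell N M v i)‖
          ≤ ‖T.ι (cell N M v1 i - ch (2 * Real.pi / N * ((i : ℝ) - M)) • cell N M v i)‖
            + ‖T.ι (cell N M v1 i - cell N M v i)‖ := by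
        conv_lhs => rw [e1, map_add, map_neg]
        refine (norm_add_le _ _).trans ?_
        rw [norm_neg]
      exact (pow_le_pow_left₀ (norm_nonneg _) e2 2).trans (ct1_sq2 _ _)
    have h5 := T.cell_sq_sub N M LinearMap.id v1 v
    simp only [LinearMap.id_apply] at h5
    refine (Finset.sum_le_sum fun i _ => h4 i).trans ?_
    rw [Finset.sum_add_distrib, ← Finset.mul_sum, ← Finset.mul_sum, h5]
    linarith
  obtain ⟨r, hr⟩ : ∃ r : ℝ, r = u - m * η := ⟨_, rfl⟩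
  have hr0 : 0 ≤ r := by rw [hr]; linarith
  have hr1 : r ≤ η := by rw [hr]; linarith
  have hur : u = m * η + r := by rw [hr]; ring
  have hc : ∑ i ∈ Finset.range N, ‖T.ι ((ch (p i * (m * η)) - ch (p i * u)) • cell N M v i)‖ ^ 2
      ≤ 2 * ε1 + 2 * δ2 := by
    refine le_trans (Finset.sum_le_sum fun i hi => ?_) hcs
    rw [map_smul, map_smul, norm_smul, norm_smul]
    refine pow_le_pow_left₀ (by positivity) (mul_le_mul_of_nonneg_right ?_ (norm_nonneg _)) 2
    have e1 : ch (p i * (m * η)) - ch (p i * u) = -(ch (p i * (m * η)) * (ch (p i * r) - 1)) := by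
      rw [hur, mul_add, ch_add]
      ring
    rw [e1, norm_neg, norm_mul, norm_ch, one_mul]
    have e2 : p i * r = (r / η) * (p i * η) := by field_simp
    rw [e2]
    exact norm_ch_sub_one_mono (hphase i hi) (div_nonneg hr0 hη.le) ((div_le_one hη).2 hr1)
  have hm : ∀ i : ℕ, ch (2 * Real.pi / N * ((i : ℝ) - M) * m) = ch (p i * (m * η)) := by
    intro i
    congr 1
    rw [← hpη]
    ring
  have hterm : ∀ i, ‖T.ι (Λ (cell N M v i) - ch (p i * u) • cell N M v i)‖ ^ 2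
      ≤ 3 * ‖T.ι (Λ (cell N M v i) - cell N M v' i)‖ ^ 2
        + 3 * ‖T.ι (cell N M v' i - ch (2 * Real.pi / N * ((i : ℝ) - M) * m) • cell N M v i)‖ ^ 2
        + 3 * ‖T.ι ((ch (p i * (m * η)) - ch (p i * u)) • cell N M v i)‖ ^ 2 := by
    intro i
    have e1 : Λ (cell N M v i) - ch (p i * u) • cell N M v i
        = (Λ (cell N M v i) - cell N M v' i)
          + (cell N M v' i - ch (2 * Real.pi / N * ((i : ℝ) - M) * m) • cell N M v i)
          + (ch (p i * (m * η)) - ch (p i * u)) • cell N M v i := by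
      rw [hm, sub_smul]
      abel
    have e2 : ‖T.ι (Λ (cell N M v i) - ch (p i * u) • cell N M v i)‖
        ≤ ‖T.ι (Λ (cell N M v i) - cell N M v' i)‖
          + ‖T.ι (cell N M v' i - ch (2 * Real.pi / N * ((i : ℝ) - M) * m) • cell N M v i)‖
          + ‖T.ι ((ch (p i * (m * η)) - ch (p i * u)) • cell N M v i)‖ := by
      conv_lhs => rw [e1, map_add, map_add]
      exact norm_add₃_le
    exact (pow_le_pow_left₀ (norm_nonneg _) e2 2).trans (ct1_sq3 _ _ _)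
  refine (Finset.sum_le_sum fun i _ => hterm i).trans ?_
  rw [Finset.sum_add_distrib, Finset.sum_add_distrib, ← Finset.mul_sum, ← Finset.mul_sum,
    ← Finset.mul_sum, T.cell_sq_sub]
  linarith

end

variable {A : Type u} [CStarAlgebra A] {K : Type v} [NormedAddCommGroup K]
  [InnerProductSpace ℂ K] [CompleteSpace K]
variable {G : Type w} [Group G] [TopologicalSpace G] {T : TrAlg A K} (S : TrAct G T)

/-- `e` has finitely many cells, of frequencies in `Z`, precise (up to `ε`) for the times in `U`,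
with Plancherel bounds over the times `0 ≤ t ≤ W` -/
def TrAct.HasCells (s : ℝ → G) (Z : AddSubgroup ℝ) (U : Set ℝ) (W ε : ℝ) (e : A) : Prop :=
  ∃ (N M : ℕ) (θ : ℝ) (E : ℕ → A), 0 < N ∧ θ ∈ Z ∧
    (∀ Λ : A →ₗ[ℂ] A, ∀ κ : ℝ, (∀ t : ℝ, 0 ≤ t → t ≤ W → ‖T.ι (Λ (S.α (s t) e))‖ ^ 2 ≤ κ) →
      ∑ i ∈ Finset.range N, ‖T.ι (Λ (E i))‖ ^ 2 ≤ κ) ∧
    ∑ i ∈ Finset.range N, ‖T.ι (E i)‖ ^ 2 = ‖T.ι e‖ ^ 2 ∧
    ∀ u ∈ U, ∑ i ∈ Finset.range N,
      ‖T.ι (S.α (s u) (E i) - ch (θ * ((i : ℝ) - M) * u) • E i)‖ ^ 2 ≤ ε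

/-- the integers in `ℝ` -/
def zR : AddSubgroup ℝ := (Int.castAddHom ℝ).range

theorem mem_zR (x : ℝ) : x ∈ zR ↔ ∃ n : ℤ, (n : ℝ) = x := by
  unfold zR
  rw [AddMonoidHom.mem_range]
  rfl

/-- **Cells on the circle.** -/
theorem TrAct.cells_circle (s : ℝ → G) (hs : Continuous s) (ε : ℝ) (hε : 0 < ε) :
    ∃ κ0 : ℝ, 0 < κ0 ∧ ∀ e : A, ‖e‖ ≤ 1 →
      (∀ t u : ℝ, 0 ≤ t → t ≤ 2 * Real.pi → 0 ≤ u → u ≤ 2 * Real.pi →
        ‖T.ι (S.α (s u) (S.α (s t) e) - S.α (s (u + t)) e)‖ ≤ κ0) →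
      (∀ t : ℝ, 0 ≤ t → t ≤ 2 * Real.pi →
        ‖T.ι (S.α (s (t + 2 * Real.pi)) e - S.α (s t) e)‖ ≤ κ0) →
      S.HasCells s zR (Set.Icc 0 (2 * Real.pi)) (2 * Real.pi) ε e := by
  obtain ⟨κ, hκ, hκε⟩ : ∃ κ : ℝ, 0 < κ ∧ 51 * κ ^ 2 ≤ ε := by
    refine ⟨min 1 (ε / 51), by positivity, ?_⟩
    have a1 : min 1 (ε / 51) ≤ 1 := min_le_left _ _
    have a2 : min 1 (ε / 51) ≤ ε / 51 := min_le_right _ _
    have a0 : 0 < min 1 (ε / 51) := by positivity
    set c := min 1 (ε / 51)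
    nlinarith
  have hpi := Real.pi_pos
  refine ⟨κ, hκ, fun e he hmul hper => ?_⟩
  -- uniform continuity of the orbit on `[0, 6π]`
  obtain ⟨η0, hη0, hη0c⟩ : ∃ η0 : ℝ, 0 < η0 ∧ ∀ t t' : ℝ, 0 ≤ t → t ≤ 6 * Real.pi → 0 ≤ t' →
      t' ≤ 6 * Real.pi → |t - t'| ≤ η0 → ‖T.ι (S.α (s t) e - S.α (s t') e)‖ ≤ κ := by
    have hc : Continuous fun t : ℝ => T.ι (S.α (s t) e) := (S.cont e).comp hs
    have hu := (isCompact_Icc (a := (0 : ℝ)) (b := 6 * Real.pi)).uniformContinuousOn_of_continuous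
      hc.continuousOn
    obtain ⟨δ, hδ, h⟩ := Metric.uniformContinuousOn_iff.1 hu κ hκ
    refine ⟨δ / 2, by positivity, fun t t' h1 h2 h3 h4 h5 => ?_⟩
    have := h t ⟨h1, h2⟩ t' ⟨h3, h4⟩ (by rw [Real.dist_eq]; linarith)
    rw [dist_eq_norm, ← map_sub] at this
    exact this.le
  obtain ⟨M, hM⟩ := exists_nat_gt (2 * Real.pi / η0)
  obtain ⟨N, hN⟩ : ∃ N : ℕ, N = 2 * M + 1 := ⟨_, rfl⟩
  have hN0 : 0 < N := by omega
  have hNr : (0 : ℝ) < N := by exact_mod_cast hN0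
  obtain ⟨η, hη⟩ : ∃ η : ℝ, η = 2 * Real.pi / N := ⟨_, rfl⟩
  have hηp : 0 < η := by rw [hη]; positivity
  have hNη : (N : ℝ) * η = 2 * Real.pi := by rw [hη]; field_simp
  have hηη0 : η ≤ η0 := by
    rw [hη, div_le_iff₀ hNr]
    rw [div_lt_iff₀ hη0] at hM
    have h1 : (M : ℝ) ≤ N := by
      have : M ≤ N := by omega
      exact_mod_cast this
    nlinarith
  have hη1 : η ≤ 2 * Real.pi := by
    have : (1 : ℝ) ≤ N := by exact_mod_cast hN0
    nlinarith
  obtain ⟨g, hg⟩ : ∃ g : ℕ → A, ∀ k, g k = S.α (s (k * η)) e := ⟨_, fun _ => rfl⟩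
  have hkN : ∀ k : ℕ, k < N → (k : ℝ) * η ≤ 2 * Real.pi := by
    intro k hk
    rw [← hNη]
    exact mul_le_mul_of_nonneg_right (by exact_mod_cast hk.le) hηp.le
  -- wrap around
  have hwrap : ∀ j : ℕ, j < 2 * N → ‖T.ι (S.α (s (j * η)) e - g (j % N))‖ ≤ κ := by
    intro j hj
    rcases Nat.lt_or_ge j N with h | h
    · rw [Nat.mod_eq_of_lt h, hg, sub_self, map_zero, norm_zero]
      exact hκ.le
    · have h1 : j % N = j - N := by
        rw [Nat.mod_eq_sub_mod h, Nat.mod_eq_of_lt (by omega)]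
      rw [h1, hg]
      have h2 : ((j - N : ℕ) : ℝ) = j - N := by
        rw [Nat.cast_sub h]
      have h3 : (j : ℝ) * η = ((j - N : ℕ) : ℝ) * η + 2 * Real.pi := by
        rw [h2, sub_mul, hNη]
        ring
      rw [h3]
      refine hper _ (by positivity) ?_
      exact hkN (j - N) (by omega)
  set c0 : ℝ := (Real.sqrt N)⁻¹ with hc0
  have hc0sq : c0 ^ 2 = (N : ℝ)⁻¹ := by rw [hc0, inv_pow, Real.sq_sqrt hNr.le]
  have hscale : ∀ (x : ℕ → A) (B : ℝ), (∀ k, k < N → ‖T.ι (x k)‖ ^ 2 ≤ B) →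
      ∑ k ∈ Finset.range N, ‖T.ι ((c0 : ℂ) • x k)‖ ^ 2 ≤ B := by
    intro x B hx
    have h1 : ∀ k ∈ Finset.range N, ‖T.ι ((c0 : ℂ) • x k)‖ ^ 2 ≤ (N : ℝ)⁻¹ * B := by
      intro k hk
      rw [map_smul, norm_smul, Complex.norm_real, Real.norm_eq_abs, mul_pow, sq_abs, hc0sq]
      exact mul_le_mul_of_nonneg_left (hx k (Finset.mem_range.1 hk)) (by positivity)
    refine (Finset.sum_le_sum h1).trans ?_
    rw [Finset.sum_const, Finset.card_range, nsmul_eq_mul, ← mul_assoc, mul_inv_cancel₀ hNr.ne',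
      one_mul]
  refine ⟨N, M, 1, cell N M (fun k => (c0 : ℂ) • g k), hN0, (mem_zR 1).2 ⟨1, by simp⟩, ?_, ?_, ?_⟩
  · intro Λ κ' hΛ
    rw [T.cell_sq]
    simp only [map_smul Λ]
    refine hscale (fun k => Λ (g k)) κ' fun k hk => ?_
    rw [hg]
    exact hΛ _ (by positivity) (hkN k hk)
  · have h1 := T.cell_sq N M LinearMap.id fun k => (c0 : ℂ) • g k
    simp only [LinearMap.id_apply] at h1
    rw [h1]
    have h2 : ∀ k, ‖T.ι ((c0 : ℂ) • g k)‖ ^ 2 = (N : ℝ)⁻¹ * ‖T.ι e‖ ^ 2 := by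
      intro k
      rw [map_smul, norm_smul, Complex.norm_real, Real.norm_eq_abs, mul_pow, sq_abs, hc0sq, hg,
        S.norm_map]
    rw [Finset.sum_congr rfl fun k _ => h2 k, Finset.sum_const, Finset.card_range, nsmul_eq_mul,
      ← mul_assoc, mul_inv_cancel₀ hNr.ne', one_mul]
  · intro u hu
    obtain ⟨m, hm1, hm2, hmN⟩ : ∃ m : ℕ, (m : ℝ) * η ≤ u ∧ u ≤ (m + 1) * η ∧ m ≤ N := by
      refine ⟨⌊u / η⌋₊, ?_, ?_, ?_⟩
      · have := Nat.floor_le (div_nonneg hu.1 hηp.le)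
        rwa [le_div_iff₀ hηp] at this
      · have := Nat.lt_floor_add_one (u / η)
        rw [div_lt_iff₀ hηp] at this
        exact this.le
      · refine Nat.floor_le_of_le ?_
        rw [div_le_iff₀ hηp, hNη]
        exact hu.2
    have hid : (2 * Real.pi / (N * η) : ℝ) = 1 := by
      rw [hNη, div_self (by positivity)]
    have key := T.ct_prec N M hN0 (by omega) (by omega) η hηp (fun k => (c0 : ℂ) • g k)
      (fun k => (c0 : ℂ) • g ((k + m) % N)) (fun k => (c0 : ℂ) • g ((k + 1) % N))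
      (S.α (s u)).toAlgHom.toLinearMap u m hm1 hm2 0 ((3 * κ) ^ 2) ((2 * κ) ^ 2) ?_ ?_ ?_ ?_
    · refine le_trans (le_of_eq ?_) (key.trans ?_)
      · rw [hid]
        rfl
      · nlinarith
    · refine le_of_eq (Finset.sum_eq_zero fun i _ => ?_)
      have h1 := cell_cyc N M hN0 m (fun k => (c0 : ℂ) • g k) i
      rw [h1, sub_self, map_zero, norm_zero]
      norm_num
    · refine le_of_eq (Finset.sum_eq_zero fun i _ => ?_)
      have h1 := cell_cyc N M hN0 1 (fun k => (c0 : ℂ) • g k) i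
      simp only [Nat.cast_one, mul_one] at h1
      rw [h1, sub_self, map_zero, norm_zero]
      norm_num
    · have h1 : ∀ k, (c0 : ℂ) • g ((k + 1) % N) - (c0 : ℂ) • g k
          = (c0 : ℂ) • (g ((k + 1) % N) - g k) := fun k => by rw [smul_sub]
      simp only [h1]
      refine hscale (fun k => g ((k + 1) % N) - g k) _ fun k hk => ?_
      refine pow_le_pow_left₀ (norm_nonneg _) ?_ 2
      have h2 := hwrap (k + 1) (by omega)
      have h3 := hη0c (((k + 1 : ℕ) : ℝ) * η) (k * η) (by positivity) (by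
        have := hkN k hk
        push_cast
        nlinarith) (by positivity) (by
        have := hkN k hk
        nlinarith) (by
        push_cast
        have : ((k : ℝ) + 1) * η - k * η = η := by ring
        rw [this, abs_of_pos hηp]
        exact hηη0)
      have h4 : g ((k + 1) % N) - g k = -(S.α (s (((k + 1 : ℕ) : ℝ) * η)) e - g ((k + 1) % N))
          + (S.α (s (((k + 1 : ℕ) : ℝ) * η)) e - S.α (s (k * η)) e) := by
        rw [hg k]
        abel
      rw [h4, map_add, map_neg]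
      refine (norm_add_le _ _).trans ?_
      rw [norm_neg]
      linarith
    · have h1 : ∀ k, (S.α (s u)).toAlgHom.toLinearMap ((c0 : ℂ) • g k)
          - (c0 : ℂ) • g ((k + m) % N) = (c0 : ℂ) • (S.α (s u) (g k) - g ((k + m) % N)) := by
        intro k
        rw [map_smul, smul_sub]
        rfl
      simp only [h1]
      refine hscale (fun k => S.α (s u) (g k) - g ((k + m) % N)) _ fun k hk => ?_
      refine pow_le_pow_left₀ (norm_nonneg _) ?_ 2
      have a1 := hmul (k * η) u (by positivity) (hkN k hk) hu.1 hu.2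
      have a2 := hη0c (u + k * η) (((k + m : ℕ) : ℝ) * η) (by have := hu.1; positivity) (by
        have := hkN k hk
        have := hu.2
        nlinarith) (by positivity) (by
        have := hkN k hk
        have h5 : (m : ℝ) * η ≤ 2 * Real.pi := hm1.trans hu.2
        push_cast
        nlinarith) (by
        push_cast
        have : u + k * η - (k + m) * η = u - m * η := by ring
        rw [this, abs_of_nonneg (by linarith)]
        have : u - m * η ≤ η := by linarith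
        exact this.trans hηη0)
      have a3 := hwrap (k + m) (by omega)
      have h4 : S.α (s u) (g k) - g ((k + m) % N)
          = (S.α (s u) (S.α (s (k * η)) e) - S.α (s (u + k * η)) e)
            + (S.α (s (u + k * η)) e - S.α (s (((k + m : ℕ) : ℝ) * η)) e)
            + (S.α (s (((k + m : ℕ) : ℝ) * η)) e - g ((k + m) % N)) := by
        rw [hg k]
        abel
      rw [h4, map_add, map_add]
      refine norm_add₃_le.trans ?_
      linarith

end Pool.Agent.AbCoc
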