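import Pool.Agent.Lib_MP_418a80_t4.CT1

/-!
# MP_418a80_an, T4: cells of almost multiplicative orbits, the line
-/

set_option autoImplicit false
set_option linter.unusedVariables false
set_option linter.unusedSectionVars false

open MeasureTheory Topology Filter
open scoped ENNReal NNReal ComplexConjugate

namespace Pool.Agent.AbCoc

universe u v w z

private theorem ct2_sq2 (a b : ℝ) : (a + b) ^ 2 ≤ 2 * a ^ 2 + 2 * b ^ 2 := by
  nlinarith [sq_nonneg (a - b)]

variable {A : Type u} [CStarAlgebra A] {K : Type v} [NormedAddCommGroup K]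
  [InnerProductSpace ℂ K] [CompleteSpace K]
variable {G : Type w} [Group G] [TopologicalSpace G] {T : TrAlg A K} (S : TrAct G T)

/-- **Cells on the line.** -/
theorem TrAct.cells_line (s : ℝ → G) (hs : Continuous s) (u0 ε : ℝ) (hu0 : 0 ≤ u0) (hε : 0 < ε) :
    ∃ W κ0 : ℝ, 0 < κ0 ∧ ∀ e : A, ‖e‖ ≤ 1 →
      (∀ t u : ℝ, 0 ≤ t → t ≤ W → |u| ≤ u0 →
        ‖T.ι (S.α (s u) (S.α (s t) e) - S.α (s (u + t)) e)‖ ≤ κ0) →
      S.HasCells s ⊤ {u | |u| ≤ u0} W ε e := by
  obtain ⟨T0, hT0⟩ := exists_nat_ge (max (720 / ε) 1)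
  have hT1r : (1 : ℝ) ≤ T0 := (le_max_right _ _).trans hT0
  have hT1 : 1 ≤ T0 := by exact_mod_cast hT1r
  have hTε : 360 / (T0 : ℝ) ^ 2 ≤ ε / 2 := by
    have h1 : 720 / ε ≤ T0 := (le_max_left _ _).trans hT0
    rw [div_le_iff₀ hε] at h1
    rw [div_le_iff₀ (by positivity)]
    nlinarith
  obtain ⟨κ, hκ, hκε⟩ : ∃ κ : ℝ, 0 < κ ∧ 44 * κ ^ 2 ≤ ε / 2 := by
    refine ⟨min 1 (ε / 88), by positivity, ?_⟩
    have a1 : min 1 (ε / 88) ≤ 1 := min_le_left _ _
    have a2 : min 1 (ε / 88) ≤ ε / 88 := min_le_right _ _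
    have a0 : 0 < min 1 (ε / 88) := by positivity
    set c := min 1 (ε / 88)
    nlinarith
  obtain ⟨W0, hW0⟩ : ∃ W0 : ℝ, W0 = 2 * (T0 + 1) * (u0 + 2) := ⟨_, rfl⟩
  have hW00 : 0 ≤ W0 := by rw [hW0]; positivity
  refine ⟨W0 + u0, κ, hκ, fun e he hmul => ?_⟩
  -- the mesh
  obtain ⟨η, hη0, hη1, hη2⟩ : ∃ η : ℝ, 0 < η ∧ η ≤ 1 ∧ ∀ t t' : ℝ, 0 ≤ t → t ≤ W0 + u0 + 1 → 0 ≤ t' →
      t' ≤ W0 + u0 + 1 → |t - t'| ≤ η → ‖T.ι (S.α (s t) e - S.α (s t') e)‖ ≤ κ := by
    have hc : Continuous fun t : ℝ => T.ι (S.α (s t) e) := (S.cont e).comp hs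
    have hu := (isCompact_Icc (a := (0 : ℝ)) (b := W0 + u0 + 1)).uniformContinuousOn_of_continuous
      hc.continuousOn
    obtain ⟨δ, hδ, h⟩ := Metric.uniformContinuousOn_iff.1 hu κ hκ
    refine ⟨min (δ / 2) 1, by positivity, min_le_right _ _, fun t t' h1 h2 h3 h4 h5 => ?_⟩
    have h6 := h5.trans (min_le_left _ _)
    have := h t ⟨h1, h2⟩ t' ⟨h3, h4⟩ (by rw [Real.dist_eq]; linarith)
    rw [dist_eq_norm, ← map_sub] at this
    exact this.le
  obtain ⟨m0, hm0⟩ : ∃ m0 : ℕ, m0 = ⌈u0 / η⌉₊ + 1 := ⟨_, rfl⟩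
  have hm1 : 1 ≤ m0 := by omega
  have hm2 : u0 ≤ m0 * η := by
    have h1 := Nat.le_ceil (u0 / η)
    rw [div_le_iff₀ hη0] at h1
    rw [hm0]
    push_cast
    nlinarith
  have hm3 : (m0 : ℝ) * η ≤ u0 + 2 := by
    have h1 := Nat.ceil_lt_add_one (div_nonneg hu0 hη0.le)
    have h2 : (m0 : ℝ) ≤ u0 / η + 2 := by
      rw [hm0]
      push_cast
      linarith
    have h3 : (m0 : ℝ) * η ≤ (u0 / η + 2) * η := mul_le_mul_of_nonneg_right h2 hη0.le
    have h4 : (u0 / η + 2) * η = u0 + 2 * η := by field_simp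
    linarith
  obtain ⟨f, hf0, hf1, hf2, hf3⟩ := exists_profile T0 m0 hT1 hm1
  obtain ⟨M, hM⟩ : ∃ M : ℕ, M = T0 * m0 + m0 := ⟨_, rfl⟩
  obtain ⟨N, hN⟩ : ∃ N : ℕ, N = 2 * M + 1 := ⟨_, rfl⟩
  have hNM : 2 * (T0 * m0 + m0) + 1 = N := by rw [hN, hM]
  rw [hNM] at hf2 hf3
  have hNc : (N : ℤ) = 2 * (T0 * m0 + m0) + 1 := by rw [hN, hM]; push_cast; ring
  have hN0 : 0 < N := by omega
  have hNr : (0 : ℝ) < N := by exact_mod_cast hN0
  obtain ⟨g, hg⟩ : ∃ g : ℕ → A, ∀ k, g k = S.α (s (k * η)) e := ⟨_, fun _ => rfl⟩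
  have hgn : ∀ k, ‖T.ι (g k)‖ ≤ 1 := by
    intro k
    rw [hg, S.norm_map]
    exact (T.norm_le e).trans he
  have hkN : ∀ k : ℕ, k < N → (k : ℝ) * η ≤ W0 := by
    intro k hk
    have h1 : k ≤ 2 * (T0 * m0 + m0) := by omega
    have h2 : (k : ℝ) ≤ 2 * (T0 * m0 + m0) := by exact_mod_cast h1
    calc (k : ℝ) * η ≤ 2 * (T0 * m0 + m0) * η := mul_le_mul_of_nonneg_right h2 hη0.le
      _ = 2 * (T0 + 1) * (m0 * η) := by ring
      _ ≤ 2 * (T0 + 1) * (u0 + 2) := mul_le_mul_of_nonneg_left hm3 (by positivity)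
      _ = W0 := hW0.symm
  -- sums with the weights `f`
  have hscale : ∀ (x : ℕ → A) (B : ℝ), (∀ k : ℕ, k < N → f k ≠ 0 → ‖T.ι (x k)‖ ^ 2 ≤ B) →
      ∑ k ∈ Finset.range N, ‖T.ι (((f k : ℝ) : ℂ) • x k)‖ ^ 2 ≤ B := by
    intro x B hx
    have h1 : ∀ k ∈ Finset.range N, ‖T.ι (((f k : ℝ) : ℂ) • x k)‖ ^ 2 ≤ f k ^ 2 * B := by
      intro k hk
      rw [map_smul, norm_smul, Complex.norm_real, Real.norm_eq_abs, mul_pow, sq_abs]
      by_cases hfk : f k = 0
      · rw [hfk]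
        norm_num
      · exact mul_le_mul_of_nonneg_left (hx k (Finset.mem_range.1 hk) hfk) (sq_nonneg _)
    refine (Finset.sum_le_sum h1).trans ?_
    rw [← Finset.sum_mul, hf2, one_mul]
  have hsupp : ∀ k : ℕ, f k ≠ 0 → ∀ m : ℕ, m ≤ m0 → k + m < N := by
    intro k hk m hm
    by_contra h
    refine hk (hf1 k ?_)
    have h1 : (N : ℤ) ≤ k + m := by exact_mod_cast not_lt.1 h
    have h2 : (m : ℤ) ≤ m0 := by exact_mod_cast hm
    rw [hNc] at h1
    linarith
  have hPl : ∀ c : ℕ → ℝ, ∑ i ∈ Finset.range N,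
      ‖T.ι (cell N M (fun k : ℕ => ((c k : ℝ) : ℂ) • g k) i)‖ ^ 2
        ≤ ∑ k ∈ Finset.range N, c k ^ 2 := by
    intro c
    have h1 := T.cell_sq N M LinearMap.id fun k => ((c k : ℝ) : ℂ) • g k
    simp only [LinearMap.id_apply] at h1
    rw [h1]
    refine Finset.sum_le_sum fun k _ => ?_
    rw [map_smul, norm_smul, Complex.norm_real, Real.norm_eq_abs, mul_pow, sq_abs]
    have h1 := pow_le_pow_left₀ (norm_nonneg _) (hgn k) 2
    rw [one_pow] at h1
    nlinarith [sq_nonneg (c k)]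
  have hshift : ∀ m : ℕ, m ≤ m0 → ∑ i ∈ Finset.range N,
      ‖T.ι (cell N M (fun k : ℕ => ((f k : ℝ) : ℂ) • g (k + m)) i
        - ch (2 * Real.pi / N * ((i : ℝ) - M) * m) •
          cell N M (fun k : ℕ => ((f k : ℝ) : ℂ) • g k) i)‖ ^ 2 ≤ 20 / (T0 : ℝ) ^ 2 := by
    intro m hm
    have e1 : ∀ i : ℕ, cell N M (fun k : ℕ => ((f k : ℝ) : ℂ) • g (k + m)) i
        - ch (2 * Real.pi / N * ((i : ℝ) - M) * m) •
          cell N M (fun k : ℕ => ((f k : ℝ) : ℂ) • g k) i
        = ch (2 * Real.pi / N * ((i : ℝ) - M) * m) •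
          cell N M (fun k : ℕ => ((f ((k : ℤ) - m) - f k : ℝ) : ℂ) • g k) i := by
      intro i
      have e3 := cell_shift N M f m (fun k hk => hf0 k (by omega)) (fun k hk => hf1 k (by
        have h6 : (m : ℤ) ≤ m0 := by exact_mod_cast hm
        rw [hNc] at hk
        linarith)) g i
      rw [e3, ← smul_sub, cell_sub]
      congr 2
      funext k
      rw [← sub_smul]
      congr 1
      push_cast
      ring
    simp only [e1, map_smul, norm_smul, norm_ch, one_mul]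
    exact (hPl _).trans (hf3 m hm)
  obtain ⟨E, hE⟩ : ∃ E : ℕ → A, E = cell N M (fun k : ℕ => ((f k : ℝ) : ℂ) • g k) := ⟨_, rfl⟩
  have hEsq : ∀ Λ : A →ₗ[ℂ] A, ∑ i ∈ Finset.range N, ‖T.ι (Λ (E i))‖ ^ 2
      = ∑ k ∈ Finset.range N, ‖T.ι (((f k : ℝ) : ℂ) • Λ (g k))‖ ^ 2 := by
    intro Λ
    rw [hE, T.cell_sq]
    simp only [map_smul Λ]
  -- nonnegative times
  have hpos : ∀ u : ℝ, 0 ≤ u → u ≤ u0 → ∑ i ∈ Finset.range N,
      ‖T.ι (S.α (s u) (E i) - ch (2 * Real.pi / (N * η) * ((i : ℝ) - M) * u) • E i)‖ ^ 2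
        ≤ 18 * κ ^ 2 + 180 / (T0 : ℝ) ^ 2 := by
    intro u hu huu
    obtain ⟨m, hm1', hm2', hmN⟩ : ∃ m : ℕ, (m : ℝ) * η ≤ u ∧ u ≤ (m + 1) * η ∧ m ≤ m0 := by
      refine ⟨⌊u / η⌋₊, ?_, ?_, ?_⟩
      · have := Nat.floor_le (div_nonneg hu hη0.le)
        rwa [le_div_iff₀ hη0] at this
      · have := Nat.lt_floor_add_one (u / η)
        rw [div_lt_iff₀ hη0] at this
        exact this.le
      · refine Nat.floor_le_of_le ?_
        rw [div_le_iff₀ hη0]
        exact huu.trans hm2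
    have key := T.ct_prec N M hN0 (by omega) (by omega) η hη0 (fun k : ℕ => ((f k : ℝ) : ℂ) • g k)
      (fun k : ℕ => ((f k : ℝ) : ℂ) • g (k + m)) (fun k : ℕ => ((f k : ℝ) : ℂ) • g (k + 1))
      (S.α (s u)).toAlgHom.toLinearMap u m hm1' hm2' (20 / (T0 : ℝ) ^ 2) ((2 * κ) ^ 2) (κ ^ 2)
      (hshift m hmN) ?_ ?_ ?_
    · rw [hE]
      refine le_trans (le_of_eq ?_) (key.trans ?_)
      · rfl
      · have h5 : (180 : ℝ) / (T0 : ℝ) ^ 2
            = 3 * (20 / (T0 : ℝ) ^ 2) + 3 * (2 * (20 / (T0 : ℝ) ^ 2)) := by ring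
        rw [h5]
        nlinarith
    · have := hshift 1 hm1
      simpa only [Nat.cast_one, mul_one] using this
    · have h1 : ∀ k : ℕ, ((f k : ℝ) : ℂ) • g (k + 1) - ((f k : ℝ) : ℂ) • g k
          = ((f k : ℝ) : ℂ) • (g (k + 1) - g k) := fun k => by rw [smul_sub]
      simp only [h1]
      refine hscale (fun k => g (k + 1) - g k) _ fun k hk hfk => ?_
      refine pow_le_pow_left₀ (norm_nonneg _) ?_ 2
      rw [hg, hg]
      refine hη2 _ _ (by positivity) ?_ (by positivity) ?_ ?_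
      · have := hkN (k + 1) (hsupp k hfk 1 hm1)
        linarith
      · have := hkN k hk
        linarith
      · push_cast
        have : ((k : ℝ) + 1) * η - k * η = η := by ring
        rw [this, abs_of_pos hη0]
    · have h1 : ∀ k : ℕ, (S.α (s u)).toAlgHom.toLinearMap (((f k : ℝ) : ℂ) • g k)
          - ((f k : ℝ) : ℂ) • g (k + m) = ((f k : ℝ) : ℂ) • (S.α (s u) (g k) - g (k + m)) := by
        intro k
        rw [map_smul, smul_sub]
        rfl
      simp only [h1]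
      refine hscale (fun k => S.α (s u) (g k) - g (k + m)) _ fun k hk hfk => ?_
      refine pow_le_pow_left₀ (norm_nonneg _) ?_ 2
      have a0 := hkN k hk
      have a1 := hmul (k * η) u (by positivity) (by linarith) (by rwa [abs_of_nonneg hu])
      have a2 := hη2 (u + k * η) (((k + m : ℕ) : ℝ) * η) (by positivity) (by linarith)
        (by positivity) (by
        have := hkN (k + m) (hsupp k hfk m hmN)
        linarith) (by
        push_cast
        have : u + k * η - (k + m) * η = u - m * η := by ring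
        rw [this, abs_of_nonneg (by linarith)]
        linarith)
      have h4 : S.α (s u) (g k) - g (k + m)
          = (S.α (s u) (S.α (s (k * η)) e) - S.α (s (u + k * η)) e)
            + (S.α (s (u + k * η)) e - S.α (s (((k + m : ℕ) : ℝ) * η)) e) := by
        rw [hg k, hg (k + m)]
        abel
      rw [h4, map_add]
      refine (norm_add_le _ _).trans ?_
      linarith
  refine ⟨N, M, 2 * Real.pi / (N * η), E, hN0, AddSubgroup.mem_top _, ?_, ?_, ?_⟩
  · intro Λ κ' hΛ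
    rw [hEsq]
    refine hscale (fun k => Λ (g k)) κ' fun k hk _ => ?_
    rw [hg]
    have := hkN k hk
    exact hΛ _ (by positivity) (by linarith)
  · have h1 := hEsq LinearMap.id
    simp only [LinearMap.id_apply] at h1
    rw [h1]
    simp only [map_smul, norm_smul, Complex.norm_real, Real.norm_eq_abs, mul_pow, sq_abs, hg,
      S.norm_map]
    rw [← Finset.sum_mul, hf2, one_mul]
  · intro u hu
    have hu' : |u| ≤ u0 := hu
    have hT0p : (0 : ℝ) ≤ 180 / (T0 : ℝ) ^ 2 := by positivity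
    have h360 : (360 : ℝ) / (T0 : ℝ) ^ 2 = 2 * (180 / (T0 : ℝ) ^ 2) := by ring
    rw [h360] at hTε
    rcases le_total 0 u with h | h
    · rw [abs_of_nonneg h] at hu'
      refine (hpos u h hu').trans ?_
      nlinarith [sq_nonneg κ]
    · rw [abs_of_nonpos h] at hu'
      obtain ⟨r, hr⟩ : ∃ r : ℝ, r = -u := ⟨_, rfl⟩
      have hur : u = -r := by rw [hr, neg_neg]
      rw [← hr] at hu'
      have hr0 : 0 ≤ r := by rw [hr]; linarith
      subst hur
      have h1 := hpos r hr0 hu'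
      -- the defect of the inverse
      have h2 : ∑ i ∈ Finset.range N, ‖T.ι (S.α (s (-r)) (S.α (s r) (E i)) - E i)‖ ^ 2
          ≤ (2 * κ) ^ 2 := by
        obtain ⟨Λ, hΛ⟩ : ∃ Λ : A →ₗ[ℂ] A, ∀ x, Λ x = S.α (s (-r)) (S.α (s r) x) - x :=
          ⟨(S.α (s (-r))).toAlgHom.toLinearMap ∘ₗ (S.α (s r)).toAlgHom.toLinearMap
            - LinearMap.id, fun x => rfl⟩
        have h3 := hEsq Λ
        simp only [hΛ] at h3
        rw [h3]
        refine hscale (fun k => S.α (s (-r)) (S.α (s r) (g k)) - g k) _ fun k hk hfk => ?_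
        refine pow_le_pow_left₀ (norm_nonneg _) ?_ 2
        have a0 := hkN k hk
        have a1 := hmul (k * η) r (by positivity) (by linarith) (by rwa [abs_of_nonneg hr0])
        have a2 := hmul (r + k * η) (-r) (by positivity) (by linarith) (by
          rwa [abs_neg, abs_of_nonneg hr0])
        have a3 : -r + (r + (k : ℝ) * η) = k * η := by ring
        rw [a3] at a2
        have h5 : S.α (s (-r)) (S.α (s r) (g k)) - g k
            = S.α (s (-r)) (S.α (s r) (S.α (s (k * η)) e) - S.α (s (r + k * η)) e)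
              + (S.α (s (-r)) (S.α (s (r + k * η)) e) - S.α (s (k * η)) e) := by
          rw [hg k, map_sub]
          abel
        rw [h5, map_add]
        refine (norm_add_le _ _).trans ?_
        rw [S.norm_map]
        linarith
      have hterm : ∀ i : ℕ, ‖T.ι (S.α (s (-r)) (E i)
          - ch (2 * Real.pi / (N * η) * ((i : ℝ) - M) * -r) • E i)‖ ^ 2
          ≤ 2 * ‖T.ι (S.α (s r) (E i)
            - ch (2 * Real.pi / (N * η) * ((i : ℝ) - M) * r) • E i)‖ ^ 2
            + 2 * ‖T.ι (S.α (s (-r)) (S.α (s r) (E i)) - E i)‖ ^ 2 := by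
        intro i
        set c : ℝ := 2 * Real.pi / (N * η) * ((i : ℝ) - M) with hc
        have e1 : S.α (s (-r)) (E i) - ch (c * -r) • E i
            = S.α (s (-r)) (-(ch (c * -r) • (S.α (s r) (E i) - ch (c * r) • E i)))
              + ch (c * -r) • (S.α (s (-r)) (S.α (s r) (E i)) - E i) := by
          have e2 : ch (c * -r) * ch (c * r) = 1 := by
            rw [← ch_add]
            have : c * -r + c * r = 0 := by ring
            rw [this, ch_zero]
          rw [map_neg, map_smul, map_sub, map_smul, smul_sub, smul_sub, ← smul_assoc,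
            smul_eq_mul, e2, one_smul]
          abel
        have e3 : ‖T.ι (S.α (s (-r)) (E i) - ch (c * -r) • E i)‖
            ≤ ‖T.ι (S.α (s r) (E i) - ch (c * r) • E i)‖
              + ‖T.ι (S.α (s (-r)) (S.α (s r) (E i)) - E i)‖ := by
          conv_lhs => rw [e1, map_add]
          refine (norm_add_le _ _).trans ?_
          rw [S.norm_map, map_neg, norm_neg, map_smul, map_smul, norm_smul, norm_smul, norm_ch,
            one_mul, one_mul]
        exact (pow_le_pow_left₀ (norm_nonneg _) e3 2).trans (ct2_sq2 _ _)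
      refine (Finset.sum_le_sum fun i _ => hterm i).trans ?_
      rw [Finset.sum_add_distrib, ← Finset.mul_sum, ← Finset.mul_sum]
      nlinarith

end Pool.Agent.AbCoc
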