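import Pool.Agent.Lib_MP_418a80_t3.Comp6

/-!
# MP_418a80_an, T4: orthogonality of the composed families to the fixed points, with phases
-/

set_option autoImplicit false
set_option linter.unusedVariables false
set_option linter.unusedSectionVars false

open MeasureTheory Topology Filter
open scoped ENNReal NNReal ComplexConjugate

namespace Pool.Agent.AbCoc

universe u v w z

private theorem ct3_sq3 (a b c : ℝ) : (a + b + c) ^ 2 ≤ 3 * (a ^ 2 + b ^ 2 + c ^ 2) := by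
  nlinarith [sq_nonneg (a - b), sq_nonneg (b - c), sq_nonneg (a - c)]

private theorem ct3_sq2 (a b : ℝ) : (a + b) ^ 2 ≤ 2 * (a ^ 2 + b ^ 2) := by
  nlinarith [sq_nonneg (a - b)]

variable {A : Type u} [CStarAlgebra A] {K : Type v} [NormedAddCommGroup K]
  [InnerProductSpace ℂ K] [CompleteSpace K] {T : TrAlg A K}
variable {G : Type w} [Group G] [TopologicalSpace G] (S : TrAct G T)
variable {N : ℕ} {E : ℕ → A} {J' J : ℕ → Type} [∀ l, Fintype (J' l)] [∀ m, Fintype (J m)]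
  {x' : ∀ l, J' l → A} {x : ∀ m, J m → A} {C κ B BE : ℝ}

/-- **orthogonality to the fixed points**, from an average, up to phases close to `1` -/
theorem TrAlg.CompData.killP (h : T.CompData N E J' J x' x C κ B BE) (hB : 0 ≤ B) (n : ℕ)
    (hh : Fin n → G) (lam : Fin n → ℝ) (hlam : ∀ k, 0 ≤ lam k) (hsum : ∑ k, lam k = 1)
    (φ' : Fin n → ∀ l, J' l → ℂ) (φ : Fin n → ∀ m, J m → ℂ) (hφ' : ∀ k l j, ‖φ' k l j‖ ≤ 1)
    (hφ : ∀ k m j, ‖φ k m j‖ ≤ 1) (β : ℝ)
    (hβ : ∀ (k : Fin n) (l i : ℕ) (j' : J' l) (j : J (i + l)), ‖φ' k l j' * φ k (i + l) j - 1‖ ≤ β)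
    (δ : ℝ)
    (hx' : ∀ k, ∑ l ∈ Finset.range N, ∑ j',
      ‖T.ι (S.α (hh k) (x' l j') - φ' k l j' • x' l j')‖ ^ 2 ≤ δ)
    (hx : ∀ k, ∑ m ∈ Finset.range (2 * N), ∑ j,
      ‖T.ι (S.α (hh k) (x m j) - φ k m j • x m j)‖ ^ 2 ≤ δ) :
    ∑ l ∈ Finset.range N, ∑ i ∈ Finset.range N, ∑ j', ∑ j,
        ‖T.ι (S.E (x' l j' * (E i * x (i + l) j)))‖ ^ 2
      ≤ 2 * (N * ∑ i ∈ Finset.range N, ‖T.ι (∑ k, (lam k : ℂ) • S.α (hh k) (E i))‖ ^ 2
          + (N : ℝ) ^ 2 * (κ * (BE * (B + 1))))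
        + 2 * (6 * δ + (N : ℝ) ^ 2 * (κ * (BE * (24 * B)))
          + 3 * β ^ 2 * (N * ∑ i ∈ Finset.range N, ‖T.ι (E i)‖ ^ 2
            + (N : ℝ) ^ 2 * (κ * (BE * (B + 1))))) := by
  set V : ℕ → A := fun i => ∑ k, (lam k : ℂ) • S.α (hh k) (E i) with hV
  have hVn : ∀ i, i < N → ‖V i‖ ^ 2 ≤ BE := by
    intro i hi
    have e1 : ‖V i‖ ≤ ‖E i‖ := by
      calc ‖V i‖ ≤ ∑ k, ‖(lam k : ℂ) • S.α (hh k) (E i)‖ := norm_sum_le _ _
        _ ≤ ∑ k, lam k * ‖E i‖ := by
            refine Finset.sum_le_sum fun k _ => ?_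
            rw [norm_smul, Complex.norm_real, Real.norm_eq_abs, abs_of_nonneg (hlam k)]
            exact mul_le_mul_of_nonneg_left (S.norm_le _ _) (hlam k)
        _ = ‖E i‖ := by rw [← Finset.sum_mul, hsum, one_mul]
    exact (pow_le_pow_left₀ (norm_nonneg _) e1 2).trans (h.En i hi)
  have h1 := h.chainM S hB 1 V BE hVn
  simp only [S.one] at h1
  -- the remainders
  set R : Fin n → (l : ℕ) → (i : ℕ) → J' l → J (i + l) → A := fun k l i j' j =>
    (S.α (hh k) (x' l j') - φ' k l j' • x' l j') * S.α (hh k) (E i * x (i + l) j)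
      + φ' k l j' • (x' l j' * (S.α (hh k) (E i)
        * (S.α (hh k) (x (i + l) j) - φ k (i + l) j • x (i + l) j)))
      + (φ' k l j' * φ k (i + l) j - 1) • (x' l j' * (S.α (hh k) (E i) * x (i + l) j)) with hR
  have hRk : ∀ k, ∑ l ∈ Finset.range N, ∑ i ∈ Finset.range N, ∑ j', ∑ j,
      ‖T.ι (R k l i j' j)‖ ^ 2 ≤ 6 * δ + (N : ℝ) ^ 2 * (κ * (BE * (24 * B)))
        + 3 * β ^ 2 * (N * ∑ i ∈ Finset.range N, ‖T.ι (E i)‖ ^ 2
          + (N : ℝ) ^ 2 * (κ * (BE * (B + 1)))) := by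
    intro k
    have hEn : ∀ i, i < N → ‖S.α (hh k) (E i)‖ ^ 2 ≤ BE := fun i hi =>
      (pow_le_pow_left₀ (norm_nonneg _) (S.norm_le _ _) 2).trans (h.En i hi)
    have a1 := h.termL S hB (hh k) (φ' k) (hφ' k)
    have a2 := h.termR S hB (hh k) (φ k) (hφ k) (fun i => S.α (hh k) (E i)) hEn
      (fun a => by
        have a3 := h.Er (S.α (hh k)⁻¹ a)
        rw [S.norm_map] at a3
        refine le_trans (le_of_eq (Finset.sum_congr rfl fun i _ => ?_)) a3
        rw [S.norm_act_mul])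
    have a3 := h.chainM S hB 1 (fun i => S.α (hh k) (E i)) BE hEn
    simp only [S.one, S.norm_map] at a3
    have e1 : ∀ l i j' j, ‖T.ι (R k l i j' j)‖ ^ 2
        ≤ 3 * (‖T.ι ((S.α (hh k) (x' l j') - φ' k l j' • x' l j')
            * S.α (hh k) (E i * x (i + l) j))‖ ^ 2
          + ‖T.ι (x' l j' * (S.α (hh k) (E i)
            * (S.α (hh k) (x (i + l) j) - φ k (i + l) j • x (i + l) j)))‖ ^ 2
          + β ^ 2 * ‖T.ι (x' l j' * (S.α (hh k) (E i) * x (i + l) j))‖ ^ 2) := by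
      intro l i j' j
      rw [hR]
      simp only [map_add, map_smul]
      refine (pow_le_pow_left₀ (norm_nonneg _) (norm_add₃_le.trans (add_le_add (add_le_add le_rfl
        (?_ : _ ≤ ‖T.ι (x' l j' * (S.α (hh k) (E i)
            * (S.α (hh k) (x (i + l) j) - φ k (i + l) j • x (i + l) j)))‖))
        (?_ : _ ≤ β * ‖T.ι (x' l j' * (S.α (hh k) (E i) * x (i + l) j))‖))) 2).trans
        ((ct3_sq3 _ _ _).trans (le_of_eq ?_))
      · rw [norm_smul]
        exact mul_le_of_le_one_left (norm_nonneg _) (hφ' k l j')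
      · rw [norm_smul]
        exact mul_le_mul_of_nonneg_right (hβ k l i j' j) (norm_nonneg _)
      · rw [mul_pow β]
    refine (Finset.sum_le_sum fun l _ => Finset.sum_le_sum fun i _ => Finset.sum_le_sum fun j' _ =>
      Finset.sum_le_sum fun j _ => e1 l i j' j).trans ?_
    simp only [← Finset.mul_sum, Finset.sum_add_distrib]
    have b1 := hx' k
    have b2 := hx k
    have b3 := mul_le_mul_of_nonneg_left a3 (sq_nonneg β)
    nlinarith [a1, a2, b3]
  -- the identity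
  have hid : ∀ l i j' j, S.E (x' l j' * (E i * x (i + l) j))
      = S.E (x' l j' * (V i * x (i + l) j) + ∑ k, (lam k : ℂ) • R k l i j' j) := by
    intro l i j' j
    have e1 : x' l j' * (V i * x (i + l) j) + ∑ k, (lam k : ℂ) • R k l i j' j
        = ∑ k, (lam k : ℂ) • S.α (hh k) (x' l j' * (E i * x (i + l) j)) := by
      rw [hV]
      simp only
      rw [Finset.sum_mul, Finset.mul_sum, ← Finset.sum_add_distrib]
      refine Finset.sum_congr rfl fun k _ => ?_
      rw [smul_mul_assoc, mul_smul_comm, ← smul_add]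
      congr 1
      rw [hR]
      simp only [map_mul, sub_mul, mul_sub, smul_sub, smul_mul_assoc, mul_smul_comm, smul_smul,
        sub_smul, one_smul, mul_assoc]
      abel
    rw [e1, S.E_sum]
    simp only [S.E_smul, S.E_α]
    rw [← Finset.sum_smul]
    have e2 : ∑ k, (lam k : ℂ) = 1 := by
      rw [← Complex.ofReal_sum, hsum, Complex.ofReal_one]
    rw [e2, one_smul]
  have hterm : ∀ l i j' j, ‖T.ι (S.E (x' l j' * (E i * x (i + l) j)))‖ ^ 2
      ≤ 2 * (‖T.ι (x' l j' * (V i * x (i + l) j))‖ ^ 2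
        + ∑ k, lam k * ‖T.ι (R k l i j' j)‖ ^ 2) := by
    intro l i j' j
    rw [hid]
    have e1 := (S.norm_E_le (x' l j' * (V i * x (i + l) j) + ∑ k, (lam k : ℂ) • R k l i j' j))
    rw [map_add] at e1
    have e2 := e1.trans (norm_add_le _ _)
    refine (pow_le_pow_left₀ (norm_nonneg _) e2 2).trans ((ct3_sq2 _ _).trans ?_)
    refine mul_le_mul_of_nonneg_left (add_le_add le_rfl ?_) (by norm_num)
    have e3 : ‖T.ι (∑ k, (lam k : ℂ) • R k l i j' j)‖ ≤ ∑ k, lam k * ‖T.ι (R k l i j' j)‖ := by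
      rw [map_sum]
      refine (norm_sum_le _ _).trans (le_of_eq (Finset.sum_congr rfl fun k _ => ?_))
      rw [map_smul, norm_smul, Complex.norm_real, Real.norm_eq_abs, abs_of_nonneg (hlam k)]
    refine (pow_le_pow_left₀ (norm_nonneg _) e3 2).trans ?_
    -- Jensen
    have e4 := Finset.sum_mul_sq_le_sq_mul_sq (Finset.univ : Finset (Fin n))
      (fun k => Real.sqrt (lam k)) (fun k => Real.sqrt (lam k) * ‖T.ι (R k l i j' j)‖)
    have e5 : ∀ k, Real.sqrt (lam k) * (Real.sqrt (lam k) * ‖T.ι (R k l i j' j)‖)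
        = lam k * ‖T.ι (R k l i j' j)‖ := fun k => by
      rw [← mul_assoc, Real.mul_self_sqrt (hlam k)]
    simp only [e5, mul_pow, Real.sq_sqrt (hlam _), hsum, one_mul] at e4
    exact e4
  refine (Finset.sum_le_sum fun l _ => Finset.sum_le_sum fun i _ => Finset.sum_le_sum fun j' _ =>
    Finset.sum_le_sum fun j _ => hterm l i j' j).trans ?_
  simp only [← Finset.mul_sum, Finset.sum_add_distrib]
  have hswap : ∑ l ∈ Finset.range N, ∑ i ∈ Finset.range N, ∑ j', ∑ j, ∑ k,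
      lam k * ‖T.ι (R k l i j' j)‖ ^ 2
      ≤ 6 * δ + (N : ℝ) ^ 2 * (κ * (BE * (24 * B)))
        + 3 * β ^ 2 * (N * ∑ i ∈ Finset.range N, ‖T.ι (E i)‖ ^ 2
          + (N : ℝ) ^ 2 * (κ * (BE * (B + 1)))) := by
    have e1 : ∑ l ∈ Finset.range N, ∑ i ∈ Finset.range N, ∑ j', ∑ j, ∑ k,
        lam k * ‖T.ι (R k l i j' j)‖ ^ 2
        = ∑ k, lam k * ∑ l ∈ Finset.range N, ∑ i ∈ Finset.range N, ∑ j', ∑ j,
          ‖T.ι (R k l i j' j)‖ ^ 2 := by
      simp only [Finset.mul_sum]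
      symm
      rw [Finset.sum_comm]
      refine Finset.sum_congr rfl fun l _ => ?_
      rw [Finset.sum_comm]
      refine Finset.sum_congr rfl fun i _ => ?_
      rw [Finset.sum_comm]
      refine Finset.sum_congr rfl fun j' _ => ?_
      rw [Finset.sum_comm]
    rw [e1]
    refine (Finset.sum_le_sum fun k _ => mul_le_mul_of_nonneg_left (hRk k) (hlam k)).trans ?_
    rw [← Finset.sum_mul, hsum, one_mul]
  linarith [h1, hswap]

end Pool.Agent.AbCoc
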