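import Pool.Agent.Lib_MP_418a80_t3.Comp8

/-!
# MP_418a80_an, T4: choice of the flat families for given cells with frequencies in a group
-/

set_option autoImplicit false
set_option linter.unusedVariables false
set_option linter.unusedSectionVars false

open MeasureTheory Topology Filter
open scoped ENNReal NNReal ComplexConjugate RealInnerProductSpace

namespace Pool.Agent.AbCoc

universe u v w z

variable {A : Type u} [CStarAlgebra A] {K : Type v} [NormedAddCommGroup K]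
  [InnerProductSpace ℂ K] [CompleteSpace K]
variable {G : Type w} [Group G] [TopologicalSpace G] {T : TrAlg A K} (S : TrAct G T)
variable {V : Type z} [NormedAddCommGroup V] [InnerProductSpace ℝ V]

/-- the flat families for given cells `E0` of `e`, with frequencies in `Z` -/
theorem TrAct.exists_core_gen {b1 b2 : A} (h1 : S.IsPrj b1) (h2 : S.IsPrj b2) (p : G → V) (chi0 : V)
    (s : ℝ → G) (η C' ρ : ℝ) (Z : AddSubgroup ℝ)
    (hF1 : ∀ t : ℝ, t ∈ Z → S.FlatIn (pch p) (Metric.ball (t • chi0) ρ) b1 η C')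
    (hF2 : ∀ t : ℝ, t ∈ Z → S.FlatIn (pch p) (Metric.ball (t • chi0) ρ) b2 η C') (W : ℝ)
    (e : A) (he1 : b1 * e = e) (he2 : e * b2 = e) (he : ‖e‖ ≤ 1) (N M : ℕ) (θ : ℝ) (E0 : ℕ → A)
    (hN : 0 < N) (hθ : θ ∈ Z)
    (hplan : ∀ Λ : A →ₗ[ℂ] A, ∀ κ : ℝ,
      (∀ t : ℝ, 0 ≤ t → t ≤ W → ‖T.ι (Λ (S.α (s t) e))‖ ^ 2 ≤ κ) →
        ∑ i ∈ Finset.range N, ‖T.ι (Λ (E0 i))‖ ^ 2 ≤ κ)
    (hmass : ∑ i ∈ Finset.range N, ‖T.ι (E0 i)‖ ^ 2 = ‖T.ι e‖ ^ 2)
    (Dx : Set G) (hDx : IsCompact Dx) (κ K0 : ℝ) (hκ : 0 < κ) (hK0 : 0 ≤ K0) :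
    ∃ (E : ℕ → A) (J' J : ℕ → Type) (_ : ∀ l, Fintype (J' l))
        (_ : ∀ m, Fintype (J m)) (x' : ∀ l, J' l → A) (x : ∀ m, J m → A) (q' : ∀ l, J' l → V)
        (q : ∀ m, J m → V) (B BE κx : ℝ), (∀ i ∈ Finset.range N, E i = E0 i) ∧
        S.Core p chi0 s b1 b2 η C' (-1) 0 ρ W e Dx κ K0 N M θ E J' J x' x q' q B BE κx := by
  have hNr : (0 : ℝ) < N := by exact_mod_cast hN
  -- the cells, cut at `N`
  obtain ⟨E, hE⟩ : ∃ E : ℕ → A, ∀ i, E i = if i < N then E0 i else 0 := ⟨_, fun _ => rfl⟩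
  have hEN : ∀ i ∈ Finset.range N, E i = E0 i := fun i hi => by
    rw [hE, if_pos (Finset.mem_range.1 hi)]
  have hplan' : ∀ Λ : A →ₗ[ℂ] A, ∀ κ' : ℝ,
      (∀ t : ℝ, 0 ≤ t → t ≤ W → ‖T.ι (Λ (S.α (s t) e))‖ ^ 2 ≤ κ') →
      ∑ i ∈ Finset.range N, ‖T.ι (Λ (E i))‖ ^ 2 ≤ κ' := by
    intro Λ κ' hΛ
    rw [Finset.sum_congr rfl fun i hi => by rw [hEN i hi]]
    exact hplan Λ κ' hΛ
  have hzero : ∀ Λ : A →ₗ[ℂ] A, (∀ t : ℝ, Λ (S.α (s t) e) = 0) → ∀ i, i < N → Λ (E i) = 0 := by
    intro Λ hΛ i hi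
    have h3 := hplan' Λ 0 (fun t _ _ => by rw [hΛ t, map_zero, norm_zero]; norm_num)
    have h4 : ‖T.ι (Λ (E i))‖ ^ 2 ≤ 0 :=
      (Finset.single_le_sum (f := fun i => ‖T.ι (Λ (E i))‖ ^ 2) (fun i _ => sq_nonneg _)
        (Finset.mem_range.2 hi)).trans h3
    have h5 : ‖T.ι (Λ (E i))‖ = 0 := by
      have := le_antisymm h4 (sq_nonneg _)
      exact pow_eq_zero_iff two_ne_zero |>.1 this
    exact T.inj (by rw [norm_eq_zero.1 h5, map_zero])
  have hE1 : ∀ i, b1 * E i = E i := by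
    intro i
    by_cases hi : i < N
    · have h3 := hzero (LinearMap.mulLeft ℂ b1 - LinearMap.id) (fun t => by
        rw [LinearMap.sub_apply, LinearMap.mulLeft_apply, LinearMap.id_apply]
        conv_lhs => rw [← h1.fix (s t), ← map_mul, he1]
        rw [sub_self]) i hi
      rw [LinearMap.sub_apply, LinearMap.mulLeft_apply, LinearMap.id_apply] at h3
      exact sub_eq_zero.1 h3
    · rw [hE, if_neg hi, mul_zero]
  have hE2 : ∀ i, E i * b2 = E i := by
    intro i
    by_cases hi : i < N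
    · have h3 := hzero (LinearMap.mulRight ℂ b2 - LinearMap.id) (fun t => by
        rw [LinearMap.sub_apply, LinearMap.mulRight_apply, LinearMap.id_apply]
        conv_lhs => rw [← h2.fix (s t), ← map_mul, he2]
        rw [sub_self]) i hi
      rw [LinearMap.sub_apply, LinearMap.mulRight_apply, LinearMap.id_apply] at h3
      exact sub_eq_zero.1 h3
    · rw [hE, if_neg hi, zero_mul]
  have hEl : ∀ a : A, ∑ i ∈ Finset.range N, ‖T.ι (a * E i)‖ ^ 2 ≤ ‖T.ι a‖ ^ 2 := by
    intro a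
    refine hplan' (LinearMap.mulLeft ℂ a) _ fun t _ _ => ?_
    rw [LinearMap.mulLeft_apply]
    refine pow_le_pow_left₀ (norm_nonneg _) ((T.mul_le' _ _).trans ?_) 2
    exact mul_le_of_le_one_right (norm_nonneg _) ((S.norm_le _ _).trans he)
  have hEr : ∀ a : A, ∑ i ∈ Finset.range N, ‖T.ι (E i * a)‖ ^ 2 ≤ ‖T.ι a‖ ^ 2 := by
    intro a
    refine hplan' (LinearMap.mulRight ℂ a) _ fun t _ _ => ?_
    rw [LinearMap.mulRight_apply]
    refine pow_le_pow_left₀ (norm_nonneg _) ((T.mul_le _ _).trans ?_) 2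
    exact mul_le_of_le_one_left (norm_nonneg _) ((S.norm_le _ _).trans he)
  obtain ⟨BE, hBE⟩ : ∃ BE : ℝ, BE = ∑ i ∈ Finset.range N, ‖E i‖ ^ 2 := ⟨_, rfl⟩
  have hBE0 : 0 ≤ BE := by
    rw [hBE]
    exact Finset.sum_nonneg fun i _ => sq_nonneg _
  have hEn : ∀ i, i < N → ‖E i‖ ^ 2 ≤ BE := fun i hi => by
    rw [hBE]
    exact Finset.single_le_sum (f := fun i => ‖E i‖ ^ 2) (fun i _ => sq_nonneg _)
      (Finset.mem_range.2 hi)
  -- the constants of the flat families
  have hZ1 : ∀ l : ℕ, -(θ * l) ∈ Z := fun l => by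
    have := Z.neg_mem (Z.nsmul_mem hθ l)
    rwa [nsmul_eq_mul, mul_comm] at this
  have hZ2 : ∀ m : ℕ, θ * ((M : ℝ) - m) ∈ Z := fun m => by
    have h3 := Z.sub_mem (Z.nsmul_mem hθ M) (Z.nsmul_mem hθ m)
    rw [nsmul_eq_mul, nsmul_eq_mul] at h3
    have e1 : θ * ((M : ℝ) - m) = M * θ - m * θ := by ring
    rwa [e1]
  choose Bf1 hBf1 hfam1 using fun l : ℕ => hF1 _ (hZ1 l)
  choose Bf2 hBf2 hfam2 using fun m : ℕ => hF2 _ (hZ2 m)
  obtain ⟨B, hB⟩ : ∃ B : ℝ, B = ∑ l ∈ Finset.range N, Bf1 l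
      + ∑ m ∈ Finset.range (2 * N), Bf2 m := ⟨_, rfl⟩
  have hS1 : 0 ≤ ∑ l ∈ Finset.range N, Bf1 l := Finset.sum_nonneg fun l _ => hBf1 _
  have hS2 : 0 ≤ ∑ m ∈ Finset.range (2 * N), Bf2 m :=
    Finset.sum_nonneg fun l _ => hBf2 _
  have hB0 : 0 ≤ B := by rw [hB]; linarith
  have hB1 : ∀ l, l < N → Bf1 l ≤ B := fun l hl => by
    have := Finset.single_le_sum (f := fun l : ℕ => Bf1 l) (fun i _ => hBf1 _)
      (Finset.mem_range.2 hl)
    rw [hB]
    linarith
  have hB2 : ∀ m, m < 2 * N → Bf2 m ≤ B := fun m hm => by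
    have := Finset.single_le_sum (f := fun m : ℕ => Bf2 m) (fun i _ => hBf2 _)
      (Finset.mem_range.2 hm)
    rw [hB]
    linarith
  -- the level
  obtain ⟨κx, hκx⟩ : ∃ κx : ℝ, κx = κ / (N * ((BE + 1) * (36 * B + 40) * (K0 + 1))) := ⟨_, rfl⟩
  have hden : 0 < N * ((BE + 1) * (36 * B + 40) * (K0 + 1)) := by positivity
  have hκx0 : 0 < κx := by rw [hκx]; positivity
  have hfl1 := fun l : ℕ => hfam1 l Dx hDx κx hκx0
  have hfl2 := fun m : ℕ => hfam2 m Dx hDx κx hκx0
  choose J' hJ' y' r' hy' hyF' hyM' using hfl1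
  choose J hJ y r hy hyF hyM using hfl2
  refine ⟨E, J', J, hJ', hJ, fun l j => star (y' l j), y, fun l j => -(r' l j), r, B, BE,
    κx, hEN, ?_⟩
  refine
    { hN := hN
      hB := hB0
      data :=
        { hκ := hκx0.le
          hBE := hBE0
          El := hEl
          Er := hEr
          En := hEn
          r' := fun l hl => TrAlg.RFl.mar h1.star_eq h1.mul_self (hyF' l).star
          l' := fun l hl => (hyM' l).star
          d' := fun l hl => ((hy' l).dm.mono (hB1 l hl)).star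
          lx := fun m hm => TrAlg.LFl.mar h2.star_eq h2.mul_self (hyF m)
          rx := fun m hm => hyM m
          dx := fun m hm => (hy m).dm.mono (hB2 m hm) }
      rf := fun l hl => (hyF' l).star
      lf := fun m hm => hyF m
      E1 := hE1
      E2 := hE2
      x1 := fun l j => by
        have h3 := (hy' l).rgt j
        have h4 := congrArg star h3
        rwa [star_mul, h1.star_eq] at h4
      x2 := fun m j => (hy m).rgt j
      mass := by
        rw [Finset.sum_congr rfl fun i hi => by rw [hEN i hi]]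
        exact hmass
      plan := hplan'
      prec := fun u hu => by
        have := abs_nonneg u
        linarith
      lab' := fun l j => by
        have h3 := (hy' l).lab j
        rw [Metric.mem_ball, dist_eq_norm] at h3
        refine le_trans (le_of_eq ?_) h3.le
        rw [← norm_neg]
        congr 1
        rw [neg_smul]
        abel
      lab := fun m j => by
        have h3 := (hy m).lab j
        rw [Metric.mem_ball, dist_eq_norm] at h3
        exact h3.le
      near' := fun l g hg => by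
        refine le_trans (le_of_eq (Finset.sum_congr rfl fun j _ => ?_)) ((hy' l).ne g hg)
        congr 1
        rw [← T.norm_star]
        congr 2
        rw [star_sub, map_star, star_star, star_smul, star_star]
        congr 2
        unfold pch
        rw [inner_neg_left, RCLike.star_def, conj_ch, neg_neg]
      near := fun m g hg => (hy m).ne g hg
      small := by
        rw [hκx]
        have e1 : (N : ℝ) * (κ / (N * ((BE + 1) * (36 * B + 40) * (K0 + 1)))
            * ((BE + 1) * (36 * B + 40) * (K0 + 1))) = κ := by field_simp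
        exact e1.le }

end Pool.Agent.AbCoc
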