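import Pool.Agent.Lib_MP_418a80_t4.CT2
import Pool.Agent.Lib_MP_418a80_t4.CT3
import Pool.Agent.Lib_MP_418a80_t4.CT4

/-!
# MP_418a80_an, T4: the composition theorem

`N` is a closed normal subgroup, `s` a continuous section over the line (or the circle), `e` near
`N`-invariant elements with averages `0`; the flat families are chosen after `e`, with labels so
precise that the elements of `N` in the average see no phase.
-/

set_option autoImplicit false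
set_option linter.unusedVariables false
set_option linter.unusedSectionVars false

open MeasureTheory Topology Filter
open scoped ENNReal NNReal ComplexConjugate RealInnerProductSpace

namespace Pool.Agent.AbCoc

universe u v w z

private theorem ct5_sq2 (a b : ℝ) : (a + b) ^ 2 ≤ 2 * (a ^ 2 + b ^ 2) := by
  nlinarith [sq_nonneg (a - b)]

private theorem ct5_sq_le {x : ℝ} (h0 : 0 ≤ x) (h1 : x ≤ 1) : x ^ 2 ≤ x := by
  nlinarith

private theorem ct5_rho {κ P P' m : ℝ} (hκ : 0 < κ) (hm : m = min 1 (κ / (4 * (P ^ 2 + P' ^ 2 + 1)))) :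
    0 < m ∧ (2 * m * P) ^ 2 ≤ κ ∧ (2 * m * P') ^ 2 ≤ κ := by
  have a1 : m ≤ 1 := by rw [hm]; exact min_le_left _ _
  have a2 : m ≤ κ / (4 * (P ^ 2 + P' ^ 2 + 1)) := by rw [hm]; exact min_le_right _ _
  have a0 : 0 < m := by rw [hm]; positivity
  rw [le_div_iff₀ (by positivity)] at a2
  have a3 : m ^ 2 ≤ m := ct5_sq_le a0.le a1
  have a4 : m ^ 2 * P ^ 2 ≤ m * P ^ 2 := mul_le_mul_of_nonneg_right a3 (sq_nonneg _)
  have a5 : m ^ 2 * P' ^ 2 ≤ m * P' ^ 2 := mul_le_mul_of_nonneg_right a3 (sq_nonneg _)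
  have a6 : 0 ≤ m * P ^ 2 := by positivity
  have a7 : 0 ≤ m * P' ^ 2 := by positivity
  have e1 : (2 * m * P) ^ 2 = 4 * (m ^ 2 * P ^ 2) := by ring
  have e2 : (2 * m * P') ^ 2 = 4 * (m ^ 2 * P' ^ 2) := by ring
  have e3 : m * (4 * (P ^ 2 + P' ^ 2 + 1)) = 4 * (m * P ^ 2) + 4 * (m * P' ^ 2) + 4 * m := by ring
  rw [e3] at a2
  refine ⟨a0, ?_, ?_⟩
  · rw [e1]; linarith
  · rw [e2]; linarith

private theorem ct5_two {N κ : ℝ} (hN : 0 ≤ N) (hκ : 0 ≤ κ) : N * κ ≤ 2 * N * κ := by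
  have := mul_nonneg hN hκ
  linarith

private theorem ct5_Q1 {Q B κ : ℝ} (hQ : 0 ≤ Q) (hB : 0 ≤ B) (h : Q * (36 * B + 40) ≤ κ)
    (hκ : κ ≤ 1) : Q * (B + 1) ≤ 1 := by
  have h1 := mul_nonneg hQ hB
  have e1 : Q * (36 * B + 40) = 36 * (Q * B) + 40 * Q := by ring
  have e2 : Q * (B + 1) = Q * B + Q := by ring
  rw [e1] at h
  rw [e2]
  linarith

private theorem ct5_Q2 {Q B κ : ℝ} (hQ : 0 ≤ Q) (hB : 0 ≤ B) (h : Q * (36 * B + 40) ≤ κ) :
    Q * (B + 1) + Q * (24 * B) ≤ κ := by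
  have h1 := mul_nonneg hQ hB
  have e1 : Q * (36 * B + 40) = 36 * (Q * B) + 40 * Q := by ring
  have e2 : Q * (B + 1) + Q * (24 * B) = 25 * (Q * B) + Q := by ring
  rw [e1] at h
  rw [e2]
  linarith

private theorem ct5_N2 {N a b : ℝ} (hN : 0 ≤ N) (ha : a ≤ 1) (hb : b ≤ 1) :
    N * a + N * b ≤ N * 2 := by
  have h1 := mul_le_mul_of_nonneg_left ha hN
  have h2 := mul_le_mul_of_nonneg_left hb hN
  linarith

private theorem ct5_end {ρ P κ1 ε : ℝ} (k1 : κ1 ≤ 1) (h : (2 * ρ * P) ^ 2 ≤ 5 * ε) :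
    (2 * ρ * P) ^ 2 * (1 + κ1) ≤ 10 * ε := by
  have h1 := mul_le_mul_of_nonneg_left k1 (sq_nonneg (2 * ρ * P))
  have e1 : (2 * ρ * P) ^ 2 * (1 + κ1) = (2 * ρ * P) ^ 2 + (2 * ρ * P) ^ 2 * κ1 := by ring
  rw [e1]
  linarith

variable {A : Type u} [CStarAlgebra A] {K : Type v} [NormedAddCommGroup K]
  [InnerProductSpace ℂ K] [CompleteSpace K]
variable {G : Type w} [Group G] [TopologicalSpace G] {T : TrAlg A K} (S : TrAct G T)
variable {V : Type z} [NormedAddCommGroup V] [InnerProductSpace ℝ V]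

/-- single elements of `b1 A b2` which are near-`N`-invariant, and averaged to `0` by `N`, uniformly
after the translations `s t`, `0 ≤ t ≤ W`; `c0` does not depend on the level -/
def TrAct.GoodN (N : Subgroup G) (s : ℝ → G) (b1 b2 : A) : Prop :=
  ∃ c0 : ℝ, 0 < c0 ∧ ∀ D : Set G, IsCompact D → ∀ W κ : ℝ, 0 < κ →
    ∃ e : A, b1 * e = e ∧ e * b2 = e ∧ ‖e‖ ≤ 1 ∧ c0 ≤ ‖T.ι e‖ ^ 2 ∧
      (∀ h ∈ D, h ∈ N → ‖T.ι (S.α h e - e)‖ ≤ κ) ∧
      ∃ (n : ℕ) (h : Fin n → G) (lam : Fin n → ℝ), (∀ i, h i ∈ N) ∧ (∀ i, 0 ≤ lam i) ∧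
        ∑ i, lam i = 1 ∧ ∀ t : ℝ, 0 ≤ t → t ≤ W →
          ‖T.ι (∑ i, (lam i : ℂ) • S.α (h i) (S.α (s t) e))‖ ≤ κ

/-- near-`N`-invariant elements have cells -/
def TrAct.CellsN (N : Subgroup G) (s : ℝ → G) (Z : AddSubgroup ℝ) (U : Set ℝ) : Prop :=
  ∀ ε : ℝ, 0 < ε → ∃ (W κ0 : ℝ) (D' : Set G), 0 < κ0 ∧ IsCompact D' ∧ ∀ e : A, ‖e‖ ≤ 1 →
    (∀ h ∈ D', h ∈ N → ‖T.ι (S.α h e - e)‖ ≤ κ0) → S.HasCells s Z U W ε e

variable [IsTopologicalGroup G]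

/-- an upper bound of a continuous function on a compact set -/
private theorem ct5_bound (f : G → ℝ) (hf : Continuous f) (D : Set G) (hD : IsCompact D) :
    ∃ P : ℝ, 0 ≤ P ∧ ∀ g ∈ D, |f g| ≤ P := by
  obtain ⟨P, hP⟩ := (hD.image (continuous_abs.comp hf)).isBounded.subset_closedBall 0
  refine ⟨max P 0, le_max_right _ _, fun g hg => ?_⟩
  have := hP ⟨g, hg, rfl⟩
  rw [mem_closedBall_zero_iff, Real.norm_eq_abs] at this
  exact ((le_abs_self _).trans this).trans (le_max_left _ _)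

/-- **Composition.** -/
theorem TrAct.precA_gen (p : G → V) (hp : Continuous p) (chi0 : V) (s : ℝ → G)
    (hs : Continuous s) (N : Subgroup G) [hNn : N.Normal] (Z : AddSubgroup ℝ)
    (hZN : ∀ g ∈ N, ∀ z ∈ Z, ch (z * ⟪chi0, p g⟫) = 1)
    {b1 b2 : A} (h1 : S.IsPrj b1) (h2 : S.IsPrj b2)
    (hF1 : ∀ t : ℝ, t ∈ Z → ∀ ρ η : ℝ, 0 < ρ → 0 < η →
      S.FlatIn (pch p) (Metric.ball (t • chi0) ρ) b1 η (2 / η))
    (hF2 : ∀ t : ℝ, t ∈ Z → ∀ ρ η : ℝ, 0 < ρ → 0 < η →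
      S.FlatIn (pch p) (Metric.ball (t • chi0) ρ) b2 η (2 / η))
    (hcells : ∀ P : ℝ, 0 ≤ P → ∃ U : Set ℝ, IsCompact U ∧ S.CellsN N s Z U ∧
      ∀ g, |⟪chi0, p g⟫| ≤ P → ∃ u ∈ U, (s u)⁻¹ * g ∈ N ∧ ∀ z ∈ Z, ch (z * u) = ch (z * ⟪chi0, p g⟫))
    (hE : S.GoodN N s b1 b2) : S.PrecA p b1 b2 := by
  classical
  intro D0 hD0 ε1 hε1
  obtain ⟨c, hc, hE⟩ := hE
  obtain ⟨P, hP0, hP⟩ := ct5_bound (fun g => ‖p g‖) hp.norm D0 hD0
  obtain ⟨u0, hu00, hu0⟩ := ct5_bound (fun g => ⟪chi0, p g⟫) (continuous_const.inner hp) D0 hD0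
  obtain ⟨U, hUc, hU, hUg⟩ := hcells u0 hu00
  obtain ⟨η, hη⟩ : ∃ η : ℝ, η = c / 12 := ⟨_, rfl⟩
  have hη0 : 0 < η := by rw [hη]; positivity
  obtain ⟨ε, hε⟩ : ∃ ε : ℝ, ε = ε1 * (c / 2) / 100 := ⟨_, rfl⟩
  have hε0 : 0 < ε := by rw [hε]; positivity
  obtain ⟨W, κ0, D', hκ0, hD'c, hcell⟩ := hU ε hε0
  refine ⟨2 * (2 / η), c / 2, by positivity, fun D hD hDp κ hκ y => ?_⟩
  obtain ⟨κ1, hκ1⟩ : ∃ κ1 : ℝ, κ1 = min (min 1 (κ / 20)) (min ε (c / 4)) := ⟨_, rfl⟩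
  have hκ10 : 0 < κ1 := by rw [hκ1]; positivity
  have k1 : κ1 ≤ 1 := by rw [hκ1]; exact (min_le_left _ _).trans (min_le_left _ _)
  have k2 : κ1 ≤ κ / 20 := by rw [hκ1]; exact (min_le_left _ _).trans (min_le_right _ _)
  have k3 : κ1 ≤ ε := by rw [hκ1]; exact (min_le_right _ _).trans (min_le_left _ _)
  have k4 : κ1 ≤ c / 4 := by rw [hκ1]; exact (min_le_right _ _).trans (min_le_right _ _)
  have hκ1sq : κ1 ^ 2 ≤ κ1 := ct5_sq_le hκ10.le k1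
  -- the element `e`
  obtain ⟨D'', hD''⟩ : ∃ D'' : Set G, D'' = D' ∪ (fun x : ℝ × (ℝ × G) =>
      (s x.1)⁻¹ * ((s x.2.1)⁻¹ * x.2.2) * s x.1) '' (Set.Icc 0 W ×ˢ (U ×ˢ D)) := ⟨_, rfl⟩
  have hD''c : IsCompact D'' := by
    rw [hD'']
    refine hD'c.union ((isCompact_Icc.prod (hUc.prod hD)).image ?_)
    exact (((hs.comp continuous_fst).inv).mul
      (((hs.comp (continuous_fst.comp continuous_snd)).inv).mul
        (continuous_snd.comp continuous_snd))).mul (hs.comp continuous_fst)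
  obtain ⟨e, he1, he2, he, hec, hnear, n, hh, lam, hhN, hlam, hsum, havg⟩ :=
    hE D'' hD''c W (min κ0 κ1) (lt_min hκ0 hκ10)
  have heι : ‖T.ι e‖ ≤ 1 := (T.norm_le e).trans he
  obtain ⟨Nn, M, θ, E0, hNn0, hθ, hplan, hmassE, hprec⟩ := hcell e he fun h hh' hN' =>
    (hnear h (by rw [hD'']; exact Or.inl hh') hN').trans (min_le_left _ _)
  -- the precision of the labels
  obtain ⟨P', hP'0, hP'⟩ : ∃ P' : ℝ, 0 ≤ P' ∧ ∀ k, ‖p (hh k)‖ ≤ P' := by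
    refine ⟨∑ k, ‖p (hh k)‖, Finset.sum_nonneg fun k _ => norm_nonneg _, fun k => ?_⟩
    exact Finset.single_le_sum (f := fun k => ‖p (hh k)‖) (fun k _ => norm_nonneg _)
      (Finset.mem_univ k)
  obtain ⟨ρ, hρ0, hρ, hρ'⟩ : ∃ ρ : ℝ, 0 < ρ ∧ (2 * ρ * P) ^ 2 ≤ 5 * ε ∧ (2 * ρ * P') ^ 2 ≤ κ1 := by
    obtain ⟨r1, r2, r3⟩ := ct5_rho (P := P) (P' := P') hκ10 rfl
    exact ⟨_, r1, r2.trans (k3.trans (by linarith)), r3⟩
  obtain ⟨E, J', J, iJ', iJ, x', x, q', q, B, BE, κx, hEE, hC⟩ :=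
    S.exists_core_gen h1 h2 p chi0 s η (2 / η) ρ Z (fun t ht => hF1 t ht ρ η hρ0 hη0)
      (fun t ht => hF2 t ht ρ η hρ0 hη0) W e he1 he2 he Nn M θ E0 hNn0 hθ hplan hmassE
      (D ∪ Set.range hh) (hD.union (Set.finite_range hh).isCompact) κ1 (‖y‖ ^ 2) hκ10
      (sq_nonneg _)
  obtain ⟨hN, hκx, hBE, h40, hs1, hs2⟩ := hC.basic (sq_nonneg _)
  have hN0 : (0 : ℝ) < Nn := by linarith
  have hB := hC.hB
  -- frequencies are in `Z`
  have hfZ : ∀ i : ℕ, θ * ((i : ℝ) - M) ∈ Z := fun m => by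
    have h3 := Z.sub_mem (Z.nsmul_mem hθ m) (Z.nsmul_mem hθ M)
    rw [nsmul_eq_mul, nsmul_eq_mul] at h3
    have e1 : θ * ((m : ℝ) - M) = m * θ - M * θ := by ring
    rwa [e1]
  -- the displacement of the cells
  have hEd : ∀ g ∈ D, ∑ i ∈ Finset.range Nn,
      ‖T.ι (S.α g (E i) - ch (θ * ((i : ℝ) - M) * ⟪chi0, p g⟫) • E i)‖ ^ 2 ≤ 2 * (κ1 + ε) := by
    intro g hg
    obtain ⟨g0, hg0, hgg⟩ := hDp g hg
    obtain ⟨u, hu, huN, huZ⟩ := hUg g (by rw [hgg]; exact hu0 g0 hg0)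
    have a1 : ∑ i ∈ Finset.range Nn, ‖T.ι (S.α ((s u)⁻¹ * g) (E i) - E i)‖ ^ 2 ≤ κ1 := by
      have q0 : ∀ t : ℝ, 0 ≤ t → t ≤ W → ‖T.ι (((S.α ((s u)⁻¹ * g)).toAlgHom.toLinearMap
          - LinearMap.id : A →ₗ[ℂ] A) (S.α (s t) e))‖ ^ 2 ≤ κ1 ^ 2 := by
        intro t ht0 ht
        refine pow_le_pow_left₀ (norm_nonneg _) ?_ 2
        have a2 := hnear ((s t)⁻¹ * ((s u)⁻¹ * g) * s t) (by
          rw [hD'']
          exact Or.inr ⟨(t, (u, g)), ⟨⟨ht0, ht⟩, hu, hg⟩, rfl⟩) (by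
          have := hNn.conj_mem _ huN (s t)⁻¹
          rwa [inv_inv] at this)
        have a3 : S.α ((s u)⁻¹ * g) (S.α (s t) e) - S.α (s t) e
            = S.α (s t) (S.α ((s t)⁻¹ * ((s u)⁻¹ * g) * s t) e - e) := by
          rw [map_sub, ← S.mul, ← S.mul]
          congr 3
          group
        change ‖T.ι (S.α ((s u)⁻¹ * g) (S.α (s t) e) - S.α (s t) e)‖ ≤ κ1
        rw [a3, S.norm_map]
        exact a2.trans (min_le_right _ _)
      have q1 := hC.plan ((S.α ((s u)⁻¹ * g)).toAlgHom.toLinearMap - LinearMap.id) (κ1 ^ 2) q0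
      refine le_trans (Finset.sum_le_sum fun i _ => ?_) (q1.trans hκ1sq)
      exact le_of_eq rfl
    have a2 := hprec u hu
    have ee : ∀ i ∈ Finset.range Nn,
        ‖T.ι (S.α g (E i) - ch (θ * ((i : ℝ) - M) * ⟪chi0, p g⟫) • E i)‖ ^ 2
        ≤ 2 * (‖T.ι (S.α ((s u)⁻¹ * g) (E i) - E i)‖ ^ 2
          + ‖T.ι (S.α (s u) (E0 i) - ch (θ * ((i : ℝ) - M) * u) • E0 i)‖ ^ 2) := by
      intro i hi
      rw [← huZ _ (hfZ i), ← hEE i hi]
      have e1 : S.α g (E i) - ch (θ * ((i : ℝ) - M) * u) • E i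
          = S.α (s u) (S.α ((s u)⁻¹ * g) (E i) - E i)
            + (S.α (s u) (E i) - ch (θ * ((i : ℝ) - M) * u) • E i) := by
        rw [map_sub, ← S.mul, mul_inv_cancel_left]
        abel
      have e2 : ‖T.ι (S.α g (E i) - ch (θ * ((i : ℝ) - M) * u) • E i)‖
          ≤ ‖T.ι (S.α ((s u)⁻¹ * g) (E i) - E i)‖
            + ‖T.ι (S.α (s u) (E i) - ch (θ * ((i : ℝ) - M) * u) • E i)‖ := by
        conv_lhs => rw [e1, map_add]
        refine (norm_add_le _ _).trans ?_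
        rw [S.norm_map]
      exact (pow_le_pow_left₀ (norm_nonneg _) e2 2).trans (ct5_sq2 _ _)
    refine (Finset.sum_le_sum ee).trans ?_
    rw [← Finset.mul_sum, Finset.sum_add_distrib]
    linarith
  -- orthogonality to the fixed points
  have hkill : ∑ l ∈ Finset.range Nn, ∑ i ∈ Finset.range Nn, ∑ j', ∑ j,
      ‖T.ι (S.E (x' l j' * (E i * x (i + l) j)))‖ ^ 2 ≤ Nn * κ := by
    have a1 := hC.data.killP S hC.hB n hh lam hlam hsum (fun k l j' => ch ⟪q' l j', p (hh k)⟫)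
      (fun k m j => ch ⟪q m j, p (hh k)⟫) (fun k l j => (norm_ch _).le)
      (fun k m j => (norm_ch _).le) (2 * ρ * P') (fun k l i j' j => by
        have e1 : ch ⟪q' l j', p (hh k)⟫ * ch ⟪q (i + l) j, p (hh k)⟫
            = ch (⟪q' l j' - (θ * l) • chi0, p (hh k)⟫
              + ⟪q (i + l) j - (θ * ((M : ℝ) - (i + l : ℕ))) • chi0, p (hh k)⟫) := by
          have e2 : ch (-(θ * ((i : ℝ) - M)) * ⟪chi0, p (hh k)⟫) = 1 :=
            hZN _ (hhN k) _ (Z.neg_mem (hfZ i))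
          rw [← mul_one (ch (_ + _)), ← e2, ← ch_add, ← ch_add, inner_sub_left, inner_sub_left,
            real_inner_smul_left, real_inner_smul_left]
          congr 1
          push_cast
          ring
        rw [e1, ← ch_zero]
        refine (norm_ch_sub_le _ _).trans ?_
        rw [sub_zero]
        refine (abs_add_le _ _).trans ?_
        have b1' := (abs_real_inner_le_norm (q' l j' - (θ * l) • chi0) (p (hh k))).trans
          (mul_le_mul (hC.lab' l j') (hP' k) (norm_nonneg _) hρ0.le)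
        have b2' := (abs_real_inner_le_norm (q (i + l) j - (θ * ((M : ℝ) - (i + l : ℕ))) • chi0)
          (p (hh k))).trans (mul_le_mul (hC.lab (i + l) j) (hP' k) (norm_nonneg _) hρ0.le)
        linarith) (2 * Nn * κx) (fun k => by
      have b1' : ∀ l ∈ Finset.range Nn, ∑ j', ‖T.ι (S.α (hh k) (x' l j')
          - ch ⟪q' l j', p (hh k)⟫ • x' l j')‖ ^ 2 ≤ κx := by
        intro l _
        exact hC.near' l (hh k) (Or.inr ⟨k, rfl⟩)
      refine (Finset.sum_le_sum b1').trans ?_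
      rw [Finset.sum_const, Finset.card_range, nsmul_eq_mul]
      exact ct5_two hN0.le hκx) (fun k => by
      have b1' : ∀ m ∈ Finset.range (2 * Nn), ∑ j, ‖T.ι (S.α (hh k) (x m j)
          - ch ⟪q m j, p (hh k)⟫ • x m j)‖ ^ 2 ≤ κx := by
        intro m _
        exact hC.near m (hh k) (Or.inr ⟨k, rfl⟩)
      refine (Finset.sum_le_sum b1').trans ?_
      rw [Finset.sum_const, Finset.card_range, nsmul_eq_mul]
      push_cast
      exact le_of_eq rfl)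
    refine a1.trans ?_
    have a2 : ∑ i ∈ Finset.range Nn, ‖T.ι (∑ k, (lam k : ℂ) • S.α (hh k) (E i))‖ ^ 2 ≤ κ1 := by
      have b1' := hC.plan (∑ k, (lam k : ℂ) • (S.α (hh k)).toAlgHom.toLinearMap) (κ1 ^ 2)
        (fun t ht0 ht => by
          refine pow_le_pow_left₀ (norm_nonneg _) ?_ 2
          rw [LinearMap.sum_apply]
          exact (havg t ht0 ht).trans (min_le_right _ _))
      simp only [LinearMap.sum_apply] at b1'
      exact b1'.trans hκ1sq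
    have a5 := hC.mass
    have a6 : ‖T.ι e‖ ^ 2 ≤ 1 := pow_le_one₀ (norm_nonneg _) heι
    -- abbreviations
    obtain ⟨Q, hQ⟩ : ∃ Q : ℝ, Q = (Nn : ℝ) * (κx * BE) := ⟨_, rfl⟩
    have hQ0 : 0 ≤ Q := by rw [hQ]; positivity
    have c1 : (Nn : ℝ) ^ 2 * (κx * (BE * (B + 1))) = Nn * (Q * (B + 1)) := by rw [hQ]; ring
    have c2 : (Nn : ℝ) ^ 2 * (κx * (BE * (24 * B))) = Nn * (Q * (24 * B)) := by rw [hQ]; ring
    have c3 : Q * (36 * B + 40) ≤ κ1 := by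
      refine le_trans (le_of_eq ?_) hs1
      rw [hQ]
      ring
    rw [c1, c2, a5]
    have c4 : 3 * (2 * ρ * P') ^ 2 * (Nn * ‖T.ι e‖ ^ 2 + Nn * (Q * (B + 1)))
        ≤ 3 * κ1 * (Nn * 2) := by
      have d1 : (Nn : ℝ) * ‖T.ι e‖ ^ 2 + Nn * (Q * (B + 1)) ≤ Nn * 2 := by
        exact ct5_N2 hN0.le a6 (ct5_Q1 hQ0 hB c3 k1)
      have d3 : 0 ≤ (Nn : ℝ) * ‖T.ι e‖ ^ 2 + Nn * (Q * (B + 1)) := by positivity
      exact mul_le_mul (by linarith) d1 d3 (by positivity)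
    have c5 : Q * (B + 1) + Q * (24 * B) ≤ κ1 := ct5_Q2 hQ0 hB c3
    have c6 := mul_le_mul_of_nonneg_left c5 hN0.le
    have c7 := mul_le_mul_of_nonneg_left a2 hN0.le
    have c8 := mul_le_mul_of_nonneg_left k2 hN0.le
    have c9 : (Nn : ℝ) * (40 * κx) ≤ Nn * κ1 := mul_le_mul_of_nonneg_left h40 hN0.le
    have c10 : 0 ≤ (Nn : ℝ) * κ1 := by positivity
    linarith
  obtain ⟨I, hI, a, ha1, ha2, hmass, hEa, hdisp, hr, hl⟩ := hC.family (sq_nonneg _) h1 h2 heι hρ0.le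
    D (Set.subset_union_left) (2 * (κ1 + ε)) P (fun g hg => by
      obtain ⟨g0, hg0, hgg⟩ := hDp g hg
      have := hP g0 hg0
      rw [abs_of_nonneg (norm_nonneg _)] at this
      rwa [hgg]) hEd y le_rfl κ hkill
  refine ⟨I, hI, a, ha1, ha2, ?_, hEa, fun g hg => (hdisp g hg).trans ?_, ?_, ?_⟩
  · refine le_trans ?_ hmass
    rw [hη]
    linarith
  · have hε100 : 100 * ε = ε1 * (c / 2) := by rw [hε]; ring
    rw [← hε100]
    have e9 := ct5_end k1 hρ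
    linarith
  · refine hr.trans ?_
    linarith
  · refine hl.trans ?_
    have : 0 ≤ (2 / η) * ‖T.ι y‖ ^ 2 := by positivity
    linarith

end Pool.Agent.AbCoc
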