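import Pool.Agent.Lib_MP_418a80_t4.CT5
import Pool.Agent.Lib_MP_418a80_t3.Comp10

/-!
# MP_418a80_an, T4: `StepATyp` from a line or a circle quotient

`p : G → V` a continuous homomorphism, `chi0 : V`, `s : ℝ → G` continuous with `⟪chi0, p (s t)⟫ = t`
(not multiplicative). Line: `N = {g | ⟪chi0, p g⟫ = 0}`, all types `t • chi0`, `t : ℝ`. Circle:
`N = {g | ⟪chi0, p g⟫ ∈ 2πℤ}`, the types `k • chi0`, `k : ℤ`.
-/

set_option autoImplicit false
set_option linter.unusedVariables false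
set_option linter.unusedSectionVars false

open MeasureTheory Topology Filter
open scoped ENNReal NNReal ComplexConjugate RealInnerProductSpace

namespace Pool.Agent.AbCoc

universe u v w z

variable {A : Type u} [CStarAlgebra A] {K : Type v} [NormedAddCommGroup K]
  [InnerProductSpace ℂ K] [CompleteSpace K]
variable {G : Type w} [Group G] [TopologicalSpace G] {T : TrAlg A K} (S : TrAct G T)
variable {V : Type z} [NormedAddCommGroup V] [InnerProductSpace ℝ V]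

section cells
variable [IsTopologicalGroup G]

private theorem ct6_mult (N : Subgroup G) (s : ℝ → G) (e : A) (κ0 : ℝ) (t u : ℝ)
    (h : ‖T.ι (S.α ((s (u + t))⁻¹ * (s u * s t)) e - e)‖ ≤ κ0) :
    ‖T.ι (S.α (s u) (S.α (s t) e) - S.α (s (u + t)) e)‖ ≤ κ0 := by
  have e1 : S.α (s u) (S.α (s t) e) - S.α (s (u + t)) e
      = S.α (s (u + t)) (S.α ((s (u + t))⁻¹ * (s u * s t)) e - e) := by
    rw [map_sub, ← S.mul, ← S.mul, mul_inv_cancel_left]
  rw [e1, S.norm_map]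
  exact h

/-- near-`N`-invariant elements have cells on the line -/
theorem TrAct.cellsN_line (N : Subgroup G) (s : ℝ → G) (hs : Continuous s)
    (hN : ∀ t u, (s (u + t))⁻¹ * (s u * s t) ∈ N) (u0 : ℝ) (hu0 : 0 ≤ u0) :
    S.CellsN N s ⊤ (Set.Icc (-u0) u0) := by
  intro ε hε
  obtain ⟨W, κ0, hκ0, h⟩ := S.cells_line s hs u0 ε hu0 hε
  have hc : Continuous fun x : ℝ × ℝ => (s (x.1 + x.2))⁻¹ * (s x.1 * s x.2) :=
    ((hs.comp (continuous_fst.add continuous_snd)).inv).mul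
      ((hs.comp continuous_fst).mul (hs.comp continuous_snd))
  refine ⟨W, κ0, (fun x : ℝ × ℝ => (s (x.1 + x.2))⁻¹ * (s x.1 * s x.2)) ''
    (Set.Icc (-u0) u0 ×ˢ Set.Icc 0 W), hκ0, (isCompact_Icc.prod isCompact_Icc).image hc,
    fun e he hne => ?_⟩
  obtain ⟨Nn, M, θ, E, h1, h2, h3, h4, h5⟩ := h e he fun t u ht htW hu =>
    ct6_mult S N s e κ0 t u (hne _ ⟨(u, t), ⟨abs_le.1 hu, ht, htW⟩, rfl⟩ (hN t u))
  exact ⟨Nn, M, θ, E, h1, h2, h3, h4, fun u hu => h5 u (abs_le.2 hu)⟩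

/-- near-`N`-invariant elements have cells on the circle -/
theorem TrAct.cellsN_circle (N : Subgroup G) (s : ℝ → G) (hs : Continuous s)
    (hN : ∀ t u, (s (u + t))⁻¹ * (s u * s t) ∈ N) (hper : ∀ t, (s t)⁻¹ * s (t + 2 * Real.pi) ∈ N) :
    S.CellsN N s zR (Set.Icc 0 (2 * Real.pi)) := by
  intro ε hε
  obtain ⟨κ0, hκ0, h⟩ := S.cells_circle s hs ε hε
  have hc : Continuous fun x : ℝ × ℝ => (s (x.1 + x.2))⁻¹ * (s x.1 * s x.2) :=
    ((hs.comp (continuous_fst.add continuous_snd)).inv).mul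
      ((hs.comp continuous_fst).mul (hs.comp continuous_snd))
  have hc2 : Continuous fun t : ℝ => (s t)⁻¹ * s (t + 2 * Real.pi) :=
    hs.inv.mul (hs.comp (continuous_id.add continuous_const))
  refine ⟨2 * Real.pi, κ0, ((fun x : ℝ × ℝ => (s (x.1 + x.2))⁻¹ * (s x.1 * s x.2)) ''
    (Set.Icc 0 (2 * Real.pi) ×ˢ Set.Icc 0 (2 * Real.pi)))
      ∪ ((fun t : ℝ => (s t)⁻¹ * s (t + 2 * Real.pi)) '' Set.Icc 0 (2 * Real.pi)), hκ0,
    ((isCompact_Icc.prod isCompact_Icc).image hc).union (isCompact_Icc.image hc2),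
    fun e he hne => h e he (fun t u ht htW hu huW => ?_) fun t ht htW => ?_⟩
  · exact ct6_mult S N s e κ0 t u (hne _ (Or.inl ⟨(u, t), ⟨⟨hu, huW⟩, ht, htW⟩, rfl⟩) (hN t u))
  · have h1 := hne _ (Or.inr ⟨t, ⟨ht, htW⟩, rfl⟩) (hper t)
    have e1 : S.α (s (t + 2 * Real.pi)) e - S.α (s t) e
        = S.α (s t) (S.α ((s t)⁻¹ * s (t + 2 * Real.pi)) e - e) := by
      rw [map_sub, ← S.mul, mul_inv_cancel_left]
    rw [e1, S.norm_map]
    exact h1

end cells

private theorem ct6_p_one (p : G → V) (hpm : ∀ g h, p (g * h) = p g + p h) : p 1 = 0 := by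
  have h1 := hpm 1 1
  rw [mul_one] at h1
  exact left_eq_add.1 h1

private theorem ct6_inv (p : G → V) (hpm : ∀ g h, p (g * h) = p g + p h) (g : G) :
    p g⁻¹ = -p g := by
  have h3 := hpm g⁻¹ g
  rw [inv_mul_cancel, ct6_p_one p hpm] at h3
  exact eq_neg_of_add_eq_zero_left h3.symm

private theorem ct6_conj (p : G → V) (hpm : ∀ g h, p (g * h) = p g + p h) (j g : G) :
    p (j * g * j⁻¹) = p g := by
  rw [hpm, hpm, ct6_inv p hpm]
  abel

variable [IsTopologicalGroup G] [T2Space G] [SecondCountableTopology G] [LocallyCompactSpace G]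

/-- **Composition over a line.** -/
theorem TrAct.stepATyp_line (p : G → V) (hp : Continuous p)
    (hpm : ∀ g h, p (g * h) = p g + p h) (chi0 : V) (s : ℝ → G) (hs : Continuous s)
    (hps : ∀ t, ⟪chi0, p (s t)⟫ = t) (N : Subgroup G) [N.Normal]
    (hN : ∀ g, g ∈ N ↔ ⟪chi0, p g⟫ = 0)
    (hlab : ∀ b : A, S.IsPrj b → b ≠ 0 → ∀ t ρ : ℝ, 0 < ρ →
      S.LabA (pch p) (Metric.ball (t • chi0) ρ) b)
    (hE : ∀ b1 b2 : A, S.IsPrj b1 → b1 ≠ 0 → S.IsPrj b2 → b2 ≠ 0 → S.GoodN N s b1 b2) :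
    S.StepATyp := by
  have hflat : ∀ b : A, S.IsPrj b → ∀ t : ℝ, t ∈ (⊤ : AddSubgroup ℝ) → ∀ ρ η : ℝ, 0 < ρ → 0 < η →
      S.FlatIn (pch p) (Metric.ball (t • chi0) ρ) b η (2 / η) := fun b hb t _ ρ η hρ hη =>
    TrAct.flatIn_of_hlabA (fun q g => norm_pch p q g) hb
      (fun b' hb' h0 _ => hlab b' hb' h0 t ρ hρ) hη
  refine S.stepATyp_of_precA p (ct6_conj p hpm) S.hasPrj fun b1 b2 h1 h10 h2 h20 => ?_
  refine S.precA_gen p hp chi0 s hs N ⊤ (fun g hg z _ => ?_) h1 h2 (hflat b1 h1) (hflat b2 h2)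
    (fun P hP => ?_) (hE b1 b2 h1 h10 h2 h20)
  · rw [(hN g).1 hg, mul_zero, ch_zero]
  · refine ⟨Set.Icc (-P) P, isCompact_Icc, S.cellsN_line N s hs (fun t u => ?_) P hP, fun g hg => ?_⟩
    · rw [hN, hpm, hpm, ct6_inv p hpm, inner_add_right, inner_add_right, inner_neg_right, hps,
        hps, hps]
      ring
    · refine ⟨⟪chi0, p g⟫, abs_le.1 hg, ?_, fun z _ => rfl⟩
      rw [hN, hpm, ct6_inv p hpm, inner_add_right, inner_neg_right, hps]
      ring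

/-- **Composition over a circle.** -/
theorem TrAct.stepATyp_circle (p : G → V) (hp : Continuous p)
    (hpm : ∀ g h, p (g * h) = p g + p h) (chi0 : V) (s : ℝ → G) (hs : Continuous s)
    (hps : ∀ t, ⟪chi0, p (s t)⟫ = t) (N : Subgroup G) [N.Normal]
    (hN : ∀ g, g ∈ N ↔ ∃ n : ℤ, ⟪chi0, p g⟫ = n * (2 * Real.pi))
    (hlab : ∀ b : A, S.IsPrj b → b ≠ 0 → ∀ (k : ℤ) (ρ : ℝ), 0 < ρ →
      S.LabA (pch p) (Metric.ball ((k : ℝ) • chi0) ρ) b)
    (hE : ∀ b1 b2 : A, S.IsPrj b1 → b1 ≠ 0 → S.IsPrj b2 → b2 ≠ 0 → S.GoodN N s b1 b2) :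
    S.StepATyp := by
  have hflat : ∀ b : A, S.IsPrj b → ∀ t : ℝ, t ∈ zR → ∀ ρ η : ℝ, 0 < ρ → 0 < η →
      S.FlatIn (pch p) (Metric.ball (t • chi0) ρ) b η (2 / η) := by
    intro b hb t ht ρ η hρ hη
    obtain ⟨k, rfl⟩ := (mem_zR t).1 ht
    exact TrAct.flatIn_of_hlabA (fun q g => norm_pch p q g) hb
      (fun b' hb' h0 _ => hlab b' hb' h0 k ρ hρ) hη
  have hpi := Real.pi_pos
  refine S.stepATyp_of_precA p (ct6_conj p hpm) S.hasPrj fun b1 b2 h1 h10 h2 h20 => ?_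
  refine S.precA_gen p hp chi0 s hs N zR (fun g hg z hz => ?_) h1 h2 (hflat b1 h1) (hflat b2 h2)
    (fun P hP => ?_) (hE b1 b2 h1 h10 h2 h20)
  · obtain ⟨k, rfl⟩ := (mem_zR z).1 hz
    obtain ⟨n, hn⟩ := (hN g).1 hg
    rw [hn, ch_eq_one_iff]
    exact ⟨k * n, by push_cast; ring⟩
  · refine ⟨Set.Icc 0 (2 * Real.pi), isCompact_Icc, S.cellsN_circle N s hs (fun t u => ?_)
      (fun t => ?_), fun g hg => ?_⟩
    · rw [hN]
      refine ⟨0, ?_⟩
      rw [hpm, hpm, ct6_inv p hpm, inner_add_right, inner_add_right, inner_neg_right, hps,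
        hps, hps]
      push_cast
      ring
    · rw [hN]
      refine ⟨1, ?_⟩
      rw [hpm, ct6_inv p hpm, inner_add_right, inner_neg_right, hps, hps]
      push_cast
      ring
    · obtain ⟨y, hy⟩ : ∃ y : ℝ, y = ⟪chi0, p g⟫ := ⟨_, rfl⟩
      obtain ⟨n, hn⟩ : ∃ n : ℤ, n = ⌊y / (2 * Real.pi)⌋ := ⟨_, rfl⟩
      have h3 : (n : ℝ) * (2 * Real.pi) ≤ y := by
        have := Int.floor_le (y / (2 * Real.pi))
        rw [← hn, le_div_iff₀ (by positivity)] at this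
        exact this
      have h4 : y < (n + 1) * (2 * Real.pi) := by
        have := Int.lt_floor_add_one (y / (2 * Real.pi))
        rw [← hn, div_lt_iff₀ (by positivity)] at this
        exact this
      refine ⟨y - n * (2 * Real.pi), ⟨by linarith, by linarith⟩, ?_, fun z hz => ?_⟩
      · rw [hN]
        refine ⟨n, ?_⟩
        rw [hpm, ct6_inv p hpm, inner_add_right, inner_neg_right, hps, ← hy]
        ring
      · obtain ⟨k, rfl⟩ := (mem_zR z).1 hz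
        rw [← hy]
        have e1 : (k : ℝ) * y = k * (y - n * (2 * Real.pi)) + ((k * n : ℤ) : ℝ) * (2 * Real.pi) := by
          push_cast
          ring
        have e2 : ch (((k * n : ℤ) : ℝ) * (2 * Real.pi)) = 1 := (ch_eq_one_iff _).2 ⟨_, rfl⟩
        rw [e1, ch_add, e2, mul_one]

end Pool.Agent.AbCoc
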