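import Pool.Agent.Lib_MP_418a80_t4.CT5
import Pool.Agent.Lib_MP_418a80_t3.KeyDom
import Pool.Agent.Lib_MP_418a80_t3.GoodE

/-!
# MP_418a80_an, T4: `GoodN` from KEY of the closed normal subgroup and of its `2 × 2` matrices
-/

set_option autoImplicit false
set_option linter.unusedVariables false
set_option linter.unusedSectionVars false

open MeasureTheory Topology Filter

namespace Pool.Agent.AbCoc

universe u v w z

section
variable {A : Type u} [CStarAlgebra A] {K : Type v} [NormedAddCommGroup K]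
  [InnerProductSpace ℂ K] [CompleteSpace K]
variable {G : Type w} [Group G] [TopologicalSpace G] {T : TrAlg A K} (S : TrAct G T)

/-- the conditional expectation onto the fixed points of a normal subgroup commutes with `G` -/
theorem TrAct.E_normal (N : Subgroup G) [hN : N.Normal] (g : G) (a : A) :
    (S.cm N.subtype continuous_subtype_val).E (S.α g a)
      = S.α g ((S.cm N.subtype continuous_subtype_val).E a) := by
  have hfix : ∀ (g : G) (x : A), (S.cm N.subtype continuous_subtype_val).Fixed x →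
      (S.cm N.subtype continuous_subtype_val).Fixed (S.α g x) := by
    intro g x hx n
    change S.α n (S.α g x) = S.α g x
    have h1 : S.α (g⁻¹ * n * g) x = x := by
      have h2 := hN.conj_mem n n.2 g⁻¹
      rw [inv_inv] at h2
      exact hx ⟨g⁻¹ * n * g, h2⟩
    conv_rhs => rw [← h1]
    rw [← S.mul, ← S.mul]
    congr 1
    group
  have hin : ∀ (z : G) (w x : A), inner ℂ (T.ι (S.α z w)) (T.ι x)
      = inner ℂ (T.ι w) (T.ι (S.α z⁻¹ x)) := by
    intro z w x
    rw [← S.inner_map z w (S.α z⁻¹ x), S.apply_inv]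
  refine ((S.cm N.subtype continuous_subtype_val).eq_E_of _ _ (hfix g _
    ((S.cm N.subtype continuous_subtype_val).E_fixed a)) fun p hp => ?_).symm
  have h1 : ∀ x : A, inner ℂ (T.ι p) (T.ι (S.α g x)) = inner ℂ (T.ι (S.α g⁻¹ p)) (T.ι x) := by
    intro x
    rw [hin, inv_inv]
  rw [h1, h1]
  exact (S.cm N.subtype continuous_subtype_val).inner_E a _
    ((S.cm N.subtype continuous_subtype_val).fixedVec_of_fixed (hfix g⁻¹ p hp))

/-- transport to a covering (or any surjection) -/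
theorem TrAct.goodN_cm {C : Type z} [Group C] [TopologicalSpace C] (j : C →* G)
    (hj : Continuous j) (hsurj : Function.Surjective j) (N : Subgroup G) (s : ℝ → C) {b1 b2 : A}
    (h : S.GoodN N (fun t => j (s t)) b1 b2) :
    (S.cm j hj).GoodN (N.comap j) s b1 b2 := by
  obtain ⟨c0, hc0, h⟩ := h
  refine ⟨c0, hc0, fun D hD W κ hκ => ?_⟩
  obtain ⟨e, h1, h2, h3, h4, h5, n, hh, lam, h6, h7, h8, h9⟩ := h (j '' D) (hD.image hj) W κ hκ
  choose l hl using fun i => hsurj (hh i)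
  refine ⟨e, h1, h2, h3, h4, fun x hx hxN => h5 (j x) ⟨x, hx, rfl⟩ hxN, n, l, lam, fun i => ?_, h7,
    h8, fun t ht htW => ?_⟩
  · rw [Subgroup.mem_comap, hl]
    exact h6 i
  · have := h9 t ht htW
    simp only [TrAct.cm_α, hl]
    exact this

end

section
variable {A : Type u} [CStarAlgebra A] [PartialOrder A] [StarOrderedRing A]
  {K : Type v} [NormedAddCommGroup K] [InnerProductSpace ℂ K] [CompleteSpace K]
variable {G : Type w} [Group G] [TopologicalSpace G] [IsTopologicalGroup G] {T : TrAlg A K}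
  (S : TrAct G T)

/-- **`GoodN` from KEY**: no character of `N` is needed -/
theorem TrAct.goodN_of_key (N : Subgroup G) [hNn : N.Normal] (hNc : IsClosed (N : Set G))
    (s : ℝ → G) (hs : Continuous s)
    (hk : (S.cm N.subtype continuous_subtype_val).Key)
    (hk2 : ((S.cm N.subtype continuous_subtype_val).amp 2).Key) {b1 b2 : A}
    (h1 : S.IsPrj b1) (h2 : S.IsPrj b2) (hn1 : b1 ≠ 0) (hn2 : b2 ≠ 0) : S.GoodN N s b1 b2 := by
  classical
  obtain ⟨SN, hSN⟩ : ∃ SN : TrAct N T, SN = S.cm N.subtype continuous_subtype_val := ⟨_, rfl⟩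
  have hSα : ∀ (n : N) (a : A), SN.α n a = S.α n a := fun n a => by rw [hSN]; rfl
  have hEn : ∀ (g : G) (a : A), SN.E (S.α g a) = S.α g (SN.E a) := fun g a => by
    rw [hSN]; exact S.E_normal N g a
  rw [← hSN] at hk hk2
  have hf1 : SN.Fixed b1 := fun n => by rw [hSα]; exact h1.fix n
  have hf2 : SN.Fixed b2 := fun n => by rw [hSα]; exact h2.fix n
  have hemb : IsClosedEmbedding (Subtype.val : N → G) := hNc.isClosedEmbedding_subtypeVal
  obtain ⟨β1, hβ1⟩ : ∃ β : ℝ, β = ‖T.ι b1‖ ^ 2 := ⟨_, rfl⟩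
  obtain ⟨β2, hβ2⟩ : ∃ β : ℝ, β = ‖T.ι b2‖ ^ 2 := ⟨_, rfl⟩
  have hp1 := T.norm_ι_pos hn1
  have hp2 := T.norm_ι_pos hn2
  have hβ1p : 0 < β1 := by rw [hβ1]; positivity
  have hβ2p : 0 < β2 := by rw [hβ2]; positivity
  have hb1 := h1.norm_le_one
  have hb2 := h2.norm_le_one
  refine ⟨β1 * β2 / 32, by positivity, fun D hD W κ hκ => ?_⟩
  obtain ⟨η, hη⟩ : ∃ η : ℝ, η = κ / 4 := ⟨_, rfl⟩
  have hη0 : 0 < η := by rw [hη]; positivity
  -- the mean zero element
  obtain ⟨e, hen, heE, hem, heD⟩ := SN.exists_mean_zero hk2 (Subtype.val ⁻¹' D)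
    (hemb.isCompact_preimage hD) η hη0
  -- the times
  have hcont : Continuous fun t : ℝ => T.ι (S.α (s t) e) := (S.cont e).comp hs
  obtain ⟨tf, htf, hcov⟩ := (isCompact_Icc (a := (0 : ℝ)) (b := W)).elim_nhds_subcover
    (fun t => {t' | ‖T.ι (S.α (s t') e - S.α (s t) e)‖ < η}) (fun t _ => by
      have h3 : Continuous fun t' : ℝ => ‖T.ι (S.α (s t') e - S.α (s t) e)‖ := by
        simp only [map_sub]
        exact (hcont.sub continuous_const).norm
      refine (h3.tendsto t).eventually (gt_mem_nhds ?_)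
      rw [sub_self, map_zero, norm_zero]
      exact hη0)
  obtain ⟨F, w, hw0, hw1, hwe⟩ := SN.exists_avg_family {t : ℝ // t ∈ tf}
    (fun t => S.α (s t) e) (η ^ 2) (by positivity)
  have hEy : ∀ t : ℝ, SN.E (S.α (s t) e) = 0 := fun t => by rw [hEn, heE, map_zero]
  simp only [hEy, sub_zero] at hwe
  have havn : ∀ (x : A), ‖T.ι (SN.avg F w x)‖ ≤ ‖T.ι x‖ := by
    intro x
    unfold TrAct.avg
    rw [map_sum]
    refine (norm_sum_le _ _).trans ?_
    have h3 : ∀ g ∈ F, ‖T.ι (w g • SN.α g x)‖ ≤ w g * ‖T.ι x‖ := by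
      intro g _
      have h4 : w g • SN.α g x = ((w g : ℝ) : ℂ) • SN.α g x := (Complex.coe_smul _ _).symm
      rw [h4, map_smul, norm_smul, Complex.norm_real, Real.norm_of_nonneg (hw0 g), SN.norm_map]
    refine (Finset.sum_le_sum h3).trans (le_of_eq ?_)
    rw [← Finset.sum_mul, hw1, one_mul]
  have havsub : ∀ x y : A, SN.avg F w x - SN.avg F w y = SN.avg F w (x - y) := by
    intro x y
    unfold TrAct.avg
    rw [← Finset.sum_sub_distrib]
    refine Finset.sum_congr rfl fun g _ => ?_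
    rw [map_sub, smul_sub]
  obtain ⟨f, hf⟩ : ∃ f : ℝ → ℝ, ∀ t, f t = ‖T.ι (SN.avg F w (S.α (s t) e))‖ ^ 2 := ⟨_, fun _ => rfl⟩
  simp only [← hf] at hwe
  have hwe'' : ∀ j : {t : ℝ // t ∈ tf}, ‖T.ι (SN.avg F w (S.α (s j) e))‖ ^ 2 ≤ η ^ 2 := by
    intro j
    rw [← hf]
    refine le_trans ?_ hwe.le
    exact Finset.single_le_sum (f := fun j : {t : ℝ // t ∈ tf} => f j)
      (fun i _ => by rw [hf]; exact sq_nonneg _) (Finset.mem_univ j)
  have hwe' : ∀ t : ℝ, 0 ≤ t → t ≤ W → ‖T.ι (SN.avg F w (S.α (s t) e))‖ ≤ 2 * η := by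
    intro t ht htW
    have h3 := hcov (show t ∈ Set.Icc (0 : ℝ) W from ⟨ht, htW⟩)
    simp only [Set.mem_iUnion] at h3
    obtain ⟨t', ht', h4⟩ := h3
    have h5 := hwe'' ⟨t', ht'⟩
    have h6 : ‖T.ι (SN.avg F w (S.α (s t') e))‖ ≤ η := by
      have := abs_le_of_sq_le_sq h5 hη0.le
      exact (le_abs_self _).trans this
    have h7 : SN.avg F w (S.α (s t) e) = SN.avg F w (S.α (s t) e - S.α (s t') e)
        + SN.avg F w (S.α (s t') e) := by rw [← havsub, sub_add_cancel]
    rw [h7, map_add]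
    refine (norm_add_le _ _).trans ?_
    have h8 := havn (S.α (s t) e - S.α (s t') e)
    have h9 : ‖T.ι (S.α (s t) e - S.α (s t') e)‖ < η := h4
    linarith
  -- the level of the unitaries
  obtain ⟨B, hB⟩ : ∃ B : ℝ, B = ‖T.ι (b1 * b1)‖ + ‖T.ι (b2 * b2)‖ * β1 + 1 := ⟨_, rfl⟩
  have hB0 : 0 < B := by rw [hB]; positivity
  obtain ⟨ε, hε, hεη, hεB⟩ : ∃ ε : ℝ, 0 < ε ∧ ε ≤ η ∧ B * ε ≤ β1 * β2 / 64 := by
    refine ⟨min η (β1 * β2 / 64 / B), lt_min hη0 (by positivity), min_le_left _ _, ?_⟩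
    calc B * min η (β1 * β2 / 64 / B) ≤ B * (β1 * β2 / 64 / B) :=
          mul_le_mul_of_nonneg_left (min_le_right _ _) hB0.le
      _ = β1 * β2 / 64 := by field_simp
  obtain ⟨Cg, hCg⟩ : ∃ Cg : Set G, Cg = D ∪ (fun x : ℝ × G => (s x.1)⁻¹ * x.2 * s x.1) ''
      (Set.Icc 0 W ×ˢ (Subtype.val '' (F : Set N))) := ⟨_, rfl⟩
  have hCgc : IsCompact Cg := by
    rw [hCg]
    refine hD.union ((isCompact_Icc.prod
      (F.finite_toSet.isCompact.image continuous_subtype_val)).image ?_)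
    exact (((hs.comp continuous_fst).inv).mul continuous_snd).mul (hs.comp continuous_fst)
  have hC' : IsCompact (Subtype.val ⁻¹' Cg : Set N) := hemb.isCompact_preimage hCgc
  obtain ⟨u, hu1, hu2, huC, huE⟩ := SN.key_one hk (star e * e) (IsSelfAdjoint.star_mul_self e) _
    hC' ε hε
  obtain ⟨y, hy⟩ : ∃ y : A, y = e * star u * b2 := ⟨_, rfl⟩
  obtain ⟨v, hv1, hv2, hvC, hvE⟩ := SN.key_one hk (y * star y) (IsSelfAdjoint.mul_star_self y) _
    hC' ε hε
  have hun : ‖star u‖ ≤ 1 := by rw [norm_star]; exact TrAct.norm_unit_le T u hu1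
  have hvn : ‖v‖ ≤ 1 := TrAct.norm_unit_le T v hv1
  have hvN : ∀ g ∈ Cg, g ∈ N → ‖T.ι (S.α g v - v)‖ ≤ ε := by
    intro g hg hgN
    have := hvC ⟨g, hgN⟩ hg
    rwa [hSα] at this
  have huN : ∀ g ∈ Cg, g ∈ N → ‖T.ι (S.α g (star u) - star u)‖ ≤ ε := by
    intro g hg hgN
    rw [map_star, ← star_sub, T.norm_star]
    have := huC ⟨g, hgN⟩ hg
    rwa [hSα] at this
  obtain ⟨x, hx⟩ : ∃ x : A, x = v * e * star u := ⟨_, rfl⟩
  have hxn : ‖x‖ ≤ 1 := by
    rw [hx]
    calc ‖v * e * star u‖ ≤ ‖v‖ * ‖e‖ * ‖star u‖ :=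
          (norm_mul_le _ _).trans (mul_le_mul_of_nonneg_right (norm_mul_le _ _) (norm_nonneg _))
      _ ≤ 1 * 1 * 1 := by gcongr
      _ = 1 := by norm_num
  have hbxb : ∀ z : A, ‖T.ι (b1 * z * b2)‖ ≤ ‖T.ι z‖ := by
    intro z
    refine (T.mul_le' _ _).trans ?_
    calc ‖T.ι (b1 * z)‖ * ‖b2‖ ≤ ‖b1‖ * ‖T.ι z‖ * ‖b2‖ :=
          mul_le_mul_of_nonneg_right (T.mul_le _ _) (norm_nonneg _)
      _ ≤ 1 * ‖T.ι z‖ * 1 := by gcongr
      _ = ‖T.ι z‖ := by ring
  refine ⟨b1 * x * b2, by rw [← mul_assoc, ← mul_assoc, h1.mul_self],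
    by rw [mul_assoc, h2.mul_self], ?_, ?_, ?_, F.card,
    fun i => ((F.equivFin.symm i : N) : G), fun i => w (F.equivFin.symm i), fun i => ?_,
    fun i => hw0 _, ?_, ?_⟩
  · calc ‖b1 * x * b2‖ ≤ ‖b1‖ * ‖x‖ * ‖b2‖ :=
          (norm_mul_le _ _).trans (mul_le_mul_of_nonneg_right (norm_mul_le _ _) (norm_nonneg _))
      _ ≤ 1 * 1 * 1 := by gcongr
      _ = 1 := by norm_num
  · -- the mass
    have hs1' := h1.star_eq
    have hs2' := h2.star_eq
    have m1 : ‖T.ι (b1 * x * b2)‖ ^ 2 = (T.τ (b1 * b1 * (v * (y * star y) * star v))).re := by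
      rw [← T.norm_star, T.norm_sq, star_star]
      have e1 : b1 * x * b2 * star (b1 * x * b2) = b1 * (v * (y * star y) * star v * b1) := by
        rw [hx, hy]
        simp only [star_mul, star_star, hs1', hs2']
        noncomm_ring
      rw [e1, T.τ_mul_comm, mul_assoc (v * (y * star y) * star v), T.τ_mul_comm]
    have m2 := hvE (b1 * b1) (TrAct.Fixed.mul SN hf1 hf1)
    have m3 := huE (b2 * b2) (TrAct.Fixed.mul SN hf2 hf2)
    have m4 : (T.τ (y * star y)).re = (T.τ (b2 * b2 * (u * (star e * e) * star u))).re := by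
      have e1 : y * star y = e * (star u * b2 * b2 * u * star e) := by
        rw [hy]
        simp only [star_mul, star_star, hs2']
        noncomm_ring
      rw [e1, T.τ_mul_comm]
      have e2 : star u * b2 * b2 * u * star e * e = star u * (b2 * b2 * u * (star e * e)) := by
        noncomm_ring
      rw [e2, T.τ_mul_comm]
      congr 2
      noncomm_ring
    have m5 : T.τ (b1 * b1) = (β1 : ℂ) := by
      have e1 := T.inner_eq_τ b1 b1
      rw [inner_self_eq_norm_sq_to_K, hs1'] at e1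
      rw [← e1, hβ1]
      norm_cast
    have m6 : T.τ (b2 * b2) = (β2 : ℂ) := by
      have e1 := T.inner_eq_τ b2 b2
      rw [inner_self_eq_norm_sq_to_K, hs2'] at e1
      rw [← e1, hβ2]
      norm_cast
    have m7 : (T.τ (star e * e)).re = ‖T.ι e‖ ^ 2 := (T.norm_sq e).symm
    rw [m5, Complex.re_ofReal_mul] at m2
    rw [m6, Complex.re_ofReal_mul, m7] at m3
    rw [m4] at m2
    rw [m1]
    have m8 := (abs_le.1 m2).1
    have m9 := (abs_le.1 m3).1
    have m10 : β1 * (β2 * ‖T.ι e‖ ^ 2 - ‖T.ι (b2 * b2)‖ * ε)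
        ≤ β1 * (T.τ (b2 * b2 * (u * (star e * e) * star u))).re :=
      mul_le_mul_of_nonneg_left (by linarith) hβ1p.le
    have m11 : β1 * β2 * (3 / 64) ≤ β1 * β2 * ‖T.ι e‖ ^ 2 :=
      mul_le_mul_of_nonneg_left hem (by positivity)
    rw [hB] at hεB
    nlinarith
  · -- near-invariance
    intro g hg hgN
    have m1 : S.α g (b1 * x * b2) - b1 * x * b2 = b1 * (S.α g x - x) * b2 := by
      rw [map_mul, map_mul, h1.fix, h2.fix]
      noncomm_ring
    rw [m1]
    refine (hbxb _).trans ?_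
    have m3 : S.α g x - x = (S.α g x - v * S.α g e * star u) + v * (S.α g e - e) * star u := by
      rw [hx]
      noncomm_ring
    rw [m3, map_add]
    refine (norm_add_le _ _).trans ?_
    have m10 := S.triple_near g v e (star u) hvn hen hun
    rw [← hx] at m10
    have hgC : g ∈ Cg := by rw [hCg]; exact Or.inl hg
    have m11 := hvN g hgC hgN
    have m12 := huN g hgC hgN
    have m13 : ‖T.ι (v * (S.α g e - e) * star u)‖ ≤ η := by
      refine (T.mul_le' _ _).trans ?_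
      have m14 := heD ⟨g, hgN⟩ hg
      rw [hSα] at m14
      calc ‖T.ι (v * (S.α g e - e))‖ * ‖star u‖ ≤ (‖v‖ * ‖T.ι (S.α g e - e)‖) * 1 :=
            mul_le_mul (T.mul_le _ _) hun (norm_nonneg _) (by positivity)
        _ ≤ (1 * η) * 1 := by gcongr
        _ = η := by ring
    linarith
  · exact (F.equivFin.symm i : N).2
  · rw [F.equivFin.symm.sum_comp (fun g : {g // g ∈ F} => w g)]
    rw [Finset.sum_coe_sort F w]
    exact hw1
  · -- the averages
    intro t ht htW
    have e0 : ∑ i, ((w (F.equivFin.symm i) : ℝ) : ℂ) • S.α ((F.equivFin.symm i : N) : G)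
        (S.α (s t) (b1 * x * b2)) = SN.avg F w (S.α (s t) (b1 * x * b2)) := by
      rw [F.equivFin.symm.sum_comp (fun g : {g // g ∈ F} => ((w g : ℝ) : ℂ) • S.α ((g : N) : G)
        (S.α (s t) (b1 * x * b2)))]
      rw [Finset.sum_coe_sort F (fun g : N => ((w g : ℝ) : ℂ) • S.α (g : G)
        (S.α (s t) (b1 * x * b2)))]
      unfold TrAct.avg
      refine Finset.sum_congr rfl fun g _ => ?_
      rw [hSα]
      exact Complex.coe_smul _ _
    rw [e0]
    have e1 : SN.avg F w (S.α (s t) (b1 * x * b2)) = b1 * SN.avg F w (S.α (s t) x) * b2 := by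
      unfold TrAct.avg
      rw [Finset.mul_sum, Finset.sum_mul]
      refine Finset.sum_congr rfl fun g _ => ?_
      rw [hSα, hSα, map_mul, map_mul, map_mul, map_mul, h1.fix, h2.fix, h1.fix, h2.fix,
        mul_smul_comm, smul_mul_assoc]
    rw [e1]
    refine (hbxb _).trans ?_
    obtain ⟨a, ha⟩ : ∃ a : A, a = S.α (s t) v := ⟨_, rfl⟩
    obtain ⟨b, hb⟩ : ∃ b : A, b = S.α (s t) (star u) := ⟨_, rfl⟩
    obtain ⟨e', he'⟩ : ∃ e' : A, e' = S.α (s t) e := ⟨_, rfl⟩
    have han : ‖a‖ ≤ 1 := by rw [ha]; exact (S.norm_le _ _).trans hvn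
    have hbn : ‖b‖ ≤ 1 := by rw [hb]; exact (S.norm_le _ _).trans hun
    have hen' : ‖e'‖ ≤ 1 := by rw [he']; exact (S.norm_le _ _).trans hen
    have hxt : S.α (s t) x = a * e' * b := by rw [hx, ha, hb, he', map_mul, map_mul]
    have hconj : ∀ (g : N), g ∈ F → ∀ z : A, ‖T.ι (S.α (g : G) (S.α (s t) z) - S.α (s t) z)‖
        = ‖T.ι (S.α ((s t)⁻¹ * g * s t) z - z)‖ := by
      intro g _ z
      have e2 : S.α (g : G) (S.α (s t) z) - S.α (s t) z
          = S.α (s t) (S.α ((s t)⁻¹ * g * s t) z - z) := by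
        rw [map_sub, ← S.mul, ← S.mul]
        congr 3
        group
      rw [e2, S.norm_map]
    have hmemC : ∀ g : N, g ∈ F → (s t)⁻¹ * g * s t ∈ Cg := by
      intro g hg
      rw [hCg]
      exact Or.inr ⟨(t, (g : G)), ⟨⟨ht, htW⟩, g, hg, rfl⟩, rfl⟩
    have hmemN : ∀ g : N, (s t)⁻¹ * g * s t ∈ N := by
      intro g
      have := hNn.conj_mem g g.2 (s t)⁻¹
      rwa [inv_inv] at this
    have m6 : SN.avg F w (S.α (s t) x) - a * SN.avg F w e' * b
        = ∑ g ∈ F, w g • (S.α (g : G) (a * e' * b) - a * S.α (g : G) e' * b) := by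
      rw [hxt]
      unfold TrAct.avg
      rw [Finset.mul_sum, Finset.sum_mul, ← Finset.sum_sub_distrib]
      refine Finset.sum_congr rfl fun g _ => ?_
      rw [hSα, hSα, smul_sub, mul_smul_comm, smul_mul_assoc]
    have m7 : ‖T.ι (SN.avg F w (S.α (s t) x) - a * SN.avg F w e' * b)‖ ≤ 2 * ε := by
      rw [m6, map_sum]
      refine (norm_sum_le _ _).trans ?_
      have m8 : ∀ g ∈ F, ‖T.ι (w g • (S.α (g : G) (a * e' * b) - a * S.α (g : G) e' * b))‖
          ≤ w g * (2 * ε) := by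
        intro g hg
        have m9 : w g • (S.α (g : G) (a * e' * b) - a * S.α (g : G) e' * b)
            = ((w g : ℝ) : ℂ) • (S.α (g : G) (a * e' * b) - a * S.α (g : G) e' * b) :=
          (Complex.coe_smul _ _).symm
        rw [m9, map_smul, norm_smul, Complex.norm_real, Real.norm_of_nonneg (hw0 g)]
        refine mul_le_mul_of_nonneg_left ?_ (hw0 g)
        have m10 := S.triple_near (g : G) a e' b han hen' hbn
        have m11 := hvN _ (hmemC g hg) (hmemN g)
        have m12 := huN _ (hmemC g hg) (hmemN g)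
        rw [← hconj g hg] at m11 m12
        rw [← ha] at m11
        rw [← hb] at m12
        linarith
      refine (Finset.sum_le_sum m8).trans (le_of_eq ?_)
      rw [← Finset.sum_mul, hw1, one_mul]
    have m13 : ‖T.ι (a * SN.avg F w e' * b)‖ ≤ 2 * η := by
      refine (T.mul_le' _ _).trans ?_
      have m14 := hwe' t ht htW
      rw [← he'] at m14
      calc ‖T.ι (a * SN.avg F w e')‖ * ‖b‖ ≤ (‖a‖ * ‖T.ι (SN.avg F w e')‖) * 1 :=
            mul_le_mul (T.mul_le _ _) hbn (norm_nonneg _) (by positivity)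
        _ ≤ (1 * (2 * η)) * 1 := by gcongr
        _ = 2 * η := by ring
    have m15 : SN.avg F w (S.α (s t) x) = (SN.avg F w (S.α (s t) x) - a * SN.avg F w e' * b)
        + a * SN.avg F w e' * b := (sub_add_cancel _ _).symm
    rw [m15, map_add]
    refine (norm_add_le _ _).trans ?_
    linarith

end

end Pool.Agent.AbCoc
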