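import Pool.Agent.Lib_MP_418a80_t4.CT6
import Pool.Agent.Lib_MP_418a80_t4.CT7
import Pool.Agent.Lib_MP_418a80_t3.T3Class

/-!
# MP_418a80_an, T4: the line step and the circle step for `KeyAll`; descent from a covering
-/

set_option autoImplicit false
set_option linter.unusedVariables false
set_option linter.unusedSectionVars false

open MeasureTheory Topology Filter
open scoped ENNReal NNReal ComplexConjugate RealInnerProductSpace

namespace Pool.Agent.AbCoc

universe u v w z

section cm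
variable {A : Type u} [CStarAlgebra A] {K : Type v} [NormedAddCommGroup K]
  [InnerProductSpace ℂ K] [CompleteSpace K]
variable {G : Type w} [Group G] [TopologicalSpace G] {T : TrAlg A K} (S : TrAct G T)
variable {C : Type z} [Group C] [TopologicalSpace C] (j : C →* G) (hj : Continuous j)

theorem TrAct.cm_fixed_iff (hsurj : Function.Surjective j) (a : A) :
    (S.cm j hj).Fixed a ↔ S.Fixed a := by
  refine ⟨fun h g => ?_, fun h => S.cm_fixed j hj h⟩
  obtain ⟨c, rfl⟩ := hsurj g
  exact h c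

theorem TrAct.E_cm_of_surj (hsurj : Function.Surjective j) (a : A) :
    (S.cm j hj).E a = S.E a := by
  refine S.eq_E_of a _ ((S.cm_fixed_iff j hj hsurj _).1 ((S.cm j hj).E_fixed a)) fun p hp => ?_
  exact (S.cm j hj).inner_E a _ ((S.cm j hj).fixedVec_of_fixed (S.cm_fixed j hj hp))

theorem TrAct.cm_isPrj_iff (hsurj : Function.Surjective j) (b : A) :
    (S.cm j hj).IsPrj b ↔ S.IsPrj b :=
  ⟨fun h => ⟨(S.cm_fixed_iff j hj hsurj b).1 h.fix, h.star_eq, h.mul_self⟩,
    fun h => ⟨(S.cm_fixed_iff j hj hsurj b).2 h.fix, h.star_eq, h.mul_self⟩⟩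

/-- `StepATyp` descends from a covering -/
theorem TrAct.stepATyp_of_cm (hsurj : Function.Surjective j)
    (hlift : ∀ D : Set G, IsCompact D → ∃ D' : Set C, IsCompact D' ∧ D ⊆ j '' D')
    (h : (S.cm j hj).StepATyp) : S.StepATyp := by
  intro b1 b2 hf1 hf2 hs1 hs2 hn1 hn2 D hD κ hκ Y _ y
  obtain ⟨D', hD', hDD⟩ := hlift D hD
  obtain ⟨J, hJ, a, x, h1, h2, h3, h4, h5⟩ := h b1 b2 (S.cm_fixed j hj hf1) (S.cm_fixed j hj hf2)
    hs1 hs2 hn1 hn2 D' hD' κ hκ Y y
  simp only [S.E_cm_of_surj j hj hsurj] at h3 h5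
  refine ⟨J, hJ, a, x, h1, h2, h3, fun g hg => ?_, h5⟩
  obtain ⟨c, hc, rfl⟩ := hDD hg
  exact h4 c hc

end cm

section key
variable {A : Type u} [CStarAlgebra A] [PartialOrder A] [StarOrderedRing A]
  {K : Type v} [NormedAddCommGroup K] [InnerProductSpace ℂ K] [CompleteSpace K]
variable {G : Type w} [Group G] [TopologicalSpace G] [IsTopologicalGroup G] [T2Space G]
  [SecondCountableTopology G] [LocallyCompactSpace G] [MeasurableSpace G] [BorelSpace G]
  (μ : Measure G) [μ.IsHaarMeasure] {T : TrAlg A K} (S : TrAct G T)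

include μ in
/-- `GoodN` from `KeyAll N` -/
theorem TrAct.goodN_of_keyAll (hR : Reiter μ) (hSO : S.SO μ Set.univ) (N : Subgroup G)
    [N.Normal] (hNc : IsClosed (N : Set G)) (hkey : KeyAll.{u, v, w} N) (s : ℝ → G)
    (hs : Continuous s) {b1 b2 : A} (h1 : S.IsPrj b1) (h2 : S.IsPrj b2) (hn1 : b1 ≠ 0)
    (hn2 : b2 ≠ 0) : S.GoodN N s b1 b2 := by
  have hemb : IsClosedEmbedding (Subtype.val : N → G) := hNc.isClosedEmbedding_subtypeVal
  have : LocallyCompactSpace N := hemb.locallyCompactSpace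
  have : SecondCountableTopology N :=
    inferInstanceAs (SecondCountableTopology ((N : Set G) : Set G))
  exact S.goodN_of_key N hNc s hs
    (hkey.key_cm μ S N.subtype continuous_subtype_val hemb hR hSO)
    (hkey.key_amp μ S N.subtype continuous_subtype_val hemb hR hSO 2) h1 h2 hn1 hn2

end key

section step
variable {G : Type w} [Group G] [TopologicalSpace G] [IsTopologicalGroup G] [T2Space G]
  [SecondCountableTopology G] [LocallyCompactSpace G]
variable {V : Type z} [NormedAddCommGroup V] [InnerProductSpace ℝ V]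

/-- **Line step.** -/
theorem keyAll_line (p : G → V) (hp : Continuous p) (hpm : ∀ g h, p (g * h) = p g + p h)
    (chi0 : V) (s : ℝ → G) (hs : Continuous s) (hps : ∀ t, ⟪chi0, p (s t)⟫ = t)
    (N : Subgroup G) [N.Normal] (hN : ∀ g, g ∈ N ↔ ⟪chi0, p g⟫ = 0) (hkey : KeyAll.{u, v, w} N)
    (hlab : ∀ [MeasurableSpace G] [BorelSpace G] (ν : Measure G) [ν.IsHaarMeasure], Reiter ν →
      ∀ (A : Type u) [CStarAlgebra A] (K : Type v) [NormedAddCommGroup K] [InnerProductSpace ℂ K]
      [CompleteSpace K] (T : TrAlg A K) (S : TrAct G T), S.SO ν Set.univ →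
      ∀ b : A, S.IsPrj b → b ≠ 0 → ∀ t ρ : ℝ, 0 < ρ →
        S.LabA (pch p) (Metric.ball (t • chi0) ρ) b) : KeyAll.{u, v, w} G := by
  refine keyAll_of_stepATyp fun ν _ hR A _ K _ _ _ T S hSO => ?_
  let := CStarAlgebra.spectralOrder A
  have := CStarAlgebra.spectralOrderedRing A
  have hNc : IsClosed (N : Set G) := by
    have e : (N : Set G) = {g | ⟪chi0, p g⟫ = 0} := Set.ext fun g => hN g
    rw [e]
    exact isClosed_eq (continuous_const.inner hp) continuous_const
  exact S.stepATyp_line p hp hpm chi0 s hs hps N hN (hlab ν hR A K T S hSO)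
    fun b1 b2 h1 h10 h2 h20 => S.goodN_of_keyAll ν hR hSO N hNc hkey s hs h1 h2 h10 h20

/-- **Circle step.** -/
theorem keyAll_circle (p : G → V) (hp : Continuous p) (hpm : ∀ g h, p (g * h) = p g + p h)
    (chi0 : V) (s : ℝ → G) (hs : Continuous s) (hps : ∀ t, ⟪chi0, p (s t)⟫ = t)
    (N : Subgroup G) [N.Normal] (hN : ∀ g, g ∈ N ↔ ∃ n : ℤ, ⟪chi0, p g⟫ = n * (2 * Real.pi))
    (hkey : KeyAll.{u, v, w} N)
    (hlab : ∀ [MeasurableSpace G] [BorelSpace G] (ν : Measure G) [ν.IsHaarMeasure], Reiter ν →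
      ∀ (A : Type u) [CStarAlgebra A] (K : Type v) [NormedAddCommGroup K] [InnerProductSpace ℂ K]
      [CompleteSpace K] (T : TrAlg A K) (S : TrAct G T), S.SO ν Set.univ →
      ∀ b : A, S.IsPrj b → b ≠ 0 → ∀ (k : ℤ) (ρ : ℝ), 0 < ρ →
        S.LabA (pch p) (Metric.ball ((k : ℝ) • chi0) ρ) b) : KeyAll.{u, v, w} G := by
  refine keyAll_of_stepATyp fun ν _ hR A _ K _ _ _ T S hSO => ?_
  let := CStarAlgebra.spectralOrder A
  have := CStarAlgebra.spectralOrderedRing A
  have hNc : IsClosed (N : Set G) := by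
    have e : (N : Set G) = (fun g => ch ⟪chi0, p g⟫) ⁻¹' {1} := by
      ext g
      rw [SetLike.mem_coe, hN, Set.mem_preimage, Set.mem_singleton_iff, ch_eq_one_iff]
    rw [e]
    refine isClosed_singleton.preimage ?_
    unfold ch
    exact Complex.continuous_exp.comp
      ((Complex.continuous_ofReal.comp (continuous_const.inner hp)).mul continuous_const)
  exact S.stepATyp_circle p hp hpm chi0 s hs hps N hN (hlab ν hR A K T S hSO)
    fun b1 b2 h1 h10 h2 h20 => S.goodN_of_keyAll ν hR hSO N hNc hkey s hs h1 h2 h10 h20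

end step

end Pool.Agent.AbCoc
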