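import Pool.Agent.Lib_MP_418a80_t4.AmpV
import Pool.Agent.Lib_MP_418a80_t3.Phase

/-!
# MP_418a80_an, T4 (abelian step): elements with phases
-/

set_option autoImplicit false
set_option linter.unusedVariables false
set_option linter.unusedSectionVars false

open Topology Filter MeasureTheory
open scoped RealInnerProductSpace ComplexConjugate

namespace Pool.Agent.AbCoc

universe u v w z

section
variable {G : Type w} [Group G] [TopologicalSpace G] {V : Type z} [NormedAddCommGroup V]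
  [InnerProductSpace ℝ V] (R : VSec G V)

private theorem phv_p_one : R.p 1 = 0 := by
  have := R.pmul 1 1
  rw [mul_one] at this
  simpa using this

private theorem phv_p_inv (g : G) : R.p g⁻¹ = -R.p g := by
  have := R.pmul g g⁻¹
  rw [mul_inv_cancel, phv_p_one R] at this
  rw [eq_neg_iff_add_eq_zero, add_comm]
  exact this.symm

private theorem phv_p_conj (v : V) (h : G) (hh : R.p h = 0) :
    R.p ((R.s v)⁻¹ * h * R.s v) = 0 := by
  rw [R.pmul, R.pmul, phv_p_inv R, R.ps, hh]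
  simp

/-- the element of `ker p` which compares `x s(v)` with `s(v + p x)` -/
private theorem phv_p_df (x : G) (v : V) :
    R.p ((R.s (v + R.p x))⁻¹ * x * R.s v) = 0 := by
  rw [R.pmul, R.pmul, phv_p_inv R, R.ps, R.ps]
  abel

variable {R} {U : Type} [NormedAddCommGroup U] [NormedSpace ℝ U]

private theorem phv_ρ_neg (W : WtV R U) (v : V) (l : U) : W.ρ (-v) (W.ρ v l) = l := by
  have h := W.ρ_add (-v) v
  rw [neg_add_cancel, W.ρ_zero] at h
  have h1 := congrArg (fun f : U →L[ℝ] U => f l) h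
  exact h1.symm

private theorem phv_ξ_conj_inv (W : WtV R U) (v : V) (h : G) (hh : R.p h = 0) :
    W.ξ ((R.s v)⁻¹ * h * R.s v) = W.ρ (-v) (W.ξ h) := by
  have h1 := W.ξ_conj v ((R.s v)⁻¹ * h * R.s v) (phv_p_conj R v h hh)
  have h2 : R.s v * ((R.s v)⁻¹ * h * R.s v) * (R.s v)⁻¹ = h := by group
  rw [h2] at h1
  rw [h1, phv_ρ_neg]

end

section
variable {A : Type u} [CStarAlgebra A] {K : Type v} [NormedAddCommGroup K]
  [InnerProductSpace ℂ K] [CompleteSpace K]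
variable {G : Type w} [Group G] [TopologicalSpace G] [IsTopologicalGroup G] {T : TrAlg A K}
  (S : TrAct G T)

/-- normalised elements with phases, from near-eigen elements for the characters `r χ(ξ)` of
`ker p`; `C` depends on `b` only -/
theorem TrAct.exists_neltV {n : ℕ} (R : VSec G (EuclideanSpace ℝ (Fin n))) {U : Type}
    [NormedAddCommGroup U] [NormedSpace ℝ U] [FiniteDimensional ℝ U] (W : WtV R U)
    (χ : U →L[ℝ] ℝ) (b : A) (hb : S.IsPrj b)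
    (hE : ∃ c : ℝ, 0 < c ∧ ∀ (r : ℝ) (D : Set G), IsCompact D → ∀ κ : ℝ, 0 < κ →
      ∃ e : A, b * e = e ∧ e * b = e ∧ ‖e‖ ≤ 1 ∧ c ≤ ‖T.ι e‖ ^ 2 ∧
        ∀ h ∈ D, R.p h = 0 → ‖T.ι (S.α h e - ch (r * χ (W.ξ h)) • e)‖ ≤ κ) :
    ∃ C : ℝ, 0 < C ∧ ∀ (T1 : ℝ) (D : Set G), IsCompact D → ∀ κ : ℝ, 0 < κ → ∀ Λ : Set U,
      Λ.Finite → ∃ (e : A) (β : U → G), S.NEltV R (W.ph χ) b T1 D κ Λ C e β := by
  obtain ⟨c, hc, hE⟩ := hE
  have hsc : 0 < √c := Real.sqrt_pos.2 hc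
  refine ⟨1 / c, by positivity, fun T1 D hD κ0 hκ0 Λ hΛ => ?_⟩
  obtain ⟨κ, hκe⟩ : ∃ κ, κ = κ0 * √c := ⟨_, rfl⟩
  have hκ : 0 < κ := by rw [hκe]; positivity
  obtain ⟨I, hI⟩ : ∃ I : Set (EuclideanSpace ℝ (Fin n)), I = {v | sn v ≤ T1} := ⟨_, rfl⟩
  have hIc : IsCompact I := by
    rw [hI]
    exact isCompact_sn T1
  have hmemI : ∀ v : EuclideanSpace ℝ (Fin n), sn v ≤ T1 → v ∈ I := fun v hv => by
    rw [hI]
    exact hv
  -- the conjugates and the defects of the section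
  obtain ⟨cj, hcj⟩ : ∃ cj : G × EuclideanSpace ℝ (Fin n) → G,
      cj = fun x => (R.s x.2)⁻¹ * x.1 * R.s x.2 := ⟨_, rfl⟩
  have hcjc : Continuous cj := by
    rw [hcj]
    have h1 : Continuous fun x : G × EuclideanSpace ℝ (Fin n) => R.s x.2 :=
      R.hs.comp continuous_snd
    exact (h1.inv.mul continuous_fst).mul h1
  obtain ⟨df, hdf⟩ : ∃ df : G × EuclideanSpace ℝ (Fin n) → G,
      df = fun x => (R.s (x.2 + R.p x.1))⁻¹ * x.1 * R.s x.2 := ⟨_, rfl⟩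
  have hdfc : Continuous df := by
    rw [hdf]
    have h1 : Continuous fun x : G × EuclideanSpace ℝ (Fin n) => R.s (x.2 + R.p x.1) :=
      R.hs.comp (continuous_snd.add (R.hp.comp continuous_fst))
    exact (h1.inv.mul continuous_fst).mul (R.hs.comp continuous_snd)
  -- bounds
  obtain ⟨B', hB'⟩ : ∃ B : ℝ, ∀ x ∈ D ×ˢ I, ‖W.ξ (df x)‖ ≤ B := by
    obtain ⟨B, hB⟩ := ((hD.prod hIc).image (W.hξ.comp hdfc).norm).bddAbove
    exact ⟨B, fun h hh => hB ⟨h, hh, rfl⟩⟩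
  obtain ⟨B2, hB2⟩ : ∃ B2, B2 = max B' 0 := ⟨_, rfl⟩
  have hB20 : 0 ≤ B2 := by rw [hB2]; exact le_max_right _ _
  obtain ⟨L, hL⟩ : ∃ L, L = ‖χ‖ * B2 := ⟨_, rfl⟩
  have hL0 : 0 ≤ L := by rw [hL]; positivity
  obtain ⟨r, hr⟩ : ∃ r, r = κ / (2 * (L + 1)) := ⟨_, rfl⟩
  have hr0 : 0 < r := by rw [hr]; positivity
  have hrL : r * L ≤ κ / 2 := by
    have h1 : r * (L + 1) = κ / 2 := by
      rw [hr]
      field_simp
    nlinarith
  have hsmall : ∀ l : U, ‖l‖ ≤ B2 → |r * χ l| ≤ κ / 2 := by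
    intro l hl
    rw [abs_mul, abs_of_pos hr0]
    refine le_trans (mul_le_mul_of_nonneg_left ?_ hr0.le) hrL
    rw [← Real.norm_eq_abs, hL]
    exact (χ.le_opNorm _).trans (mul_le_mul_of_nonneg_left hl (norm_nonneg _))
  choose ω hωp hωξ using W.ξ_surj
  obtain ⟨β, hβ⟩ : ∃ β : U → G, β = fun l => ω (r⁻¹ • l) := ⟨_, rfl⟩
  have hβp : ∀ l, R.p (β l) = 0 := fun l => by rw [hβ]; exact hωp _
  obtain ⟨D', hD'⟩ : ∃ D' : Set G,
      D' = cj '' ((β '' Λ) ×ˢ I) ∪ df '' (D ×ˢ I) := ⟨_, rfl⟩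
  have hD'c : IsCompact D' := by
    rw [hD']
    exact (((hΛ.image β).isCompact.prod hIc).image hcjc).union ((hD.prod hIc).image hdfc)
  obtain ⟨e, he1, he2, he3, he4, he5⟩ := hE r D' hD'c (κ / 2) (by linarith)
  have hιe : ‖T.ι e‖ ≤ 1 := (T.norm_le e).trans he3
  -- near-invariance of `e` under elements with a small value of the character
  have hfix : ∀ h ∈ D', R.p h = 0 → ‖W.ξ h‖ ≤ B2 → ‖T.ι (S.α h e - e)‖ ≤ κ := by
    intro h hh hp hξ
    have h2 := he5 h hh hp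
    have h5 : S.α h e - e = (S.α h e - ch (r * χ (W.ξ h)) • e)
        + (ch (r * χ (W.ξ h)) - 1) • e := by
      rw [sub_smul, one_smul]
      abel
    rw [h5, map_add, map_smul]
    refine (norm_add_le _ _).trans ?_
    rw [norm_smul]
    have h6 : ‖ch (r * χ (W.ξ h)) - 1‖ * ‖T.ι e‖ ≤ κ / 2 * 1 :=
      mul_le_mul ((norm_ch_sub_one_le _).trans (hsmall _ hξ)) hιe (norm_nonneg _) (by linarith)
    linarith
  have hmove : ∀ (h : G) (v : EuclideanSpace ℝ (Fin n)) (z : ℂ),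
      ‖T.ι (S.α h (S.α (R.s v) e) - z • S.α (R.s v) e)‖
      = ‖T.ι (S.α (cj (h, v)) e - z • e)‖ := by
    intro h v z
    have e1 : R.s v * cj (h, v) = h * R.s v := by
      rw [hcj]
      group
    rw [← S.norm_map (R.s v) (S.α (cj (h, v)) e - z • e), map_sub (S.α (R.s v)), map_smul,
      ← S.mul, ← S.mul, e1]
  have hcjp : ∀ (h : G) (v : EuclideanSpace ℝ (Fin n)), R.p h = 0 → R.p (cj (h, v)) = 0 :=
    fun h v hh => by
      rw [hcj]
      exact phv_p_conj R v h hh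
  have hcjξ : ∀ (h : G) (v : EuclideanSpace ℝ (Fin n)), R.p h = 0 →
      W.ξ (cj (h, v)) = W.ρ (-v) (W.ξ h) :=
    fun h v hh => by
      rw [hcj]
      exact phv_ξ_conj_inv W v h hh
  have near : ∀ x ∈ D, ∀ v : EuclideanSpace ℝ (Fin n), sn v ≤ T1 →
      ‖T.ι (S.α x (S.α (R.s v) e) - S.α (R.s (v + R.p x)) e)‖ ≤ κ := by
    intro x hxD v hv
    have e1 : R.s (v + R.p x) * df (x, v) = x * R.s v := by
      rw [hdf]
      group
    have e2 : ‖T.ι (S.α x (S.α (R.s v) e) - S.α (R.s (v + R.p x)) e)‖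
        = ‖T.ι (S.α (df (x, v)) e - e)‖ := by
      rw [← S.norm_map (R.s (v + R.p x)) (S.α (df (x, v)) e - e),
        map_sub (S.α (R.s (v + R.p x))), ← S.mul, ← S.mul, e1]
    rw [e2]
    have hx : (x, v) ∈ D ×ˢ I := ⟨hxD, hmemI v hv⟩
    have hmem : df (x, v) ∈ D' := by
      rw [hD']
      exact Or.inr ⟨(x, v), hx, rfl⟩
    refine hfix _ hmem ?_ ?_
    · rw [hdf]
      exact phv_p_df R x v
    · exact (hB' _ hx).trans (by rw [hB2]; exact le_max_left _ _)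
  have phase : ∀ l ∈ Λ, ∀ v : EuclideanSpace ℝ (Fin n), sn v ≤ T1 →
      ‖T.ι (S.α (β l) (S.α (R.s v) e) - W.ph χ l v • S.α (R.s v) e)‖ ≤ κ := by
    intro l hl v hv
    have hvI := hmemI v hv
    rw [hmove (β l) v]
    have hmem : cj (β l, v) ∈ D' := by
      rw [hD']
      exact Or.inl ⟨(β l, v), ⟨⟨l, hl, rfl⟩, hvI⟩, rfl⟩
    have h2 := he5 _ hmem (hcjp _ v (hβp l))
    have h4 : r * χ (W.ξ (cj (β l, v))) = χ (W.ρ (-v) l) := by
      rw [hcjξ _ v (hβp l), hβ]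
      dsimp only
      rw [hωξ, map_smul, map_smul, smul_eq_mul, mul_inv_cancel_left₀ hr0.ne']
    rw [h4] at h2
    refine h2.trans ?_
    linarith
  -- normalisation
  have hne : √c ≤ ‖T.ι e‖ := by
    rw [← Real.sqrt_sq (norm_nonneg (T.ι e))]
    exact Real.sqrt_le_sqrt he4
  have hn0 : 0 < ‖T.ι e‖ := hsc.trans_le hne
  have hsm : ∀ x : A, ‖T.ι x‖ ≤ κ → ‖T.ι (((‖T.ι e‖⁻¹ : ℝ) : ℂ) • x)‖ ≤ κ0 := by
    intro x hx
    rw [map_smul, norm_smul, Complex.norm_real, norm_inv, norm_norm]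
    have h1 : ‖T.ι e‖⁻¹ * ‖T.ι x‖ ≤ (√c)⁻¹ * κ :=
      mul_le_mul (inv_anti₀ hsc hne) hx (norm_nonneg _) (inv_nonneg.2 hsc.le)
    refine h1.trans (le_of_eq ?_)
    rw [hκe, mul_comm κ0, inv_mul_cancel_left₀ hsc.ne']
  refine ⟨((‖T.ι e‖⁻¹ : ℝ) : ℂ) • e, β, ⟨?_, ?_, ?_, ?_, ?_, hβp, ?_⟩⟩
  · rw [mul_smul_comm, he1]
  · rw [smul_mul_assoc, he2]
  · rw [map_smul, norm_smul, Complex.norm_real, norm_inv, norm_norm, inv_mul_cancel₀ hn0.ne']
  · rw [norm_smul, Complex.norm_real, norm_inv, norm_norm, mul_pow]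
    have h1 : ‖e‖ ^ 2 ≤ 1 := pow_le_one₀ (norm_nonneg _) he3
    have h2 : (‖T.ι e‖⁻¹) ^ 2 ≤ 1 / c := by
      rw [inv_pow, one_div]
      exact inv_anti₀ hc he4
    calc (‖T.ι e‖⁻¹) ^ 2 * ‖e‖ ^ 2 ≤ 1 / c * 1 :=
          mul_le_mul h2 h1 (sq_nonneg _) (by positivity)
      _ = 1 / c := mul_one _
  · intro x hx v hv
    have h1 := hsm _ (near x hx v hv)
    rw [smul_sub] at h1
    rw [map_smul, map_smul, map_smul]
    exact h1
  · intro l hl v hv
    have h1 := hsm _ (phase l hl v hv)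
    rw [smul_sub, smul_comm] at h1
    rw [map_smul, map_smul]
    exact h1

end

end Pool.Agent.AbCoc
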