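import Pool.Agent.Lib_MP_418a80_t4.V0
import Pool.Agent.Lib_MP_418a80_t3.SW

/-!
# MP_418a80_an, T4 (abelian step): Stone-Weierstrass
-/

set_option autoImplicit false
set_option linter.unusedVariables false
set_option linter.unusedSectionVars false

open Topology Filter MeasureTheory
open scoped RealInnerProductSpace ComplexConjugate

namespace Pool.Agent.AbCoc

universe u v w z

/-- functions which depend on `χ ∘ ρ(-v)` only are uniform limits of trigonometric polynomials in the
phases, on compact sets -/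
theorem sw_phasesV {V : Type z} [NormedAddCommGroup V] [InnerProductSpace ℝ V]
    [FiniteDimensional ℝ V] {U : Type*} [NormedAddCommGroup U] [NormedSpace ℝ U]
    [FiniteDimensional ℝ U] (ρ : V → U →L[ℝ] U) (hρ : Continuous ρ) (χ : U →L[ℝ] ℝ) (T1 : ℝ)
    (φ : V → ℂ) (hφ : Continuous φ)
    (hfac : ∀ v v', χ.comp (ρ (-v)) = χ.comp (ρ (-v')) → φ v = φ v') (ε : ℝ) (hε : 0 < ε) :
    ∃ (m : ℕ) (k : Fin m → U) (h : Fin m → ℂ), ∀ v : V, ‖v‖ ≤ T1 →
      ‖φ v - ∑ i, h i * ch (χ (ρ (-v) (k i)))‖ ≤ ε := by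
  classical
  haveI : ProperSpace V := FiniteDimensional.proper_real V
  set X := Metric.closedBall (0 : V) T1 with hX
  haveI : CompactSpace X := isCompact_iff_compactSpace.1 (isCompact_closedBall 0 T1)
  let q : X → (U →L[ℝ] ℝ) := fun v => χ.comp (ρ (-(v : V)))
  have hq : Continuous q :=
    (ContinuousLinearMap.compL ℝ U U ℝ χ).continuous.comp (hρ.comp (continuous_subtype_val.neg))
  let Y := Set.range q
  haveI : CompactSpace Y := isCompact_iff_compactSpace.1 (isCompact_range hq)
  let q' : X → Y := fun v => ⟨q v, v, rfl⟩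
  have hq' : Continuous q' := hq.subtype_mk _
  have hsurj : Function.Surjective q' := by
    rintro ⟨y, v, rfl⟩
    exact ⟨v, rfl⟩
  have hquot : IsQuotientMap q' := hq'.isClosedMap.isQuotientMap hq' hsurj
  choose pre hpre using hsurj
  let ψ : Y → ℂ := fun y => φ (pre y)
  have hψq : ∀ v, ψ (q' v) = φ v := by
    intro v
    exact hfac _ _ (congrArg Subtype.val (hpre (q' v)))
  have hψ : Continuous ψ := by
    rw [hquot.continuous_iff]
    have : ψ ∘ q' = fun v : X => φ v := funext hψq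
    rw [this]
    exact hφ.comp continuous_subtype_val
  have hfc : ∀ l : U, Continuous fun y : Y => ch ((y : U →L[ℝ] ℝ) l) := fun l =>
    sw_ch_cont.comp (continuous_subtype_val.clm_apply continuous_const)
  let E : Multiplicative U →* C(Y, ℂ) :=
    { toFun := fun l => ⟨fun y : Y => ch ((y : U →L[ℝ] ℝ) (Multiplicative.toAdd l)), hfc _⟩
      map_one' := by
        ext y
        show ch ((y : U →L[ℝ] ℝ) 0) = 1
        rw [map_zero, sw_ch_zero]
      map_mul' := by
        intro a b
        ext y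
        show ch ((y : U →L[ℝ] ℝ) (Multiplicative.toAdd a + Multiplicative.toAdd b)) =
          ch ((y : U →L[ℝ] ℝ) (Multiplicative.toAdd a)) * ch ((y : U →L[ℝ] ℝ) (Multiplicative.toAdd b))
        rw [map_add, sw_ch_add] }
  have hEs : ∀ l, star (E l) = E (l⁻¹) := by
    intro l
    ext y
    show star (ch ((y : U →L[ℝ] ℝ) (Multiplicative.toAdd l))) =
      ch ((y : U →L[ℝ] ℝ) (-(Multiplicative.toAdd l)))
    rw [map_neg, sw_ch_neg]
  have hstar : star (Set.range E) = Set.range E := by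
    ext f
    rw [Set.mem_star]
    constructor
    · rintro ⟨l, hl⟩
      exact ⟨l⁻¹, by rw [← hEs, hl, star_star]⟩
    · rintro ⟨l, hl⟩
      exact ⟨l⁻¹, by rw [← hEs, hl]⟩
  let A : StarSubalgebra ℂ C(Y, ℂ) := StarAlgebra.adjoin ℂ (Set.range E)
  have hAspan : ∀ f ∈ A, f ∈ Submodule.span ℂ (Set.range E) := by
    intro f hf
    have h1 : f ∈ A.toSubalgebra := hf
    rw [StarAlgebra.adjoin_toSubalgebra, hstar, Set.union_self] at h1
    have h2 : f ∈ Subalgebra.toSubmodule (Algebra.adjoin ℂ (Set.range E)) := h1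
    rw [Algebra.adjoin_eq_span] at h2
    have h3 : (Submonoid.closure (Set.range E) : Set C(Y, ℂ)) = Set.range E := by
      rw [← MonoidHom.coe_mrange, Submonoid.closure_eq]
    rwa [h3] at h2
  have hsep : A.SeparatesPoints := by
    intro y y' hyy
    have hl : ∃ l : U, ch ((y : U →L[ℝ] ℝ) l) ≠ ch ((y' : U →L[ℝ] ℝ) l) := by
      by_contra hcon
      push Not at hcon
      apply hyy
      apply Subtype.ext
      ext l
      by_contra h2
      set d := (y : U →L[ℝ] ℝ) l - (y' : U →L[ℝ] ℝ) l with hd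
      have hd0 : d ≠ 0 := sub_ne_zero.2 h2
      obtain ⟨n, hn⟩ := sw_ch_eq (hcon ((Real.pi / d) • l))
      rw [map_smul, map_smul, smul_eq_mul, smul_eq_mul, ← mul_sub, ← hd,
        div_mul_cancel₀ _ hd0] at hn
      have h3 : (1 : ℝ) = n * 2 := by
        have hpi := Real.pi_ne_zero
        have : Real.pi * 1 = Real.pi * (n * 2) := by linarith
        exact mul_left_cancel₀ hpi this
      have h4 : (1 : ℤ) = n * 2 := by exact_mod_cast h3
      omega
    obtain ⟨l, hl⟩ := hl
    refine ⟨fun x => E (Multiplicative.ofAdd l) x, ⟨E (Multiplicative.ofAdd l), ?_, rfl⟩, hl⟩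
    exact StarAlgebra.subset_adjoin ℂ _ ⟨_, rfl⟩
  have htop := ContinuousMap.starSubalgebra_topologicalClosure_eq_top_of_separatesPoints A hsep
  let f0 : C(Y, ℂ) := ⟨ψ, hψ⟩
  have hf0 : f0 ∈ A.topologicalClosure := by
    rw [htop]
    trivial
  have hf1 : f0 ∈ closure (A : Set C(Y, ℂ)) := hf0
  rw [Metric.mem_closure_iff] at hf1
  obtain ⟨a, ha, hda⟩ := hf1 ε hε
  obtain ⟨n, c, gg, hsum⟩ := Submodule.mem_span_set'.1 (hAspan a ha)
  choose kk hkk using fun i => (gg i).2
  refine ⟨n, fun i => Multiplicative.toAdd (kk i), c, fun v hv => ?_⟩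
  have hvX : v ∈ X := by
    rw [hX, mem_closedBall_zero_iff]
    exact hv
  have h1 : a (q' ⟨v, hvX⟩) = ∑ i, c i * ch (χ (ρ (-v) (Multiplicative.toAdd (kk i)))) := by
    rw [← hsum, ContinuousMap.sum_apply]
    refine Finset.sum_congr rfl fun i _ => ?_
    rw [← hkk i]
    rfl
  rw [← h1, ← hψq ⟨v, hvX⟩]
  have h2 := ContinuousMap.dist_apply_le_dist (f := f0) (g := a) (q' ⟨v, hvX⟩)
  rw [dist_eq_norm] at h2
  exact h2.trans hda.le

end Pool.Agent.AbCoc
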