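import Pool.Agent.Lib_MP_418a80_t4.InvV
import Pool.Agent.Lib_MP_418a80_t4.SwV
import Pool.Agent.Lib_MP_418a80_t4.PhV

/-!
# MP_418a80_an, T4 (abelian step): types from the periodic lemma
-/

set_option autoImplicit false
set_option linter.unusedVariables false
set_option linter.unusedSectionVars false

open Topology Filter MeasureTheory
open scoped RealInnerProductSpace ComplexConjugate

namespace Pool.Agent.AbCoc

universe u v w z

private theorem coreV_pos {I : Type*} [Finite I] (δ : I → ℝ) (h : ∀ i, 0 < δ i) :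
    ∃ δ0 : ℝ, 0 < δ0 ∧ ∀ i, δ0 ≤ δ i := by
  rcases isEmpty_or_nonempty I with hI | hI
  · exact ⟨1, one_pos, fun i => hI.elim i⟩
  · obtain ⟨i0, hi0⟩ := Finite.exists_min δ
    exact ⟨δ i0, h i0, hi0⟩

private theorem coreV_gf_mul {n : ℕ} (a T0 : ℝ) (w F : EuclideanSpace ℝ (Fin n) → ℂ) :
    gf a T0 (fun v => w v * F v) = fun j => w (a • gv j) * gf a T0 F j := by
  funext j
  unfold gf
  rw [mul_assoc]

private theorem coreV_gf_const {n : ℕ} (a T0 : ℝ) (z : ℂ) (F : EuclideanSpace ℝ (Fin n) → ℂ) :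
    gf a T0 (fun v => z * F v) = fun j => z * gf a T0 F j := by
  funext j
  unfold gf
  rw [mul_assoc]

section
variable {A : Type u} [CStarAlgebra A] {K : Type v} [NormedAddCommGroup K]
  [InnerProductSpace ℂ K] [CompleteSpace K]
variable {G : Type w} [Group G] [TopologicalSpace G] [IsTopologicalGroup G] {T : TrAlg A K}
  (S : TrAct G T)

private theorem coreV_disp {n : ℕ} (R : VSec G (EuclideanSpace ℝ (Fin n))) {a T0 : ℝ} (ha : 0 < a)
    (haT : a ≤ T0) (E : Chs (Fin n → ℤ) (gbox n (gN (a / T0)))) {e : A} (he : ‖T.ι e‖ = 1)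
    (F F1 : EuclideanSpace ℝ (Fin n) → ℂ) (g : G) (ζ : E.C → ℂ) (hζ : ∀ c, ‖ζ c‖ = 1) (z : ℂ)
    {ω εm dl : ℝ}
    (h1 : ∑ c, ‖T.ι (S.α g (S.pf R E e F c) - ζ c • S.pf R E e F1 c)‖ ^ 2 ≤ εm ^ 2)
    (h2 : ∀ w, ‖F1 w - z * F w‖ ≤ ω) (h3 : 2 * εm ^ 2 + 8 * 13 ^ n * ω ^ 2 ≤ dl ^ 2) :
    ∑ c, ‖T.ι (S.α g (S.pf R E e F c) - (ζ c * z) • S.pf R E e F c)‖ ^ 2 ≤ dl ^ 2 := by
  have hx : ∀ j, ‖T.ι (S.xg R a e j)‖ ≤ 1 := by
    intro j
    unfold TrAct.xg
    rw [S.norm_map, he]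
  have h4 : ∑ c, ‖T.ι (S.pf R E e F1 c - z • S.pf R E e F c)‖ ^ 2 ≤ 4 * 13 ^ n * ω ^ 2 := by
    have e1 : ∀ c, S.pf R E e F1 c - z • S.pf R E e F c =
        pkx E (S.xg R a e) (fun j => gf a T0 F1 j - gf a T0 (fun v => z * F v) j) c := by
      intro c
      have e2 := pkx_sub E (S.xg R a e) (gf a T0 F1) (gf a T0 (fun v => z * F v)) c
      rw [← e2, coreV_gf_const, pkx_smul]
      rfl
    have e3 := pkx_norm_le E (S.xg R a e) T hx
      (fun j => gf a T0 F1 j - gf a T0 (fun v => z * F v) j)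
    have e4 := gf_sub_sq (n := n) ha haT h2
    calc ∑ c, ‖T.ι (S.pf R E e F1 c - z • S.pf R E e F c)‖ ^ 2
        = ∑ c, ‖T.ι (pkx E (S.xg R a e)
            (fun j => gf a T0 F1 j - gf a T0 (fun v => z * F v) j) c)‖ ^ 2 :=
          Finset.sum_congr rfl fun c _ => by rw [e1 c]
      _ ≤ _ := e3
      _ ≤ _ := e4
  have key : ∀ c, ‖T.ι (S.α g (S.pf R E e F c) - (ζ c * z) • S.pf R E e F c)‖ ^ 2
      ≤ 2 * ‖T.ι (S.α g (S.pf R E e F c) - ζ c • S.pf R E e F1 c)‖ ^ 2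
        + 2 * ‖T.ι (S.pf R E e F1 c - z • S.pf R E e F c)‖ ^ 2 := by
    intro c
    generalize S.pf R E e F c = P
    generalize S.pf R E e F1 c = P1
    have e1 : S.α g P - (ζ c * z) • P = (S.α g P - ζ c • P1) + ζ c • (P1 - z • P) := by
      rw [smul_sub, smul_smul]
      abel
    have e2 : ‖T.ι (ζ c • (P1 - z • P))‖ = ‖T.ι (P1 - z • P)‖ := by
      rw [map_smul, norm_smul, hζ, one_mul]
    rw [e1, map_add]
    have e3 := norm_add_le (T.ι (S.α g P - ζ c • P1)) (T.ι (ζ c • (P1 - z • P)))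
    rw [e2] at e3
    have e4 := pow_le_pow_left₀ (norm_nonneg _) e3 2
    refine e4.trans ?_
    nlinarith [sq_nonneg (‖T.ι (S.α g P - ζ c • P1)‖ - ‖T.ι (P1 - z • P)‖)]
  refine (Finset.sum_le_sum fun c _ => key c).trans ?_
  rw [Finset.sum_add_distrib, ← Finset.mul_sum, ← Finset.mul_sum]
  linarith

/-- the core of the abelian step: in the corner `b` the periodic lemma holds at all relevant
precisions, hence there are families of type `q` in `b` -/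
theorem TrAct.types_of_perV {n : ℕ} (R : VSec G (EuclideanSpace ℝ (Fin n))) {U : Type}
    [NormedAddCommGroup U] [NormedSpace ℝ U] [FiniteDimensional ℝ U] (W : WtV R U)
    (χ : U →L[ℝ] ℝ) (q : EuclideanSpace ℝ (Fin n))
    (hq : ∀ v, χ.comp (W.ρ v) = χ → ch ⟪q, v⟫ = 1) (s0 : EuclideanSpace ℝ (Fin n))
    (hfix : ∀ l, W.ρ s0 l = l → l = 0) (T1 η Kc : ℝ) (hT1 : 0 < T1) (hη : 0 < η) (hKc : 0 < Kc) :
    ∃ ε δ : ℝ, 0 < ε ∧ 0 < δ ∧ ∀ b : A, S.IsPrj b → S.PerV R b s0 ε δ (Kc * ε) →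
      (∃ C : ℝ, 0 < C ∧ ∀ (T1 : ℝ) (D : Set G), IsCompact D → ∀ κ : ℝ, 0 < κ → ∀ Λ : Set U,
        Λ.Finite → ∃ (e : A) (β : U → G), S.NEltV R (W.ph χ) b T1 D κ Λ C e β) →
      ∃ C c : ℝ, 0 < c ∧ ∀ D : Set G, IsCompact D → ∀ κ : ℝ, 0 < κ →
        ∃ (J : Type) (_ : Fintype J) (y : J → A), (∀ j, b * y j = y j) ∧ (∀ j, y j * b = y j) ∧
          T.Dm C y ∧ c ≤ T.ms y ∧
          (∀ h ∈ D, R.p h = 0 → ∑ j, ‖T.ι (S.α h (y j) - y j)‖ ^ 2 ≤ κ) ∧
          (∀ v, ‖v‖ ≤ T1 →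
            ∑ j, ‖T.ι (S.α (R.s v) (y j) - ch ⟪q, v⟫ • y j)‖ ^ 2 ≤ η * T.ms y) := by
  classical
  -- tolerances
  obtain ⟨ε, hε⟩ : ∃ ε : ℝ, ε = ((1 / 16 : ℝ) / 8) ^ 2 / 4 / Kc := ⟨_, rfl⟩
  have hε0 : 0 < ε := by rw [hε]; positivity
  have hKε : Kc * ε = ((1 / 16 : ℝ) / 8) ^ 2 / 4 := by rw [hε]; field_simp
  obtain ⟨dl, hdl⟩ : ∃ dl : ℝ, dl = η / 64 := ⟨_, rfl⟩
  have hdl0 : 0 < dl := by rw [hdl]; positivity
  have h13 : (0 : ℝ) < 13 ^ n := by positivity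
  have hs13 : 0 < √((13 : ℝ) ^ n) := Real.sqrt_pos.2 h13
  obtain ⟨T0, hT0⟩ : ∃ T0 : ℝ, T0 = sn s0 + T1 + T1 * (4 * √((13 : ℝ) ^ n)) / dl := ⟨_, rfl⟩
  have hq0 : 0 < T1 * (4 * √((13 : ℝ) ^ n)) / dl := by positivity
  have hsn := sn_nonneg s0
  have hT00 : 0 < T0 := by rw [hT0]; linarith
  have hsT0 : sn s0 ≤ T0 := by rw [hT0]; linarith
  have hTT0 : T1 ≤ T0 := by rw [hT0]; linarith
  have hω : 8 * 13 ^ n * (T1 / T0) ^ 2 ≤ dl ^ 2 / 2 := by
    have h1 : T1 / T0 ≤ dl / (4 * √((13 : ℝ) ^ n)) := by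
      rw [div_le_div_iff₀ hT00 (by positivity)]
      have h2 : T1 * (4 * √((13 : ℝ) ^ n)) / dl ≤ T0 := by rw [hT0]; linarith
      rw [div_le_iff₀ hdl0] at h2
      linarith
    have h3 := pow_le_pow_left₀ (by positivity) h1 2
    have h4 : (dl / (4 * √((13 : ℝ) ^ n))) ^ 2 = dl ^ 2 / (16 * 13 ^ n) := by
      rw [div_pow, mul_pow, Real.sq_sqrt h13.le]
      norm_num
    rw [h4] at h3
    calc 8 * 13 ^ n * (T1 / T0) ^ 2 ≤ 8 * 13 ^ n * (dl ^ 2 / (16 * 13 ^ n)) :=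
          mul_le_mul_of_nonneg_left h3 (by positivity)
      _ = dl ^ 2 / 2 := by
          field_simp
          norm_num
  -- the functions
  obtain ⟨F, hFd⟩ : ∃ F : EuclideanSpace ℝ (Fin n) → ℂ, F = fun v => (hatV T0 v : ℂ) := ⟨_, rfl⟩
  obtain ⟨uu, hud⟩ : ∃ u : EuclideanSpace ℝ (Fin n) → ℂ, u = fun v => ch ⟪q, v⟫ := ⟨_, rfl⟩
  have huc : Continuous uu := by
    rw [hud]
    exact continuous_ch.comp (continuous_const.inner continuous_id)
  have hun : ∀ v, ‖uu v‖ = 1 := fun v => by rw [hud]; exact norm_ch _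
  have hSF : SH T0 F := by rw [hFd]; exact SH.hat T0
  obtain ⟨Fs, hFs⟩ : ∃ Fs : Bool → EuclideanSpace ℝ (Fin n) → ℂ,
      ∀ x v, Fs x v = if x then uu v * F v else F v := ⟨_, fun _ _ => rfl⟩
  have hFt : Fs true = fun v => uu v * F v := funext fun v => by rw [hFs]; rfl
  have hFf : Fs false = F := funext fun v => by rw [hFs]; rfl
  have hSFs : ∀ x, SH T0 (Fs x) := by
    intro x
    cases x
    · rw [hFf]; exact hSF
    · rw [hFt]; exact hSF.mul huc hun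
  have hFnn : ∀ v, ‖F v‖ = hatV T0 v := by
    intro v
    rw [hFd]
    show ‖((hatV T0 v : ℝ) : ℂ)‖ = _
    rw [Complex.norm_real, Real.norm_eq_abs, abs_of_nonneg (hatV_nonneg T0 v)]
  have hFn : ∀ x v, ‖Fs x v‖ = hatV T0 v := by
    intro x v
    cases x
    · rw [hFf]; exact hFnn v
    · rw [hFt]
      show ‖uu v * F v‖ = _
      rw [norm_mul, hun, one_mul, hFnn]
  have hlip : ∀ v w, ‖v‖ ≤ T1 → ‖F (w - v) - F w‖ ≤ T1 / T0 := by
    intro v w hv
    have h1 : ‖F (w - v) - F w‖ = |hatV T0 (w - v) - hatV T0 w| := by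
      rw [hFd]
      show ‖((hatV T0 (w - v) : ℝ) : ℂ) - ((hatV T0 w : ℝ) : ℂ)‖ = _
      rw [← Complex.ofReal_sub, Complex.norm_real, Real.norm_eq_abs]
    rw [h1]
    refine (hatV_lip hT00 _ _).trans ?_
    have h2 : w - v - w = -v := by abel
    rw [h2, sn_neg]
    exact div_le_div_of_nonneg_right ((sn_le_norm v).trans hv) hT00.le
  -- the phases
  have hfac : ∀ v v', χ.comp (W.ρ (-v)) = χ.comp (W.ρ (-v')) → uu v = uu v' := by
    intro v v' hvv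
    have h1 : χ.comp (W.ρ (v' - v)) = χ := by
      have h2 : v' - v = -v + v' := by abel
      rw [h2, W.ρ_add, ← ContinuousLinearMap.comp_assoc, hvv, ContinuousLinearMap.comp_assoc,
        ← W.ρ_add, neg_add_cancel, W.ρ_zero, ContinuousLinearMap.comp_id]
    have h3 := hq _ h1
    rw [inner_sub_right, ch_sub] at h3
    rw [hud]
    show ch ⟪q, v⟫ = ch ⟪q, v'⟫
    have h4 := ch_mul_conj ⟪q, v⟫
    calc ch ⟪q, v⟫ = (ch ⟪q, v'⟫ * conj (ch ⟪q, v⟫)) * ch ⟪q, v⟫ := by rw [h3, one_mul]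
      _ = ch ⟪q, v'⟫ * (ch ⟪q, v⟫ * conj (ch ⟪q, v⟫)) := by ring
      _ = ch ⟪q, v'⟫ := by rw [h4, mul_one]
  obtain ⟨m, k, h, hsw⟩ := sw_phasesV W.ρ W.hρ χ (√n * T0) uu huc hfac (1 / 32) (by norm_num)
  obtain ⟨N, hN0, hN⟩ : ∃ N : ℕ, 0 < N ∧ 2 * (∑ i, ‖h i‖) / (N : ℝ) ≤ 1 / 16 := by
    obtain ⟨N, hN⟩ := exists_nat_gt (32 * ∑ i, ‖h i‖)
    refine ⟨N + 1, Nat.succ_pos _, ?_⟩
    have h1 : (0 : ℝ) < ((N + 1 : ℕ) : ℝ) := by positivity
    rw [div_le_iff₀ h1]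
    push_cast
    linarith
  obtain ⟨lm, hlm⟩ : ∃ lm : (Fin m → Fin N) → U, ∀ r, lm r = ∑ i, (r i : ℕ) • k i :=
    ⟨_, fun _ => rfl⟩
  choose δ hδ hinv using fun i : (Fin m → Fin N) × Bool =>
    S.gram_invV W χ s0 hfix T0 hT00 hsT0 (Fs i.2) (hSFs i.2) (lm i.1) ε (1 / 16) hε0
      (by norm_num)
  obtain ⟨δ0, hδ0, hδle⟩ := coreV_pos δ hδ
  refine ⟨ε, δ0, hε0, hδ0, fun b hb hper hel => ?_⟩
  obtain ⟨C, hC, hel⟩ := hel
  have hper' : S.PerV R b s0 ε δ0 ((1 / 16 / 8) ^ 2 / 4) := by rw [← hKε]; exact hper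
  choose D1 κ1 l1 hD1 hκ1 hinv using fun i : (Fin m → Fin N) × Bool =>
    hinv i b hb (hper'.mono (hδle i)) C
  refine ⟨C, 1 / 8, by norm_num, fun D hD κ hκ => ?_⟩
  obtain ⟨εm, hεm⟩ : ∃ εm : ℝ, εm = min (dl / 2) (κ / 8) := ⟨_, rfl⟩
  have hεm0 : 0 < εm := by rw [hεm]; exact lt_min (by positivity) (by positivity)
  have hεm1 : εm ≤ dl / 2 := by rw [hεm]; exact min_le_left _ _
  have hεm2 : εm ≤ κ / 8 := by rw [hεm]; exact min_le_right _ _
  have hsum3 : 2 * εm ^ 2 + 8 * 13 ^ n * (T1 / T0) ^ 2 ≤ dl ^ 2 := by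
    have h1 : εm ^ 2 ≤ (dl / 2) ^ 2 := pow_le_pow_left₀ hεm0.le hεm1 2
    nlinarith
  choose κ2 hκ2 hmv using fun x : Bool => S.move R T0 hT00 (Fs x) (fun _ => 1)
    (((hSFs x).cf hT00).mono (by linarith)) continuous_const (fun _ => norm_one) εm hεm0
  obtain ⟨κa, hκa, hκale⟩ := coreV_pos κ1 hκ1
  obtain ⟨κb, hκb, hκble⟩ := coreV_pos κ2 hκ2
  have hD1c : IsCompact (⋃ i, D1 i) := isCompact_iUnion hD1
  have hD2c : IsCompact (R.s '' Metric.closedBall 0 T1) :=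
    (isCompact_closedBall _ _).image R.hs
  obtain ⟨e, β, he⟩ := hel (2 * T0) (D ∪ (⋃ i, D1 i) ∪ R.s '' Metric.closedBall 0 T1)
    ((hD.union hD1c).union hD2c) (min κa κb) (lt_min hκa hκb) (Set.range l1)
    (Set.finite_range l1)
  choose a0 ha0 ha0T hinv using fun i : (Fin m → Fin N) × Bool =>
    hinv i e β (he.mono le_rfl
      ((Set.subset_iUnion D1 i).trans (Set.subset_union_right.trans Set.subset_union_left))
      ((min_le_left _ _).trans (hκale i)) (Set.singleton_subset_iff.2 ⟨i, rfl⟩))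
  choose a1 ha1 ha1T hmv using fun x : Bool => hmv x e he.nrm.le
  obtain ⟨a2, ha2, ha2le⟩ := coreV_pos a0 ha0
  obtain ⟨a3, ha3, ha3le⟩ := coreV_pos a1 ha1
  obtain ⟨a, haeq⟩ : ∃ a : ℝ, a = min (min a2 a3) T0 := ⟨_, rfl⟩
  have hapos : 0 < a := by rw [haeq]; exact lt_min (lt_min ha2 ha3) hT00
  have haT : a ≤ T0 := by rw [haeq]; exact min_le_right _ _
  have haa2 : a ≤ a2 := by rw [haeq]; exact (min_le_left _ _).trans (min_le_left _ _)
  have haa3 : a ≤ a3 := by rw [haeq]; exact (min_le_left _ _).trans (min_le_right _ _)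
  obtain ⟨E⟩ := exists_chs n (gbox n (gN (a / T0)))
  obtain ⟨X, hX⟩ : ∃ X : (Fin n → ℤ) → A, X = S.xg R a e := ⟨_, rfl⟩
  have hXn : ∀ j, ‖T.ι (X j)‖ = 1 := by
    intro j
    rw [hX]
    unfold TrAct.xg
    rw [S.norm_map, he.nrm]
  have hXC : ∀ j, ‖X j‖ ^ 2 ≤ C := by
    intro j
    rw [hX]
    exact (pow_le_pow_left₀ (norm_nonneg _) (S.norm_le _ _) 2).trans he.op
  have hbX : ∀ j, b * X j = X j := by
    intro j
    rw [hX]
    unfold TrAct.xg
    calc b * S.α (R.s (a • gv j)) e = S.α (R.s (a • gv j)) b * S.α (R.s (a • gv j)) e := by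
          rw [hb.fix]
      _ = S.α (R.s (a • gv j)) e := by rw [← map_mul, he.lft]
  have hXb : ∀ j, X j * b = X j := by
    intro j
    rw [hX]
    unfold TrAct.xg
    calc S.α (R.s (a • gv j)) e * b = S.α (R.s (a • gv j)) e * S.α (R.s (a • gv j)) b := by
          rw [hb.fix]
      _ = S.α (R.s (a • gv j)) e := by rw [← map_mul, he.rgt]
  have hsq : ∀ x, ∑ j ∈ gbox n (gN (a / T0)), ‖gf a T0 (Fs x) j‖ ^ 2 = 1 :=
    fun x => gf_sq_eq_one hapos haT (hFn x)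
  have hut : gf a T0 (Fs true) = fun j => uu (a • gv j) * gf a T0 F j := by
    rw [hFt, coreV_gf_mul]
  -- the Gram elements of the two packets
  have hG : ∑ c, T.n1 (grx E X (gf a T0 (Fs true)) c - grx E X (gf a T0 F) c) ≤ 1 / 2 := by
    have key := hs_gramx E X T (fun j => (hXn j).le) (fun l j => W.ph χ l (a • gv j))
      (fun l l' j => W.ph_add χ l l' _) (fun l j => W.norm_ph χ l _) (gf a T0 F)
      (fun j => uu (a • gv j)) (by rw [← hFf]; exact (hsq false).le) (fun j => hun _) m k h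
      (1 / 32) (by norm_num) (fun j _ hj => ?_) N hN0 (1 / 16) (fun r hr => ?_)
    · rw [hut]
      linarith
    · have h1 : sn (a • gv j) ≤ T0 := gf_ne_zero (hSF.cf hT00) hj
      refine hsw (a • gv j) ((norm_le_sn _).trans ?_)
      exact mul_le_mul_of_nonneg_left h1 (Real.sqrt_nonneg _)
    · have hsum : lm (fun i => ⟨r i, hr i⟩) = ∑ i, r i • k i := hlm _
      have h1 := hinv (fun i => ⟨r i, hr i⟩, false) a hapos (haa2.trans (ha2le _)) E
      have h2 := hinv (fun i => ⟨r i, hr i⟩, true) a hapos (haa2.trans (ha2le _)) E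
      simp only [hsum, TrAct.grf, coreV_gf_mul, ← hX] at h1 h2
      rw [hFf] at h1
      rw [hut] at h2
      exact ⟨h1, h2⟩
  obtain ⟨y, hy1, hy2, hy3, hy4, hy5, hy6⟩ := S.exists_typex E X hC.le hXC hXn hb.star_eq hbX hXb
    (gf a T0 F) (gf a T0 (Fs true)) (by rw [← hFf]; exact hsq false) (hsq true) hG
  have hnear : ∀ g ∈ D ∪ (⋃ i, D1 i) ∪ R.s '' Metric.closedBall 0 T1, ∀ x : Bool,
      ∀ w, sn w ≤ 2 * T0 →
      ‖T.ι (S.α g (S.α (R.s w) e) - (fun _ => (1 : ℂ)) w • S.α (R.s (w + R.p g)) e)‖ ≤ κ2 x := by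
    intro g hg x w hw
    have h1 := he.near g hg w hw
    refine le_trans (le_of_eq ?_) (h1.trans ((min_le_right _ _).trans (hκble x)))
    rw [one_smul]
  refine ⟨E.C, E.fin, y, hy1, hy2, hy3, hy4, fun g hg hp => ?_, fun v hv => ?_⟩
  · -- elements of the kernel
    have hpk : ∀ x, ∑ c, ‖T.ι (S.α g (pkx E X (gf a T0 (Fs x)) c)
        - (1 : ℂ) • pkx E X (gf a T0 (Fs x)) c)‖ ^ 2 ≤ εm ^ 2 := by
      intro x
      have h1 := hmv x a hapos (haa3.trans (ha3le x)) g (by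
        rw [hp]
        have : sn (0 : EuclideanSpace ℝ (Fin n)) = 0 := by
          unfold sn
          simp
        rw [this]
        exact hT00.le) (hnear g (Or.inl (Or.inl hg)) x) E
      simp only [hp, rd_zero, Chs.zero, map_one, sub_zero, one_mul] at h1
      rw [hX]
      exact h1
    have h1 := hy6 g (fun _ => 1) (fun _ => 1) εm (fun _ => norm_one) (fun _ => norm_one) hεm0.le
      (by rw [← hFf]; exact hpk false) (hpk true)
    simp only [map_one, one_mul, one_smul] at h1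
    linarith
  · -- the section
    have hgD : R.s v ∈ D ∪ (⋃ i, D1 i) ∪ R.s '' Metric.closedBall 0 T1 :=
      Or.inr ⟨v, mem_closedBall_zero_iff.2 hv, rfl⟩
    have hsv : sn (R.p (R.s v)) ≤ T0 := by
      rw [R.ps]
      exact (sn_le_norm v).trans (hv.trans hTT0)
    have hζ : ∀ c, ‖conj (E.χ c (rd a v))‖ = 1 := fun c => by rw [RCLike.norm_conj, E.unit]
    have hmv' : ∀ x, ∑ c, ‖T.ι (S.α (R.s v) (S.pf R E e (Fs x) c)
        - conj (E.χ c (rd a v)) • S.pf R E e (fun w => 1 * Fs x (w - v)) c)‖ ^ 2 ≤ εm ^ 2 := by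
      intro x
      have h1 := hmv x a hapos (haa3.trans (ha3le x)) (R.s v) hsv (hnear _ hgD x) E
      rw [R.ps] at h1
      exact h1
    have hf1 := coreV_disp S R hapos haT E he.nrm (Fs false) (fun w => 1 * Fs false (w - v))
      (R.s v) (fun c => conj (E.χ c (rd a v))) hζ 1 (hmv' false) (ω := T1 / T0) (dl := dl)
      (fun w => by
        rw [hFf]
        show ‖1 * F (w - v) - 1 * F w‖ ≤ _
        rw [one_mul, one_mul]
        exact hlip v w hv) hsum3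
    have hf2 := coreV_disp S R hapos haT E he.nrm (Fs true) (fun w => 1 * Fs true (w - v))
      (R.s v) (fun c => conj (E.χ c (rd a v))) hζ (ch (-⟪q, v⟫)) (hmv' true) (ω := T1 / T0)
      (dl := dl)
      (fun w => by
        rw [hFt]
        show ‖1 * (uu (w - v) * F (w - v)) - ch (-⟪q, v⟫) * (uu w * F w)‖ ≤ _
        have h1 : uu (w - v) = ch (-⟪q, v⟫) * uu w := by
          rw [hud]
          show ch ⟪q, w - v⟫ = ch (-⟪q, v⟫) * ch ⟪q, w⟫
          rw [← ch_add, inner_sub_right]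
          congr 1
          ring
        have h2 : 1 * (uu (w - v) * F (w - v)) - ch (-⟪q, v⟫) * (uu w * F w) =
            ch (-⟪q, v⟫) * uu w * (F (w - v) - F w) := by
          rw [h1]
          ring
        rw [h2, norm_mul, norm_mul, norm_ch, hun, one_mul, one_mul]
        exact hlip v w hv) hsum3
    have h1 := hy6 (R.s v) (fun c => conj (E.χ c (rd a v)) * 1)
      (fun c => conj (E.χ c (rd a v)) * ch (-⟪q, v⟫)) dl
      (fun c => by rw [mul_one]; exact hζ c)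
      (fun c => by rw [norm_mul, hζ, norm_ch, one_mul]) hdl0.le
      (by rw [← hFf, hX]; exact hf1) (by rw [hX]; exact hf2)
    have h2 : ∀ c, conj (E.χ c (rd a v)) * 1 * conj (conj (E.χ c (rd a v)) * ch (-⟪q, v⟫))
        = ch ⟪q, v⟫ := by
      intro c
      have h3 := E.conj_mul_self c (rd a v)
      rw [map_mul, Complex.conj_conj, conj_ch, neg_neg, mul_one, ← mul_assoc, h3, one_mul]
    have h3 : ∑ c, ‖T.ι (S.α (R.s v) (y c) - ch ⟪q, v⟫ • y c)‖ ^ 2 ≤ 8 * dl := by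
      refine le_trans (le_of_eq ?_) h1
      exact Finset.sum_congr rfl fun c _ => by rw [h2 c]
    refine h3.trans ?_
    have h4 : 8 * dl = η * (1 / 8) := by rw [hdl]; ring
    rw [h4]
    exact mul_le_mul_of_nonneg_left hy4 hη.le

end

end Pool.Agent.AbCoc
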