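import Pool.Agent.Lib_MP_418a80_t3.Fam

/-!
# MP_418a80_an, T4: a closed subgroup of a Euclidean space is separated from its complement by
characters
-/

set_option autoImplicit false

open Topology Filter
open scoped RealInnerProductSpace

namespace Pool.Agent.AbCoc

universe z

private theorem ch_eq_one_iff (t : ℝ) : ch t = 1 ↔ ∃ n : ℤ, t = 2 * Real.pi * n := by
  unfold ch
  rw [Complex.exp_eq_one_iff]
  constructor
  · rintro ⟨n, hn⟩
    refine ⟨n, ?_⟩
    have h1 := congrArg (fun w => w * (-Complex.I)) hn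
    simp only [mul_neg, mul_assoc, Complex.I_mul_I, mul_one] at h1
    have h2 : (t : ℂ) = ((2 * Real.pi * n : ℝ) : ℂ) := by
      push_cast
      linear_combination h1
    exact_mod_cast h2
  · rintro ⟨n, hn⟩
    refine ⟨n, ?_⟩
    rw [hn]
    push_cast
    ring

/-- lattices -/
theorem exists_coord {E : Type z} [NormedAddCommGroup E] [NormedSpace ℝ E] [FiniteDimensional ℝ E]
    (L : Submodule ℤ E) [DiscreteTopology L] [IsZLattice ℝ L] (q : E) (hq : q ∉ L) :
    ∃ f : E →ₗ[ℝ] ℝ, (∀ x ∈ L, ∃ n : ℤ, f x = n) ∧ ∀ n : ℤ, f q ≠ n := by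
  classical
  let b := Module.Free.chooseBasis ℤ L
  by_contra hcon
  push Not at hcon
  apply hq
  have h1 : ∀ i, ∃ n : ℤ, (b.ofZLatticeBasis ℝ L).repr q i = n := by
    intro i
    have h2 := hcon ((b.ofZLatticeBasis ℝ L).coord i) (fun x hx => by
      refine ⟨b.repr ⟨x, hx⟩ i, ?_⟩
      rw [Module.Basis.coord_apply]
      exact b.ofZLatticeBasis_repr_apply ℝ L ⟨x, hx⟩ i)
    obtain ⟨n, hn⟩ := h2
    exact ⟨n, by rw [← hn, Module.Basis.coord_apply]⟩
  choose n hn using h1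
  have h3 := (b.ofZLatticeBasis ℝ L).sum_repr q
  rw [← h3]
  refine Submodule.sum_mem _ fun i _ => ?_
  rw [hn i, b.ofZLatticeBasis_apply ℝ L i, Int.cast_smul_eq_zsmul]
  exact L.smul_mem _ (b i).2

section
variable {V : Type z} [NormedAddCommGroup V] [InnerProductSpace ℝ V]

/-- the largest linear subspace of a subgroup -/
def lineSpace (H : AddSubgroup V) : Submodule ℝ V where
  carrier := {v | ∀ t : ℝ, t • v ∈ H}
  add_mem' {v w} hv hw t := by
    rw [smul_add]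
    exact H.add_mem (hv t) (hw t)
  zero_mem' t := by
    rw [smul_zero]
    exact H.zero_mem
  smul_mem' c v hv t := by
    rw [smul_smul]
    exact hv _

theorem lineSpace_le (H : AddSubgroup V) {v : V} (hv : v ∈ lineSpace H) : v ∈ H := by
  have := hv 1
  rwa [one_smul] at this

theorem exists_gap [FiniteDimensional ℝ V] (H : AddSubgroup V) (hH : IsClosed (H : Set V)) :
    ∃ ε : ℝ, 0 < ε ∧ ∀ x ∈ H, x ∈ (lineSpace H)ᗮ → ‖x‖ < ε → x = 0 := by
  by_contra hcon
  push Not at hcon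
  choose! x hx using hcon
  obtain ⟨ε, hε⟩ : ∃ ε : ℕ → ℝ, ε = fun n : ℕ => 1 / ((n : ℝ) + 1) := ⟨_, rfl⟩
  have hε0 : ∀ n, 0 < ε n := fun n => by rw [hε]; positivity
  have hεt : Tendsto ε atTop (𝓝 0) := by
    rw [hε]; exact tendsto_one_div_add_atTop_nhds_zero_nat
  have hx1 : ∀ n, x (ε n) ∈ H := fun n => (hx _ (hε0 n)).1
  have hx2 : ∀ n, x (ε n) ∈ (lineSpace H)ᗮ := fun n => (hx _ (hε0 n)).2.1
  have hx3 : ∀ n, ‖x (ε n)‖ < ε n := fun n => (hx _ (hε0 n)).2.2.1
  have hx4 : ∀ n, x (ε n) ≠ 0 := fun n => (hx _ (hε0 n)).2.2.2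
  have hx5 : ∀ n, 0 < ‖x (ε n)‖ := fun n => norm_pos_iff.2 (hx4 n)
  obtain ⟨u, hu⟩ : ∃ u : ℕ → V, u = fun n => ‖x (ε n)‖⁻¹ • x (ε n) := ⟨_, rfl⟩
  have hu1 : ∀ n, u n ∈ Metric.sphere (0 : V) 1 := by
    intro n
    rw [mem_sphere_zero_iff_norm, hu]
    change ‖‖x (ε n)‖⁻¹ • x (ε n)‖ = 1
    rw [norm_smul, norm_inv, norm_norm, inv_mul_cancel₀ (hx5 n).ne']
  haveI : ProperSpace V := FiniteDimensional.proper_real V
  obtain ⟨v, hv, φ, hφ, hlim⟩ := (isCompact_sphere (0 : V) 1).tendsto_subseq hu1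
  have hvW : v ∈ (lineSpace H)ᗮ := by
    have hcl : IsClosed (((lineSpace H)ᗮ : Submodule ℝ V) : Set V) :=
      Submodule.closed_of_finiteDimensional _
    refine hcl.mem_of_tendsto hlim (Eventually.of_forall fun n => ?_)
    rw [hu]
    exact Submodule.smul_mem _ _ (hx2 _)
  have hxt : Tendsto (fun n => ‖x (ε (φ n))‖) atTop (𝓝 0) := by
    refine squeeze_zero (fun n => norm_nonneg _) (fun n => (hx3 (φ n)).le) ?_
    exact hεt.comp hφ.tendsto_atTop
  have hvH : v ∈ lineSpace H := by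
    intro t
    have h1 : Tendsto (fun n => ((⌊t / ‖x (ε (φ n))‖⌋ : ℝ) * ‖x (ε (φ n))‖)) atTop (𝓝 t) := by
      have h2 : ∀ n, |((⌊t / ‖x (ε (φ n))‖⌋ : ℝ) * ‖x (ε (φ n))‖) - t| ≤ ‖x (ε (φ n))‖ := by
        intro n
        have h3 := Int.floor_le (t / ‖x (ε (φ n))‖)
        have h4 := Int.lt_floor_add_one (t / ‖x (ε (φ n))‖)
        have h5 := hx5 (φ n)
        rw [le_div_iff₀ h5] at h3
        rw [div_lt_iff₀ h5] at h4
        rw [abs_le]
        constructor <;> nlinarith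
      rw [tendsto_iff_norm_sub_tendsto_zero]
      exact squeeze_zero (fun n => norm_nonneg _) h2 hxt
    have h6 : Tendsto (fun n => ((⌊t / ‖x (ε (φ n))‖⌋ : ℝ) * ‖x (ε (φ n))‖) • u (φ n)) atTop
        (𝓝 (t • v)) := h1.smul hlim
    refine hH.mem_of_tendsto h6 (Eventually.of_forall fun n => ?_)
    have h7 : ((⌊t / ‖x (ε (φ n))‖⌋ : ℝ) * ‖x (ε (φ n))‖) • u (φ n)
        = ⌊t / ‖x (ε (φ n))‖⌋ • x (ε (φ n)) := by
      rw [hu]
      change ((⌊t / ‖x (ε (φ n))‖⌋ : ℝ) * ‖x (ε (φ n))‖) • (‖x (ε (φ n))‖⁻¹ • x (ε (φ n))) = _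
      rw [smul_smul, mul_assoc, mul_inv_cancel₀ (hx5 (φ n)).ne', mul_one, Int.cast_smul_eq_zsmul]
    rw [h7]
    exact H.zsmul_mem (hx1 _) _
  have h8 : v = 0 := by
    have := Submodule.inner_right_of_mem_orthogonal hvH hvW
    exact inner_self_eq_zero.1 this
  rw [mem_sphere_zero_iff_norm, h8, norm_zero] at hv
  exact zero_ne_one hv

/-- closed subgroups of a Euclidean space are intersections of kernels of characters -/
theorem exists_dual_sep [FiniteDimensional ℝ V] (H : AddSubgroup V) (hH : IsClosed (H : Set V))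
    (q : V) (hq : q ∉ H) :
    ∃ s0 : V, (∀ x ∈ H, ch ⟪x, s0⟫ = 1) ∧ ch ⟪q, s0⟫ ≠ 1 := by
  classical
  obtain ⟨W, hW⟩ : ∃ W : Submodule ℝ V, W = lineSpace H := ⟨_, rfl⟩
  have hWH : ∀ v ∈ W, v ∈ H := fun v hv => lineSpace_le H (by rwa [← hW])
  -- the decomposition
  have hdec : ∀ x : V, ∃ w ∈ W, ∃ y ∈ Wᗮ, x = w + y := by
    intro x
    refine ⟨W.starProjection x, W.starProjection_apply_mem x, x - W.starProjection x,
      W.sub_starProjection_mem_orthogonal x, by abel⟩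
  -- the lattice
  let L0 : AddSubgroup V := H ⊓ Wᗮ.toAddSubgroup
  let L : Submodule ℤ V := AddSubgroup.toIntSubmodule L0
  have hL : ∀ x, x ∈ L ↔ x ∈ H ∧ x ∈ Wᗮ := fun x => Iff.rfl
  obtain ⟨ε, hε, hgap⟩ := exists_gap H hH
  haveI hdisc : DiscreteTopology L := by
    refine discreteTopology_of_isOpen_singleton_zero ?_
    rw [Metric.isOpen_singleton_iff]
    refine ⟨ε, hε, fun y hy => ?_⟩
    apply Subtype.ext
    refine hgap y.1 ((hL _).1 y.2).1 (by rw [← hW]; exact ((hL _).1 y.2).2) ?_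
    rw [dist_zero_right] at hy
    exact hy
  let F : Submodule ℝ V := Submodule.span ℝ (L : Set V)
  have hLF : ∀ x ∈ L, x ∈ F := fun x hx => Submodule.subset_span hx
  have hFW : F ≤ Wᗮ := Submodule.span_le.2 fun x hx => ((hL x).1 hx).2
  obtain ⟨w, hw, q', hq', hqq⟩ := hdec q
  have hq'H : q' ∉ H := by
    intro h
    apply hq
    rw [hqq]
    exact H.add_mem (hWH w hw) h
  have hwW : ∀ v ∈ Wᗮ, ∀ x ∈ W, ⟪x, v⟫ = 0 := fun v hv x hx =>
    Submodule.inner_right_of_mem_orthogonal hx hv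
  -- the decomposition of the elements of `H`
  have hdecH : ∀ x ∈ H, ∃ w ∈ W, ∃ y ∈ L, x = w + y := by
    intro x hx
    obtain ⟨w1, hw1, y, hy, hxy⟩ := hdec x
    refine ⟨w1, hw1, y, (hL y).2 ⟨?_, hy⟩, hxy⟩
    have : y = x - w1 := by rw [hxy]; abel
    rw [this]
    exact H.sub_mem hx (hWH w1 hw1)
  by_cases hqF : q' ∈ F
  · let L₁ : Submodule ℤ F := ZLattice.comap ℝ L F.subtype
    haveI : DiscreteTopology L₁ :=
      ZLattice.comap_discreteTopology ℝ L F.subtypeL.continuous Subtype.val_injective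
    haveI : IsZLattice ℝ L₁ := ⟨Submodule.span_span_coe_preimage⟩
    have hq1 : (⟨q', hqF⟩ : F) ∉ L₁ := fun h => hq'H ((hL q').1 h).1
    obtain ⟨f, hf1, hf2⟩ := exists_coord L₁ ⟨q', hqF⟩ hq1
    obtain ⟨y, hy⟩ : ∃ y : F, ∀ v : F, ⟪y, v⟫ = f v := by
      refine ⟨(InnerProductSpace.toDual ℝ F).symm (LinearMap.toContinuousLinearMap f),
        fun v => ?_⟩
      rw [InnerProductSpace.toDual_symm_apply]
      rfl
    have hy' : ∀ v ∈ F, ∀ hv : v ∈ F, ⟪v, (y : V)⟫ = f ⟨v, hv⟩ := by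
      intro v _ hv
      rw [← hy ⟨v, hv⟩, real_inner_comm]
      rfl
    refine ⟨(2 * Real.pi) • (y : V), fun x hx => ?_, ?_⟩
    · obtain ⟨w1, hw1, x', hx', rfl⟩ := hdecH x hx
      obtain ⟨n, hn⟩ := hf1 ⟨x', hLF x' hx'⟩ hx'
      rw [ch_eq_one_iff]
      refine ⟨n, ?_⟩
      rw [inner_smul_right, inner_add_left, hwW _ (hFW y.2) _ hw1, zero_add,
        hy' x' (hLF x' hx') (hLF x' hx'), hn]
    · intro h
      rw [ch_eq_one_iff] at h
      obtain ⟨n, hn⟩ := h
      rw [hqq, inner_smul_right, inner_add_left, hwW _ (hFW y.2) _ hw, zero_add,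
        hy' q' hqF hqF] at hn
      exact hf2 n (mul_left_cancel₀ (by positivity) hn)
  · obtain ⟨r, hr⟩ : ∃ r : V, r = q' - F.starProjection q' := ⟨_, rfl⟩
    have hrF : r ∈ Fᗮ := by rw [hr]; exact F.sub_starProjection_mem_orthogonal q'
    have hrW : r ∈ Wᗮ := by
      rw [hr]
      exact Wᗮ.sub_mem hq' (hFW (F.starProjection_apply_mem q'))
    have hr0 : r ≠ 0 := by
      intro h
      rw [h] at hr
      apply hqF
      have : q' = F.starProjection q' := (sub_eq_zero.1 hr.symm)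
      rw [this]
      exact F.starProjection_apply_mem q'
    have hrn : 0 < ‖r‖ := norm_pos_iff.2 hr0
    have hq'r : ⟪q', r⟫ = ‖r‖ ^ 2 := by
      have h1 : q' = F.starProjection q' + r := by rw [hr]; abel
      rw [h1, inner_add_left,
        Submodule.inner_right_of_mem_orthogonal (F.starProjection_apply_mem q') hrF, zero_add,
        real_inner_self_eq_norm_sq]
    refine ⟨(Real.pi / ‖r‖ ^ 2) • r, fun x hx => ?_, ?_⟩
    · obtain ⟨w1, hw1, x', hx', rfl⟩ := hdecH x hx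
      rw [inner_smul_right, inner_add_left, hwW _ hrW _ hw1,
        Submodule.inner_right_of_mem_orthogonal (hLF x' hx') hrF, add_zero, mul_zero, ch_zero]
    · intro h
      rw [ch_eq_one_iff] at h
      obtain ⟨n, hn⟩ := h
      rw [hqq, inner_smul_right, inner_add_left, hwW _ hrW _ hw, zero_add, hq'r,
        div_mul_cancel₀ _ (by positivity)] at hn
      have hpi := Real.pi_pos
      have h1 : (1 : ℝ) = 2 * n := by
        have : Real.pi * 1 = Real.pi * (2 * n) := by linarith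
        exact mul_left_cancel₀ hpi.ne' this
      have h2 : (1 : ℤ) = 2 * n := by exact_mod_cast h1
      omega

end

end Pool.Agent.AbCoc
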