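import Pool.Agent.Lib_MP_418a80_t4.V0
import Pool.Agent.Lib_MP_418a80_t3.Heis4

/-!
# MP_418a80_an, T4 (abelian step): families of a fixed precision give availability in a ball
-/

set_option autoImplicit false
set_option linter.unusedVariables false
set_option linter.unusedSectionVars false

open Topology Filter MeasureTheory
open scoped RealInnerProductSpace ComplexConjugate

namespace Pool.Agent.AbCoc

universe u v w z

section
variable {A : Type u} [CStarAlgebra A] {K : Type v} [NormedAddCommGroup K]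
  [InnerProductSpace ℂ K] [CompleteSpace K]
variable {G : Type w} [Group G] [TopologicalSpace G] [IsTopologicalGroup G] {T : TrAlg A K}
  (S : TrAct G T)

/-- T4-EIG -/
theorem TrAct.labA_of_precV {n : ℕ} (R : VSec G (EuclideanSpace ℝ (Fin n))) (b : A)
    (hb : S.Fixed b) (q : EuclideanSpace ℝ (Fin n)) (ρ : ℝ) (hρ : 0 < ρ)
    (h : ∃ C c : ℝ, 0 < c ∧ ∀ D : Set G, IsCompact D → ∀ κ : ℝ, 0 < κ →
      ∃ (J : Type) (_ : Fintype J) (y : J → A), (∀ j, b * y j = y j) ∧ (∀ j, y j * b = y j) ∧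
        T.Dm C y ∧ c ≤ T.ms y ∧
        (∀ h ∈ D, R.p h = 0 → ∑ j, ‖T.ι (S.α h (y j) - y j)‖ ^ 2 ≤ κ) ∧
        (∀ v, ‖v‖ ≤ 2 * (√n + 1) / ρ →
          ∑ j, ‖T.ι (S.α (R.s v) (y j) - ch ⟪q, v⟫ • y j)‖ ^ 2 ≤ T.ms y / (16 * (n + 1)))) :
    S.LabA (pch R.p) (Metric.ball q ρ) b := by
  classical
  obtain ⟨C, c, hc, h⟩ := h
  have hn0 : (0 : ℝ) ≤ n := Nat.cast_nonneg n
  have hn1 : (0 : ℝ) < (n : ℝ) + 1 := by positivity
  have hs0 : (0 : ℝ) ≤ √n := Real.sqrt_nonneg _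
  have hs1 : (0 : ℝ) < √n + 1 := by positivity
  obtain ⟨T1, hT1⟩ : ∃ T1 : ℝ, T1 = 2 * (√n + 1) / ρ := ⟨_, rfl⟩
  obtain ⟨Z, hZ⟩ : ∃ Z : ℝ, Z = ρ / (√n + 1) := ⟨_, rfl⟩
  have hZ0 : 0 < Z := by rw [hZ]; positivity
  have hZT : 2 / Z = T1 := by
    rw [hZ, hT1]
    field_simp
  have hZρ : √n * Z < ρ := by
    have h1 : (√n + 1) * Z = ρ := by
      rw [hZ]
      field_simp
    nlinarith
  rw [← hT1] at h
  refine ⟨C, c / 2, by positivity, fun D hD κ hκ => ?_⟩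
  have hD1 : IsCompact (D ∪ R.s '' Metric.closedBall 0 T1) :=
    hD.union ((isCompact_closedBall 0 T1).image R.hs)
  have hκc : 0 < min κ (c / (64 * (n + 1))) := lt_min hκ (by positivity)
  obtain ⟨D', κ', hD', hκ', hc2⟩ := S.exists_cells R.p R.hp R.pmul R.s R.hs R.ps _ hD1
    (min κ (c / (64 * (n + 1)))) C hκc
  obtain ⟨J, hJ, y, hby, hyb, hDm, hms, hker, hprec⟩ := h D' hD' κ' hκ'
  obtain ⟨J', hJ', x, θ, hlab, hmsx, hcmp⟩ := hc2 b J y hb hby hyb hDm hker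
  have hball : ∀ (l : Fin n) (t : ℝ), 0 ≤ t → t ≤ 2 / Z →
      ‖t • EuclideanSpace.basisFun (Fin n) ℝ l‖ ≤ T1 := by
    intro l t ht1 ht2
    rw [norm_smul, (EuclideanSpace.basisFun (Fin n) ℝ).orthonormal.1 l, mul_one,
      Real.norm_eq_abs, abs_of_nonneg ht1, ← hZT]
    exact ht2
  have hfar := hlab.tail (EuclideanSpace.basisFun (Fin n) ℝ) R.s R.ps (y := y)
    (fun g hg ζ hζ => (hcmp g hg ζ hζ).1) q Z (T.ms y / (16 * (n + 1))) hZ0
    (fun l t ht1 ht2 => Or.inr ⟨_, mem_closedBall_zero_iff.mpr (hball l t ht1 ht2), rfl⟩)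
    (fun l t ht1 ht2 => hprec _ (hball l t ht1 ht2))
  have hcut := hlab.cut (Metric.ball q ρ) q (Metric.mem_ball_self hρ)
  refine ⟨J', hJ', _, _, hcut.mono subset_rfl Set.subset_union_left (min_le_left _ _) le_rfl, ?_⟩
  have hsum : T.ms (fun j => if θ j ∈ Metric.ball q ρ then x j else 0)
      + ∑ i, (if θ i ∈ Metric.ball q ρ then 0 else ‖T.ι (x i)‖ ^ 2) = T.ms x := by
    unfold TrAlg.ms
    rw [← Finset.sum_add_distrib]
    refine Finset.sum_congr rfl fun i _ => ?_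
    beta_reduce
    by_cases hi : θ i ∈ Metric.ball q ρ
    · rw [if_pos hi, if_pos hi, add_zero]
    · rw [if_neg hi, if_neg hi, map_zero, norm_zero, zero_pow two_ne_zero, zero_add]
  have hcomp : ∑ i, (if θ i ∈ Metric.ball q ρ then 0 else ‖T.ι (x i)‖ ^ 2)
      ≤ ∑ i, (if √n * Z < ‖θ i - q‖ then ‖T.ι (x i)‖ ^ 2 else 0) := by
    refine Finset.sum_le_sum fun i _ => ?_
    by_cases hi : θ i ∈ Metric.ball q ρ
    · rw [if_pos hi]
      split_ifs
      · exact sq_nonneg _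
      · exact le_rfl
    · rw [if_neg hi, if_pos]
      rw [Metric.mem_ball, dist_eq_norm, not_lt] at hi
      exact hZρ.trans_le hi
  have hms0 : 0 ≤ T.ms y := hc.le.trans hms
  have h9 : (n : ℝ) / (n + 1) ≤ 1 := by
    rw [div_le_one hn1]
    linarith
  have hb1 : (n : ℝ) * (4 * (T.ms y / (16 * (n + 1)))) ≤ T.ms y / 4 := by
    have : (n : ℝ) * (4 * (T.ms y / (16 * (n + 1)))) = (n / (n + 1)) * (T.ms y / 4) := by
      field_simp
      ring
    rw [this]
    calc (n : ℝ) / (n + 1) * (T.ms y / 4) ≤ 1 * (T.ms y / 4) :=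
          mul_le_mul_of_nonneg_right h9 (by positivity)
      _ = T.ms y / 4 := one_mul _
  have hb2 : (n : ℝ) * (4 * min κ (c / (64 * (n + 1)))) ≤ c / 16 := by
    have h10 : (n : ℝ) * (4 * min κ (c / (64 * (n + 1)))) ≤ n * (4 * (c / (64 * (n + 1)))) := by
      refine mul_le_mul_of_nonneg_left ?_ hn0
      refine mul_le_mul_of_nonneg_left (min_le_right _ _) (by norm_num)
    refine h10.trans ?_
    have : (n : ℝ) * (4 * (c / (64 * (n + 1)))) = (n / (n + 1)) * (c / 16) := by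
      field_simp
      ring
    rw [this]
    calc (n : ℝ) / (n + 1) * (c / 16) ≤ 1 * (c / 16) :=
          mul_le_mul_of_nonneg_right h9 (by positivity)
      _ = c / 16 := one_mul _
  rw [mul_add] at hfar
  have hcomp' := hcomp.trans hfar
  linarith

end

end Pool.Agent.AbCoc
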