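import Pool.Agent.Lib_MP_418a80_t4.VDefs
import Pool.Agent.Lib_MP_418a80_t3.Eig
import Pool.Agent.Lib_MP_418a80_t3.CellsV

/-!
# MP_418a80_an, T4 [AB-EIG]: families of a fixed precision give availability in a ball of `V`
-/

set_option autoImplicit false
set_option linter.unusedVariables false
set_option linter.unusedSectionVars false

open Topology Filter MeasureTheory
open scoped RealInnerProductSpace ComplexConjugate

namespace Pool.Agent.AbCoc

universe u v w z z'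

namespace EigV
variable {A : Type u} [CStarAlgebra A] {K : Type v} [NormedAddCommGroup K]
  [InnerProductSpace ℂ K] [CompleteSpace K] {T : TrAlg A K}

/-- the mass of the real labels far from `q` -/
theorem mass_far {J : Type} [Fintype J] (x : J → A) (θ : J → ℝ) (q ρ m : ℝ) (hρ : 0 < ρ)
    (h : ∀ t : ℝ, |t| ≤ 2 / ρ → ∑ i, ‖ch (θ i * t) - ch (q * t)‖ ^ 2 * ‖T.ι (x i)‖ ^ 2 ≤ m)
    [DecidablePred fun i => ρ ≤ |θ i - q|] :
    ∑ i, (if ρ ≤ |θ i - q| then ‖T.ι (x i)‖ ^ 2 else 0) ≤ m := by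
  set L : ℝ := 2 / ρ with hL
  have hL0 : 0 < L := by positivity
  have hint : ∫ t in (0 : ℝ)..L, ∑ i, (2 - 2 * Real.cos ((θ i - q) * t)) * ‖T.ι (x i)‖ ^ 2
      ≤ ∫ t in (0 : ℝ)..L, m := by
    refine intervalIntegral.integral_mono_on hL0.le ?_ intervalIntegrable_const ?_
    · apply Continuous.intervalIntegrable
      fun_prop
    · intro t ht
      have ht' : |t| ≤ 2 / ρ := by
        rw [abs_of_nonneg ht.1]
        exact ht.2
      refine le_trans (le_of_eq (Finset.sum_congr rfl fun i _ => ?_)) (h t ht')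
      rw [norm_ch_sub_ch_sq, ← sub_mul]
  rw [intervalIntegral.integral_const, intervalIntegral.integral_finsetSum
    (fun i _ => by apply Continuous.intervalIntegrable; fun_prop)] at hint
  simp only [sub_zero, smul_eq_mul] at hint
  have hlow : ∀ i, L * (if ρ ≤ |θ i - q| then ‖T.ι (x i)‖ ^ 2 else 0)
      ≤ ∫ t in (0 : ℝ)..L, (2 - 2 * Real.cos ((θ i - q) * t)) * ‖T.ι (x i)‖ ^ 2 := by
    intro i
    rw [intervalIntegral.integral_mul_const]
    split_ifs with hi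
    · refine mul_le_mul_of_nonneg_right ?_ (sq_nonneg _)
      exact integral_ch_ge _ L ρ hρ hi hL
    · rw [mul_zero]
      refine mul_nonneg ?_ (sq_nonneg _)
      refine intervalIntegral.integral_nonneg hL0.le fun t _ => ?_
      have := Real.cos_le_one ((θ i - q) * t)
      linarith
  have h6 : L * ∑ i, (if ρ ≤ |θ i - q| then ‖T.ι (x i)‖ ^ 2 else 0) ≤ L * m := by
    rw [Finset.mul_sum]
    exact (Finset.sum_le_sum fun i _ => hlow i).trans hint
  exact le_of_mul_le_mul_left h6 hL0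

/-- the mass of the labels in `V` far from `q` -/
theorem mass_farV {V : Type z} [NormedAddCommGroup V] [InnerProductSpace ℝ V] {n : ℕ}
    (bs : OrthonormalBasis (Fin n) ℝ V) {J : Type} [Fintype J] (x : J → A) (θ : J → V) (q : V)
    (ρ m : ℝ) (hρ : 0 < ρ)
    (h : ∀ v : V, ‖v‖ ≤ 2 / (ρ / (n + 1)) →
      ∑ i, ‖ch ⟪θ i, v⟫ - ch ⟪q, v⟫‖ ^ 2 * ‖T.ι (x i)‖ ^ 2 ≤ m)
    [DecidablePred fun i => θ i ∈ Metric.ball q ρ] :
    ∑ i, (if θ i ∈ Metric.ball q ρ then 0 else ‖T.ι (x i)‖ ^ 2) ≤ n * m := by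
  classical
  set ρ' : ℝ := ρ / (n + 1) with hρ'
  have hρ'0 : 0 < ρ' := by positivity
  have h1 : ∀ k : Fin n,
      ∑ i, (if ρ' ≤ |⟪θ i, bs k⟫ - ⟪q, bs k⟫| then ‖T.ι (x i)‖ ^ 2 else 0) ≤ m := by
    intro k
    refine mass_far (T := T) x (fun i => ⟪θ i, bs k⟫) ⟪q, bs k⟫ ρ' m hρ'0 ?_
    intro t ht
    refine le_trans (le_of_eq (Finset.sum_congr rfl fun i _ => ?_)) (h (t • bs k) ?_)
    · beta_reduce
      rw [real_inner_smul_right, real_inner_smul_right, mul_comm t, mul_comm t]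
    · rw [norm_smul, bs.orthonormal.1 k, mul_one, Real.norm_eq_abs]
      exact ht
  have h2 : ∀ i, (if θ i ∈ Metric.ball q ρ then 0 else ‖T.ι (x i)‖ ^ 2)
      ≤ ∑ k : Fin n, (if ρ' ≤ |⟪θ i, bs k⟫ - ⟪q, bs k⟫| then ‖T.ι (x i)‖ ^ 2 else 0) := by
    intro i
    have hnn : ∀ k ∈ (Finset.univ : Finset (Fin n)),
        0 ≤ (if ρ' ≤ |⟪θ i, bs k⟫ - ⟪q, bs k⟫| then ‖T.ι (x i)‖ ^ 2 else 0) := by
      intro k _
      split_ifs
      · exact sq_nonneg _
      · exact le_rfl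
    split_ifs with hi
    · exact Finset.sum_nonneg hnn
    · by_contra hcon
      rw [not_le] at hcon
      have hall : ∀ k : Fin n, |⟪θ i, bs k⟫ - ⟪q, bs k⟫| < ρ' := by
        intro k
        by_contra hk
        rw [not_lt] at hk
        have h3 := Finset.single_le_sum hnn (Finset.mem_univ k)
        rw [if_pos hk] at h3
        linarith
      have h4 : ‖θ i - q‖ ≤ ∑ k : Fin n, |⟪θ i, bs k⟫ - ⟪q, bs k⟫| := by
        have h5 := CellsV.norm_lin bs (fun k => ⟪bs k, θ i - q⟫)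
        rw [OrthonormalBasis.sum_repr' bs (θ i - q)] at h5
        refine h5.trans (le_of_eq (Finset.sum_congr rfl fun k _ => ?_))
        rw [real_inner_comm, inner_sub_left]
      have h6 : ∑ k : Fin n, |⟪θ i, bs k⟫ - ⟪q, bs k⟫| ≤ n * ρ' := by
        refine (Finset.sum_le_sum fun k _ => (hall k).le).trans ?_
        rw [Finset.sum_const, Finset.card_univ, Fintype.card_fin, nsmul_eq_mul]
      have h7 : (n : ℝ) * ρ' < ρ := by
        have h8 : ((n : ℝ) + 1) * ρ' = ρ := by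
          rw [hρ']
          field_simp
        linarith
      apply hi
      rw [Metric.mem_ball, dist_eq_norm]
      linarith
  refine (Finset.sum_le_sum fun i _ => h2 i).trans ?_
  rw [Finset.sum_comm]
  refine (Finset.sum_le_sum fun k _ => h1 k).trans ?_
  rw [Finset.sum_const, Finset.card_univ, Fintype.card_fin, nsmul_eq_mul]

end EigV

section
variable {A : Type u} [CStarAlgebra A] {K : Type v} [NormedAddCommGroup K]
  [InnerProductSpace ℂ K] [CompleteSpace K]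
variable {G : Type w} [Group G] [TopologicalSpace G] [IsTopologicalGroup G] {T : TrAlg A K}
  (S : TrAct G T)
  {V : Type z} [NormedAddCommGroup V] [InnerProductSpace ℝ V] [FiniteDimensional ℝ V]

/-- [AB-EIG]: families of a fixed precision near the character `q` give availability of labels in
`ball q ρ` -/
theorem TrAct.labA_of_precV (R : VSec G V) (q : V) (ρ : ℝ) (hρ : 0 < ρ) :
    ∃ T1 ε1 : ℝ, 0 < T1 ∧ 0 < ε1 ∧ ∀ b : A, S.Fixed b →
      (∃ C c : ℝ, 0 < c ∧ ∀ D : Set G, IsCompact D → ∀ κ : ℝ, 0 < κ →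
        ∃ (J : Type) (_ : Fintype J) (y : J → A), (∀ j, b * y j = y j) ∧ (∀ j, y j * b = y j) ∧
          T.Dm C y ∧ c ≤ T.ms y ∧
          (∀ h ∈ D, R.p h = 0 → ∑ j, ‖T.ι (S.α h (y j) - y j)‖ ^ 2 ≤ κ) ∧
          (∀ v : V, ‖v‖ ≤ T1 →
            ∑ j, ‖T.ι (S.α (R.s v) (y j) - ch ⟪q, v⟫ • y j)‖ ^ 2 ≤ ε1 * T.ms y)) →
      S.LabA (pch R.p) (Metric.ball q ρ) b := by
  classical
  have hproper : ProperSpace V := FiniteDimensional.proper ℝ V
  obtain ⟨n, hn⟩ : ∃ n, n = Module.finrank ℝ V := ⟨_, rfl⟩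
  have bs : OrthonormalBasis (Fin n) ℝ V := by
    rw [hn]
    exact stdOrthonormalBasis ℝ V
  set T1 : ℝ := 2 / (ρ / (n + 1)) with hT1
  set ε1 : ℝ := 1 / (16 * (n + 1)) with hε1
  have hT10 : 0 < T1 := by positivity
  have hε10 : 0 < ε1 := by positivity
  refine ⟨T1, ε1, hT10, hε10, fun b hb h => ?_⟩
  obtain ⟨C, c, hc, h⟩ := h
  refine ⟨C, c / 2, by positivity, fun D hD κ hκ => ?_⟩
  have hD1 : IsCompact (D ∪ R.s '' Metric.closedBall 0 T1) :=
    hD.union ((isCompact_closedBall 0 T1).image R.hs)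
  have hκc : 0 < min κ (c / (64 * (n + 1))) := lt_min hκ (by positivity)
  obtain ⟨D', κ', hD', hκ', hc2⟩ := S.exists_cells R.p R.hp R.pmul R.s R.hs R.ps _ hD1
    (min κ (c / (64 * (n + 1)))) C hκc
  obtain ⟨J, hJ, y, hby, hyb, hDm, hms, hker, hprec⟩ := h D' hD' κ' hκ'
  obtain ⟨J', hJ', x, θ, hlab, hmsx, hcmp⟩ := hc2 b J y hb hby hyb hDm hker
  have hkey : ∀ v : V, ‖v‖ ≤ T1 →
      ∑ i, ‖ch ⟪θ i, v⟫ - ch ⟪q, v⟫‖ ^ 2 * ‖T.ι (x i)‖ ^ 2
        ≤ 4 * (ε1 * T.ms y) + 4 * min κ (c / (64 * (n + 1))) := by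
    intro v hv
    have htD : R.s v ∈ D ∪ R.s '' Metric.closedBall 0 T1 :=
      Or.inr ⟨v, mem_closedBall_zero_iff.mpr hv, rfl⟩
    have h1 := hlab.ne _ htD
    have h2 := (hcmp _ htD (ch ⟪q, v⟫) (norm_ch _)).1
    have h3 := hprec v hv
    have h4 : ∀ i, ‖ch ⟪θ i, v⟫ - ch ⟪q, v⟫‖ ^ 2 * ‖T.ι (x i)‖ ^ 2
        ≤ 2 * ‖T.ι (S.α (R.s v) (x i) - pch R.p (θ i) (R.s v) • x i)‖ ^ 2
          + 2 * ‖T.ι (S.α (R.s v) (x i) - ch ⟪q, v⟫ • x i)‖ ^ 2 := by
      intro i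
      have e1 : pch R.p (θ i) (R.s v) = ch ⟪θ i, v⟫ := by
        rw [pch, R.ps]
      rw [e1, ← T.norm_smul_sq]
      have e2 : (ch ⟪θ i, v⟫ - ch ⟪q, v⟫) • x i
          = (S.α (R.s v) (x i) - ch ⟪q, v⟫ • x i)
            - (S.α (R.s v) (x i) - ch ⟪θ i, v⟫ • x i) := by
        rw [sub_smul]
        abel
      rw [e2, map_sub T.ι (S.α (R.s v) (x i) - ch ⟪q, v⟫ • x i)]
      have e3 := norm_sub_le (T.ι (S.α (R.s v) (x i) - ch ⟪q, v⟫ • x i))
        (T.ι (S.α (R.s v) (x i) - ch ⟪θ i, v⟫ • x i))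
      have e4 := pow_le_pow_left₀ (norm_nonneg _) e3 2
      nlinarith [sq_nonneg (‖T.ι (S.α (R.s v) (x i) - ch ⟪q, v⟫ • x i)‖
        - ‖T.ι (S.α (R.s v) (x i) - ch ⟪θ i, v⟫ • x i)‖)]
    have h5 := Finset.sum_le_sum fun i (_ : i ∈ Finset.univ) => h4 i
    rw [Finset.sum_add_distrib, ← Finset.mul_sum, ← Finset.mul_sum] at h5
    linarith
  have hfar := EigV.mass_farV (T := T) bs x θ q ρ _ hρ hkey
  have hcut := hlab.cut (Metric.ball q ρ) q (Metric.mem_ball_self hρ)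
  refine ⟨J', hJ', _, _, hcut.mono subset_rfl Set.subset_union_left (min_le_left _ _) le_rfl, ?_⟩
  have hsum : T.ms (fun j => if θ j ∈ Metric.ball q ρ then x j else 0)
      + ∑ i, (if θ i ∈ Metric.ball q ρ then 0 else ‖T.ι (x i)‖ ^ 2) = T.ms x := by
    unfold TrAlg.ms
    rw [← Finset.sum_add_distrib]
    refine Finset.sum_congr rfl fun i _ => ?_
    beta_reduce
    by_cases hi : θ i ∈ Metric.ball q ρ
    · rw [if_pos hi, if_pos hi, add_zero]
    · rw [if_neg hi, if_neg hi, map_zero, norm_zero, zero_pow two_ne_zero, zero_add]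
  have hms0 : 0 ≤ T.ms y := hc.le.trans hms
  have hn0 : (0 : ℝ) ≤ n := Nat.cast_nonneg n
  have hn1 : (0 : ℝ) < (n : ℝ) + 1 := by positivity
  have hb1 : (n : ℝ) * (4 * (ε1 * T.ms y)) ≤ T.ms y / 4 := by
    have : (n : ℝ) * (4 * (ε1 * T.ms y)) = (n / (n + 1)) * (T.ms y / 4) := by
      rw [hε1]
      field_simp
      ring
    rw [this]
    have h9 : (n : ℝ) / (n + 1) ≤ 1 := by
      rw [div_le_one hn1]
      linarith
    calc (n : ℝ) / (n + 1) * (T.ms y / 4) ≤ 1 * (T.ms y / 4) :=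
          mul_le_mul_of_nonneg_right h9 (by positivity)
      _ = T.ms y / 4 := one_mul _
  have hb2 : (n : ℝ) * (4 * min κ (c / (64 * (n + 1)))) ≤ c / 16 := by
    have h10 : (n : ℝ) * (4 * min κ (c / (64 * (n + 1)))) ≤ n * (4 * (c / (64 * (n + 1)))) := by
      refine mul_le_mul_of_nonneg_left ?_ hn0
      refine mul_le_mul_of_nonneg_left (min_le_right _ _) (by norm_num)
    refine h10.trans ?_
    have : (n : ℝ) * (4 * (c / (64 * (n + 1)))) = (n / (n + 1)) * (c / 16) := by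
      field_simp
      ring
    rw [this]
    have h9 : (n : ℝ) / (n + 1) ≤ 1 := by
      rw [div_le_one hn1]
      linarith
    calc (n : ℝ) / (n + 1) * (c / 16) ≤ 1 * (c / 16) :=
          mul_le_mul_of_nonneg_right h9 (by positivity)
      _ = c / 16 := one_mul _
  rw [mul_add] at hfar
  linarith

end

end Pool.Agent.AbCoc
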