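import Pool.Agent.Lib_MP_418a80_t4.MoveV

/-!
# MP_418a80_an, T4 (abelian step): the Gram elements are almost periodic
-/

set_option autoImplicit false
set_option linter.unusedVariables false
set_option linter.unusedSectionVars false

open Topology Filter MeasureTheory
open scoped RealInnerProductSpace ComplexConjugate

namespace Pool.Agent.AbCoc

universe u v w z

section
variable {A : Type u} [CStarAlgebra A] {K : Type v} [NormedAddCommGroup K]
  [InnerProductSpace ℂ K] [CompleteSpace K]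
variable {G : Type w} [Group G] [TopologicalSpace G] {T : TrAlg A K} (S : TrAct G T)
  {n : ℕ} (R : VSec G (EuclideanSpace ℝ (Fin n)))

/-- (PER) from the periodic lemma in the corner `b`, applied to the square roots of the Gram
elements -/
theorem TrAct.gram_periodicV (s0 : EuclideanSpace ℝ (Fin n)) (T0 : ℝ) (hT0 : 0 < T0)
    (hs0 : sn s0 ≤ T0) (F : EuclideanSpace ℝ (Fin n) → ℂ) (hF : SH T0 F) (εp ε : ℝ) (hεp : 0 < εp)
    (hε : 0 < ε) :
    ∃ δ : ℝ, 0 < δ ∧ ∀ b : A, S.IsPrj b → S.PerV R b s0 εp δ (ε ^ 2 / 4) →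
      ∀ C : ℝ, ∃ (D : Set G) (κ : ℝ), IsCompact D ∧ 0 < κ ∧
        ∀ e : A, b * e = e → e * b = e → ‖T.ι e‖ ≤ 1 → ‖e‖ ^ 2 ≤ C →
          (∀ h ∈ D, ∀ v, sn v ≤ 2 * T0 →
            ‖T.ι (S.α h (S.α (R.s v) e) - S.α (R.s (v + R.p h)) e)‖ ≤ κ) →
          ∃ a0 : ℝ, 0 < a0 ∧ a0 ≤ T0 ∧ ∀ a : ℝ, 0 < a → a ≤ a0 →
            ∀ E : Chs (Fin n → ℤ) (gbox n (gN (a / T0))),
            ∑ c, T.n1 (S.α (R.s s0) (S.grf R E e F c) - S.grf R E e F c) ≤ ε := by
  have hCF0 : CF T0 F := hF.cf hT0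
  have hCF : CF (2 * T0) F := hCF0.mono (by linarith)
  -- uniform continuity of `F`
  obtain ⟨ω, hω⟩ : ∃ ω : ℝ, ω = εp / (2 * (8 * 13 ^ n)) := ⟨_, rfl⟩
  have hω0 : 0 < ω := by rw [hω]; positivity
  have hω1 : 8 * 13 ^ n * ω = εp / 2 := by rw [hω]; field_simp
  obtain ⟨δ1, hδ1, hmod⟩ := hCF0.unif hω0
  obtain ⟨δ, hδ⟩ : ∃ δ : ℝ, δ = min δ1 T0 := ⟨_, rfl⟩
  have hδ0 : 0 < δ := by rw [hδ]; exact lt_min hδ1 hT0
  have hδa : δ ≤ δ1 := by rw [hδ]; exact min_le_left _ _
  have hδb : δ ≤ T0 := by rw [hδ]; exact min_le_right _ _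
  refine ⟨δ, hδ0, fun b hb hper C => ?_⟩
  obtain ⟨D, κ, hD, hκ, hper⟩ := hper C
  -- the translation lemma with two tolerances
  obtain ⟨κ1, hκ1, hm1⟩ := S.move_gr R T0 hT0 F (fun _ => 1) hCF continuous_const
    (fun _ => norm_one) κ hκ
  obtain ⟨κ2, hκ2, hm2⟩ := S.move_gr R T0 hT0 F (fun _ => 1) hCF continuous_const
    (fun _ => norm_one) (εp / 2) (by positivity)
  refine ⟨D ∪ R.s '' Metric.closedBall 0 δ, min κ1 κ2,
    hD.union ((isCompact_closedBall _ _).image R.hs), lt_min hκ1 hκ2,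
    fun e hbe heb hιe heC hnear => ?_⟩
  obtain ⟨a1, ha1, ha1T, hm1⟩ := hm1 e hιe
  obtain ⟨a2, ha2, ha2T, hm2⟩ := hm2 e hιe
  refine ⟨min a1 a2, lt_min ha1 ha2, (min_le_left _ _).trans ha1T, fun a ha haa E => ?_⟩
  have haT : a ≤ T0 := (haa.trans (min_le_left _ _)).trans ha1T
  have hf1 : ∑ j ∈ gbox n (gN (a / T0)), ‖gf a T0 F j‖ ^ 2 ≤ 1 := gf_sq_le_one ha haT hF
  have hxι : ∀ j, ‖T.ι (S.xg R a e j)‖ ≤ 1 := fun j => by
    unfold TrAct.xg
    rw [S.norm_map]
    exact hιe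
  have hxb : ∀ j, S.xg R a e j * b = S.xg R a e j := fun j => by
    unfold TrAct.xg
    have h1 : S.α (R.s (a • gv j)) b = b := hb.fix _
    rw [← h1, ← map_mul, heb]
  have hxC : ∀ j, ‖S.xg R a e j‖ ^ 2 ≤ C := fun j =>
    (pow_le_pow_left₀ (norm_nonneg _) (S.norm_le _ _) 2).trans heC
  have hC0 : 0 ≤ C := (sq_nonneg _).trans heC
  -- the periodic lemma for the square roots
  have hsq := hper E.C (S.sqf R E e F) (fun c => (sqx_corner E _ hb.star_eq hxb _ c).1)
    (fun c => (sqx_corner E _ hb.star_eq hxb _ c).2) (sqx_dm E _ T hC0 hxC hf1)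
    (sqx_ms E _ T hxι hf1)
    (fun h hh hp => by
      refine (TrAct.sum_sqx_sub E _ S h _ _).trans ?_
      have h1 := hm1 a ha (haa.trans (min_le_left _ _)) h (by
        rw [hp]
        have : sn (0 : EuclideanSpace ℝ (Fin n)) = 0 := by simp [sn]
        rw [this]
        exact hT0.le) (fun v hv => by
        rw [one_smul]
        exact (hnear h (Or.inl hh) v hv).trans (min_le_left _ _)) E
      simp only [hp, sub_zero, one_mul] at h1
      exact h1)
    (fun v hv => by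
      refine (TrAct.sum_sqx_sub E _ S _ _ _).trans ?_
      have hpv : R.p (R.s v) = v := R.ps v
      have h1 := hm2 a ha (haa.trans (min_le_right _ _)) (R.s v) (by
        rw [hpv]
        exact (sn_le_norm v).trans (hv.trans hδb)) (fun w hw => by
        rw [one_smul]
        refine (hnear (R.s v) (Or.inr ⟨v, ?_, rfl⟩) w hw).trans (min_le_right _ _)
        rw [mem_closedBall_zero_iff]
        exact hv) E
      simp only [hpv, one_mul] at h1
      have h2 := S.sum_n1_grf_sub R ha haT E hιe (F := fun w => F (w - v)) (F' := F)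
        (fun w => hCF0.bd _) hCF0.bd (ω := ω) (fun w => by
          refine hmod _ _ ?_
          have : w - v - w = -v := by abel
          rw [this, norm_neg]
          exact hv.trans hδa)
      rw [hω1] at h2
      have h3 : ∑ c, T.n1 (S.α (R.s v) (S.grf R E e F c) - S.grf R E e F c) ≤
          ∑ c, (T.n1 (S.α (R.s v) (S.grf R E e F c) - S.grf R E e (fun w => F (w - v)) c) +
            T.n1 (S.grf R E e (fun w => F (w - v)) c - S.grf R E e F c)) :=
        Finset.sum_le_sum fun c _ => T.n1_sub_le_add _ _ _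
      rw [Finset.sum_add_distrib] at h3
      refine h3.trans ?_
      linarith)
  have h1 : ε ^ 2 / 4 = (ε / 2) ^ 2 := by ring
  rw [h1] at hsq
  have h2 := TrAct.sum_n1_grx_of_sqx E _ S hxι (R.s s0) (M := 1) (by rw [one_pow]; exact hf1)
    (by rw [one_pow]; exact hf1) zero_le_one (by positivity) hsq
  refine h2.trans (le_of_eq ?_)
  ring

end

end Pool.Agent.AbCoc
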