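import Pool.Agent.Lib_MP_418a80_t4.GpV

/-!
# MP_418a80_an, T4 (abelian step): the Gram elements are invariant under the phases
-/

set_option autoImplicit false
set_option linter.unusedVariables false
set_option linter.unusedSectionVars false

open Topology Filter MeasureTheory
open scoped RealInnerProductSpace ComplexConjugate

namespace Pool.Agent.AbCoc

universe u v w z

section
variable {G : Type w} [Group G] [TopologicalSpace G] {V : Type z} [NormedAddCommGroup V]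
  [InnerProductSpace ℝ V] {R : VSec G V} {U : Type} [NormedAddCommGroup U]
  [NormedSpace ℝ U] (W : WtV R U) (χ : U →L[ℝ] ℝ)

theorem WtV.norm_ph (l : U) (v : V) : ‖W.ph χ l v‖ = 1 := by
  exact norm_ch _

theorem WtV.ph_add (l l' : U) (v : V) : W.ph χ (l + l') v = W.ph χ l v * W.ph χ l' v := by
  unfold WtV.ph
  rw [map_add, map_add, ch_add]

theorem WtV.continuous_ph (l : U) : Continuous (W.ph χ l) := by
  have h1 : Continuous fun v : V => W.ρ (-v) l :=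
    (W.hρ.comp continuous_neg).clm_apply continuous_const
  exact continuous_ch.comp (χ.continuous.comp h1)

theorem WtV.conj_ph (l : U) (v : V) : conj (W.ph χ l v) = W.ph χ (-l) v := by
  unfold WtV.ph
  rw [conj_ch, map_neg, map_neg]

/-- `g_{ρ(s0) l - l}(v - s0) = g_l(v) g_l(v - s0)⁻¹` up to the order -/
theorem WtV.ph_shift (l : U) (s0 v : V) :
    W.ph χ (W.ρ (-s0) l - l) (v - s0) = W.ph χ l v * conj (W.ph χ l (v - s0)) := by
  unfold WtV.ph
  rw [← ch_sub, ← map_sub]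
  congr 2
  have h1 : W.ρ (-v) l = W.ρ (-(v - s0)) (W.ρ (-s0) l) := by
    have h2 : -v = -(v - s0) + -s0 := by abel
    rw [h2, W.ρ_add]
    rfl
  rw [map_sub, h1]

theorem WtV.exists_pre [FiniteDimensional ℝ U] (s0 : V) (hs0 : ∀ l, W.ρ s0 l = l → l = 0)
    (l' : U) : ∃ l : U, W.ρ (-s0) l - l = l' := by
  obtain ⟨B, hB⟩ : ∃ B : U →ₗ[ℝ] U, ∀ l, B l = W.ρ (-s0) l - l :=
    ⟨(W.ρ (-s0)).toLinearMap - LinearMap.id, fun _ => rfl⟩
  have hinj : Function.Injective B := by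
    rw [injective_iff_map_eq_zero]
    intro l hl
    rw [hB, sub_eq_zero] at hl
    apply hs0
    have h1 : W.ρ (s0 + -s0) l = W.ρ s0 (W.ρ (-s0) l) := by
      rw [W.ρ_add]
      rfl
    rw [add_neg_cancel, W.ρ_zero, hl] at h1
    exact h1.symm
  obtain ⟨l, hl⟩ := (LinearMap.injective_iff_surjective.1 hinj) l'
  exact ⟨l, by rw [← hB, hl]⟩

end

section
variable {A : Type u} [CStarAlgebra A] {K : Type v} [NormedAddCommGroup K]
  [InnerProductSpace ℂ K] [CompleteSpace K]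
variable {G : Type w} [Group G] [TopologicalSpace G] {T : TrAlg A K} (S : TrAct G T)
  {n : ℕ} {R : VSec G (EuclideanSpace ℝ (Fin n))} {U : Type} [NormedAddCommGroup U]
  [NormedSpace ℝ U] [FiniteDimensional ℝ U]

theorem TrAct.gram_invV (W : WtV R U) (χ : U →L[ℝ] ℝ) (s0 : EuclideanSpace ℝ (Fin n))
    (hfix : ∀ l, W.ρ s0 l = l → l = 0) (T0 : ℝ) (hT0 : 0 < T0) (hs0 : sn s0 ≤ T0)
    (F : EuclideanSpace ℝ (Fin n) → ℂ) (hF : SH T0 F) (l' : U) (εp ε : ℝ) (hεp : 0 < εp)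
    (hε : 0 < ε) :
    ∃ δ : ℝ, 0 < δ ∧ ∀ b : A, S.IsPrj b → S.PerV R b s0 εp δ ((ε / 8) ^ 2 / 4) →
      ∀ C : ℝ, ∃ (D : Set G) (κ : ℝ) (l : U), IsCompact D ∧ 0 < κ ∧
        ∀ (e : A) (β : U → G), S.NEltV R (W.ph χ) b (2 * T0) D κ {l} C e β →
          ∃ a0 : ℝ, 0 < a0 ∧ a0 ≤ T0 ∧ ∀ a : ℝ, 0 < a → a ≤ a0 →
            ∀ E : Chs (Fin n → ℤ) (gbox n (gN (a / T0))),
            ∑ c, T.n1 (S.grf R E e (fun v => W.ph χ l' v * F v) c - S.grf R E e F c) ≤ ε := by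
  have hε8 : 0 < ε / 8 := by positivity
  obtain ⟨l, hl⟩ := W.exists_pre s0 hfix l'
  obtain ⟨F', hF'⟩ : ∃ F' : EuclideanSpace ℝ (Fin n) → ℂ, F' = fun v => W.ph χ l' v * F v :=
    ⟨_, rfl⟩
  obtain ⟨F2, hF2⟩ : ∃ F2 : EuclideanSpace ℝ (Fin n) → ℂ, F2 = fun v => W.ph χ (-l) v * F v :=
    ⟨_, rfl⟩
  obtain ⟨F3, hF3⟩ : ∃ F3 : EuclideanSpace ℝ (Fin n) → ℂ, F3 = fun v => F2 (v - s0) := ⟨_, rfl⟩
  have hnph : ∀ m v, ‖W.ph χ m v‖ = 1 := fun m v => W.norm_ph χ m v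
  have hcph : ∀ m, Continuous (W.ph χ m) := fun m => W.continuous_ph χ m
  have hone : ∀ v : EuclideanSpace ℝ (Fin n), ‖(1 : ℂ)‖ = 1 := fun _ => norm_one
  have hSF' : SH T0 F' := by
    rw [hF']
    exact hF.mul (hcph l') (hnph l')
  have hSF2 : SH T0 F2 := by
    rw [hF2]
    exact hF.mul (hcph (-l)) (hnph (-l))
  have h2T : T0 ≤ 2 * T0 := by linarith
  have hCF' : CF (2 * T0) F' := (hSF'.cf hT0).mono h2T
  have hCF2 : CF (2 * T0) F2 := (hSF2.cf hT0).mono h2T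
  have hCF3 : CF (2 * T0) F3 := by
    rw [hF3]
    exact ((hSF2.cf hT0).shift s0 hs0).mono (by linarith)
  have hF2F : ∀ v, W.ph χ l v * F2 v = F v := by
    intro v
    have h1 : W.ph χ l v * W.ph χ (-l) v = 1 := by
      rw [← W.ph_add, add_neg_cancel]
      unfold WtV.ph
      rw [map_zero, map_zero]
      have := ch_mul_conj (0 : ℝ)
      have h2 := ch_sub 0 0
      rw [sub_zero] at h2
      rw [h2]
      exact this
    rw [hF2]
    linear_combination (F v) * h1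
  have hF'F3 : ∀ v, F' (v - s0) = W.ph χ l v * F3 v := by
    intro v
    have h1 := W.ph_shift χ l s0 v
    rw [hl, W.conj_ph] at h1
    simp only [hF', hF3, hF2]
    rw [h1]
    ring
  obtain ⟨δ1, hδ1, hP1⟩ := S.gram_periodicV R s0 T0 hT0 hs0 F hF εp (ε / 8) hεp hε8
  obtain ⟨δ2, hδ2, hP2⟩ := S.gram_periodicV R s0 T0 hT0 hs0 F2 hSF2 εp (ε / 8) hεp hε8
  refine ⟨min δ1 δ2, lt_min hδ1 hδ2, fun b hb hper C => ?_⟩
  obtain ⟨D1, κ1, hD1, hκ1, hP1⟩ := hP1 b hb (hper.mono (min_le_left _ _)) C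
  obtain ⟨D2, κ2, hD2, hκ2, hP2⟩ := hP2 b hb (hper.mono (min_le_right _ _)) C
  obtain ⟨κ3, hκ3, hM1⟩ := S.move_gr R T0 hT0 F' (fun _ => 1) hCF' continuous_const hone (ε / 8) hε8
  obtain ⟨κ4, hκ4, hM2⟩ := S.move_gr R T0 hT0 F3 (W.ph χ l) hCF3 (hcph l) (hnph l) (ε / 8) hε8
  obtain ⟨κ5, hκ5, hM3⟩ := S.move_gr R T0 hT0 F2 (fun _ => 1) hCF2 continuous_const hone (ε / 8) hε8
  obtain ⟨κ6, hκ6, hM4⟩ := S.move_gr R T0 hT0 F2 (W.ph χ l) hCF2 (hcph l) (hnph l) (ε / 8) hε8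
  obtain ⟨κ, hκ⟩ : ∃ κ : ℝ, κ = min (min κ1 κ2) (min (min κ3 κ4) (min κ5 κ6)) := ⟨_, rfl⟩
  have hκ0 : 0 < κ := by
    rw [hκ]
    exact lt_min (lt_min hκ1 hκ2) (lt_min (lt_min hκ3 hκ4) (lt_min hκ5 hκ6))
  have k1 : κ ≤ κ1 := by rw [hκ]; exact (min_le_left _ _).trans (min_le_left _ _)
  have k2 : κ ≤ κ2 := by rw [hκ]; exact (min_le_left _ _).trans (min_le_right _ _)
  have k3 : κ ≤ κ3 := by
    rw [hκ]; exact (min_le_right _ _).trans ((min_le_left _ _).trans (min_le_left _ _))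
  have k4 : κ ≤ κ4 := by
    rw [hκ]; exact (min_le_right _ _).trans ((min_le_left _ _).trans (min_le_right _ _))
  have k5 : κ ≤ κ5 := by
    rw [hκ]; exact (min_le_right _ _).trans ((min_le_right _ _).trans (min_le_left _ _))
  have k6 : κ ≤ κ6 := by
    rw [hκ]; exact (min_le_right _ _).trans ((min_le_right _ _).trans (min_le_right _ _))
  refine ⟨D1 ∪ D2 ∪ {R.s s0}, κ, l, (hD1.union hD2).union isCompact_singleton, hκ0,
    fun e β he => ?_⟩
  have hιe : ‖T.ι e‖ ≤ 1 := he.nrm.le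
  -- the two elements which move the packets
  have hgs : ∀ κ' : ℝ, κ ≤ κ' → ∀ v, sn v ≤ 2 * T0 →
      ‖T.ι (S.α (R.s s0) (S.α (R.s v) e) - (fun _ => (1 : ℂ)) v
        • S.α (R.s (v + R.p (R.s s0))) e)‖ ≤ κ' := by
    intro κ' hκ' v hv
    have h1 := he.near (R.s s0) (Or.inr rfl) v hv
    refine le_trans (le_of_eq ?_) (h1.trans hκ')
    rw [one_smul]
  have hgβ : ∀ κ' : ℝ, κ ≤ κ' → ∀ v, sn v ≤ 2 * T0 →
      ‖T.ι (S.α (β l) (S.α (R.s v) e) - W.ph χ l v • S.α (R.s (v + R.p (β l))) e)‖ ≤ κ' := by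
    intro κ' hκ' v hv
    have h1 := he.phase l rfl v hv
    rw [he.pβ l, add_zero]
    exact h1.trans hκ'
  have hsn0 : sn (R.p (R.s s0)) ≤ T0 := by rw [R.ps]; exact hs0
  have hsnβ : sn (R.p (β l)) ≤ T0 := by
    rw [he.pβ l]
    have : sn (0 : EuclideanSpace ℝ (Fin n)) = 0 := by
      unfold sn
      simp
    rw [this]
    exact hT0.le
  obtain ⟨a1, ha1, ha1T, hP1⟩ := hP1 e he.lft he.rgt hιe he.op fun h hh v hv =>
    (he.near h (Or.inl (Or.inl hh)) v hv).trans k1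
  obtain ⟨a2, ha2, ha2T, hP2⟩ := hP2 e he.lft he.rgt hιe he.op fun h hh v hv =>
    (he.near h (Or.inl (Or.inr hh)) v hv).trans k2
  obtain ⟨a3, ha3, ha3T, hM1⟩ := hM1 e hιe
  obtain ⟨a4, ha4, ha4T, hM2⟩ := hM2 e hιe
  obtain ⟨a5, ha5, ha5T, hM3⟩ := hM3 e hιe
  obtain ⟨a6, ha6, ha6T, hM4⟩ := hM4 e hιe
  refine ⟨min (min a1 a2) (min (min a3 a4) (min a5 a6)),
    lt_min (lt_min ha1 ha2) (lt_min (lt_min ha3 ha4) (lt_min ha5 ha6)),
    ((min_le_left _ _).trans (min_le_left _ _)).trans ha1T, fun a ha haa E => ?_⟩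
  have b1 : a ≤ a1 := haa.trans ((min_le_left _ _).trans (min_le_left _ _))
  have b2 : a ≤ a2 := haa.trans ((min_le_left _ _).trans (min_le_right _ _))
  have b3 : a ≤ a3 := haa.trans ((min_le_right _ _).trans ((min_le_left _ _).trans (min_le_left _ _)))
  have b4 : a ≤ a4 := haa.trans ((min_le_right _ _).trans ((min_le_left _ _).trans (min_le_right _ _)))
  have b5 : a ≤ a5 := haa.trans ((min_le_right _ _).trans ((min_le_right _ _).trans (min_le_left _ _)))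
  have b6 : a ≤ a6 := haa.trans ((min_le_right _ _).trans ((min_le_right _ _).trans (min_le_right _ _)))
  have h1 := hP1 a ha b1 E
  have h2 := hP2 a ha b2 E
  have e3 : (fun v => W.ph χ l v * F3 v) =
      fun v => (fun _ : EuclideanSpace ℝ (Fin n) => (1 : ℂ)) (v - R.p (R.s s0))
        * F' (v - R.p (R.s s0)) := by
    funext v
    rw [R.ps, hF'F3 v]
    exact (one_mul _).symm
  have h3 : ∑ c, T.n1 (S.α (R.s s0) (S.grf R E e F' c)
      - S.grf R E e (fun v => W.ph χ l v * F3 v) c) ≤ ε / 8 := by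
    rw [e3]
    exact hM1 a ha b3 (R.s s0) hsn0 (hgs κ3 k3) E
  have e4 : (fun v => W.ph χ l v * F3 v) =
      fun v => W.ph χ l (v - R.p (β l)) * F3 (v - R.p (β l)) := by
    funext v
    rw [he.pβ l, sub_zero]
  have h4 : ∑ c, T.n1 (S.α (β l) (S.grf R E e F3 c)
      - S.grf R E e (fun v => W.ph χ l v * F3 v) c) ≤ ε / 8 := by
    rw [e4]
    exact hM2 a ha b4 (β l) hsnβ (hgβ κ4 k4) E
  have e5 : F3 = fun v => (fun _ : EuclideanSpace ℝ (Fin n) => (1 : ℂ)) (v - R.p (R.s s0))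
      * F2 (v - R.p (R.s s0)) := by
    rw [hF3]
    funext v
    rw [R.ps]
    exact (one_mul _).symm
  have h5 : ∑ c, T.n1 (S.α (R.s s0) (S.grf R E e F2 c) - S.grf R E e F3 c) ≤ ε / 8 := by
    rw [e5]
    exact hM3 a ha b5 (R.s s0) hsn0 (hgs κ5 k5) E
  have e6 : F = fun v => W.ph χ l (v - R.p (β l)) * F2 (v - R.p (β l)) := by
    funext v
    rw [he.pβ l, sub_zero, hF2F]
  have h6 : ∑ c, T.n1 (S.α (β l) (S.grf R E e F2 c) - S.grf R E e F c) ≤ ε / 8 := by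
    have h7 := hM4 a ha b6 (β l) hsnβ (hgβ κ6 k6) E
    rw [← e6] at h7
    exact h7
  rw [← hF']
  -- the chain
  have key : ∀ c, T.n1 (S.grf R E e F' c - S.grf R E e F c)
      ≤ T.n1 (S.α (R.s s0) (S.grf R E e F' c) - S.grf R E e (fun v => W.ph χ l v * F3 v) c)
        + T.n1 (S.α (β l) (S.grf R E e F3 c) - S.grf R E e (fun v => W.ph χ l v * F3 v) c)
        + T.n1 (S.α (R.s s0) (S.grf R E e F2 c) - S.grf R E e F3 c)
        + T.n1 (S.α (R.s s0) (S.grf R E e F2 c) - S.grf R E e F2 c)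
        + T.n1 (S.α (β l) (S.grf R E e F2 c) - S.grf R E e F c)
        + T.n1 (S.α (R.s s0) (S.grf R E e F c) - S.grf R E e F c) := by
    intro c
    generalize S.grf R E e F' c = X
    generalize S.grf R E e F c = Y
    generalize S.grf R E e F2 c = Z
    generalize S.grf R E e F3 c = Zs
    generalize S.grf R E e (fun v => W.ph χ l v * F3 v) c = B
    have c1 : T.n1 (X - Y) = T.n1 (S.α (R.s s0) X - S.α (R.s s0) Y) := by
      rw [← S.n1_act (R.s s0) (X - Y), map_sub]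
    have c2 : T.n1 (S.α (β l) Zs - S.α (β l) (S.α (R.s s0) Z)) = T.n1 (Zs - S.α (R.s s0) Z) := by
      rw [← S.n1_act (β l) (Zs - S.α (R.s s0) Z), map_sub]
    have c3 : T.n1 (S.α (β l) (S.α (R.s s0) Z) - S.α (β l) Z) = T.n1 (S.α (R.s s0) Z - Z) := by
      rw [← S.n1_act (β l) (S.α (R.s s0) Z - Z), map_sub]
    have t1 := T.n1_sub_le_add (S.α (R.s s0) X) B (S.α (R.s s0) Y)
    have t2 := T.n1_sub_le_add B (S.α (β l) Zs) (S.α (R.s s0) Y)
    have t3 := T.n1_sub_le_add (S.α (β l) Zs) (S.α (β l) (S.α (R.s s0) Z)) (S.α (R.s s0) Y)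
    have t4 := T.n1_sub_le_add (S.α (β l) (S.α (R.s s0) Z)) (S.α (β l) Z) (S.α (R.s s0) Y)
    have t5 := T.n1_sub_le_add (S.α (β l) Z) Y (S.α (R.s s0) Y)
    rw [T.n1_sub_comm B (S.α (β l) Zs)] at t2
    rw [c2, T.n1_sub_comm Zs (S.α (R.s s0) Z)] at t3
    rw [c3] at t4
    rw [T.n1_sub_comm Y (S.α (R.s s0) Y)] at t5
    rw [c1]
    linarith
  refine (Finset.sum_le_sum fun c _ => key c).trans ?_
  rw [Finset.sum_add_distrib, Finset.sum_add_distrib, Finset.sum_add_distrib,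
    Finset.sum_add_distrib, Finset.sum_add_distrib]
  linarith

end

end Pool.Agent.AbCoc
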