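import Pool.Agent.Lib_MP_418a80_t3.CellsV

/-!
# MP_418a80_an, T4: windows on the lattice `Fin d → ℤ`, lattice points of `V`
-/

set_option autoImplicit false
set_option linter.unusedVariables false
set_option linter.unusedSectionVars false

open Topology Filter
open scoped RealInnerProductSpace ComplexConjugate

namespace Pool.Agent.AbCoc

universe u v w z

open CellsV

/-- the normalised indicator function of the box -/
noncomputable def wv (d L : ℕ) (j : Fin d → ℤ) : ℂ := if j ∈ box d L then ((sc d L : ℝ) : ℂ) else 0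

/-- the big box -/
noncomputable def bigbox (d M : ℕ) : Finset (Fin d → ℤ) :=
  Fintype.piFinset fun _ => Finset.Icc (-(M : ℤ)) (M : ℤ)

theorem mem_bigbox {d M : ℕ} {k : Fin d → ℤ} : k ∈ bigbox d M ↔ ∀ l, |k l| ≤ (M : ℤ) := by
  simp [bigbox, Fintype.mem_piFinset, Finset.mem_Icc, abs_le]

theorem box_bigbox {d L M : ℕ} {j m : Fin d → ℤ} (hj : j ∈ box d L)
    (hm : ∀ l, |m l| + (L : ℤ) ≤ M) : j ∈ bigbox d M ∧ j + m ∈ bigbox d M := by
  rw [mem_box] at hj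
  rw [mem_bigbox, mem_bigbox]
  constructor
  · intro l
    have h1 := hj l
    have h2 := hm l
    have h3 := abs_nonneg (m l)
    rw [abs_le]
    omega
  · intro l
    have h1 := hj l
    have h2 := hm l
    have h3 := abs_le.1 (le_refl |m l|)
    rw [Pi.add_apply, abs_le]
    omega

theorem wv_norm_sq (d L : ℕ) (j : Fin d → ℤ) :
    ‖wv d L j‖ ^ 2 = if j ∈ box d L then (sc d L) ^ 2 else 0 := by
  unfold wv
  split_ifs
  · rw [Complex.norm_real, Real.norm_eq_abs, sq_abs]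
  · rw [norm_zero]; norm_num

theorem wv_ne {d L : ℕ} {j : Fin d → ℤ} (h : wv d L j ≠ 0) : j ∈ box d L := by
  by_contra h1
  exact h (if_neg h1)

theorem wv_sum_le {d L : ℕ} (hL : 0 < L) (F : Finset (Fin d → ℤ)) :
    ∑ j ∈ F, ‖wv d L j‖ ^ 2 ≤ 1 := by
  simp only [wv_norm_sq]
  rw [← Finset.sum_filter, Finset.sum_const, nsmul_eq_mul, mul_comm]
  have h1 : (F.filter fun j => j ∈ box d L) ⊆ box d L := fun j hj => (Finset.mem_filter.1 hj).2
  have h2 : ((F.filter fun j => j ∈ box d L).card : ℝ) ≤ ((box d L).card : ℝ) := by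
    exact_mod_cast Finset.card_le_card h1
  exact (mul_le_mul_of_nonneg_left h2 (sq_nonneg _)).trans (sc_mul_card hL).le

theorem wv_sum_eq {d L : ℕ} (hL : 0 < L) (F : Finset (Fin d → ℤ)) (hF : box d L ⊆ F) :
    ∑ j ∈ F, ‖wv d L j‖ ^ 2 = 1 := by
  simp only [wv_norm_sq]
  rw [← Finset.sum_filter, Finset.sum_const, nsmul_eq_mul, mul_comm]
  have h1 : (F.filter fun j => j ∈ box d L) = box d L := by
    ext j
    rw [Finset.mem_filter]
    exact ⟨fun h => h.2, fun h => ⟨hF h, h⟩⟩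
  rw [h1]
  exact sc_mul_card hL

/-- shifted windows -/
theorem wv_shift {d L : ℕ} (hL : 0 < L) (m : Fin d → ℤ) (F : Finset (Fin d → ℤ)) :
    ∑ j ∈ F, ‖wv d L (j - m) - wv d L j‖ ^ 2 ≤ 2 * (∑ l, |(m l : ℝ)|) / L := by
  classical
  have e : ∀ j : Fin d → ℤ, ‖wv d L (j - m) - wv d L j‖ ^ 2
      = (if (j - m ∈ box d L ∧ ¬ j ∈ box d L) then (sc d L) ^ 2 else 0)
        + (if (¬ j - m ∈ box d L ∧ j ∈ box d L) then (sc d L) ^ 2 else 0) := by
    intro j
    by_cases h1 : j - m ∈ box d L <;> by_cases h2 : j ∈ box d L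
    · have e1 : wv d L (j - m) = wv d L j := by unfold wv; rw [if_pos h1, if_pos h2]
      rw [e1, sub_self, norm_zero, if_neg (by tauto), if_neg (by tauto)]
      norm_num
    · have e1 : wv d L j = 0 := if_neg h2
      rw [e1, sub_zero, wv_norm_sq, if_pos h1, if_pos (by tauto), if_neg (by tauto), add_zero]
    · have e1 : wv d L (j - m) = 0 := if_neg h1
      rw [e1, zero_sub, norm_neg, wv_norm_sq, if_pos h2, if_neg (by tauto), if_pos (by tauto),
        zero_add]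
    · have e1 : wv d L (j - m) = 0 := if_neg h1
      have e2 : wv d L j = 0 := if_neg h2
      rw [e1, e2, sub_self, norm_zero, if_neg (by tauto), if_neg (by tauto)]
      norm_num
  simp only [e]
  rw [Finset.sum_add_distrib, ← Finset.sum_filter, ← Finset.sum_filter, Finset.sum_const,
    Finset.sum_const, nsmul_eq_mul, nsmul_eq_mul]
  have hb : ∀ m : Fin d → ℤ, (sc d L) ^ 2 *
      (((box d L).filter (fun k => k + m ∉ box d L)).card : ℝ) ≤ (∑ l, |(m l : ℝ)|) / L := by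
    intro m
    rw [sc_sq]
    exact card_bad hL m
  have h1 : ((F.filter fun j => j - m ∈ box d L ∧ ¬ j ∈ box d L).card : ℝ)
      ≤ (((box d L).filter (fun k => k + m ∉ box d L)).card : ℝ) := by
    have : (F.filter fun j => j - m ∈ box d L ∧ ¬ j ∈ box d L).card
        ≤ ((box d L).filter (fun k => k + m ∉ box d L)).card := by
      refine Finset.card_le_card_of_injOn (fun j => j - m) ?_ ?_
      · intro j hj
        have hj := (Finset.mem_filter.1 (Finset.mem_coe.1 hj)).2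
        refine Finset.mem_coe.2 (Finset.mem_filter.2 ⟨hj.1, ?_⟩)
        rw [sub_add_cancel]
        exact hj.2
      · intro j _ j' _ h
        exact sub_left_injective h
    exact_mod_cast this
  have h2 : ((F.filter fun j => ¬ j - m ∈ box d L ∧ j ∈ box d L).card : ℝ)
      ≤ (((box d L).filter (fun k => k + (-m) ∉ box d L)).card : ℝ) := by
    have : (F.filter fun j => ¬ j - m ∈ box d L ∧ j ∈ box d L).card
        ≤ ((box d L).filter (fun k => k + (-m) ∉ box d L)).card := by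
      refine Finset.card_le_card ?_
      intro j hj
      have hj := (Finset.mem_filter.1 hj).2
      refine Finset.mem_filter.2 ⟨hj.2, ?_⟩
      rw [← sub_eq_add_neg]
      exact hj.1
    exact_mod_cast this
  have h3 := hb m
  have h4 := hb (-m)
  simp only [Pi.neg_apply, Int.cast_neg, abs_neg] at h4
  have h5 := mul_le_mul_of_nonneg_left h1 (sq_nonneg (sc d L))
  have h6 := mul_le_mul_of_nonneg_left h2 (sq_nonneg (sc d L))
  have h7 : 2 * (∑ l, |(m l : ℝ)|) / (L : ℝ) = (∑ l, |(m l : ℝ)|) / L + (∑ l, |(m l : ℝ)|) / L := by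
    ring
  rw [h7]
  nlinarith

section
variable {V : Type z} [NormedAddCommGroup V] [InnerProductSpace ℝ V] {d : ℕ}
  (bs : OrthonormalBasis (Fin d) ℝ V)

theorem vk_sub (a : ℝ) (k m : Fin d → ℤ) : vk bs a (k - m) = vk bs a k - vk bs a m := by
  have h := vk_add bs a (k - m) m
  rw [sub_add_cancel] at h
  rw [h, add_sub_cancel_right]

theorem norm_vk_box {a : ℝ} (ha : 0 ≤ a) {L : ℕ} {j : Fin d → ℤ} (hj : j ∈ box d L) {T0 : ℝ}
    (hL : a * L ≤ T0) : ‖vk bs a j‖ ≤ d * T0 := by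
  unfold vk
  refine (norm_lin bs _).trans ?_
  rw [mem_box] at hj
  calc ∑ l, |a * (j l : ℝ)| ≤ ∑ _l : Fin d, T0 := by
        refine Finset.sum_le_sum fun l _ => ?_
        have h1 : (0 : ℝ) ≤ j l := by exact_mod_cast (hj l).1
        have h2 : (j l : ℝ) ≤ L := by exact_mod_cast (hj l).2.le
        rw [abs_of_nonneg (by positivity)]
        exact (mul_le_mul_of_nonneg_left h2 ha).trans hL
    _ = d * T0 := by rw [Finset.sum_const, Finset.card_univ, Fintype.card_fin, nsmul_eq_mul]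

/-- the nearest lattice point below -/
noncomputable def fl (a : ℝ) (v : V) (l : Fin d) : ℤ := ⌊⟪bs l, v⟫ / a⌋

theorem fl_rem {a : ℝ} (ha : 0 < a) (v : V) : ‖v - vk bs a (fl bs a v)‖ ≤ d * a := by
  have h1 : v - vk bs a (fl bs a v)
      = ∑ l, (⟪bs l, v⟫ - a * (fl bs a v l : ℝ)) • bs l := by
    unfold vk
    simp only [sub_smul]
    rw [Finset.sum_sub_distrib]
    congr 1
    exact (bs.sum_repr' v).symm
  rw [h1]
  refine (norm_lin bs _).trans ?_
  calc ∑ l, |⟪bs l, v⟫ - a * (fl bs a v l : ℝ)| ≤ ∑ _l : Fin d, a := by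
        refine Finset.sum_le_sum fun l _ => ?_
        unfold fl
        have h2 : ((⌊⟪bs l, v⟫ / a⌋ : ℤ) : ℝ) ≤ ⟪bs l, v⟫ / a := Int.floor_le _
        have h3 : ⟪bs l, v⟫ / a < (⌊⟪bs l, v⟫ / a⌋ : ℤ) + 1 := Int.lt_floor_add_one _
        rw [le_div_iff₀ ha] at h2
        rw [div_lt_iff₀ ha] at h3
        rw [abs_le]
        constructor <;> linarith
    _ = d * a := by rw [Finset.sum_const, Finset.card_univ, Fintype.card_fin, nsmul_eq_mul]

theorem fl_abs {a : ℝ} (ha : 0 < a) (v : V) (l : Fin d) : a * |(fl bs a v l : ℝ)| ≤ ‖v‖ + a := by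
  have h0 : |⟪bs l, v⟫| ≤ ‖v‖ := by
    have := abs_real_inner_le_norm (bs l) v
    rwa [bs.orthonormal.1 l, one_mul] at this
  have h1 := abs_le.1 h0
  unfold fl
  have h2 : ((⌊⟪bs l, v⟫ / a⌋ : ℤ) : ℝ) ≤ ⟪bs l, v⟫ / a := Int.floor_le _
  have h3 : ⟪bs l, v⟫ / a < (⌊⟪bs l, v⟫ / a⌋ : ℤ) + 1 := Int.lt_floor_add_one _
  rw [le_div_iff₀ ha] at h2
  rw [div_lt_iff₀ ha] at h3
  have h4 : a * |((⌊⟪bs l, v⟫ / a⌋ : ℤ) : ℝ)| = |a * ((⌊⟪bs l, v⟫ / a⌋ : ℤ) : ℝ)| := by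
    rw [abs_mul, abs_of_pos ha]
  rw [h4, abs_le]
  constructor <;> linarith

theorem sum_fl_abs {a : ℝ} (ha : 0 < a) (v : V) :
    a * ∑ l, |(fl bs a v l : ℝ)| ≤ d * (‖v‖ + a) := by
  rw [Finset.mul_sum]
  refine (Finset.sum_le_sum fun l _ => fl_abs bs ha v l).trans (le_of_eq ?_)
  rw [Finset.sum_const, Finset.card_univ, Fintype.card_fin, nsmul_eq_mul]

/-- displacement of an amplitude `φ · wv` -/
theorem ampV_shift (φ : V → ℂ) (hφ : ∀ v, ‖φ v‖ = 1) (a : ℝ) {L : ℕ} (hL : 0 < L)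
    (m : Fin d → ℤ) (F : Finset (Fin d → ℤ)) (ω : ℝ)
    (hω : ∀ j ∈ box d L, ‖φ (vk bs a (j - m)) - φ (vk bs a j)‖ ≤ ω) :
    ∑ j ∈ F, ‖φ (vk bs a (j - m)) * wv d L (j - m) - φ (vk bs a j) * wv d L j‖ ^ 2
      ≤ 4 * (∑ l, |(m l : ℝ)|) / L + 2 * ω ^ 2 := by
  have e1 : ∀ j : Fin d → ℤ,
      ‖φ (vk bs a (j - m)) * wv d L (j - m) - φ (vk bs a j) * wv d L j‖ ^ 2
      ≤ 2 * ‖wv d L (j - m) - wv d L j‖ ^ 2 + 2 * ω ^ 2 * ‖wv d L j‖ ^ 2 := by
    intro j
    have e2 : φ (vk bs a (j - m)) * wv d L (j - m) - φ (vk bs a j) * wv d L j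
        = φ (vk bs a (j - m)) * (wv d L (j - m) - wv d L j)
          + (φ (vk bs a (j - m)) - φ (vk bs a j)) * wv d L j := by ring
    rw [e2]
    have h1 := pow_le_pow_left₀ (norm_nonneg _) (norm_add_le
      (φ (vk bs a (j - m)) * (wv d L (j - m) - wv d L j))
      ((φ (vk bs a (j - m)) - φ (vk bs a j)) * wv d L j)) 2
    rw [norm_mul, norm_mul, hφ, one_mul] at h1
    have h2 : ‖φ (vk bs a (j - m)) - φ (vk bs a j)‖ * ‖wv d L j‖ ≤ ω * ‖wv d L j‖ := by
      rcases eq_or_ne (wv d L j) 0 with h0 | h0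
      · rw [h0, norm_zero, mul_zero, mul_zero]
      · exact mul_le_mul_of_nonneg_right (hω j (wv_ne h0)) (norm_nonneg _)
    have h3 : 0 ≤ ‖φ (vk bs a (j - m)) - φ (vk bs a j)‖ * ‖wv d L j‖ := by positivity
    have h4 : (‖φ (vk bs a (j - m)) - φ (vk bs a j)‖ * ‖wv d L j‖) ^ 2
        ≤ (ω * ‖wv d L j‖) ^ 2 := pow_le_pow_left₀ h3 h2 2
    have h5 := sq_nonneg (‖wv d L (j - m) - wv d L j‖
      - ‖φ (vk bs a (j - m)) - φ (vk bs a j)‖ * ‖wv d L j‖)
    nlinarith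
  refine (Finset.sum_le_sum fun j _ => e1 j).trans ?_
  rw [Finset.sum_add_distrib, ← Finset.mul_sum, ← Finset.mul_sum]
  have h1 := wv_shift hL m F
  have h2 := wv_sum_le hL F (d := d)
  have h3 : 4 * (∑ l, |(m l : ℝ)|) / (L : ℝ) = 2 * (2 * (∑ l, |(m l : ℝ)|) / L) := by ring
  rw [h3]
  nlinarith [sq_nonneg ω]

theorem ampV_sum (φ : V → ℂ) (hφ : ∀ v, ‖φ v‖ = 1) (a : ℝ) {L : ℕ} (hL : 0 < L)
    (F : Finset (Fin d → ℤ)) : ∑ j ∈ F, ‖φ (vk bs a j) * wv d L j‖ ^ 2 ≤ 1 := by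
  refine le_trans (le_of_eq (Finset.sum_congr rfl fun j _ => ?_)) (wv_sum_le hL F)
  rw [norm_mul, hφ, one_mul]

theorem ampV_sum_shift (φ : V → ℂ) (hφ : ∀ v, ‖φ v‖ = 1) (a : ℝ) {L : ℕ} (hL : 0 < L)
    (m : Fin d → ℤ) (F : Finset (Fin d → ℤ)) :
    ∑ j ∈ F, ‖φ (vk bs a (j - m)) * wv d L (j - m)‖ ^ 2 ≤ 1 := by
  classical
  have h1 : ∑ j ∈ F, ‖φ (vk bs a (j - m)) * wv d L (j - m)‖ ^ 2
      = ∑ j ∈ F.image (fun j => j - m), ‖wv d L j‖ ^ 2 := by
    rw [Finset.sum_image (fun x _ y _ h => sub_left_injective h)]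
    refine Finset.sum_congr rfl fun j _ => ?_
    rw [norm_mul, hφ, one_mul]
  rw [h1]
  exact wv_sum_le hL _

end

end Pool.Agent.AbCoc
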