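import Pool.Agent.Lib_MP_418a80_t4.PkG
import Pool.Agent.Lib_MP_418a80_t4.VDefs
import Pool.Agent.Lib_MP_418a80_t4.WinV

/-!
# MP_418a80_an, T4: the Gram elements of packets over `V` are invariant under the phases
-/

set_option autoImplicit false
set_option linter.unusedVariables false
set_option linter.unusedSectionVars false

open Topology Filter MeasureTheory
open scoped RealInnerProductSpace ComplexConjugate

namespace Pool.Agent.AbCoc

universe u v w z z'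

open CellsV

section
variable {G : Type w} [Group G] [TopologicalSpace G] {V : Type z} [NormedAddCommGroup V]
  [InnerProductSpace ℝ V] {R : VSec G V} {U : Type z'} [NormedAddCommGroup U]
  [NormedSpace ℝ U] (W : WtV R U) (χ : U →L[ℝ] ℝ)

theorem WtV.norm_ph (l : U) (v : V) : ‖W.ph χ l v‖ = 1 := norm_ch _

theorem WtV.ph_add (l l' : U) (v : V) : W.ph χ (l + l') v = W.ph χ l v * W.ph χ l' v := by
  unfold WtV.ph
  rw [map_add, map_add, ch_add]

theorem WtV.continuous_ph (l : U) : Continuous (W.ph χ l) := by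
  have h1 : Continuous fun v : V => W.ρ (-v) l :=
    (W.hρ.comp continuous_neg).clm_apply continuous_const
  exact continuous_ch.comp (χ.continuous.comp h1)

theorem WtV.ph_mul_conj (l : U) (v : V) : W.ph χ l v * conj (W.ph χ l v) = 1 := ch_mul_conj _

/-- `g_l(v + s0) g_l(v)⁻¹ = g_{ρ(-s0) l - l}(v)` -/
theorem WtV.ph_shift (l : U) (s0 v : V) :
    W.ph χ l (v + s0) * conj (W.ph χ l v) = W.ph χ (W.ρ (-s0) l - l) v := by
  unfold WtV.ph
  rw [← ch_sub, ← map_sub]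
  congr 2
  rw [map_sub, neg_add, W.ρ_add]
  rfl

end

section
variable {A : Type u} [CStarAlgebra A] {K : Type v} [NormedAddCommGroup K]
  [InnerProductSpace ℂ K] [CompleteSpace K]
variable {G : Type w} [Group G] [TopologicalSpace G] {T : TrAlg A K} (S : TrAct G T)
  {V : Type z} [NormedAddCommGroup V] [InnerProductSpace ℝ V] [FiniteDimensional ℝ V]
  {U : Type z'} [NormedAddCommGroup U] [NormedSpace ℝ U] [FiniteDimensional ℝ U]

/-- regularity of `v ↦ γ_v e` on balls -/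
theorem TrAct.exists_regV (R : VSec G V) (e : A) (T0 η : ℝ) (hη : 0 < η) :
    ∃ a1 : ℝ, 0 < a1 ∧ ∀ w r : V, ‖w‖ ≤ T0 → ‖r‖ ≤ a1 →
      ‖T.ι (S.α (R.s (w + r)) e - S.α (R.s w) e)‖ ≤ η := by
  have hprop : ProperSpace V := FiniteDimensional.proper ℝ V
  have hc : Continuous fun v : V => T.ι (S.α (R.s v) e) := (S.cont e).comp R.hs
  have hu : UniformContinuousOn (fun v : V => T.ι (S.α (R.s v) e))
      (Metric.closedBall 0 (T0 + 1)) :=
    (isCompact_closedBall _ _).uniformContinuousOn_of_continuous hc.continuousOn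
  rw [Metric.uniformContinuousOn_iff_le] at hu
  obtain ⟨δ, hδ, h⟩ := hu η hη
  refine ⟨min δ 1, lt_min hδ one_pos, fun w r hw hr => ?_⟩
  have hr1 : ‖r‖ ≤ 1 := hr.trans (min_le_right _ _)
  have h1 := h (w + r) (by
    rw [mem_closedBall_zero_iff]
    exact (norm_add_le _ _).trans (by linarith)) w (by
    rw [mem_closedBall_zero_iff]
    linarith) (by
    rw [dist_eq_norm, add_sub_cancel_left]
    exact hr.trans (min_le_left _ _))
  rw [map_sub]
  rwa [dist_eq_norm] at h1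

/-- `γ_v` moves lattice packets to the shifted ones -/
theorem TrAct.trV (R : VSec G V) {d : ℕ} (bs : OrthonormalBasis (Fin d) ℝ V) {e : A} {T2 κ η a1 : ℝ}
    (hmul : ∀ v v' : V, ‖v‖ ≤ T2 → ‖v'‖ ≤ T2 →
      ‖T.ι (S.α (R.s v) (S.α (R.s v') e) - S.α (R.s (v + v')) e)‖ ≤ κ)
    (hreg : ∀ w r : V, ‖w‖ ≤ T2 → ‖r‖ ≤ a1 → ‖T.ι (S.α (R.s (w + r)) e - S.α (R.s w) e)‖ ≤ η)
    {a T0 : ℝ} (ha : 0 ≤ a) {L M : ℕ} (hL : a * L ≤ T0) (v : V) (m : Fin d → ℤ)
    (hm : ∀ l, |m l| + (L : ℤ) ≤ M) (hv : ‖v‖ ≤ T2) (hT : d * T0 + ‖v‖ + a1 ≤ T2)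
    (ha1 : 0 ≤ a1) (hT0 : d * T0 ≤ T2)
    (hr : ‖v - vk bs a m‖ ≤ a1) (f : (Fin d → ℤ) → ℂ) (hf : ∀ j, f j ≠ 0 → j ∈ box d L) :
    S.Tr (fun j => R.s (vk bs a j)) (bigbox d M) e (R.s v) m (κ + η) f := by
  intro j hj
  have hjb := hf j hj
  obtain ⟨h1, h2⟩ := box_bigbox hjb hm
  refine ⟨h1, h2, ?_⟩
  have h3 := norm_vk_box bs ha hjb hL
  have h4 := hmul v (vk bs a j) hv (h3.trans hT0)
  have h5 : v + vk bs a j = vk bs a (j + m) + (v - vk bs a m) := by
    rw [vk_add]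
    abel
  have h6 : ‖vk bs a (j + m)‖ ≤ T2 := by
    have h7 : vk bs a (j + m) = vk bs a j + v - (v - vk bs a m) := by
      rw [vk_add]
      abel
    rw [h7]
    refine (norm_sub_le _ _).trans ?_
    have := norm_add_le (vk bs a j) v
    linarith
  have h8 := hreg (vk bs a (j + m)) (v - vk bs a m) h6 hr
  rw [← h5] at h8
  have h9 : S.α (R.s v) (S.α (R.s (vk bs a j)) e) - S.α (R.s (vk bs a (j + m))) e
      = (S.α (R.s v) (S.α (R.s (vk bs a j)) e) - S.α (R.s (v + vk bs a j)) e)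
        + (S.α (R.s (v + vk bs a j)) e - S.α (R.s (vk bs a (j + m))) e) := by abel
  rw [h9, map_add]
  exact (norm_add_le _ _).trans (add_le_add h4 h8)

private theorem inv90_d {a d b : ℝ} (ha : 0 ≤ a) (h : a * (d + 1) ≤ b) : d * a ≤ b := by
  have e : a * (d + 1) = d * a + a := by ring
  rw [e] at h
  linarith

private theorem inv90_b {x d δ b : ℝ} (hδ : 0 ≤ δ) (h : x ≤ d * δ) (h2 : δ * (d + 2) ≤ b) :
    δ + x ≤ b := by
  have e : δ * (d + 2) = d * δ + 2 * δ := by ring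
  rw [e] at h2
  linarith

private theorem inv90_c {d δ b : ℝ} (hδ : 0 ≤ δ) (h : δ * (32 * (d + 1)) ≤ b) :
    8 * d * δ ≤ b / 4 := by
  have e : δ * (32 * (d + 1)) = 4 * (8 * d * δ) + 32 * δ := by ring
  rw [e] at h
  linarith

private theorem inv90_L {θ t x : ℝ} (hθ : 0 ≤ θ) (h : t / 2 ≤ x) :
    θ * t / 4 ≤ θ / 2 * x := by
  have h1 := mul_le_mul_of_nonneg_left h (by positivity : 0 ≤ θ / 2)
  have e : θ / 2 * (t / 2) = θ * t / 4 := by ring
  rwa [e] at h1

theorem TrAct.gram_periodicV (R : VSec G V) {d : ℕ} (bs : OrthonormalBasis (Fin d) ℝ V) (s0 : V)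
    (T0 ε : ℝ) (hT0 : 0 < T0) (hε : 0 < ε) (φ : V → ℂ) (hφc : Continuous φ)
    (hφ : ∀ v, ‖φ v‖ = 1) :
    ∃ δ : ℝ, 0 < δ ∧ ∀ b : A, S.IsPrj b → S.PerAtV R b s0 ((ε / 40) ^ 2) δ →
      ∀ C : ℝ, ∃ (D : Set G) (κ : ℝ), IsCompact D ∧ 0 < κ ∧
        ∀ e : A, b * e = e → e * b = e → ‖T.ι e‖ ≤ 1 → ‖e‖ ^ 2 ≤ C →
          (∀ h ∈ D, R.p h = 0 → ∀ v : V, ‖v‖ ≤ d * T0 + ‖s0‖ + 2 →
            ‖T.ι (S.α h (S.α (R.s v) e) - S.α (R.s v) e)‖ ≤ κ) →
          (∀ v v' : V, ‖v‖ ≤ d * T0 + ‖s0‖ + 2 → ‖v'‖ ≤ d * T0 + ‖s0‖ + 2 →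
            ‖T.ι (S.α (R.s v) (S.α (R.s v') e) - S.α (R.s (v + v')) e)‖ ≤ κ) →
          ∃ a0 : ℝ, 0 < a0 ∧ ∀ (a : ℝ) (m0 : Fin d → ℤ) (L M : ℕ), 0 < a → a ≤ a0 →
            vk bs a m0 = s0 → a * L ≤ T0 → T0 < a * (L + 1) → (∀ l, |m0 l| + (L : ℤ) ≤ M) →
            a * L + 2 ≤ a * M → ∀ E : Chs (Fin d → ℤ) (bigbox d M),
            ∑ c, T.n1 (S.grt E (fun j => R.s (vk bs a j)) e
                (fun j => φ (vk bs a (j - m0)) * wv d L (j - m0)) c
              - S.grt E (fun j => R.s (vk bs a j)) e (fun j => φ (vk bs a j) * wv d L j) c) ≤ ε := by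
  have hprop : ProperSpace V := FiniteDimensional.proper ℝ V
  obtain ⟨εp, hεp⟩ : ∃ εp : ℝ, εp = (ε / 40) ^ 2 := ⟨_, rfl⟩
  have hεp0 : 0 < εp := by rw [hεp]; positivity
  -- the amplitude error
  obtain ⟨θ, hθ⟩ : ∃ θ : ℝ, θ = (εp / 8) ^ 2 := ⟨_, rfl⟩
  have hθ0 : 0 < θ := by rw [hθ]; positivity
  obtain ⟨δ1, hδ1, hmod⟩ : ∃ δ1 : ℝ, 0 < δ1 ∧ ∀ v v' : V, ‖v‖ ≤ d * T0 + 2 → ‖v'‖ ≤ d * T0 + 2 →
      ‖v - v'‖ ≤ δ1 → ‖φ v - φ v'‖ ≤ √θ / 2 := by
    have hc : UniformContinuousOn φ (Metric.closedBall 0 (d * T0 + 2)) :=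
      (isCompact_closedBall _ _).uniformContinuousOn_of_continuous hφc.continuousOn
    rw [Metric.uniformContinuousOn_iff_le] at hc
    obtain ⟨δ', hδ', h⟩ := hc (√θ / 2) (by positivity)
    refine ⟨δ', hδ', fun v v' hv hv' hvv => ?_⟩
    have h1 := h v (mem_closedBall_zero_iff.2 hv) v' (mem_closedBall_zero_iff.2 hv')
      (by rwa [dist_eq_norm])
    rwa [dist_eq_norm] at h1
  -- the size of the times
  obtain ⟨δ, hδ⟩ : ∃ δ : ℝ, δ = min (1 / 2) (min (δ1 / (d + 2)) (θ * T0 / (32 * (d + 1)))) :=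
    ⟨_, rfl⟩
  have hd0 : (0 : ℝ) ≤ d := Nat.cast_nonneg d
  have hδ0 : 0 < δ := by
    rw [hδ]
    exact lt_min (by norm_num) (lt_min (by positivity) (by positivity))
  have hδa : δ ≤ 1 / 2 := by rw [hδ]; exact min_le_left _ _
  have hδb : δ * (d + 2) ≤ δ1 := by
    have h1 : δ ≤ δ1 / (d + 2) := by rw [hδ]; exact (min_le_right _ _).trans (min_le_left _ _)
    rwa [le_div_iff₀ (by positivity)] at h1
  have hδc : δ * (32 * (d + 1)) ≤ θ * T0 := by
    have h1 : δ ≤ θ * T0 / (32 * (d + 1)) := by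
      rw [hδ]; exact (min_le_right _ _).trans (min_le_right _ _)
    rwa [le_div_iff₀ (by positivity)] at h1
  refine ⟨δ, hδ0, fun b hb hper C => ?_⟩
  rw [← hεp] at hper
  obtain ⟨D, κp, hD, hκp, hper⟩ := hper C
  obtain ⟨κ, hκ⟩ : ∃ κ : ℝ, κ = min (κp / 2) (min (εp / 8) (ε / 8)) := ⟨_, rfl⟩
  have hκ0 : 0 < κ := by
    rw [hκ]
    exact lt_min (by positivity) (lt_min (by positivity) (by positivity))
  have hκa : κ ≤ κp / 2 := by rw [hκ]; exact min_le_left _ _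
  have hκb : κ ≤ εp / 8 := by rw [hκ]; exact (min_le_right _ _).trans (min_le_left _ _)
  have hκc : κ ≤ ε / 8 := by rw [hκ]; exact (min_le_right _ _).trans (min_le_right _ _)
  refine ⟨D, κ, hD, hκ0, fun e hbe heb hιe heC hnear hmul => ?_⟩
  obtain ⟨T2, hT2⟩ : ∃ T2 : ℝ, T2 = d * T0 + ‖s0‖ + 2 := ⟨_, rfl⟩
  rw [← hT2] at hnear hmul
  have hs00 : 0 ≤ ‖s0‖ := norm_nonneg _
  have hdT : d * T0 ≤ T2 := by rw [hT2]; linarith
  obtain ⟨a1, ha1, hreg⟩ := S.exists_regV R e T2 (εp / 8) (by positivity)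
  obtain ⟨a2, ha2⟩ : ∃ a2 : ℝ, a2 = min a1 1 := ⟨_, rfl⟩
  have ha20 : 0 < a2 := by rw [ha2]; exact lt_min ha1 one_pos
  have ha2a : a2 ≤ a1 := by rw [ha2]; exact min_le_left _ _
  have ha2b : a2 ≤ 1 := by rw [ha2]; exact min_le_right _ _
  refine ⟨min (a2 / (d + 1)) (min δ (T0 / 2)),
    lt_min (by positivity) (lt_min hδ0 (by positivity)),
    fun a m0 L M ha haa hs0 haL haL' hm0 hM E => ?_⟩
  have haa1 : a * (d + 1) ≤ a2 := by
    have h1 := haa.trans (min_le_left _ _)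
    rwa [le_div_iff₀ (by positivity)] at h1
  have haδ : a ≤ δ := haa.trans ((min_le_right _ _).trans (min_le_left _ _))
  have haT : a ≤ T0 / 2 := haa.trans ((min_le_right _ _).trans (min_le_right _ _))
  have haL2 : T0 / 2 ≤ a * L := by
    have : a * (L + 1) = a * L + a := by ring
    rw [this] at haL'
    linarith
  have hLpos : 0 < L := by
    rcases Nat.eq_zero_or_pos L with h0 | h0
    · rw [h0] at haL2
      simp only [Nat.cast_zero, mul_zero] at haL2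
      linarith
    · exact h0
  have hLr : (0 : ℝ) < L := by exact_mod_cast hLpos
  obtain ⟨t, ht⟩ : ∃ t : (Fin d → ℤ) → G, t = fun j => R.s (vk bs a j) := ⟨_, rfl⟩
  rw [← ht]
  obtain ⟨f, hf⟩ : ∃ f : (Fin d → ℤ) → ℂ, ∀ j, f j = φ (vk bs a j) * wv d L j :=
    ⟨_, fun _ => rfl⟩
  have hfe : (fun j : Fin d → ℤ => φ (vk bs a j) * wv d L j) = f := funext fun j => (hf j).symm
  have hfe2 : (fun j : Fin d → ℤ => φ (vk bs a (j - m0)) * wv d L (j - m0))
      = fun j => f (j - m0) := funext fun j => (hf _).symm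
  rw [hfe, hfe2]
  have hf1 : ∑ j ∈ bigbox d M, ‖f j‖ ^ 2 ≤ 1 := by
    rw [← hfe]
    exact ampV_sum bs φ hφ a hLpos _
  have hf1' : ∀ m, ∑ j ∈ bigbox d M, ‖f (j - m)‖ ^ 2 ≤ 1 := by
    intro m
    have := ampV_sum_shift bs φ hφ a hLpos m (bigbox d M)
    refine le_trans (le_of_eq (Finset.sum_congr rfl fun j _ => ?_)) this
    rw [hf]
  have hfne : ∀ j, f j ≠ 0 → j ∈ box d L := by
    intro j hj
    rw [hf] at hj
    exact wv_ne (right_ne_zero_of_mul hj)
  have hvk : ∀ j, f j ≠ 0 → ‖vk bs a j‖ ≤ T2 := fun j hj =>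
    (norm_vk_box bs ha.le (hfne j hj) haL).trans hdT
  -- the family of square roots
  have hsq := hper E.C (S.sqt E t e f) (fun c => (S.sqt_corner E t hb heb f c).1)
    (fun c => (S.sqt_corner E t hb heb f c).2) ((S.sqt_dm E t hf1).mono heC)
    (S.sqt_ms E t hιe hf1)
    (fun h hh hp => by
      refine (S.sum_sqt_sub E t h f f).trans ?_
      have h1 := S.act_pkt E t (e := e) h f (fun _ => 1) (κ := κ) (fun j hj hj0 => by
        rw [one_smul, ht]
        exact hnear h hh hp _ (hvk j hj0))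
      simp only [one_mul] at h1
      have h3 : ∑ c, ‖T.ι (S.α h (S.pkt E t e f c) - (1 : ℂ) • S.pkt E t e f c)‖ ^ 2 ≤ κ ^ 2 := by
        simp only [one_smul]
        exact h1.trans (mul_le_of_le_one_right (sq_nonneg κ) hf1)
      have h4 := S.sum_n1_act_grt E t hιe h hf1 hf1 (fun _ => (1 : ℂ)) (fun _ => norm_one)
        hκ0.le h3
      linarith)
    (fun v hv => by
      refine (S.sum_sqt_sub E t _ f f).trans ?_
      obtain ⟨m, hm⟩ : ∃ m : Fin d → ℤ, m = fl bs a v := ⟨_, rfl⟩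
      have hrem : ‖v - vk bs a m‖ ≤ a2 := by
        rw [hm]
        exact (fl_rem bs ha v).trans (inv90_d ha.le haa1)
      have habs : ∀ l, a * |(m l : ℝ)| ≤ δ + a := fun l => by
        rw [hm]
        exact (fl_abs bs ha v l).trans (by linarith)
      have hmM : ∀ l, |m l| + (L : ℤ) ≤ M := by
        intro l
        have h1 : a * (|(m l : ℝ)| + L) < a * (M : ℝ) := by
          have := habs l
          rw [mul_add]
          linarith
        have h2 := lt_of_mul_lt_mul_left h1 ha.le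
        have h3 : |m l| + (L : ℤ) < M := by exact_mod_cast h2
        exact h3.le
      have hTr : S.Tr t (bigbox d M) e (R.s v) m (κ + εp / 8) f := by
        rw [ht]
        refine S.trV R bs hmul (a1 := a2) (fun w r hw hr => hreg w r hw (hr.trans ha2a)) ha.le haL v m
          hmM ?_ ?_ ha20.le hdT hrem f hfne
        · rw [hT2]
          have : 0 ≤ (d : ℝ) * T0 := by positivity
          linarith
        · rw [hT2]
          linarith
      have h1 := S.trans_grt E t hιe (by positivity) hf1 (hf1' m) hTr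
      have hsum : a * ∑ l, |(m l : ℝ)| ≤ d * (2 * δ) := by
        rw [hm]
        refine (sum_fl_abs bs ha v).trans ?_
        exact mul_le_mul_of_nonneg_left (by linarith) hd0
      have h2 : ∑ j ∈ bigbox d M, ‖f (j - m) - f j‖ ^ 2
          ≤ 4 * (∑ l, |(m l : ℝ)|) / L + 2 * (√θ / 2) ^ 2 := by
        simp only [hf]
        refine ampV_shift bs φ hφ a hLpos m _ (√θ / 2) fun j hj => ?_
        have h3 := norm_vk_box bs ha.le hj haL
        have h4 : vk bs a (j - m) = vk bs a j - v + (v - vk bs a m) := by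
          rw [vk_sub]
          abel
        have h5 : ‖vk bs a (j - m) - vk bs a j‖ ≤ δ + d * a := by
          have h6 : vk bs a (j - m) - vk bs a j = (v - vk bs a m) - v := by
            rw [vk_sub]
            abel
          rw [h6]
          refine (norm_sub_le _ _).trans ?_
          have h7 : ‖v - vk bs a m‖ ≤ d * a := by rw [hm]; exact fl_rem bs ha v
          linarith
        have h6 : δ + d * a ≤ δ1 := by
          have : (d : ℝ) * a ≤ d * δ := mul_le_mul_of_nonneg_left haδ hd0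
          exact inv90_b hδ0.le this hδb
        have h8 : ‖vk bs a (j - m)‖ ≤ d * T0 + 2 := by
          rw [h4]
          refine (norm_add_le _ _).trans ?_
          have := norm_sub_le (vk bs a j) v
          linarith
        exact hmod _ _ h8 (by linarith) (h5.trans h6)
      have h3 : 4 * (∑ l, |(m l : ℝ)|) / (L : ℝ) ≤ θ / 2 := by
        rw [div_le_iff₀ hLr]
        have h4 : a * (4 * ∑ l, |(m l : ℝ)|) ≤ a * (θ / 2 * L) := by
          calc a * (4 * ∑ l, |(m l : ℝ)|) = 4 * (a * ∑ l, |(m l : ℝ)|) := by ring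
            _ ≤ 8 * d * δ := by linarith
            _ ≤ θ * T0 / 4 := inv90_c hδ0.le hδc
            _ ≤ θ / 2 * (a * L) := inv90_L hθ0.le haL2
            _ = a * (θ / 2 * L) := by ring
        exact le_of_mul_le_mul_left h4 ha
      have h4 : (√θ / 2) ^ 2 = θ / 4 := by rw [div_pow, Real.sq_sqrt hθ0.le]; norm_num
      have h5 : ∑ j ∈ bigbox d M, ‖f (j - m) - f j‖ ^ 2 ≤ (εp / 8) ^ 2 := by
        rw [← hθ]
        rw [h4] at h2
        linarith
      have h6 := S.sum_n1_grt_sub E t hιe (hf1' m) hf1 (by positivity) h5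
      have h7 : ∀ c, T.n1 (S.α (R.s v) (S.grt E t e f c) - S.grt E t e f c)
          ≤ T.n1 (S.α (R.s v) (S.grt E t e f c) - S.grt E t e (fun j => f (j - m)) c)
            + T.n1 (S.grt E t e (fun j => f (j - m)) c - S.grt E t e f c) :=
        fun c => T.n1_sub_le_add _ _ _
      refine (Finset.sum_le_sum fun c _ => h7 c).trans ?_
      rw [Finset.sum_add_distrib]
      linarith)
  have h1 : (100 : ℝ) * εp = (ε / 4) ^ 2 := by rw [hεp]; ring
  rw [h1] at hsq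
  have h2 := S.sum_n1_grt_of_sqt E t hιe (R.s s0) hf1 hf1 (by positivity) hsq
  have hTr0 : S.Tr t (bigbox d M) e (R.s s0) m0 (κ + 0) f := by
    rw [ht]
    refine S.trV R bs hmul (a1 := 0) (fun w r hw hr => ?_) ha.le haL s0 m0 hm0 ?_ ?_ le_rfl hdT
      ?_ f hfne
    · have h3 : r = 0 := norm_le_zero_iff.1 hr
      rw [h3, add_zero, sub_self, map_zero, norm_zero]
    · rw [hT2]
      have : 0 ≤ (d : ℝ) * T0 := by positivity
      linarith
    · rw [hT2]
      linarith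
    · rw [hs0, sub_self, norm_zero]
  rw [add_zero] at hTr0
  have h3 := S.trans_grt E t hιe hκ0.le hf1 (hf1' m0) hTr0
  have h4 : ∀ c, T.n1 (S.grt E t e (fun j => f (j - m0)) c - S.grt E t e f c)
      ≤ T.n1 (S.α (R.s s0) (S.grt E t e f c) - S.grt E t e (fun j => f (j - m0)) c)
        + T.n1 (S.α (R.s s0) (S.grt E t e f c) - S.grt E t e f c) := by
    intro c
    have := T.n1_sub_le_add (S.grt E t e (fun j => f (j - m0)) c)
      (S.α (R.s s0) (S.grt E t e f c)) (S.grt E t e f c)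
    rwa [T.n1_sub_comm (S.grt E t e (fun j => f (j - m0)) c)
      (S.α (R.s s0) (S.grt E t e f c))] at this
  refine (Finset.sum_le_sum fun c _ => h4 c).trans ?_
  rw [Finset.sum_add_distrib]
  linarith

theorem TrAct.gram_invV (R : VSec G V) (W : WtV R U) (χ : U →L[ℝ] ℝ) {d : ℕ}
    (bs : OrthonormalBasis (Fin d) ℝ V) (s0 : V)
    (T0 ε : ℝ) (hT0 : 0 < T0) (hε : 0 < ε) (φ : V → ℂ) (hφc : Continuous φ)
    (hφ : ∀ v, ‖φ v‖ = 1) (l l' : U) (hl : W.ρ (-s0) l - l = l') :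
    ∃ δ : ℝ, 0 < δ ∧ ∀ b : A, S.IsPrj b → S.PerAtV R b s0 ((ε / 160) ^ 2) δ →
      ∀ C : ℝ, ∃ (D : Set G) (κ : ℝ), IsCompact D ∧ 0 < κ ∧
        ∀ (e : A) (β : U → G), S.NEltV R (W.ph χ) b (d * T0 + ‖s0‖ + 2) D κ {l} C e β →
          ∃ a0 : ℝ, 0 < a0 ∧ ∀ (a : ℝ) (m0 : Fin d → ℤ) (L M : ℕ), 0 < a → a ≤ a0 →
            vk bs a m0 = s0 → a * L ≤ T0 → T0 < a * (L + 1) → (∀ l, |m0 l| + (L : ℤ) ≤ M) →
            a * L + 2 ≤ a * M → ∀ E : Chs (Fin d → ℤ) (bigbox d M),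
            ∑ c, T.n1 (S.grt E (fun j => R.s (vk bs a j)) e
                (fun j => W.ph χ l' (vk bs a j) * (φ (vk bs a j) * wv d L j)) c
              - S.grt E (fun j => R.s (vk bs a j)) e (fun j => φ (vk bs a j) * wv d L j) c)
              ≤ ε := by
  obtain ⟨φ2, hφ2⟩ : ∃ φ2 : V → ℂ, ∀ v, φ2 v = φ v * conj (W.ph χ l v) := ⟨_, fun _ => rfl⟩
  have hφ2c : Continuous φ2 := by
    rw [funext hφ2]
    exact hφc.mul (Complex.continuous_conj.comp (W.continuous_ph χ l))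
  have hφ2n : ∀ v, ‖φ2 v‖ = 1 := by
    intro v
    rw [hφ2, norm_mul, hφ, RCLike.norm_conj, W.norm_ph, one_mul]
  obtain ⟨δ1, hδ1, hP1⟩ := S.gram_periodicV R bs s0 T0 (ε / 4) hT0 (by positivity) φ hφc hφ
  obtain ⟨δ2, hδ2, hP2⟩ := S.gram_periodicV R bs s0 T0 (ε / 4) hT0 (by positivity) φ2 hφ2c hφ2n
  refine ⟨min δ1 δ2, lt_min hδ1 hδ2, fun b hb hper C => ?_⟩
  have e160 : (ε / 160) ^ 2 = (ε / 4 / 40) ^ 2 := by ring
  rw [e160] at hper
  obtain ⟨D1, κ1, hD1, hκ1, hP1⟩ := hP1 b hb (hper.mono (min_le_left _ _)) C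
  obtain ⟨D2, κ2, hD2, hκ2, hP2⟩ := hP2 b hb (hper.mono (min_le_right _ _)) C
  refine ⟨D1 ∪ D2, min (min κ1 κ2) (ε / 16), hD1.union hD2,
    lt_min (lt_min hκ1 hκ2) (by positivity), fun e β he => ?_⟩
  obtain ⟨T2, hT2⟩ : ∃ T2 : ℝ, T2 = d * T0 + ‖s0‖ + 2 := ⟨_, rfl⟩
  rw [← hT2] at he hP1 hP2
  have hd0 : (0 : ℝ) ≤ d := Nat.cast_nonneg d
  have hdT0 : 0 ≤ (d : ℝ) * T0 := by positivity
  have hs00 : 0 ≤ ‖s0‖ := norm_nonneg _
  have hdT : d * T0 ≤ T2 := by rw [hT2]; linarith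
  obtain ⟨a1, ha1, hP1⟩ := hP1 e he.lft he.rgt he.nrm.le he.op
    (fun h hh hp v hv => (he.nearH h (Or.inl hh) hp v hv).trans
      ((min_le_left _ _).trans (min_le_left _ _)))
    (fun v v' hv hv' => (he.mul v v' hv hv').trans ((min_le_left _ _).trans (min_le_left _ _)))
  obtain ⟨a2, ha2, hP2⟩ := hP2 e he.lft he.rgt he.nrm.le he.op
    (fun h hh hp v hv => (he.nearH h (Or.inr hh) hp v hv).trans
      ((min_le_left _ _).trans (min_le_right _ _)))
    (fun v v' hv hv' => (he.mul v v' hv hv').trans ((min_le_left _ _).trans (min_le_right _ _)))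
  refine ⟨min (min a1 a2) (T0 / 2), lt_min (lt_min ha1 ha2) (by positivity),
    fun a m0 L M ha haa hs0m haL haL' hm0 hM E => ?_⟩
  have h1 := hP1 a m0 L M ha (haa.trans ((min_le_left _ _).trans (min_le_left _ _))) hs0m haL haL'
    hm0 hM E
  have h2 := hP2 a m0 L M ha (haa.trans ((min_le_left _ _).trans (min_le_right _ _))) hs0m haL
    haL' hm0 hM E
  have haT : a ≤ T0 / 2 := haa.trans (min_le_right _ _)
  have hLpos : 0 < L := by
    rcases Nat.eq_zero_or_pos L with h0 | h0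
    · rw [h0] at haL'
      simp only [Nat.cast_zero, zero_add, mul_one] at haL'
      linarith
    · exact h0
  have hιe : ‖T.ι e‖ ≤ 1 := he.nrm.le
  obtain ⟨t, ht⟩ : ∃ t : (Fin d → ℤ) → G, t = fun j => R.s (vk bs a j) := ⟨_, rfl⟩
  rw [← ht] at h1 h2 ⊢
  obtain ⟨f, hf⟩ : ∃ f : (Fin d → ℤ) → ℂ, ∀ j, f j = φ (vk bs a j) * wv d L j :=
    ⟨_, fun _ => rfl⟩
  obtain ⟨f2, hf2⟩ : ∃ f2 : (Fin d → ℤ) → ℂ, ∀ j, f2 j = φ2 (vk bs a j) * wv d L j :=
    ⟨_, fun _ => rfl⟩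
  have hfe : (fun j : Fin d → ℤ => φ (vk bs a j) * wv d L j) = f := funext fun j => (hf j).symm
  have hfe2 : (fun j : Fin d → ℤ => φ2 (vk bs a j) * wv d L j) = f2 :=
    funext fun j => (hf2 j).symm
  have hfs : (fun j : Fin d → ℤ => φ (vk bs a (j - m0)) * wv d L (j - m0))
      = fun j => f (j - m0) := funext fun j => (hf _).symm
  have hfs2 : (fun j : Fin d → ℤ => φ2 (vk bs a (j - m0)) * wv d L (j - m0))
      = fun j => f2 (j - m0) := funext fun j => (hf2 _).symm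
  have hfl : (fun j : Fin d → ℤ => W.ph χ l' (vk bs a j) * (φ (vk bs a j) * wv d L j))
      = fun j => W.ph χ l' (vk bs a j) * f j := funext fun j => by rw [hf]
  rw [hfe, hfs] at h1
  rw [hfe2, hfs2] at h2
  rw [hfe, hfl]
  -- supports
  have hfne : ∀ j, f j ≠ 0 → j ∈ box d L := by
    intro j hj
    rw [hf] at hj
    exact wv_ne (right_ne_zero_of_mul hj)
  have hf2ne : ∀ j, f2 j ≠ 0 → j ∈ box d L := by
    intro j hj
    rw [hf2] at hj
    exact wv_ne (right_ne_zero_of_mul hj)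
  have hgrid : ∀ j, j ∈ box d L → ‖vk bs a j‖ ≤ d * T0 := fun j hj =>
    norm_vk_box bs ha.le hj haL
  -- norms
  have n1 : ∑ j ∈ bigbox d M, ‖f2 j‖ ^ 2 ≤ 1 := by
    rw [← hfe2]; exact ampV_sum bs φ2 hφ2n a hLpos _
  have n2 : ∑ j ∈ bigbox d M, ‖f2 (j - m0)‖ ^ 2 ≤ 1 := by
    have := ampV_sum_shift bs φ2 hφ2n a hLpos m0 (bigbox d M)
    refine le_trans (le_of_eq (Finset.sum_congr rfl fun j _ => ?_)) this
    rw [hf2]
  have n3 : ∑ j ∈ bigbox d M, ‖f j‖ ^ 2 ≤ 1 := by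
    rw [← hfe]; exact ampV_sum bs φ hφ a hLpos _
  have n3' : ∑ j ∈ bigbox d M, ‖f (j - m0)‖ ^ 2 ≤ 1 := by
    have := ampV_sum_shift bs φ hφ a hLpos m0 (bigbox d M)
    refine le_trans (le_of_eq (Finset.sum_congr rfl fun j _ => ?_)) this
    rw [hf]
  have n4 : ∑ j ∈ bigbox d M, ‖W.ph χ l (vk bs a j) * f2 (j - m0)‖ ^ 2 ≤ 1 := by
    refine le_trans (le_of_eq (Finset.sum_congr rfl fun j _ => ?_)) n2
    rw [norm_mul, W.norm_ph, one_mul]
  have n5 : ∑ j ∈ bigbox d M, ‖W.ph χ l' (vk bs a j) * f j‖ ^ 2 ≤ 1 := by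
    refine le_trans (le_of_eq (Finset.sum_congr rfl fun j _ => ?_)) n3
    rw [norm_mul, W.norm_ph, one_mul]
  have hκ16 : min (min κ1 κ2) (ε / 16) ≤ ε / 16 := min_le_right _ _
  have hfg : (fun j => W.ph χ l (vk bs a j) * f2 j) = f := by
    funext j
    rw [hf2, hφ2, hf]
    have := W.ph_mul_conj χ l (vk bs a j)
    linear_combination (φ (vk bs a j) * wv d L j) * this
  -- (2) the action of `β l` on `gr f2`
  have h3 : ∑ c, T.n1 (S.α (β l) (S.grt E t e f2 c) - S.grt E t e f c) ≤ ε / 8 := by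
    have h4 := S.act_pkt E t (e := e) (β l) f2 (fun j => W.ph χ l (vk bs a j))
      (κ := ε / 16) (fun j hj hj0 => by
        rw [ht]
        exact (he.phase l rfl _ ((hgrid j (hf2ne j hj0)).trans hdT)).trans hκ16)
    rw [hfg] at h4
    have h5 := S.sum_n1_act_grt E t hιe (β l) n1 n3 (fun _ => (1 : ℂ)) (fun _ => norm_one)
      (δ := ε / 16) (by positivity) (by
        simp only [one_smul]
        exact h4.trans (mul_le_of_le_one_right (sq_nonneg (ε / 16)) n1))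
    linarith
  -- and on the shifted one
  have h4 : ∑ c, T.n1 (S.α (β l) (S.grt E t e (fun j => f2 (j - m0)) c)
      - S.grt E t e (fun j => W.ph χ l (vk bs a j) * f2 (j - m0)) c) ≤ ε / 8 := by
    have h5 := S.act_pkt E t (e := e) (β l) (fun j => f2 (j - m0))
      (fun j => W.ph χ l (vk bs a j)) (κ := ε / 16) (fun j hj hj0 => by
        rw [ht]
        refine (he.phase l rfl _ ?_).trans hκ16
        have h6 := hgrid _ (hf2ne _ hj0)
        have h7 : vk bs a j = vk bs a (j - m0) + s0 := by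
          rw [vk_sub, hs0m]
          abel
        rw [h7]
        refine (norm_add_le _ _).trans ?_
        rw [hT2]
        linarith)
    have h6 := S.sum_n1_act_grt E t hιe (β l) n2 n4 (fun _ => (1 : ℂ)) (fun _ => norm_one)
      (δ := ε / 16) (by positivity) (by
        simp only [one_smul]
        exact h5.trans (mul_le_of_le_one_right (sq_nonneg (ε / 16)) n2))
    linarith
  -- (4) translation by `s0`
  have hTr : ∀ g : (Fin d → ℤ) → ℂ, (∀ j, g j ≠ 0 → j ∈ box d L) →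
      S.Tr t (bigbox d M) e (R.s s0) m0 (ε / 16) g := by
    intro g hg
    have hTr0 : S.Tr t (bigbox d M) e (R.s s0) m0 (min (min κ1 κ2) (ε / 16) + 0) g := by
      rw [ht]
      refine S.trV R bs he.mul (a1 := 0) (fun w r hw hr => ?_) ha.le haL s0 m0 hm0 ?_ ?_ le_rfl
        hdT ?_ g hg
      · have h3 : r = 0 := norm_le_zero_iff.1 hr
        rw [h3, add_zero, sub_self, map_zero, norm_zero]
      · rw [hT2]
        linarith
      · rw [hT2]
        linarith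
      · rw [hs0m, sub_self, norm_zero]
    rw [add_zero] at hTr0
    exact fun j hj => ⟨(hTr0 j hj).1, (hTr0 j hj).2.1, (hTr0 j hj).2.2.trans hκ16⟩
  have h5 : ∑ c, T.n1 (S.α (R.s s0) (S.grt E t e (fun j => W.ph χ l' (vk bs a j) * f j) c)
      - S.grt E t e (fun j => W.ph χ l (vk bs a j) * f2 (j - m0)) c) ≤ ε / 8 := by
    have e1 : (fun j => W.ph χ l (vk bs a j) * f2 (j - m0))
        = fun j => (fun j => W.ph χ l' (vk bs a j) * f j) (j - m0) := by
      funext j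
      have h8 : vk bs a j = vk bs a (j - m0) + s0 := by
        rw [vk_sub, hs0m]
        abel
      simp only
      rw [← hl, ← W.ph_shift, hf2, hφ2, hf, ← h8]
      ring
    rw [e1]
    have h6 := S.trans_grt E t hιe (κ := ε / 16) (by positivity) n5 (by
      refine le_trans (le_of_eq (Finset.sum_congr rfl fun j _ => ?_)) n4
      have e2 := congrFun e1 j
      simp only at e2 ⊢
      rw [e2]) (hTr (fun j => W.ph χ l' (vk bs a j) * f j)
        (fun j hj => hfne j (right_ne_zero_of_mul hj)))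
    linarith
  have h6 : ∑ c, T.n1 (S.α (R.s s0) (S.grt E t e f c)
      - S.grt E t e (fun j => f (j - m0)) c) ≤ ε / 8 := by
    have h7 := S.trans_grt E t hιe (κ := ε / 16) (by positivity) n3 n3' (hTr f hfne)
    linarith
  -- the chain
  have key : ∀ c, T.n1 (S.grt E t e (fun j => W.ph χ l' (vk bs a j) * f j) c
      - S.grt E t e f c)
      ≤ T.n1 (S.α (R.s s0) (S.grt E t e (fun j => W.ph χ l' (vk bs a j) * f j) c)
          - S.grt E t e (fun j => W.ph χ l (vk bs a j) * f2 (j - m0)) c)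
        + T.n1 (S.α (β l) (S.grt E t e (fun j => f2 (j - m0)) c)
          - S.grt E t e (fun j => W.ph χ l (vk bs a j) * f2 (j - m0)) c)
        + T.n1 (S.grt E t e (fun j => f2 (j - m0)) c - S.grt E t e f2 c)
        + T.n1 (S.α (β l) (S.grt E t e f2 c) - S.grt E t e f c)
        + T.n1 (S.grt E t e (fun j => f (j - m0)) c - S.grt E t e f c)
        + T.n1 (S.α (R.s s0) (S.grt E t e f c) - S.grt E t e (fun j => f (j - m0)) c) := by
    intro c
    obtain ⟨x1, hx1⟩ : ∃ x, x = S.α (R.s s0) (S.grt E t e (fun j => W.ph χ l' (vk bs a j) * f j) c) :=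
      ⟨_, rfl⟩
    obtain ⟨x2, hx2⟩ : ∃ x, x = S.grt E t e (fun j => W.ph χ l (vk bs a j) * f2 (j - m0)) c :=
      ⟨_, rfl⟩
    obtain ⟨x3, hx3⟩ : ∃ x, x = S.α (β l) (S.grt E t e (fun j => f2 (j - m0)) c) := ⟨_, rfl⟩
    obtain ⟨x4, hx4⟩ : ∃ x, x = S.α (β l) (S.grt E t e f2 c) := ⟨_, rfl⟩
    obtain ⟨x5, hx5⟩ : ∃ x, x = S.grt E t e f c := ⟨_, rfl⟩
    obtain ⟨x6, hx6⟩ : ∃ x, x = S.grt E t e (fun j => f (j - m0)) c := ⟨_, rfl⟩
    obtain ⟨x7, hx7⟩ : ∃ x, x = S.α (R.s s0) (S.grt E t e f c) := ⟨_, rfl⟩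
    rw [← S.n1_act (R.s s0), map_sub, ← hx1, ← hx7,
      ← S.n1_act (β l) (S.grt E t e (fun j => f2 (j - m0)) c - S.grt E t e f2 c), map_sub,
      ← hx3, ← hx4, ← hx2, ← hx5, ← hx6]
    have t1 := T.n1_sub_le_add x1 x2 x7
    have t2 := T.n1_sub_le_add x2 x3 x7
    have t3 := T.n1_sub_le_add x3 x4 x7
    have t4 := T.n1_sub_le_add x4 x5 x7
    have t5 := T.n1_sub_le_add x5 x6 x7
    rw [T.n1_sub_comm x2 x3] at t2
    rw [T.n1_sub_comm x5 x6] at t5
    rw [T.n1_sub_comm x6 x7] at t5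
    linarith
  refine (Finset.sum_le_sum fun c _ => key c).trans ?_
  rw [Finset.sum_add_distrib, Finset.sum_add_distrib, Finset.sum_add_distrib,
    Finset.sum_add_distrib, Finset.sum_add_distrib]
  linarith

end

end Pool.Agent.AbCoc
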