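import Pool.Agent.Lib_MP_418a80_t4.VDefs
import Pool.Agent.Lib_MP_418a80_t3.Dec
import Pool.Agent.Lib_MP_418a80_t3.CellsV

/-!
# MP_418a80_an, T4: the periodic lemma over a finite dimensional space

If all labels which are available along the deciding sequence have period `s0`, then in small
corners families which move little under `s v`, `|v| ≤ δ`, also move little under `s s0`.
-/

set_option autoImplicit false
set_option linter.unusedVariables false
set_option linter.unusedSectionVars false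

open Topology Filter MeasureTheory
open scoped RealInnerProductSpace ComplexConjugate

namespace Pool.Agent.AbCoc

universe u v w z z'

/-- the uniform probability measure on `[-a, a]` -/
private theorem per_measure (a : ℝ) (ha : 0 < a) : ∃ P : Measure ℝ, IsProbabilityMeasure P ∧
    (∀ᵐ t ∂P, |t| ≤ a) ∧ ∀ θ : ℝ, 2 / a ≤ |θ| → ‖∫ t, ch (θ * t) ∂P‖ ≤ 1 / 2 := by
  have hvol : volume (Set.Ioc (-a) a) = ENNReal.ofReal (2 * a) := by
    rw [Real.volume_Ioc]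
    congr 1
    ring
  have hv0 : volume (Set.Ioc (-a) a) ≠ 0 := by
    rw [hvol]
    exact (ENNReal.ofReal_pos.2 (by positivity)).ne'
  have hvt : volume (Set.Ioc (-a) a) ≠ ⊤ := by
    rw [hvol]
    exact ENNReal.ofReal_ne_top
  refine ⟨(volume (Set.Ioc (-a) a))⁻¹ • volume.restrict (Set.Ioc (-a) a), ⟨?_⟩, ?_, ?_⟩
  · rw [Measure.smul_apply, Measure.restrict_apply_univ, smul_eq_mul,
      ENNReal.inv_mul_cancel hv0 hvt]
  · refine Measure.ae_smul_measure ?_ _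
    rw [ae_restrict_iff' measurableSet_Ioc]
    refine Eventually.of_forall fun t ht => ?_
    rw [abs_le]
    exact ⟨ht.1.le, ht.2⟩
  · intro θ hθ
    have hθ0 : 0 < |θ| := lt_of_lt_of_le (by positivity) hθ
    have hθn : θ ≠ 0 := abs_pos.1 hθ0
    have hc : (θ : ℂ) * Complex.I ≠ 0 :=
      mul_ne_zero (Complex.ofReal_ne_zero.2 hθn) Complex.I_ne_zero
    rw [integral_smul_measure, hvol, ENNReal.toReal_inv, ENNReal.toReal_ofReal (by positivity),
      ← intervalIntegral.integral_of_le (by linarith), norm_smul]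
    have h1 : (∫ t in (-a)..a, ch (θ * t))
        = (Complex.exp ((θ : ℂ) * Complex.I * a) - Complex.exp ((θ : ℂ) * Complex.I * ((-a : ℝ) : ℂ)))
          / ((θ : ℂ) * Complex.I) := by
      rw [← integral_exp_mul_complex hc]
      refine intervalIntegral.integral_congr fun t _ => ?_
      unfold ch
      congr 1
      push_cast
      ring
    have h2 : ∀ s : ℝ, ‖Complex.exp ((θ : ℂ) * Complex.I * (s : ℂ))‖ = 1 := by
      intro s
      have : (θ : ℂ) * Complex.I * (s : ℂ) = ((θ * s : ℝ) : ℂ) * Complex.I := by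
        push_cast
        ring
      rw [this]
      exact Complex.norm_exp_ofReal_mul_I _
    have h3 : ‖∫ t in (-a)..a, ch (θ * t)‖ ≤ 2 / |θ| := by
      rw [h1, norm_div, norm_mul, Complex.norm_I, mul_one, Complex.norm_real, Real.norm_eq_abs]
      refine div_le_div_of_nonneg_right ?_ hθ0.le
      refine (norm_sub_le _ _).trans ?_
      rw [h2, h2]
      norm_num
    rw [Real.norm_of_nonneg (by positivity)]
    have h4 : 2 ≤ |θ| * a := (div_le_iff₀ ha).1 hθ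
    calc (2 * a)⁻¹ * ‖∫ t in (-a)..a, ch (θ * t)‖ ≤ (2 * a)⁻¹ * (2 / |θ|) :=
          mul_le_mul_of_nonneg_left h3 (by positivity)
      _ = 1 / (|θ| * a) := by field_simp
      _ ≤ 1 / 2 := one_div_le_one_div_of_le (by norm_num) h4

private theorem per_ch_sq (t : ℝ) : ‖ch t - 1‖ ^ 2 = 2 - 2 * (ch t).re := by
  have h1 : ‖ch t - 1‖ ^ 2 = ‖ch t‖ ^ 2 + 1 - 2 * (ch t).re := by
    rw [← Complex.normSq_eq_norm_sq, ← Complex.normSq_eq_norm_sq, Complex.normSq_apply,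
      Complex.normSq_apply, Complex.sub_re, Complex.sub_im, Complex.one_re, Complex.one_im]
    ring
  rw [h1, norm_ch]
  ring

section mass
variable {V : Type z} [NormedAddCommGroup V] [InnerProductSpace ℝ V]

/-- the mass of the far labels, with an absolute constant -/
private theorem per_far {n : ℕ} (bs : OrthonormalBasis (Fin n) ℝ V) {J : Type} [Fintype J]
    (w : J → ℝ) (hw : ∀ i, 0 ≤ w i) (θ : J → V) (a m : ℝ) (ha : 0 < a)
    (h : ∀ v : V, ‖v‖ ≤ n * a → ∑ i, ‖ch ⟪θ i, v⟫ - 1‖ ^ 2 * w i ≤ m)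
    [DecidablePred fun i => ∃ k, 2 / a ≤ |⟪θ i, bs k⟫|] :
    ∑ i, (if ∃ k, 2 / a ≤ |⟪θ i, bs k⟫| then w i else 0) ≤ m := by
  obtain ⟨P, hP, hPa, hPθ⟩ := per_measure a ha
  haveI := hP
  obtain ⟨φ, hφ⟩ : ∃ φ : (Fin n → ℝ) → V, φ = fun t => ∑ k, t k • bs k := ⟨_, rfl⟩
  have hφc : Continuous φ := by
    rw [hφ]
    fun_prop
  have hin : ∀ (q : V) (t : Fin n → ℝ), ch ⟪q, φ t⟫ = ∏ k, ch (⟪q, bs k⟫ * t k) := by
    intro q t
    have h1 : ⟪q, φ t⟫ = ∑ k, ⟪q, bs k⟫ * t k := by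
      rw [hφ]
      change ⟪q, ∑ k, t k • bs k⟫ = _
      rw [inner_sum]
      exact Finset.sum_congr rfl fun k _ => by rw [real_inner_smul_right, mul_comm]
    rw [h1]
    unfold ch
    rw [← Complex.exp_sum, ← Finset.sum_mul]
    congr 2
    push_cast
    rfl
  have hcont : ∀ q : V, Continuous fun t => ch ⟪q, φ t⟫ := fun q =>
    continuous_ch.comp (continuous_const.inner hφc)
  have hint : ∀ q : V, Integrable (fun t => ch ⟪q, φ t⟫) (Measure.pi fun _ : Fin n => P) := by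
    intro q
    refine Integrable.of_bound (hcont q).aestronglyMeasurable 1 (Eventually.of_forall fun t => ?_)
    rw [norm_ch]
  have hint2 : ∀ q : V, Integrable (fun t => ‖ch ⟪q, φ t⟫ - 1‖ ^ 2)
      (Measure.pi fun _ : Fin n => P) := by
    intro q
    refine Integrable.of_bound (((hcont q).sub continuous_const).norm.pow 2).aestronglyMeasurable
      4 (Eventually.of_forall fun t => ?_)
    rw [Real.norm_of_nonneg (sq_nonneg _)]
    have h1 : ‖ch ⟪q, φ t⟫ - 1‖ ≤ 2 := by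
      refine (norm_sub_le _ _).trans ?_
      rw [norm_ch, norm_one]
      norm_num
    have h2 := pow_le_pow_left₀ (norm_nonneg _) h1 2
    linarith
  have hmean : ∀ q : V, ∫ t, ‖ch ⟪q, φ t⟫ - 1‖ ^ 2 ∂(Measure.pi fun _ : Fin n => P)
      = 2 - 2 * (∏ k, ∫ t, ch (⟪q, bs k⟫ * t) ∂P).re := by
    intro q
    have h1 : (∏ k, ∫ t, ch (⟪q, bs k⟫ * t) ∂P)
        = ∫ t, ch ⟪q, φ t⟫ ∂(Measure.pi fun _ : Fin n => P) := by
      rw [← integral_fintype_prod_eq_prod (fun k (t : ℝ) => ch (⟪q, bs k⟫ * t))]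
      exact integral_congr_ae (Eventually.of_forall fun t => (hin q t).symm)
    rw [h1]
    have hre : Integrable (fun t => (ch ⟪q, φ t⟫).re) (Measure.pi fun _ : Fin n => P) :=
      (hint q).re
    have hre2 : ∫ t, (ch ⟪q, φ t⟫).re ∂(Measure.pi fun _ : Fin n => P)
        = (∫ t, ch ⟪q, φ t⟫ ∂(Measure.pi fun _ : Fin n => P)).re := integral_re (hint q)
    simp only [per_ch_sq]
    rw [integral_sub (integrable_const _) (hre.const_mul 2), integral_const,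
      probReal_univ, one_smul, integral_const_mul, hre2]
  -- the lower bounds
  have hP1 : ∀ x : ℝ, ‖∫ t, ch (x * t) ∂P‖ ≤ 1 := by
    intro x
    refine (norm_integral_le_integral_norm _).trans (le_of_eq ?_)
    simp only [norm_ch]
    rw [integral_const, probReal_univ, one_smul]
  have hlow : ∀ i, (if ∃ k, 2 / a ≤ |⟪θ i, bs k⟫| then w i else 0)
      ≤ ∫ t, ‖ch ⟪θ i, φ t⟫ - 1‖ ^ 2 * w i ∂(Measure.pi fun _ : Fin n => P) := by
    intro i
    rw [integral_mul_const]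
    split_ifs with hi
    · obtain ⟨k, hk⟩ := hi
      have h1 : ‖∏ k, ∫ t, ch (⟪θ i, bs k⟫ * t) ∂P‖ ≤ 1 / 2 := by
        rw [norm_prod, ← Finset.mul_prod_erase _ _ (Finset.mem_univ k)]
        refine (mul_le_mul (hPθ _ hk) (Finset.prod_le_one (fun _ _ => norm_nonneg _)
          fun _ _ => hP1 _) (Finset.prod_nonneg fun _ _ => norm_nonneg _)
          (by norm_num : (0 : ℝ) ≤ 1 / 2)).trans (le_of_eq (mul_one _))
      have h2 := (Complex.re_le_norm _).trans h1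
      rw [hmean]
      exact le_mul_of_one_le_left (hw i) (by linarith)
    · exact mul_nonneg (integral_nonneg fun _ => sq_nonneg _) (hw i)
  calc ∑ i, (if ∃ k, 2 / a ≤ |⟪θ i, bs k⟫| then w i else 0)
      ≤ ∑ i, ∫ t, ‖ch ⟪θ i, φ t⟫ - 1‖ ^ 2 * w i ∂(Measure.pi fun _ : Fin n => P) :=
        Finset.sum_le_sum fun i _ => hlow i
    _ = ∫ t, ∑ i, ‖ch ⟪θ i, φ t⟫ - 1‖ ^ 2 * w i ∂(Measure.pi fun _ : Fin n => P) := by
        rw [integral_finsetSum _ fun i _ => (hint2 (θ i)).mul_const _]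
    _ ≤ ∫ _ : Fin n → ℝ, m ∂(Measure.pi fun _ : Fin n => P) := by
        refine integral_mono_ae (integrable_finsetSum _ fun i _ => (hint2 (θ i)).mul_const _)
          (integrable_const _) ?_
        have h1 : ∀ᵐ t ∂(Measure.pi fun _ : Fin n => P), ∀ k, |t k| ≤ a :=
          eventually_all.2 fun k =>
            (Measure.tendsto_eval_ae_ae (μ := fun _ : Fin n => P) (i := k)).eventually hPa
        filter_upwards [h1] with t ht
        apply h
        rw [hφ]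
        refine (norm_sum_le _ _).trans ?_
        calc ∑ k, ‖t k • bs k‖ ≤ ∑ _k : Fin n, a := by
              refine Finset.sum_le_sum fun k _ => ?_
              rw [norm_smul, bs.orthonormal.1 k, mul_one, Real.norm_eq_abs]
              exact ht k
          _ = n * a := by
              rw [Finset.sum_const, Finset.card_univ, Fintype.card_fin, nsmul_eq_mul]
    _ = m := by rw [integral_const, probReal_univ, one_smul]

end mass

section
variable {A : Type u} [CStarAlgebra A] {K : Type v} [NormedAddCommGroup K]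
  [InnerProductSpace ℂ K] [CompleteSpace K]
variable {G : Type w} [Group G] [TopologicalSpace G] [IsTopologicalGroup G] {T : TrAlg A K}
  (S : TrAct G T)
  {V : Type z} [NormedAddCommGroup V] [InnerProductSpace ℝ V] [FiniteDimensional ℝ V]

/-- from the label of a family to its displacement and back, at one time -/
private theorem pv_lab_le (R : VSec G V) {J : Type} [Fintype J] (x : J → A) (θ : J → V) (v : V) :
    ∑ i, ‖ch ⟪θ i, v⟫ - 1‖ ^ 2 * ‖T.ι (x i)‖ ^ 2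
      ≤ 2 * ∑ i, ‖T.ι (S.α (R.s v) (x i) - pch R.p (θ i) (R.s v) • x i)‖ ^ 2
        + 2 * ∑ i, ‖T.ι (S.α (R.s v) (x i) - (1 : ℂ) • x i)‖ ^ 2 := by
  rw [Finset.mul_sum, Finset.mul_sum, ← Finset.sum_add_distrib]
  refine Finset.sum_le_sum fun i _ => ?_
  have e1 : pch R.p (θ i) (R.s v) = ch ⟪θ i, v⟫ := by
    rw [pch, R.ps]
  rw [e1, ← T.norm_smul_sq]
  have e2 : (ch ⟪θ i, v⟫ - 1) • x i
      = (S.α (R.s v) (x i) - (1 : ℂ) • x i) - (S.α (R.s v) (x i) - ch ⟪θ i, v⟫ • x i) := by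
    rw [sub_smul]
    abel
  rw [e2, map_sub T.ι (S.α (R.s v) (x i) - (1 : ℂ) • x i)]
  have e3 := norm_sub_le (T.ι (S.α (R.s v) (x i) - (1 : ℂ) • x i))
    (T.ι (S.α (R.s v) (x i) - ch ⟪θ i, v⟫ • x i))
  have e4 := pow_le_pow_left₀ (norm_nonneg _) e3 2
  nlinarith [sq_nonneg (‖T.ι (S.α (R.s v) (x i) - (1 : ℂ) • x i)‖
    - ‖T.ι (S.α (R.s v) (x i) - ch ⟪θ i, v⟫ • x i)‖)]

private theorem pv_disp_le (R : VSec G V) {J : Type} [Fintype J] (x : J → A) (θ : J → V) (v : V) :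
    ∑ i, ‖T.ι (S.α (R.s v) (x i) - (1 : ℂ) • x i)‖ ^ 2
      ≤ 2 * ∑ i, ‖T.ι (S.α (R.s v) (x i) - pch R.p (θ i) (R.s v) • x i)‖ ^ 2
        + 2 * ∑ i, ‖ch ⟪θ i, v⟫ - 1‖ ^ 2 * ‖T.ι (x i)‖ ^ 2 := by
  rw [Finset.mul_sum, Finset.mul_sum, ← Finset.sum_add_distrib]
  refine Finset.sum_le_sum fun i _ => ?_
  have e1 : pch R.p (θ i) (R.s v) = ch ⟪θ i, v⟫ := by
    rw [pch, R.ps]
  rw [e1, ← T.norm_smul_sq]
  have e2 : S.α (R.s v) (x i) - (1 : ℂ) • x i
      = (S.α (R.s v) (x i) - ch ⟪θ i, v⟫ • x i) + (ch ⟪θ i, v⟫ - 1) • x i := by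
    rw [sub_smul]
    abel
  rw [e2, map_add T.ι (S.α (R.s v) (x i) - ch ⟪θ i, v⟫ • x i)]
  have e3 := norm_add_le (T.ι (S.α (R.s v) (x i) - ch ⟪θ i, v⟫ • x i))
    (T.ι ((ch ⟪θ i, v⟫ - 1) • x i))
  have e4 := pow_le_pow_left₀ (norm_nonneg _) e3 2
  nlinarith [sq_nonneg (‖T.ι (S.α (R.s v) (x i) - ch ⟪θ i, v⟫ • x i)‖
    - ‖T.ι ((ch ⟪θ i, v⟫ - 1) • x i)‖)]

/-- the periodic lemma over `V` -/
theorem TrAct.Dec.perAtV (R : VSec G V) {Bk : ℕ → Set V} {b : ℕ → A}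
    (h : S.Dec (pch R.p) Bk b) (hBk : ∀ k, IsOpen (Bk k)) (s0 : V)
    (hs0 : ∀ q ∈ S.SF (pch R.p) Bk b, ch ⟪q, s0⟫ = 1) (ε δ : ℝ) (hε : 0 < ε) (hδ : 0 < δ) :
    ∃ n0 : ℕ, ∀ n, n0 ≤ n → S.PerAtV R (b n) s0 ε δ := by
  classical
  haveI hproper : ProperSpace V := FiniteDimensional.proper ℝ V
  obtain ⟨d, bs⟩ : ∃ d : ℕ, Nonempty (OrthonormalBasis (Fin d) ℝ V) :=
    ⟨_, ⟨stdOrthonormalBasis ℝ V⟩⟩
  obtain ⟨bs⟩ := bs
  obtain ⟨a, ha⟩ : ∃ a : ℝ, a = δ / (d + 1) := ⟨_, rfl⟩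
  have ha0 : 0 < a := by rw [ha]; positivity
  have hda : d * a ≤ δ := by
    rw [ha, mul_div_assoc', div_le_iff₀ (by positivity)]
    nlinarith
  -- the bad labels
  set E : Set V := Metric.closedBall 0 (d * (2 / a)) ∩ {θ : V | ε / 2 ≤ ‖ch ⟪θ, s0⟫ - 1‖ ^ 2}
    with hE
  have hcl : IsClosed {θ : V | ε / 2 ≤ ‖ch ⟪θ, s0⟫ - 1‖ ^ 2} := by
    refine isClosed_le continuous_const ?_
    have h1 : Continuous fun θ : V => ch ⟪θ, s0⟫ :=
      continuous_ch.comp (continuous_id.inner continuous_const)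
    exact ((h1.sub continuous_const).norm).pow 2
  have hEc : IsCompact E := (isCompact_closedBall _ _).inter_right hcl
  have hdisj : ∀ q ∈ E, q ∉ S.SF (pch R.p) Bk b := by
    intro q hq hq'
    have h1 : ε / 2 ≤ ‖ch ⟪q, s0⟫ - 1‖ ^ 2 := hq.2
    rw [hs0 q hq', sub_self, norm_zero, zero_pow two_ne_zero] at h1
    have h2 : 0 < ε / 2 := by positivity
    linarith
  obtain ⟨n0, hcov⟩ := TrAct.Dec.cover S h hBk E hEc hdisj
  refine ⟨n0, fun n hn C => ?_⟩
  obtain ⟨D1, κ1, hD1, hκ1, hc1⟩ := hcov n hn C (ε / 100) (by positivity)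
  have hκ : 0 < min κ1 (ε / 10) := lt_min hκ1 (by positivity)
  have hDD : IsCompact (D1 ∪ R.s '' Metric.closedBall 0 (max δ ‖s0‖)) :=
    hD1.union ((isCompact_closedBall _ _).image R.hs)
  obtain ⟨D', κ', hD', hκ', hc2⟩ := S.exists_cells R.p R.hp R.pmul R.s R.hs R.ps _ hDD
    (min κ1 (ε / 10)) C hκ
  refine ⟨D', κ', hD', hκ', ?_⟩
  intro J _ y hby hyb hDm hms1 hker hprec
  obtain ⟨J', hJ', x, θ, hlab, hmsx, hcmp⟩ := hc2 (b n) J y (h.prj n).fix hby hyb hDm hker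
  have hκε : min κ1 (ε / 10) ≤ ε / 10 := min_le_right _ _
  have hmem : ∀ v : V, ‖v‖ ≤ max δ ‖s0‖ →
      R.s v ∈ D1 ∪ R.s '' Metric.closedBall 0 (max δ ‖s0‖) :=
    fun v hv => Or.inr ⟨v, mem_closedBall_zero_iff.2 hv, rfl⟩
  -- (1) the mass of the large labels
  have hkey : ∀ v : V, ‖v‖ ≤ d * a →
      ∑ i, ‖ch ⟪θ i, v⟫ - 1‖ ^ 2 * ‖T.ι (x i)‖ ^ 2 ≤ 44 / 10 * ε := by
    intro v hv
    have hv' : ‖v‖ ≤ δ := hv.trans hda
    have htD := hmem v (hv'.trans (le_max_left _ _))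
    have h1 := hlab.ne _ htD
    have h2 := (hcmp _ htD 1 norm_one).1
    have h3 := hprec v hv'
    have h4 := pv_lab_le S R x θ v
    have h5 : ∑ j, ‖T.ι (S.α (R.s v) (y j) - (1 : ℂ) • y j)‖ ^ 2
        = ∑ j, ‖T.ι (S.α (R.s v) (y j) - y j)‖ ^ 2 := by
      simp
    rw [h5] at h2
    linarith
  have hfar := per_far bs (fun i => ‖T.ι (x i)‖ ^ 2) (fun i => sq_nonneg _) θ a _ ha0 hkey
  -- (2) the mass of the bad labels
  have hbad : T.ms (fun i => if θ i ∈ E then x i else 0) ≤ ε / 100 := by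
    by_cases hne : E.Nonempty
    · obtain ⟨q0, hq0⟩ := hne
      exact hc1 J' _ _ ((hlab.cut E q0 hq0).mono subset_rfl Set.subset_union_left
        (min_le_left _ _) le_rfl)
    · rw [Set.not_nonempty_iff_eq_empty] at hne
      have h1 : T.ms (fun i => if θ i ∈ E then x i else 0) = 0 := by
        unfold TrAlg.ms
        refine Finset.sum_eq_zero fun j _ => ?_
        have h2 : θ j ∉ E := by
          rw [hne]
          exact Set.notMem_empty _
        simp only [if_neg h2, map_zero, norm_zero]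
        norm_num
      rw [h1]
      positivity
  -- (3) the labels are almost periodic
  have hms : T.ms x ≤ 1 := hmsx.le.trans hms1
  have hpt : ∀ i, ‖ch ⟪θ i, s0⟫ - 1‖ ^ 2 * ‖T.ι (x i)‖ ^ 2
      ≤ 4 * (if ∃ k, 2 / a ≤ |⟪θ i, bs k⟫| then ‖T.ι (x i)‖ ^ 2 else 0)
        + 4 * ‖T.ι (if θ i ∈ E then x i else 0)‖ ^ 2 + ε / 2 * ‖T.ι (x i)‖ ^ 2 := by
    intro i
    have hx : 0 ≤ ‖T.ι (x i)‖ ^ 2 := sq_nonneg _
    have hch : ‖ch ⟪θ i, s0⟫ - 1‖ ^ 2 ≤ 4 := by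
      have h1 : ‖ch ⟪θ i, s0⟫ - 1‖ ≤ 2 := by
        refine (norm_sub_le _ _).trans ?_
        rw [norm_ch, norm_one]
        norm_num
      have h2 := pow_le_pow_left₀ (norm_nonneg _) h1 2
      linarith
    have hec : 0 ≤ ε / 2 * ‖T.ι (x i)‖ ^ 2 := by positivity
    have h4 : ‖ch ⟪θ i, s0⟫ - 1‖ ^ 2 * ‖T.ι (x i)‖ ^ 2 ≤ 4 * ‖T.ι (x i)‖ ^ 2 :=
      mul_le_mul_of_nonneg_right hch hx
    by_cases hb : ∃ k, 2 / a ≤ |⟪θ i, bs k⟫|
    · rw [if_pos hb]
      have h7 : 0 ≤ ‖T.ι (if θ i ∈ E then x i else 0)‖ ^ 2 := sq_nonneg _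
      linarith
    · rw [if_neg hb]
      by_cases he : θ i ∈ E
      · rw [if_pos he]
        linarith
      · rw [if_neg he]
        have h5 : ‖ch ⟪θ i, s0⟫ - 1‖ ^ 2 < ε / 2 := by
          by_contra hcon
          apply he
          refine ⟨?_, not_lt.1 hcon⟩
          rw [mem_closedBall_zero_iff]
          push Not at hb
          calc ‖θ i‖ = ‖∑ k, ⟪bs k, θ i⟫ • bs k‖ := by rw [bs.sum_repr' (θ i)]
            _ ≤ ∑ k, ‖⟪bs k, θ i⟫ • bs k‖ := norm_sum_le _ _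
            _ ≤ ∑ _k : Fin d, 2 / a := by
                refine Finset.sum_le_sum fun k _ => ?_
                rw [norm_smul, bs.orthonormal.1 k, mul_one, Real.norm_eq_abs, real_inner_comm]
                exact (hb k).le
            _ = d * (2 / a) := by
                rw [Finset.sum_const, Finset.card_univ, Fintype.card_fin, nsmul_eq_mul]
        have h6 : ‖ch ⟪θ i, s0⟫ - 1‖ ^ 2 * ‖T.ι (x i)‖ ^ 2 ≤ ε / 2 * ‖T.ι (x i)‖ ^ 2 :=
          mul_le_mul_of_nonneg_right h5.le hx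
        have h7 : 0 ≤ ‖T.ι (0 : A)‖ ^ 2 := sq_nonneg _
        linarith
  have hsum := Finset.sum_le_sum fun i (_ : i ∈ Finset.univ) => hpt i
  rw [Finset.sum_add_distrib, Finset.sum_add_distrib, ← Finset.mul_sum, ← Finset.mul_sum,
    ← Finset.mul_sum] at hsum
  have hlast : ε / 2 * ∑ i, ‖T.ι (x i)‖ ^ 2 ≤ ε := by
    have h1 : ∑ i, ‖T.ι (x i)‖ ^ 2 ≤ 2 := by
      have h2 : T.ms x = ∑ i, ‖T.ι (x i)‖ ^ 2 := rfl
      linarith
    calc ε / 2 * ∑ i, ‖T.ι (x i)‖ ^ 2 ≤ ε / 2 * 2 :=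
          mul_le_mul_of_nonneg_left h1 (by positivity)
      _ = ε := div_mul_cancel₀ _ two_ne_zero
  have hbad' : ∑ i, ‖T.ι (if θ i ∈ E then x i else 0)‖ ^ 2 ≤ ε / 100 := hbad
  have hs0D := hmem s0 (le_max_right _ _)
  have g1 := hlab.ne _ hs0D
  have g2 := pv_disp_le S R x θ s0
  have g3 := (hcmp _ hs0D 1 norm_one).2
  have g4 : ∑ j, ‖T.ι (S.α (R.s s0) (y j) - (1 : ℂ) • y j)‖ ^ 2
      = ∑ j, ‖T.ι (S.α (R.s s0) (y j) - y j)‖ ^ 2 := by
    simp
  rw [g4] at g3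
  linarith

end

end Pool.Agent.AbCoc
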