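import Pool.Agent.Lib_MP_418a80_t4.VDefs

/-!
# MP_418a80_an, T4, [AB-PHASE]: normalised elements with phases
-/

set_option autoImplicit false
set_option linter.unusedVariables false
set_option linter.unusedSectionVars false

open Topology Filter MeasureTheory
open scoped RealInnerProductSpace ComplexConjugate

namespace Pool.Agent.AbCoc

universe u v w z z'

section
variable {G : Type w} [Group G] [TopologicalSpace G] {V : Type z} [NormedAddCommGroup V]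
  [InnerProductSpace ℝ V] {U : Type z'} [NormedAddCommGroup U] [NormedSpace ℝ U]

theorem WtV.ρ_neg_apply {R : VSec G V} (W : WtV R U) (v : V) (l : U) :
    W.ρ (-v) (W.ρ v l) = l := by
  have h := W.ρ_add (-v) v
  rw [neg_add_cancel, W.ρ_zero] at h
  have h1 := congrArg (fun f : U →L[ℝ] U => f l) h
  exact h1.symm

theorem WtV.ξ_conj_inv {R : VSec G V} (W : WtV R U) (v : V) (h : G) (hh : R.p h = 0) :
    W.ξ ((R.s v)⁻¹ * h * R.s v) = W.ρ (-v) (W.ξ h) := by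
  have h1 := W.ξ_conj v ((R.s v)⁻¹ * h * R.s v) (R.p_conj v h hh)
  have h2 : R.s v * ((R.s v)⁻¹ * h * R.s v) * (R.s v)⁻¹ = h := by group
  rw [h2] at h1
  rw [h1, W.ρ_neg_apply]

end

section
variable {A : Type u} [CStarAlgebra A] {K : Type v} [NormedAddCommGroup K]
  [InnerProductSpace ℂ K] [CompleteSpace K]
variable {G : Type w} [Group G] [TopologicalSpace G] [IsTopologicalGroup G] {T : TrAlg A K}
  (S : TrAct G T)
  {V : Type z} [NormedAddCommGroup V] [InnerProductSpace ℝ V] [FiniteDimensional ℝ V]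
  {U : Type z'} [NormedAddCommGroup U] [NormedSpace ℝ U] [FiniteDimensional ℝ U]

/-- [AB-PHASE] normalised elements with phases in the corner `b A b`, from near-eigen elements for the
characters `h ↦ ch (r χ(ξ h))` of `H = ker p`; `C` depends on `b` only -/
theorem TrAct.exists_neltV (R : VSec G V) (W : WtV R U) (χ : U →L[ℝ] ℝ) (b : A) (hb : S.IsPrj b)
    (hE : ∃ c : ℝ, 0 < c ∧ ∀ (r : ℝ) (D : Set G), IsCompact D → ∀ κ : ℝ, 0 < κ →
      ∃ e : A, b * e = e ∧ e * b = e ∧ ‖e‖ ≤ 1 ∧ c ≤ ‖T.ι e‖ ^ 2 ∧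
        ∀ h ∈ D, R.p h = 0 → ‖T.ι (S.α h e - ch (r * χ (W.ξ h)) • e)‖ ≤ κ) :
    ∃ C : ℝ, 0 < C ∧ ∀ (T0 : ℝ) (D : Set G), IsCompact D → ∀ κ : ℝ, 0 < κ → ∀ Λ : Set U,
      IsCompact Λ → ∃ (e : A) (β : U → G), S.NEltV R (W.ph χ) b T0 D κ Λ C e β := by
  obtain ⟨c, hc, hE⟩ := hE
  have hsc : 0 < √c := Real.sqrt_pos.2 hc
  refine ⟨1 / c, by positivity, fun T0 D hD κ0 hκ0 Λ hΛ => ?_⟩
  obtain ⟨κ, hκe⟩ : ∃ κ, κ = κ0 * √c := ⟨_, rfl⟩
  have hκ : 0 < κ := by rw [hκe]; positivity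
  obtain ⟨I, hI⟩ : ∃ I : Set V, I = Metric.closedBall 0 T0 := ⟨_, rfl⟩
  have hIc : IsCompact I := by
    have : ProperSpace V := FiniteDimensional.proper ℝ V
    rw [hI]
    exact isCompact_closedBall _ _
  have hmemI : ∀ v : V, ‖v‖ ≤ T0 → v ∈ I := fun v hv => by
    rw [hI, mem_closedBall_zero_iff]
    exact hv
  -- the conjugates and the defects of the section
  obtain ⟨cj, hcj⟩ : ∃ cj : G × V → G, cj = fun x => (R.s x.2)⁻¹ * x.1 * R.s x.2 := ⟨_, rfl⟩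
  have hcjc : Continuous cj := by
    rw [hcj]
    have h1 : Continuous fun x : G × V => R.s x.2 := R.hs.comp continuous_snd
    exact (h1.inv.mul continuous_fst).mul h1
  obtain ⟨df, hdf⟩ : ∃ df : V × V → G,
      df = fun x => (R.s (x.1 + x.2))⁻¹ * (R.s x.1 * R.s x.2) := ⟨_, rfl⟩
  have hdfc : Continuous df := by
    rw [hdf]
    have h1 : Continuous fun x : V × V => R.s (x.1 + x.2) :=
      R.hs.comp (continuous_fst.add continuous_snd)
    exact h1.inv.mul ((R.hs.comp continuous_fst).mul (R.hs.comp continuous_snd))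
  -- bounds
  obtain ⟨M, hM⟩ : ∃ M : ℝ, ∀ t ∈ I, ‖W.ρ (-t)‖ ≤ M := by
    obtain ⟨M, hM⟩ := (hIc.image ((W.hρ.comp continuous_neg).norm)).bddAbove
    exact ⟨M, fun t ht => hM ⟨t, ht, rfl⟩⟩
  obtain ⟨B, hB⟩ : ∃ B : ℝ, ∀ h ∈ D, ‖W.ξ h‖ ≤ B := by
    obtain ⟨B, hB⟩ := (hD.image W.hξ.norm).bddAbove
    exact ⟨B, fun h hh => hB ⟨h, hh, rfl⟩⟩
  obtain ⟨B', hB'⟩ : ∃ B : ℝ, ∀ x ∈ I ×ˢ I, ‖W.ξ (df x)‖ ≤ B := by
    obtain ⟨B, hB⟩ := ((hIc.prod hIc).image (W.hξ.comp hdfc).norm).bddAbove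
    exact ⟨B, fun h hh => hB ⟨h, hh, rfl⟩⟩
  obtain ⟨M1, hM1⟩ : ∃ M1, M1 = max M 0 := ⟨_, rfl⟩
  obtain ⟨B1, hB1⟩ : ∃ B1, B1 = max B 0 := ⟨_, rfl⟩
  obtain ⟨B2, hB2⟩ : ∃ B2, B2 = max B' 0 := ⟨_, rfl⟩
  have hM10 : 0 ≤ M1 := by rw [hM1]; exact le_max_right _ _
  have hB10 : 0 ≤ B1 := by rw [hB1]; exact le_max_right _ _
  have hB20 : 0 ≤ B2 := by rw [hB2]; exact le_max_right _ _
  obtain ⟨L, hL⟩ : ∃ L, L = ‖χ‖ * (M1 * B1 + B2) := ⟨_, rfl⟩
  have hL0 : 0 ≤ L := by rw [hL]; positivity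
  obtain ⟨r, hr⟩ : ∃ r, r = κ / (2 * (L + 1)) := ⟨_, rfl⟩
  have hr0 : 0 < r := by rw [hr]; positivity
  have hrL : r * L ≤ κ / 2 := by
    have h1 : r * (L + 1) = κ / 2 := by
      rw [hr]
      field_simp
    nlinarith
  have hsmall : ∀ l : U, ‖l‖ ≤ M1 * B1 + B2 → |r * χ l| ≤ κ / 2 := by
    intro l hl
    rw [abs_mul, abs_of_pos hr0]
    refine le_trans (mul_le_mul_of_nonneg_left ?_ hr0.le) hrL
    rw [← Real.norm_eq_abs, hL]
    exact (χ.le_opNorm _).trans (mul_le_mul_of_nonneg_left hl (norm_nonneg _))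
  obtain ⟨β, hβ⟩ : ∃ β : U → G, β = fun l => W.ω (r⁻¹ • l) := ⟨_, rfl⟩
  have hβc : Continuous β := by
    rw [hβ]
    exact W.hω.comp (continuous_const_smul _)
  have hβp : ∀ l, R.p (β l) = 0 := fun l => by rw [hβ]; exact W.pω _
  obtain ⟨D', hD'⟩ : ∃ D' : Set G,
      D' = cj '' (D ×ˢ I) ∪ cj '' ((β '' Λ) ×ˢ I) ∪ df '' (I ×ˢ I) := ⟨_, rfl⟩
  have hD'c : IsCompact D' := by
    rw [hD']
    exact (((hD.prod hIc).image hcjc).union (((hΛ.image hβc).prod hIc).image hcjc)).union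
      ((hIc.prod hIc).image hdfc)
  obtain ⟨e, he1, he2, he3, he4, he5⟩ := hE r D' hD'c (κ / 2) (by linarith)
  have hιe : ‖T.ι e‖ ≤ 1 := (T.norm_le e).trans he3
  -- near-invariance of `e` under elements with a small value of the character
  have hfix : ∀ h ∈ D', R.p h = 0 → ‖W.ξ h‖ ≤ M1 * B1 + B2 → ‖T.ι (S.α h e - e)‖ ≤ κ := by
    intro h hh hp hξ
    have h2 := he5 h hh hp
    have h5 : S.α h e - e = (S.α h e - ch (r * χ (W.ξ h)) • e)
        + (ch (r * χ (W.ξ h)) - 1) • e := by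
      rw [sub_smul, one_smul]
      abel
    rw [h5, map_add, map_smul]
    refine (norm_add_le _ _).trans ?_
    rw [norm_smul]
    have h6 : ‖ch (r * χ (W.ξ h)) - 1‖ * ‖T.ι e‖ ≤ κ / 2 * 1 :=
      mul_le_mul ((norm_ch_sub_one_le _).trans (hsmall _ hξ)) hιe (norm_nonneg _) (by linarith)
    linarith
  have hmove : ∀ (h : G) (v : V) (z : ℂ), ‖T.ι (S.α h (S.α (R.s v) e) - z • S.α (R.s v) e)‖
      = ‖T.ι (S.α (cj (h, v)) e - z • e)‖ := by
    intro h v z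
    have e1 : R.s v * cj (h, v) = h * R.s v := by
      rw [hcj]
      group
    rw [← S.norm_map (R.s v) (S.α (cj (h, v)) e - z • e), map_sub (S.α (R.s v)), map_smul,
      ← S.mul, ← S.mul, e1]
  have hcjp : ∀ (h : G) (v : V), R.p h = 0 → R.p (cj (h, v)) = 0 := fun h v hh => by
    rw [hcj]
    exact R.p_conj v h hh
  have hcjξ : ∀ (h : G) (v : V), R.p h = 0 → W.ξ (cj (h, v)) = W.ρ (-v) (W.ξ h) :=
    fun h v hh => by
      rw [hcj]
      exact W.ξ_conj_inv v h hh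
  have nearH : ∀ h ∈ D, R.p h = 0 → ∀ v : V, ‖v‖ ≤ T0 →
      ‖T.ι (S.α h (S.α (R.s v) e) - S.α (R.s v) e)‖ ≤ κ := by
    intro h hh hp v hv
    have hvI := hmemI v hv
    have h1 := hmove h v 1
    rw [one_smul, one_smul] at h1
    rw [h1]
    have hmem : cj (h, v) ∈ D' := by
      rw [hD']
      exact Or.inl (Or.inl ⟨(h, v), ⟨hh, hvI⟩, rfl⟩)
    refine hfix _ hmem (hcjp h v hp) ?_
    rw [hcjξ h v hp]
    refine (ContinuousLinearMap.le_opNorm _ _).trans ?_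
    have h7 : ‖W.ρ (-v)‖ * ‖W.ξ h‖ ≤ M1 * B1 := by
      refine mul_le_mul ((hM v hvI).trans ?_) ((hB h hh).trans ?_) (norm_nonneg _) hM10
      · rw [hM1]; exact le_max_left _ _
      · rw [hB1]; exact le_max_left _ _
    linarith
  have nmul : ∀ v v' : V, ‖v‖ ≤ T0 → ‖v'‖ ≤ T0 →
      ‖T.ι (S.α (R.s v) (S.α (R.s v') e) - S.α (R.s (v + v')) e)‖ ≤ κ := by
    intro v v' hv hv'
    have e1 : R.s (v + v') * df (v, v') = R.s v * R.s v' := by
      rw [hdf]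
      group
    have e2 : ‖T.ι (S.α (R.s v) (S.α (R.s v') e) - S.α (R.s (v + v')) e)‖
        = ‖T.ι (S.α (df (v, v')) e - e)‖ := by
      rw [← S.norm_map (R.s (v + v')) (S.α (df (v, v')) e - e), map_sub (S.α (R.s (v + v'))),
        ← S.mul, ← S.mul, e1]
    rw [e2]
    have hx : (v, v') ∈ I ×ˢ I := ⟨hmemI v hv, hmemI v' hv'⟩
    have hmem : df (v, v') ∈ D' := by
      rw [hD']
      exact Or.inr ⟨(v, v'), hx, rfl⟩
    refine hfix _ hmem ?_ ?_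
    · rw [hdf]
      exact R.p_defect v v'
    · have h7 : ‖W.ξ (df (v, v'))‖ ≤ B2 := (hB' _ hx).trans (by rw [hB2]; exact le_max_left _ _)
      have h8 : 0 ≤ M1 * B1 := mul_nonneg hM10 hB10
      linarith
  have phase : ∀ l ∈ Λ, ∀ v : V, ‖v‖ ≤ T0 →
      ‖T.ι (S.α (β l) (S.α (R.s v) e) - W.ph χ l v • S.α (R.s v) e)‖ ≤ κ := by
    intro l hl v hv
    have hvI := hmemI v hv
    rw [hmove (β l) v]
    have hmem : cj (β l, v) ∈ D' := by
      rw [hD']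
      exact Or.inl (Or.inr ⟨(β l, v), ⟨⟨l, hl, rfl⟩, hvI⟩, rfl⟩)
    have h2 := he5 _ hmem (hcjp _ v (hβp l))
    have h4 : r * χ (W.ξ (cj (β l, v))) = χ (W.ρ (-v) l) := by
      rw [hcjξ _ v (hβp l), hβ]
      dsimp only
      rw [W.ξω, map_smul, map_smul, smul_eq_mul, mul_inv_cancel_left₀ hr0.ne']
    rw [h4] at h2
    refine h2.trans ?_
    linarith
  -- normalisation
  have hne : √c ≤ ‖T.ι e‖ := by
    rw [← Real.sqrt_sq (norm_nonneg (T.ι e))]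
    exact Real.sqrt_le_sqrt he4
  have hn0 : 0 < ‖T.ι e‖ := hsc.trans_le hne
  have hsm : ∀ x : A, ‖T.ι x‖ ≤ κ → ‖T.ι (((‖T.ι e‖⁻¹ : ℝ) : ℂ) • x)‖ ≤ κ0 := by
    intro x hx
    rw [map_smul, norm_smul, Complex.norm_real, norm_inv, norm_norm]
    have h1 : ‖T.ι e‖⁻¹ * ‖T.ι x‖ ≤ (√c)⁻¹ * κ :=
      mul_le_mul (inv_anti₀ hsc hne) hx (norm_nonneg _) (inv_nonneg.2 hsc.le)
    refine h1.trans (le_of_eq ?_)
    rw [hκe, mul_comm κ0, inv_mul_cancel_left₀ hsc.ne']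
  refine ⟨((‖T.ι e‖⁻¹ : ℝ) : ℂ) • e, β, ⟨?_, ?_, ?_, ?_, ?_, ?_, hβp, ?_⟩⟩
  · rw [mul_smul_comm, he1]
  · rw [smul_mul_assoc, he2]
  · rw [map_smul, norm_smul, Complex.norm_real, norm_inv, norm_norm, inv_mul_cancel₀ hn0.ne']
  · rw [norm_smul, Complex.norm_real, norm_inv, norm_norm, mul_pow]
    have h1 : ‖e‖ ^ 2 ≤ 1 := pow_le_one₀ (norm_nonneg _) he3
    have h2 : (‖T.ι e‖⁻¹) ^ 2 ≤ 1 / c := by
      rw [inv_pow, one_div]
      exact inv_anti₀ hc he4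
    calc (‖T.ι e‖⁻¹) ^ 2 * ‖e‖ ^ 2 ≤ 1 / c * 1 :=
          mul_le_mul h2 h1 (sq_nonneg _) (by positivity)
      _ = 1 / c := mul_one _
  · intro h hh hp v hv
    have h1 := hsm _ (nearH h hh hp v hv)
    rw [smul_sub] at h1
    rw [map_smul, map_smul]
    exact h1
  · intro v v' hv hv'
    have h1 := hsm _ (nmul v v' hv hv')
    rw [smul_sub] at h1
    rw [map_smul, map_smul, map_smul]
    exact h1
  · intro l hl v hv
    have h1 := hsm _ (phase l hl v hv)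
    rw [smul_sub, smul_comm] at h1
    rw [map_smul, map_smul]
    exact h1

end

end Pool.Agent.AbCoc
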