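import Pool.Agent.Lib_MP_418a80_t4.SWV

/-!
# MP_418a80_an, T4: Stone-Weierstrass for the phases, general representations

No condition on the fixed vectors of `ρ`: the labels have to be trivial on the stabiliser of the
functional.
-/

set_option autoImplicit false
set_option linter.unusedVariables false
set_option linter.unusedSectionVars false

open Topology Filter MeasureTheory
open scoped RealInnerProductSpace ComplexConjugate

namespace Pool.Agent.AbCoc

universe u v w z z'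

/-- labels which are trivial on the stabiliser of the functional `χ` -/
theorem sw_phasesG {V : Type z} [NormedAddCommGroup V] [InnerProductSpace ℝ V]
    [FiniteDimensional ℝ V] {U : Type z'} [NormedAddCommGroup U] [NormedSpace ℝ U]
    [FiniteDimensional ℝ U] (ρ : V → U →L[ℝ] U) (hρ : Continuous ρ)
    (hadd : ∀ s t, ρ (s + t) = (ρ s).comp (ρ t)) (h0 : ρ 0 = ContinuousLinearMap.id ℝ U)
    (χ : U →L[ℝ] ℝ) (q : V)
    (hq : ∀ v, χ.comp (ρ v) = χ → ch ⟪q, v⟫ = 1) (T ε : ℝ) (hε : 0 < ε) :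
    ∃ (n : ℕ) (k : Fin n → U) (h : Fin n → ℂ), ∀ v : V, ‖v‖ ≤ T →
      ‖ch ⟪q, v⟫ - ∑ i, h i * ch (χ (ρ (-v) (k i)))‖ ≤ ε := by
  classical
  have hprop : ProperSpace V := FiniteDimensional.proper_real V
  obtain ⟨Φ, hΦ⟩ : ∃ Φ : V → (U →L[ℝ] ℝ), Φ = fun v => χ.comp (ρ (-v)) := ⟨_, rfl⟩
  have hΦc : Continuous Φ := by
    rw [hΦ]
    exact continuous_const.clm_comp (hρ.comp continuous_neg)
  -- points with the same image
  have hinj : ∀ v v' : V, Φ v = Φ v' → ch ⟪q, v⟫ = ch ⟪q, v'⟫ := by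
    intro v v' hvv
    have hid : χ.comp (ρ (v - v')) = χ := by
      have h1 : (Φ v).comp (ρ v) = (Φ v').comp (ρ v) := by rw [hvv]
      rw [hΦ] at h1
      have h2 : (χ.comp (ρ (-v))).comp (ρ v) = (χ.comp (ρ (-v'))).comp (ρ v) := h1
      rw [ContinuousLinearMap.comp_assoc, ContinuousLinearMap.comp_assoc, ← hadd, ← hadd,
        neg_add_cancel, h0, ContinuousLinearMap.comp_id] at h2
      rw [sub_eq_neg_add]
      exact h2.symm
    have h1 := hq _ hid
    rw [inner_sub_right, sub_eq_add_neg, sw_ch_add] at h1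
    have h2 : ch (-⟪q, v'⟫) * ch ⟪q, v'⟫ = 1 := by
      rw [← sw_ch_add, neg_add_cancel, sw_ch_zero]
    calc ch ⟪q, v⟫ = ch ⟪q, v⟫ * (ch (-⟪q, v'⟫) * ch ⟪q, v'⟫) := by rw [h2, mul_one]
      _ = (ch ⟪q, v⟫ * ch (-⟪q, v'⟫)) * ch ⟪q, v'⟫ := (mul_assoc _ _ _).symm
      _ = ch ⟪q, v'⟫ := by rw [h1, one_mul]
  obtain ⟨B, hB⟩ : ∃ B : Set V, B = Metric.closedBall (0 : V) T := ⟨_, rfl⟩
  have hBc : IsCompact B := by rw [hB]; exact isCompact_closedBall _ _
  have hBcs : CompactSpace B := isCompact_iff_compactSpace.1 hBc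
  let π : B → (Φ '' B : Set (U →L[ℝ] ℝ)) := fun v => ⟨Φ v, ⟨v, v.2, rfl⟩⟩
  have hπc : Continuous π := (hΦc.comp continuous_subtype_val).subtype_mk _
  have hπs : Function.Surjective π := by
    rintro ⟨_, v, hv, rfl⟩
    exact ⟨⟨v, hv⟩, rfl⟩
  have hπq : IsQuotientMap π := hπc.isClosedMap.isQuotientMap hπc hπs
  choose sec hsec using hπs
  obtain ⟨F, hF⟩ : ∃ F : (Φ '' B : Set (U →L[ℝ] ℝ)) → ℂ, F = fun y => ch ⟪q, (sec y : V)⟫ :=
    ⟨_, rfl⟩
  have hFπ : ∀ v : B, F (π v) = ch ⟪q, (v : V)⟫ := by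
    intro v
    rw [hF]
    refine hinj _ _ ?_
    have h1 := hsec (π v)
    exact congrArg Subtype.val h1
  have hFc : Continuous F := by
    rw [hπq.continuous_iff]
    have e : F ∘ π = fun v : B => ch ⟪q, (v : V)⟫ := funext hFπ
    rw [e]
    exact sw_ch_cont.comp (continuous_const.inner continuous_subtype_val)
  obtain ⟨n, k, h, hn⟩ := sw_dual (Φ '' B) (hBc.image hΦc) F hFc ε hε
  refine ⟨n, k, h, fun v hv => ?_⟩
  have hvB : v ∈ B := by rw [hB, mem_closedBall_zero_iff]; exact hv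
  have h1 := hn (π ⟨v, hvB⟩)
  rw [hFπ] at h1
  have h2 : ∀ i, ((π ⟨v, hvB⟩ : (Φ '' B : Set (U →L[ℝ] ℝ))) : U →L[ℝ] ℝ) (k i)
      = χ (ρ (-v) (k i)) := by
    intro i
    change Φ v (k i) = _
    rw [hΦ]
    rfl
  simp only [h2] at h1
  exact h1

end Pool.Agent.AbCoc
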