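import Pool.Agent.Lib_MP_418a80_t4.InvV90
import Pool.Agent.Lib_MP_418a80_t4.PhaseV
import Pool.Agent.Lib_MP_418a80_t4.Dual
import Pool.Agent.Lib_MP_418a80_t4.EigV46
import Pool.Agent.Lib_MP_418a80_t4.PerAtV
import Pool.Agent.Lib_MP_418a80_t4.SWG
import Pool.Agent.Lib_MP_418a80_t3.Wt

/-!
# MP_418a80_an, T4: the abelian step, available labels
-/

set_option autoImplicit false
set_option linter.unusedVariables false
set_option linter.unusedSectionVars false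

open Topology Filter MeasureTheory
open scoped RealInnerProductSpace ComplexConjugate

namespace Pool.Agent.AbCoc

universe u v w z z'

open CellsV

/-- an orthonormal basis whose lattices contain `s0`, for arbitrarily fine meshes -/
theorem exists_basis_mesh {V : Type z} [NormedAddCommGroup V] [InnerProductSpace ℝ V]
    [FiniteDimensional ℝ V] (s0 : V) (hs0 : s0 ≠ 0) :
    ∃ (d : ℕ) (bs : OrthonormalBasis (Fin d) ℝ V), ∀ a1 : ℝ, 0 < a1 →
      ∃ (a : ℝ) (m0 : Fin d → ℤ), 0 < a ∧ a ≤ a1 ∧ vk bs a m0 = s0 := by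
  classical
  obtain ⟨n, hn⟩ : ∃ n, Module.finrank ℝ V = n + 1 := by
    have hpos : 0 < Module.finrank ℝ V := by
      have : Nontrivial V := ⟨⟨s0, 0, hs0⟩⟩
      exact Module.finrank_pos
    exact ⟨Module.finrank ℝ V - 1, by omega⟩
  have hn0 : 0 < ‖s0‖ := norm_pos_iff.2 hs0
  have hon : Orthonormal ℝ (({0} : Set (Fin (n + 1))).domRestrict fun _ => ‖s0‖⁻¹ • s0) := by
    constructor
    · intro i
      change ‖‖s0‖⁻¹ • s0‖ = 1
      rw [norm_smul, norm_inv, norm_norm, inv_mul_cancel₀ hn0.ne']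
    · intro i j hij
      exact absurd (Subsingleton.elim i j) hij
  obtain ⟨bs, hbs⟩ := hon.exists_orthonormalBasis_extension_of_card_eq
    (by rw [hn, Fintype.card_fin])
  refine ⟨n + 1, bs, fun a1 ha1 => ?_⟩
  obtain ⟨k, hk⟩ := exists_nat_gt (‖s0‖ / a1)
  have hkr : (0 : ℝ) < k := (by positivity : 0 < ‖s0‖ / a1).trans hk
  refine ⟨‖s0‖ / k, Pi.single 0 k, by positivity, ?_, ?_⟩
  · rw [div_le_iff₀ hkr]
    rw [div_lt_iff₀ ha1] at hk
    linarith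
  · have h1 := hbs 0 (Set.mem_singleton 0)
    unfold vk
    rw [Finset.sum_eq_single 0]
    · rw [Pi.single_eq_same, h1, smul_smul]
      have h2 : ‖s0‖ / (k : ℝ) * ((k : ℤ) : ℝ) * ‖s0‖⁻¹ = 1 := by
        push_cast
        field_simp
      rw [h2, one_smul]
    · intro i _ hi
      rw [Pi.single_eq_of_ne hi, Int.cast_zero, mul_zero, zero_smul]
    · intro h
      exact absurd (Finset.mem_univ _) h

section
variable {A : Type u} [CStarAlgebra A] {K : Type v} [NormedAddCommGroup K]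
  [InnerProductSpace ℂ K] [CompleteSpace K]
variable {G : Type w} [Group G] [TopologicalSpace G] [IsTopologicalGroup G] {T : TrAlg A K}
  (S : TrAct G T)
  {V : Type z} [NormedAddCommGroup V] [InnerProductSpace ℝ V] [FiniteDimensional ℝ V]
  {U : Type z'} [NormedAddCommGroup U] [NormedSpace ℝ U] [FiniteDimensional ℝ U]

private theorem wtvf_q {a x s : ℝ} (ha : 0 ≤ a) (h : a * (2 * (x + 1)) ≤ s) : x * a ≤ s / 2 := by
  have e : a * (2 * (x + 1)) = 2 * (x * a) + 2 * a := by ring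
  rw [e] at h
  linarith

private theorem wtvf_d {a d b : ℝ} (ha : 0 ≤ a) (h : a * (d + 1) ≤ b) : d * a ≤ b := by
  have e : a * (d + 1) = d * a + a := by ring
  rw [e] at h
  linarith

private theorem wtvf_M {a l m1 m t : ℝ} (ha : 0 ≤ a) (ht : 0 ≤ t) (h : a * (l + m1 + 1) ≤ a * m)
    (h2 : t + 2 < a * m1) : a * l + 2 ≤ a * m := by
  have e : a * (l + m1 + 1) = a * l + a * m1 + a := by ring
  rw [e] at h
  linarith

private theorem wtvf_s {x d t : ℝ} (ht : 0 ≤ t) (h : x ≤ d * (2 * t)) :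
    2 * x ≤ 4 * (d + 1) * t := by
  have e : 4 * (d + 1) * t = 2 * (d * (2 * t)) + 4 * t := by ring
  rw [e]
  linarith

private theorem wtvf_2 {x z ε n : ℝ} (e7 : z ^ 2 = ε / 4 * n) :
    (x + z) ^ 2 ≤ 2 * x ^ 2 + ε / 2 * n := by
  have e6 := sq_nonneg (x - z)
  have e8 : (x + z) ^ 2 + (x - z) ^ 2 = 2 * x ^ 2 + 2 * z ^ 2 := by ring
  rw [e7] at e8
  linarith

private theorem wtvf_e {s ε m : ℝ} (hε : 0 ≤ ε) (h8 : s ≤ ε / 32) (hm : 1 / 8 ≤ m) :
    2 * s + ε / 2 * m ≤ ε * m := by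
  have h := mul_le_mul_of_nonneg_left hm hε
  have e : ε / 2 * m = ε * m / 2 := by ring
  rw [e]
  linarith

/-- the core of the abelian step -/
theorem TrAct.labA_of_perAtV (R : VSec G V) (W : WtV R U) (χ : U →L[ℝ] ℝ) (q s0 : V)
    (hs00 : s0 ≠ 0) (ψ : U →L[ℝ] ℝ) (hψ : ∀ l, ψ l = χ (W.ρ (-s0) l - l))
    (hq : ∀ v, ψ.comp (W.ρ v) = ψ → ch ⟪q, v⟫ = 1) (T1 ε1 : ℝ) (hT1 : 0 < T1) (hε1 : 0 < ε1) :
    ∃ ε δ : ℝ, 0 < ε ∧ 0 < δ ∧ ∀ b : A, S.IsPrj b → S.PerAtV R b s0 ε δ →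
      (∃ C : ℝ, 0 < C ∧ ∀ (T0 : ℝ) (D : Set G), IsCompact D → ∀ κ : ℝ, 0 < κ → ∀ Λ : Set U,
        IsCompact Λ → ∃ (e : A) (β : U → G), S.NEltV R (W.ph χ) b T0 D κ Λ C e β) →
      ∃ C c : ℝ, 0 < c ∧ ∀ D : Set G, IsCompact D → ∀ κ : ℝ, 0 < κ →
        ∃ (J : Type) (_ : Fintype J) (y : J → A), (∀ j, b * y j = y j) ∧ (∀ j, y j * b = y j) ∧
          T.Dm C y ∧ c ≤ T.ms y ∧
          (∀ h ∈ D, R.p h = 0 → ∑ j, ‖T.ι (S.α h (y j) - y j)‖ ^ 2 ≤ κ) ∧
          (∀ v : V, ‖v‖ ≤ T1 →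
            ∑ j, ‖T.ι (S.α (R.s v) (y j) - ch ⟪q, v⟫ • y j)‖ ^ 2 ≤ ε1 * T.ms y) := by
  classical
  obtain ⟨d, bs, hmesh⟩ := exists_basis_mesh s0 hs00
  have hd0 : (0 : ℝ) ≤ d := Nat.cast_nonneg d
  -- precisions
  obtain ⟨εt, hεt⟩ : ∃ εt : ℝ, εt = min (ε1 / 512) 1 := ⟨_, rfl⟩
  have hεt0 : 0 < εt := by rw [hεt]; exact lt_min (by positivity) one_pos
  have hεt1 : εt ≤ ε1 / 512 := by rw [hεt]; exact min_le_left _ _
  obtain ⟨T0, hT0⟩ : ∃ T0 : ℝ, T0 = 8 * (d + 1) * T1 / εt ^ 2 := ⟨_, rfl⟩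
  have hT00 : 0 < T0 := by rw [hT0]; positivity
  have hT0e : εt ^ 2 * T0 = 8 * (d + 1) * T1 := by
    rw [hT0]
    field_simp
  -- the phases
  obtain ⟨n, k0, h, hsw0⟩ := sw_phasesG W.ρ W.hρ W.ρ_add W.ρ_zero ψ q hq (d * T0) (1 / 32)
    (by norm_num)
  obtain ⟨k, hk⟩ : ∃ k : Fin n → U, ∀ i, k i = W.ρ (-s0) (k0 i) - k0 i := ⟨_, fun _ => rfl⟩
  have hcm : ∀ v l, W.ρ (-s0) (W.ρ v l) = W.ρ v (W.ρ (-s0) l) := by
    intro v l
    have h1 := W.ρ_add (-s0) v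
    rw [add_comm, W.ρ_add] at h1
    exact (congrArg (fun f : U →L[ℝ] U => f l) h1).symm
  have hsw : ∀ v : V, ‖v‖ ≤ d * T0 → ‖ch ⟪q, v⟫ - ∑ i, h i * W.ph χ (k i) v‖ ≤ 1 / 32 := by
    intro v hv
    refine le_trans (le_of_eq ?_) (hsw0 v hv)
    refine congrArg (fun x => ‖ch ⟪q, v⟫ - x‖) (Finset.sum_congr rfl fun i _ => ?_)
    have h1 : χ (W.ρ (-v) (k i)) = ψ (W.ρ (-v) (k0 i)) := by
      rw [hψ, hk, map_sub, hcm]
    rw [← h1]
    rfl
  obtain ⟨N, hN0, hN⟩ : ∃ N : ℕ, 0 < N ∧ 2 * (∑ i, ‖h i‖) / (N : ℝ) ≤ 1 / 16 := by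
    obtain ⟨N, hN⟩ := exists_nat_gt (32 * ∑ i, ‖h i‖)
    refine ⟨N + 1, Nat.succ_pos _, ?_⟩
    have h1 : (0 : ℝ) < ((N + 1 : ℕ) : ℝ) := by positivity
    rw [div_le_iff₀ h1]
    push_cast
    linarith
  obtain ⟨φs, hφs⟩ : ∃ φs : Bool → V → ℂ, ∀ x v, φs x v = if x then ch ⟪q, v⟫ else 1 :=
    ⟨_, fun _ _ => rfl⟩
  have hφt : ∀ v, φs true v = ch ⟪q, v⟫ := fun v => by rw [hφs]; rfl
  have hφf : ∀ v, φs false v = 1 := fun v => by rw [hφs]; rfl
  have hφc : ∀ x, Continuous (φs x) := by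
    intro x
    cases x
    · rw [funext hφf]; exact continuous_const
    · rw [funext hφt]; exact continuous_ch.comp (continuous_const.inner continuous_id)
  have hφn : ∀ x v, ‖φs x v‖ = 1 := by
    intro x v
    cases x
    · rw [hφf, norm_one]
    · rw [hφt, norm_ch]
  obtain ⟨ln, hln⟩ : ∃ ln : (Fin n → Fin N) → U, ∀ m, ln m = ∑ i, (m i : ℕ) • k0 i :=
    ⟨_, fun _ => rfl⟩
  obtain ⟨lm, hlm⟩ : ∃ lm : (Fin n → Fin N) → U, ∀ m, lm m = ∑ i, (m i : ℕ) • k i :=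
    ⟨_, fun _ => rfl⟩
  have hlnm : ∀ m, W.ρ (-s0) (ln m) - ln m = lm m := by
    intro m
    rw [hln, hlm, map_sum, ← Finset.sum_sub_distrib]
    refine Finset.sum_congr rfl fun i _ => ?_
    rw [hk, map_nsmul, nsmul_sub]
  choose δ hδ hinv using fun i : (Fin n → Fin N) × Bool =>
    S.gram_invV R W χ bs s0 T0 (1 / 16) hT00 (by norm_num) (φs i.2) (hφc i.2) (hφn i.2)
      (ln i.1) (lm i.1) (hlnm i.1)
  obtain ⟨δ0, hδ0, hδle⟩ := exists_pos_le_all δ hδ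
  refine ⟨(1 / 16 / 160) ^ 2, δ0, by positivity, hδ0, fun b hb hper hph => ?_⟩
  obtain ⟨C, hC, hph⟩ := hph
  choose D1 κ1 hD1 hκ1 hinv using fun i : (Fin n → Fin N) × Bool =>
    hinv i b hb (hper.mono (hδle i)) C
  obtain ⟨κ0, hκ0, hκle⟩ := exists_pos_le_all κ1 hκ1
  have hD1c : IsCompact (⋃ i, D1 i) := isCompact_iUnion hD1
  have hΛ : IsCompact (Set.range ln) := (Set.finite_range ln).isCompact
  refine ⟨C, 1 / 8, by norm_num, fun D hD κ hκ => ?_⟩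
  obtain ⟨κ2, hκ2⟩ : ∃ κ2 : ℝ, κ2 = min κ0 (min (κ / 8) (εt / 2)) := ⟨_, rfl⟩
  have hκ20 : 0 < κ2 := by
    rw [hκ2]; exact lt_min hκ0 (lt_min (by positivity) (by positivity))
  have hκ2a : κ2 ≤ κ0 := by rw [hκ2]; exact min_le_left _ _
  have hκ2b : κ2 ≤ κ / 8 := by rw [hκ2]; exact (min_le_right _ _).trans (min_le_left _ _)
  have hκ2c : κ2 ≤ εt / 2 := by rw [hκ2]; exact (min_le_right _ _).trans (min_le_right _ _)
  obtain ⟨T2, hT2⟩ : ∃ T2 : ℝ, T2 = d * T0 + ‖s0‖ + 2 + T1 := ⟨_, rfl⟩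
  have hdT0 : 0 ≤ (d : ℝ) * T0 := by positivity
  have hns : 0 ≤ ‖s0‖ := norm_nonneg _
  obtain ⟨e, β, he⟩ := hph T2 (D ∪ ⋃ i, D1 i) (hD.union hD1c) κ2 hκ20 (Set.range ln) hΛ
  choose a0 ha0 hinv using fun i : (Fin n → Fin N) × Bool =>
    hinv i e β (he.mono (by rw [hT2]; linarith)
      ((Set.subset_iUnion D1 i).trans Set.subset_union_right)
      (hκ2a.trans (hκle i))
      (Set.singleton_subset_iff.2 ⟨i.1, rfl⟩))
  obtain ⟨a1, ha1, ha1le⟩ := exists_pos_le_all a0 ha0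
  obtain ⟨a2, ha2, hreg⟩ := S.exists_regV R e T2 (εt / 2) (by positivity)
  -- the mesh
  obtain ⟨a4, ha4⟩ : ∃ a4 : ℝ, a4 = min a2 (min 1 (√ε1 / (2 * (‖q‖ + 1)))) := ⟨_, rfl⟩
  have hq1 : 0 < ‖q‖ + 1 := by positivity
  have ha40 : 0 < a4 := by
    rw [ha4]
    exact lt_min ha2 (lt_min one_pos (by positivity))
  have ha4a : a4 ≤ a2 := by rw [ha4]; exact min_le_left _ _
  have ha4b : a4 ≤ 1 := by rw [ha4]; exact (min_le_right _ _).trans (min_le_left _ _)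
  have ha4c : ‖q‖ * a4 ≤ √ε1 / 2 := by
    have h1 : a4 ≤ √ε1 / (2 * (‖q‖ + 1)) := by
      rw [ha4]; exact (min_le_right _ _).trans (min_le_right _ _)
    rw [le_div_iff₀ (by positivity)] at h1
    exact wtvf_q ha40.le h1
  obtain ⟨a3, ha3⟩ : ∃ a3 : ℝ, a3 = min (min a1 (a4 / (d + 1))) (min T1 (T0 / 2)) := ⟨_, rfl⟩
  have ha30 : 0 < a3 := by
    rw [ha3]
    exact lt_min (lt_min ha1 (by positivity)) (lt_min hT1 (by positivity))
  obtain ⟨a, m0, hapos, haa3, hvk⟩ := hmesh a3 ha30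
  have haa1 : a ≤ a1 := by
    rw [ha3] at haa3
    exact haa3.trans ((min_le_left _ _).trans (min_le_left _ _))
  have haa4 : d * a ≤ a4 := by
    have h1 : a ≤ a4 / (d + 1) := by
      rw [ha3] at haa3
      exact haa3.trans ((min_le_left _ _).trans (min_le_right _ _))
    rw [le_div_iff₀ (by positivity)] at h1
    exact wtvf_d hapos.le h1
  have haT1 : a ≤ T1 := by
    rw [ha3] at haa3
    exact haa3.trans ((min_le_right _ _).trans (min_le_left _ _))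
  have haT0 : a ≤ T0 / 2 := by
    rw [ha3] at haa3
    exact haa3.trans ((min_le_right _ _).trans (min_le_right _ _))
  obtain ⟨L, hL⟩ : ∃ L : ℕ, L = ⌊T0 / a⌋₊ := ⟨_, rfl⟩
  have hL1 : a * L ≤ T0 := by
    have h1 : (L : ℝ) ≤ T0 / a := by rw [hL]; exact Nat.floor_le (by positivity)
    rw [le_div_iff₀ hapos] at h1
    linarith
  have hL2 : T0 < a * (L + 1) := by
    have h1 : T0 / a < (L : ℝ) + 1 := by rw [hL]; exact Nat.lt_floor_add_one _
    rw [div_lt_iff₀ hapos] at h1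
    linarith
  have hL3 : T0 / 2 ≤ a * L := by
    have : a * (L + 1) = a * L + a := by ring
    rw [this] at hL2
    linarith
  have hLpos : 0 < L := by
    rcases Nat.eq_zero_or_pos L with h0 | h0
    · rw [h0] at hL3
      simp only [Nat.cast_zero, mul_zero] at hL3
      linarith
    · exact h0
  have hLr : (0 : ℝ) < L := by exact_mod_cast hLpos
  obtain ⟨M1, hM1⟩ := exists_nat_gt ((T1 + 2) / a)
  have hM1' : T1 + 2 < a * M1 := by
    rw [div_lt_iff₀ hapos] at hM1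
    linarith
  obtain ⟨M, hM⟩ : ∃ M : ℕ, M = L + (∑ l, (m0 l).natAbs) + (M1 + 1) := ⟨_, rfl⟩
  have hm0M : ∀ l, |m0 l| + (L : ℤ) ≤ M := by
    intro l
    have h1 : (m0 l).natAbs ≤ ∑ l, (m0 l).natAbs :=
      Finset.single_le_sum (f := fun l => (m0 l).natAbs) (fun _ _ => Nat.zero_le _)
        (Finset.mem_univ l)
    have h2 : |m0 l| = ((m0 l).natAbs : ℤ) := Int.abs_eq_natAbs _
    rw [h2]
    omega
  have hMr : (L : ℝ) + M1 + 1 ≤ M := by
    have : L + M1 + 1 ≤ M := by omega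
    exact_mod_cast this
  have haM : a * L + 2 ≤ a * M := by
    have h1 := mul_le_mul_of_nonneg_left hMr hapos.le
    exact wtvf_M hapos.le hT1.le h1 hM1'
  obtain ⟨E⟩ := exists_chs d (bigbox d M)
  obtain ⟨t, ht⟩ : ∃ t : (Fin d → ℤ) → G, t = fun j => R.s (vk bs a j) := ⟨_, rfl⟩
  have hιe : ‖T.ι e‖ = 1 := he.nrm
  have hboxF : box d L ⊆ bigbox d M := fun j hj => (box_bigbox hj hm0M).1
  -- the phase `ch (q, v)`
  have hG : ∑ c, T.n1 (S.grt E t e (fun j => ch ⟪q, vk bs a j⟫ * wv d L j) c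
      - S.grt E t e (wv d L) c) ≤ ‖T.ι e‖ ^ 2 / 2 := by
    have key := S.hs_gramT E t e (fun l j => W.ph χ l (vk bs a j))
      (fun l m j => W.ph_add χ l m _) (fun l j => W.norm_ph χ l _) (wv d L)
      (fun j => ch ⟪q, vk bs a j⟫) (wv_sum_le hLpos _) (fun j => norm_ch _) n k h (1 / 32)
      (by norm_num) (fun j _ hj => ?_) N hN0 (1 / 16) (fun m hm => ?_)
    · rw [hιe] at key ⊢
      have h1 : 2 * (1 : ℝ) ^ 2 * (∑ i, ‖h i‖) / (N : ℝ) = 2 * (∑ i, ‖h i‖) / (N : ℝ) := by ring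
      rw [h1] at key
      linarith
    · exact hsw _ (norm_vk_box bs hapos.le (wv_ne hj) hL1)
    · have hsum : lm (fun i => ⟨m i, hm i⟩) = ∑ i, m i • k i := hlm _
      have h1 := hinv (fun i => ⟨m i, hm i⟩, false) a m0 L M hapos (haa1.trans (ha1le _)) hvk hL1
        hL2 hm0M haM E
      have h2 := hinv (fun i => ⟨m i, hm i⟩, true) a m0 L M hapos (haa1.trans (ha1le _)) hvk hL1
        hL2 hm0M haM E
      rw [← ht] at h1 h2
      simp only [hφf, one_mul, hsum] at h1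
      simp only [hφt, hsum] at h2
      exact ⟨h1, h2⟩
  have hf1 : ∑ j ∈ bigbox d M, ‖wv d L j‖ ^ 2 = 1 := wv_sum_eq hLpos _ hboxF
  have hf2 : ∑ j ∈ bigbox d M, ‖ch ⟪q, vk bs a j⟫ * wv d L j‖ ^ 2 = 1 := by
    rw [← hf1]
    refine Finset.sum_congr rfl fun j _ => ?_
    rw [norm_mul, norm_ch, one_mul]
  obtain ⟨y, hy1, hy2, hy3, hy4, hy5, hy6⟩ := S.exists_typeT E t e b hb he.lft he.rgt hιe.le
    (wv d L) (fun j => ch ⟪q, vk bs a j⟫ * wv d L j) hf1 hf2 hG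
  rw [hιe] at hy4
  refine ⟨E.C, E.fin, y, hy1, hy2, hy3.mono he.op, by linarith, fun x hx hp => ?_, fun v hv => ?_⟩
  · have h1 := hy5 x κ2 hκ20.le fun j hj => ?_
    · exact h1.trans (by linarith)
    · have hjb : j ∈ box d L := by
        rcases hj with hj | hj
        · exact wv_ne hj
        · exact wv_ne (right_ne_zero_of_mul hj)
      rw [ht]
      refine he.nearH x (Or.inl hx) hp _ ?_
      refine (norm_vk_box bs hapos.le hjb hL1).trans ?_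
      rw [hT2]
      linarith
  · obtain ⟨m, hm⟩ : ∃ m : Fin d → ℤ, m = fl bs a v := ⟨_, rfl⟩
    have hrem : ‖v - vk bs a m‖ ≤ a4 := by
      rw [hm]
      exact (fl_rem bs hapos v).trans haa4
    have habs : ∀ l, a * |(m l : ℝ)| ≤ T1 + a := fun l => by
      rw [hm]
      exact (fl_abs bs hapos v l).trans (by linarith)
    have hmM : ∀ l, |m l| + (L : ℤ) ≤ M := by
      intro l
      have h1 : a * (|(m l : ℝ)| + L) < a * (M : ℝ) := by
        have h2 := habs l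
        have h3 := mul_le_mul_of_nonneg_left hMr hapos.le
        have h4 : a * (L + M1 + 1) = a * L + a * M1 + a := by ring
        rw [h4] at h3
        rw [mul_add]
        linarith
      have h2 := lt_of_mul_lt_mul_left h1 hapos.le
      have h3 : |m l| + (L : ℤ) < M := by exact_mod_cast h2
      exact h3.le
    have hTr : ∀ g : (Fin d → ℤ) → ℂ, (∀ j, g j ≠ 0 → j ∈ box d L) →
        S.Tr t (bigbox d M) e (R.s v) m (κ2 + εt / 2) g := by
      intro g hg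
      rw [ht]
      refine S.trV R bs he.mul (a1 := a4) (fun w r hw hr => hreg w r hw (hr.trans ha4a)) hapos.le
        hL1 v m hmM ?_ ?_ ha40.le ?_ hrem g hg
      · rw [hT2]
        linarith
      · rw [hT2]
        linarith
      · rw [hT2]
        linarith
    have hsum : a * ∑ l, |(m l : ℝ)| ≤ d * (2 * T1) := by
      rw [hm]
      refine (sum_fl_abs bs hapos v).trans ?_
      exact mul_le_mul_of_nonneg_left (by linarith) hd0
    have hsh : ∑ j ∈ bigbox d M, ‖wv d L (j - m) - wv d L j‖ ^ 2 ≤ εt ^ 2 := by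
      refine (wv_shift hLpos m _).trans ?_
      rw [div_le_iff₀ hLr]
      have h4 : a * (2 * ∑ l, |(m l : ℝ)|) ≤ a * (εt ^ 2 * L) := by
        calc a * (2 * ∑ l, |(m l : ℝ)|) = 2 * (a * ∑ l, |(m l : ℝ)|) := by ring
          _ ≤ 4 * (d + 1) * T1 := wtvf_s hT1.le hsum
          _ = εt ^ 2 * (T0 / 2) := by linarith
          _ ≤ εt ^ 2 * (a * L) := mul_le_mul_of_nonneg_left hL3 (sq_nonneg _)
          _ = a * (εt ^ 2 * L) := by ring
      exact le_of_mul_le_mul_left h4 hapos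
    have hsh' : ∑ j ∈ bigbox d M, ‖ch ⟪q, vk bs a m⟫ * (ch ⟪q, vk bs a (j - m)⟫ * wv d L (j - m))
        - ch ⟪q, vk bs a j⟫ * wv d L j‖ ^ 2 ≤ εt ^ 2 := by
      refine le_trans (le_of_eq (Finset.sum_congr rfl fun j _ => ?_)) hsh
      have h5 : ch ⟪q, vk bs a m⟫ * (ch ⟪q, vk bs a (j - m)⟫ * wv d L (j - m))
          - ch ⟪q, vk bs a j⟫ * wv d L j
          = ch ⟪q, vk bs a j⟫ * (wv d L (j - m) - wv d L j) := by
        have h6 : ⟪q, vk bs a j⟫ = ⟪q, vk bs a m⟫ + ⟪q, vk bs a (j - m)⟫ := by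
          rw [← inner_add_right, vk_sub, add_sub_cancel]
        rw [h6, ch_add]
        ring
      rw [h5, norm_mul, norm_ch, one_mul]
    have h5 := hy6 (R.s v) m (ch ⟪q, vk bs a m⟫) (κ2 + εt / 2) εt (norm_ch _) (by positivity)
      hεt0.le (hTr _ fun j hj => wv_ne hj) (hTr _ fun j hj => wv_ne (right_ne_zero_of_mul hj))
      hsh hsh'
    have h8 : ∑ c, ‖T.ι (S.α (R.s v) (y c) - ch ⟪q, vk bs a m⟫ • y c)‖ ^ 2 ≤ ε1 / 32 := by
      refine h5.trans ?_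
      linarith
    -- from `ch (q, vk m)` to `ch (q, v)`
    have hsq : √ε1 ^ 2 = ε1 := Real.sq_sqrt hε1.le
    have h9 : ∀ c, ‖T.ι (S.α (R.s v) (y c) - ch ⟪q, v⟫ • y c)‖ ^ 2
        ≤ 2 * ‖T.ι (S.α (R.s v) (y c) - ch ⟪q, vk bs a m⟫ • y c)‖ ^ 2
          + ε1 / 2 * ‖T.ι (y c)‖ ^ 2 := by
      intro c
      have e1 : S.α (R.s v) (y c) - ch ⟪q, v⟫ • y c
          = (S.α (R.s v) (y c) - ch ⟪q, vk bs a m⟫ • y c)
            + (ch ⟪q, vk bs a m⟫ - ch ⟪q, v⟫) • y c := by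
        rw [sub_smul]
        abel
      have e2 : ‖T.ι ((ch ⟪q, vk bs a m⟫ - ch ⟪q, v⟫) • y c)‖ ≤ √ε1 / 2 * ‖T.ι (y c)‖ := by
        rw [map_smul, norm_smul]
        refine mul_le_mul_of_nonneg_right ?_ (norm_nonneg _)
        refine (norm_ch_sub_ch_le _ _).trans ?_
        have e3 : ⟪q, vk bs a m⟫ - ⟪q, v⟫ = -⟪q, v - vk bs a m⟫ := by
          rw [inner_sub_right]
          ring
        rw [e3, abs_neg]
        refine (abs_real_inner_le_norm _ _).trans ?_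
        exact (mul_le_mul_of_nonneg_left hrem (norm_nonneg q)).trans ha4c
      rw [e1, map_add]
      have e3 := norm_add_le (T.ι (S.α (R.s v) (y c) - ch ⟪q, vk bs a m⟫ • y c))
        (T.ι ((ch ⟪q, vk bs a m⟫ - ch ⟪q, v⟫) • y c))
      have e4 := e3.trans (add_le_add le_rfl e2)
      have e5 := pow_le_pow_left₀ (norm_nonneg _) e4 2
      refine e5.trans ?_
      have e7 : (√ε1 / 2 * ‖T.ι (y c)‖) ^ 2 = ε1 / 4 * ‖T.ι (y c)‖ ^ 2 := by
        rw [mul_pow, div_pow, hsq]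
        ring
      exact wtvf_2 e7
    have h10 := Finset.sum_le_sum fun c (_ : c ∈ Finset.univ) => h9 c
    rw [Finset.sum_add_distrib, ← Finset.mul_sum, ← Finset.mul_sum] at h10
    have h11 : ∑ c, ‖T.ι (y c)‖ ^ 2 = T.ms y := rfl
    rw [h11] at h10
    refine h10.trans ?_
    exact wtvf_e hε1.le h8 (by linarith)

/-- T4, abelian step: all labels which are trivial on the elements `v` with `(ρ v - 1) ^ 2 = 0` are
available in all corners -/
theorem TrAct.labA_AB {I : Type*} {U : I → Type z'} [∀ i, NormedAddCommGroup (U i)]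
    [∀ i, NormedSpace ℝ (U i)] [∀ i, FiniteDimensional ℝ (U i)] (R : VSec G V)
    (W : ∀ i, WtV R (U i))
    (hE : ∀ i (χ : U i →L[ℝ] ℝ) (b : A), S.IsPrj b → b ≠ 0 → ∃ C : ℝ, 0 < C ∧
      ∀ (T0 : ℝ) (D : Set G), IsCompact D → ∀ κ : ℝ, 0 < κ → ∀ Λ : Set (U i), IsCompact Λ →
        ∃ (e : A) (β : U i → G), S.NEltV R ((W i).ph χ) b T0 D κ Λ C e β)
    (q : V) (hq : ∀ v, (∀ i l, (W i).ρ v ((W i).ρ v l - l) = (W i).ρ v l - l) → ch ⟪q, v⟫ = 1)
    (ρ : ℝ) (hρ : 0 < ρ) (b : A) (hb : S.IsPrj b) (h0 : b ≠ 0) :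
    S.LabA (pch R.p) (Metric.ball q ρ) b := by
  by_contra hn
  obtain ⟨Bk, hBk, hbase⟩ := exists_base V
  obtain ⟨bs, hdec, hbs0⟩ := S.exists_dec (pch R.p) Bk b hb h0
  have hno : ∀ n, ¬ S.LabA (pch R.p) (Metric.ball q ρ) (bs n) := by
    intro n h1
    refine hn (h1.of_le hb.star_eq (hdec.prj n).star_eq ?_)
    rw [← hbs0]
    exact hdec.le_of_le (Nat.zero_le n)
  obtain ⟨H, hH⟩ := TrAct.Dec.exists_subgroup S hdec hBk hbase fun B1 B2 b' hb' =>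
    S.hlabA_add B1 B2 b' hb'
  have hcl : IsClosed (H : Set V) := by
    rw [hH]
    exact TrAct.Dec.isClosed_SF S hdec hBk
  have hqH : q ∉ H := by
    intro h1
    rw [← SetLike.mem_coe, hH, TrAct.Dec.mem_SF_iff S hdec hBk hbase] at h1
    obtain ⟨n, h2⟩ := h1 ρ hρ
    exact hno n (h2.labA (hdec.prj n) (hdec.ne n))
  obtain ⟨s0, hs0, hqs⟩ := exists_dual_sep H hcl q hqH
  have hs00 : s0 ≠ 0 := by
    intro h
    apply hqs
    rw [h, inner_zero_right, ch_zero]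
  -- `s0` is not unipotent of order two for some `i`
  obtain ⟨i, l0, hi⟩ : ∃ i l, (W i).ρ s0 ((W i).ρ s0 l - l) ≠ (W i).ρ s0 l - l := by
    by_contra hcon
    push Not at hcon
    exact hqs (hq s0 hcon)
  -- the functional
  have hinv : ∀ l, (W i).ρ (-s0) ((W i).ρ s0 l) = l := by
    intro l
    have h1 := (W i).ρ_add (-s0) s0
    rw [neg_add_cancel, (W i).ρ_zero] at h1
    exact (congrArg (fun f : U i →L[ℝ] U i => f l) h1).symm
  obtain ⟨x0, hx0⟩ : ∃ x0 : U i, x0 = (W i).ρ (-s0) ((W i).ρ s0 l0 - l0)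
      - ((W i).ρ s0 l0 - l0) := ⟨_, rfl⟩
  have hx00 : x0 ≠ 0 := by
    intro h
    apply hi
    rw [hx0, sub_eq_zero] at h
    have h1 := (W i).ρ_add s0 (-s0)
    rw [add_neg_cancel, (W i).ρ_zero] at h1
    have h2 : (W i).ρ s0 ((W i).ρ (-s0) ((W i).ρ s0 l0 - l0)) = (W i).ρ s0 l0 - l0 :=
      (congrArg (fun f : U i →L[ℝ] U i => f ((W i).ρ s0 l0 - l0)) h1).symm
    rwa [h] at h2
  obtain ⟨χ, hχ⟩ : ∃ χ : U i →L[ℝ] ℝ, χ x0 ≠ 0 := by
    obtain ⟨g, _, hg⟩ := exists_dual_vector ℝ x0 (norm_ne_zero_iff.2 hx00)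
    refine ⟨g, ?_⟩
    rw [hg]
    simpa using hx00
  obtain ⟨ψ, hψ⟩ : ∃ ψ : U i →L[ℝ] ℝ, ∀ l, ψ l = χ ((W i).ρ (-s0) l - l) :=
    ⟨χ.comp ((W i).ρ (-s0) - ContinuousLinearMap.id ℝ (U i)), fun _ => rfl⟩
  have hψ0 : ψ.comp ((W i).ρ s0) ≠ ψ := by
    intro h
    apply hχ
    have h1 := congrArg (fun f : U i →L[ℝ] ℝ => f l0) h
    have h2 : ψ ((W i).ρ s0 l0) = ψ l0 := h1
    have h3 : ψ ((W i).ρ s0 l0 - l0) = 0 := by rw [map_sub, h2, sub_self]
    rw [hψ] at h3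
    rw [hx0]
    exact h3
  -- the stabiliser of the functional
  let Ki : AddSubgroup V :=
    { carrier := {v | ψ.comp ((W i).ρ v) = ψ}
      add_mem' := by
        intro a c ha hc
        change ψ.comp ((W i).ρ (a + c)) = ψ
        have ha' : ψ.comp ((W i).ρ a) = ψ := ha
        have hc' : ψ.comp ((W i).ρ c) = ψ := hc
        rw [(W i).ρ_add, ← ContinuousLinearMap.comp_assoc, ha', hc']
      zero_mem' := by
        change ψ.comp ((W i).ρ 0) = ψ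
        rw [(W i).ρ_zero, ContinuousLinearMap.comp_id]
      neg_mem' := by
        intro a ha
        change ψ.comp ((W i).ρ (-a)) = ψ
        have ha' : ψ.comp ((W i).ρ a) = ψ := ha
        have h1 := (W i).ρ_add a (-a)
        rw [add_neg_cancel, (W i).ρ_zero] at h1
        calc ψ.comp ((W i).ρ (-a)) = (ψ.comp ((W i).ρ a)).comp ((W i).ρ (-a)) := by rw [ha']
          _ = ψ := by
            rw [ContinuousLinearMap.comp_assoc, ← h1, ContinuousLinearMap.comp_id] }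
  have hKc : IsClosed (Ki : Set V) :=
    isClosed_eq (continuous_const.clm_comp (W i).hρ) continuous_const
  obtain ⟨q2, hq2, hsq⟩ := exists_dual_sep Ki hKc s0 hψ0
  have hq2K : ∀ v, ψ.comp ((W i).ρ v) = ψ → ch ⟪q2, v⟫ = 1 := by
    intro v hv
    rw [real_inner_comm]
    exact hq2 v hv
  have hq2H : q2 ∉ S.SF (pch R.p) Bk bs := by
    intro h1
    rw [← hH] at h1
    apply hsq
    rw [real_inner_comm]
    exact hs0 q2 h1
  obtain ⟨k, hk1, hk2⟩ : ∃ k, q2 ∈ Bk k ∧ ¬ S.HLabA (pch R.p) (Bk k) (bs (k + 1)) := by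
    by_contra hcon
    push Not at hcon
    exact hq2H hcon
  obtain ⟨ρ2, hρ2, hball⟩ := Metric.isOpen_iff.1 (hBk k) q2 hk1
  obtain ⟨T1, ε1, hT1, hε1, hprec⟩ := S.labA_of_precV R q2 ρ2 hρ2
  obtain ⟨ε, δ, hε, hδ, hcore⟩ := S.labA_of_perAtV R (W i) χ q2 s0 hs00 ψ hψ hq2K T1 ε1 hT1 hε1
  obtain ⟨n0, hn0⟩ := TrAct.Dec.perAtV S R hdec hBk s0
    (fun x hx => hs0 x (by rw [← SetLike.mem_coe, hH]; exact hx)) ε δ hε hδ
  have h1 := hprec (bs (max n0 (k + 1))) (hdec.prj _).fix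
    (hcore _ (hdec.prj _) (hn0 _ (le_max_left _ _)) (hE i χ _ (hdec.prj _) (hdec.ne _)))
  exact hdec.not_labA hk2 (le_max_right n0 (k + 1)) (h1.mono hball)

end

end Pool.Agent.AbCoc
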