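import Pool.Agent.Lib_MP_418a80_t4.CT8
import Pool.Agent.Lib_MP_418a80_t4.WtVF
import Pool.Agent.Lib_MP_418a80_t4.PhaseEV
import Pool.Agent.Lib_MP_418a80_t3.KeyWt

/-!
# MP_418a80_an, T4: one line step and one circle step of the abelian step, for `KeyAll`

`G / ker p = V`, `ker p` with `KeyAll`, representations `ρ_i` of `V` on abelian quotients of `ker p`.
All labels which are trivial on the elements `v` with `(ρ_i v - 1) ^ 2 = 0` for all `i` are available,
so one may compose over the quotient of `G` by `N1 = {g | ⟪chi0, p g⟫ = 0}` (a line), or by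
`N1 = {g | ⟪chi0, p g⟫ ∈ 2πℤ}` (a circle).
-/

set_option autoImplicit false
set_option linter.unusedVariables false
set_option linter.unusedSectionVars false

open MeasureTheory Topology Filter
open scoped ENNReal NNReal ComplexConjugate RealInnerProductSpace

namespace Pool.Agent.AbCoc

universe u v w z z' z''

section grp
variable {G : Type w} [Group G] [TopologicalSpace G] {V : Type z} [NormedAddCommGroup V]
  [InnerProductSpace ℝ V]

/-- the kernel of `p` is closed -/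
theorem VSec.isClosed_of_mem_iff (R : VSec G V) (N : Subgroup G) (hN : ∀ g, g ∈ N ↔ R.p g = 0) :
    IsClosed (N : Set G) := by
  have h3 : (N : Set G) = R.p ⁻¹' {0} := by
    ext g
    exact hN g
  rw [h3]
  exact isClosed_singleton.preimage R.hp

/-- the value of `p` on conjugates -/
theorem VSec.p_conj_eq (R : VSec G V) (g h : G) : R.p (g * h * g⁻¹) = R.p h := by
  rw [R.pmul, R.pmul, R.p_inv]
  abel

/-- a subgroup defined by a condition on `p g` is normal -/
theorem VSec.normal_of_mem_iff (R : VSec G V) (P : V → Prop) (N : Subgroup G)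
    (hN : ∀ g, g ∈ N ↔ P (R.p g)) : N.Normal := by
  constructor
  intro n hn g
  rw [hN] at hn ⊢
  rwa [R.p_conj_eq]

/-- a path with `⟪chi0, p (s t)⟫ = t` -/
theorem VSec.exists_path (R : VSec G V) (chi0 : V) (h0 : chi0 ≠ 0) :
    ∃ s : ℝ → G, Continuous s ∧ ∀ t, ⟪chi0, R.p (s t)⟫ = t := by
  have hn : ‖chi0‖ ≠ 0 := norm_ne_zero_iff.2 h0
  refine ⟨fun t => R.s ((t / ‖chi0‖ ^ 2) • chi0), ?_, fun t => ?_⟩
  · exact R.hs.comp ((continuous_id.div_const _).smul continuous_const)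
  · rw [R.ps, real_inner_smul_right, real_inner_self_eq_norm_sq]
    field_simp

end grp

section lab
variable {G : Type w} [Group G] [TopologicalSpace G] [IsTopologicalGroup G] [T2Space G]
  [SecondCountableTopology G] [LocallyCompactSpace G]
variable {V : Type z} [NormedAddCommGroup V] [InnerProductSpace ℝ V] [FiniteDimensional ℝ V]

/-- available labels from `KeyAll` of the kernel -/
theorem VSec.labA_of_keyAll {I : Type z''} {U : I → Type z'} [∀ i, NormedAddCommGroup (U i)]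
    [∀ i, NormedSpace ℝ (U i)] [∀ i, FiniteDimensional ℝ (U i)] (R : VSec G V)
    (W : ∀ i, WtV R (U i)) (N : Subgroup G) (hN : ∀ g, g ∈ N ↔ R.p g = 0)
    (hK : KeyAll.{u, v, w} N) (q : V)
    (hq : ∀ v, (∀ i l, (W i).ρ v ((W i).ρ v l - l) = (W i).ρ v l - l) → ch ⟪q, v⟫ = 1)
    [MeasurableSpace G] [BorelSpace G] (ν : Measure G) [ν.IsHaarMeasure] (hR : Reiter ν)
    (A : Type u) [CStarAlgebra A] (K : Type v) [NormedAddCommGroup K] [InnerProductSpace ℂ K]
    [CompleteSpace K] (T : TrAlg A K) (S : TrAct G T) (hSO : S.SO ν Set.univ)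
    (b : A) (hb : S.IsPrj b) (h0 : b ≠ 0) (ρ : ℝ) (hρ : 0 < ρ) :
    S.LabA (pch R.p) (Metric.ball q ρ) b := by
  let := CStarAlgebra.spectralOrder A
  have := CStarAlgebra.spectralOrderedRing A
  exact S.labA_AB R W (fun i χ b' hb' hb0' => S.exists_neltV_key R (W i) χ N hN
    (hK.key_tw2 N (R.isClosed_of_mem_iff N hN) ν hR S hSO) hb' hb0') q hq ρ hρ b hb h0

/-- **Line step of the abelian step.** -/
theorem keyAll_of_ab_line {I : Type z''} {U : I → Type z'} [∀ i, NormedAddCommGroup (U i)]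
    [∀ i, NormedSpace ℝ (U i)] [∀ i, FiniteDimensional ℝ (U i)] (R : VSec G V)
    (W : ∀ i, WtV R (U i)) (N : Subgroup G) (hN : ∀ g, g ∈ N ↔ R.p g = 0)
    (hK : KeyAll.{u, v, w} N) (chi0 : V) (h0 : chi0 ≠ 0) (N1 : Subgroup G)
    (hN1 : ∀ g, g ∈ N1 ↔ ⟪chi0, R.p g⟫ = 0) (hK1 : KeyAll.{u, v, w} N1)
    (hchi : ∀ v, (∀ i l, (W i).ρ v ((W i).ρ v l - l) = (W i).ρ v l - l) → ⟪chi0, v⟫ = 0) :
    KeyAll.{u, v, w} G := by
  have hnorm : N1.Normal := R.normal_of_mem_iff (fun v => ⟪chi0, v⟫ = 0) N1 hN1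
  obtain ⟨s, hs, hps⟩ := R.exists_path chi0 h0
  refine keyAll_line R.p R.hp R.pmul chi0 s hs hps N1 hN1 hK1
    fun ν _ hR A _ K _ _ _ T S hSO b hb hb0 t ρ hρ => ?_
  refine R.labA_of_keyAll W N hN hK (t • chi0) (fun v hv => ?_) ν hR A K T S hSO b hb hb0 ρ hρ
  rw [real_inner_smul_left, hchi v hv, mul_zero, ch_zero]

/-- **Circle step of the abelian step.** -/
theorem keyAll_of_ab_circle {I : Type z''} {U : I → Type z'} [∀ i, NormedAddCommGroup (U i)]
    [∀ i, NormedSpace ℝ (U i)] [∀ i, FiniteDimensional ℝ (U i)] (R : VSec G V)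
    (W : ∀ i, WtV R (U i)) (N : Subgroup G) (hN : ∀ g, g ∈ N ↔ R.p g = 0)
    (hK : KeyAll.{u, v, w} N) (chi0 : V) (h0 : chi0 ≠ 0) (N1 : Subgroup G)
    (hN1 : ∀ g, g ∈ N1 ↔ ∃ n : ℤ, ⟪chi0, R.p g⟫ = n * (2 * Real.pi))
    (hK1 : KeyAll.{u, v, w} N1)
    (hchi : ∀ v, (∀ i l, (W i).ρ v ((W i).ρ v l - l) = (W i).ρ v l - l) → ch ⟪chi0, v⟫ = 1) :
    KeyAll.{u, v, w} G := by
  have hnorm : N1.Normal :=
    R.normal_of_mem_iff (fun v => ∃ n : ℤ, ⟪chi0, v⟫ = n * (2 * Real.pi)) N1 hN1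
  obtain ⟨s, hs, hps⟩ := R.exists_path chi0 h0
  refine keyAll_circle R.p R.hp R.pmul chi0 s hs hps N1 hN1 hK1
    fun ν _ hR A _ K _ _ _ T S hSO b hb hb0 k ρ hρ => ?_
  refine R.labA_of_keyAll W N hN hK ((k : ℝ) • chi0) (fun v hv => ?_) ν hR A K T S hSO b hb hb0
    ρ hρ
  obtain ⟨n, hn⟩ := (ch_eq_one_iff _).1 (hchi v hv)
  rw [real_inner_smul_left, hn, ch_eq_one_iff]
  exact ⟨k * n, by push_cast; ring⟩

end lab

end Pool.Agent.AbCoc
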