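import Pool.Agent.Lib_MP_418a80_t4.V0
import Pool.Agent.Lib_MP_418a80_t3.Heis4

/-!
# MP_418a80_an, T4 (abelian step): the periodic lemma
-/

set_option autoImplicit false
set_option linter.unusedVariables false
set_option linter.unusedSectionVars false

open Topology Filter MeasureTheory
open scoped RealInnerProductSpace ComplexConjugate

namespace Pool.Agent.AbCoc

universe u v w z

section
variable {A : Type u} [CStarAlgebra A] {K : Type v} [NormedAddCommGroup K]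
  [InnerProductSpace ℂ K] [CompleteSpace K]
variable {G : Type w} [Group G] [TopologicalSpace G] [IsTopologicalGroup G] {T : TrAlg A K}
  (S : TrAct G T)

/-- from the labels to the displacement -/
private theorem perV_disp_le {V : Type z} [NormedAddCommGroup V] [InnerProductSpace ℝ V] {p : G → V}
    {J : Type} [Fintype J] (x : J → A) (θ : J → V) (g : G) (ζ : ℂ) :
    ∑ i, ‖T.ι (S.α g (x i) - ζ • x i)‖ ^ 2
      ≤ 2 * ∑ i, ‖T.ι (S.α g (x i) - pch p (θ i) g • x i)‖ ^ 2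
        + 2 * ∑ i, ‖pch p (θ i) g - ζ‖ ^ 2 * ‖T.ι (x i)‖ ^ 2 := by
  rw [Finset.mul_sum, Finset.mul_sum, ← Finset.sum_add_distrib]
  refine Finset.sum_le_sum fun i _ => ?_
  rw [← T.norm_smul_sq]
  have e2 : S.α g (x i) - ζ • x i
      = (S.α g (x i) - pch p (θ i) g • x i) + (pch p (θ i) g - ζ) • x i := by
    rw [sub_smul]
    abel
  rw [e2, map_add T.ι (S.α g (x i) - pch p (θ i) g • x i)]
  have e3 := norm_add_le (T.ι (S.α g (x i) - pch p (θ i) g • x i))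
    (T.ι ((pch p (θ i) g - ζ) • x i))
  have e4 := pow_le_pow_left₀ (norm_nonneg _) e3 2
  nlinarith [sq_nonneg (‖T.ι (S.α g (x i) - pch p (θ i) g • x i)‖
    - ‖T.ι ((pch p (θ i) g - ζ) • x i)‖)]

/-- if all labels which are available along the deciding sequence have period `s0`, then in small
corners families which move little under `s v`, `‖v‖ ≤ δ`, also move little under `s s0` -/
theorem TrAct.Dec.perV_of_dec {n : ℕ} (R : VSec G (EuclideanSpace ℝ (Fin n)))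
    {Bk : ℕ → Set (EuclideanSpace ℝ (Fin n))} {b : ℕ → A} (h : S.Dec (pch R.p) Bk b)
    (hBk : ∀ k, IsOpen (Bk k)) (s0 : EuclideanSpace ℝ (Fin n))
    (hs0 : ∀ q ∈ S.SF (pch R.p) Bk b, ch ⟪q, s0⟫ = 1) (ε δ : ℝ) (hε : 0 < ε) (hδ : 0 < δ) :
    ∃ n0 : ℕ, ∀ m, n0 ≤ m → S.PerV R (b m) s0 ε δ (1000 * (n + 1) * ε) := by
  classical
  have hn0 : (0 : ℝ) ≤ n := Nat.cast_nonneg n
  -- the bad labels
  set E : Set (EuclideanSpace ℝ (Fin n)) :=
    Metric.closedBall 0 (√n * (2 / δ)) ∩ {θ | ε / 2 ≤ ‖ch ⟪θ, s0⟫ - 1‖ ^ 2} with hE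
  have hcl : IsClosed {θ : EuclideanSpace ℝ (Fin n) | ε / 2 ≤ ‖ch ⟪θ, s0⟫ - 1‖ ^ 2} := by
    refine isClosed_le continuous_const ?_
    have h1 : Continuous fun θ : EuclideanSpace ℝ (Fin n) => ch ⟪θ, s0⟫ :=
      continuous_ch.comp (by fun_prop)
    exact ((h1.sub continuous_const).norm).pow 2
  have hEc : IsCompact E := (isCompact_closedBall 0 _).inter_right hcl
  have hdisj : ∀ q ∈ E, q ∉ S.SF (pch R.p) Bk b := by
    intro q hq hq'
    have h1 : ε / 2 ≤ ‖ch ⟪q, s0⟫ - 1‖ ^ 2 := hq.2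
    rw [hs0 q hq', sub_self, norm_zero, zero_pow two_ne_zero] at h1
    have h2 : 0 < ε / 2 := by positivity
    linarith
  obtain ⟨n0, hcov⟩ := TrAct.Dec.cover S h hBk E hEc hdisj
  refine ⟨n0, fun m hm C => ?_⟩
  obtain ⟨D1, κ1, hD1, hκ1, hc1⟩ := hcov m hm C (ε / 100) (by positivity)
  have hκ : 0 < min κ1 (ε / 10) := lt_min hκ1 (by positivity)
  have hDD : IsCompact (D1 ∪ R.s '' Metric.closedBall 0 (max δ ‖s0‖)) :=
    hD1.union ((isCompact_closedBall 0 _).image R.hs)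
  obtain ⟨D', κ', hD', hκ', hc2⟩ :=
    S.exists_cells R.p R.hp R.pmul R.s R.hs R.ps _ hDD (min κ1 (ε / 10)) C hκ
  refine ⟨D', κ', hD', hκ', ?_⟩
  intro J _ y hby hyb hDm hms1 hker hprec
  obtain ⟨J', hJ', x, θ, hlab, hmsx, hcmp⟩ := hc2 (b m) J y (h.prj m).fix hby hyb hDm hker
  have hκε : min κ1 (ε / 10) ≤ ε / 10 := min_le_right _ _
  have hmem : ∀ v : EuclideanSpace ℝ (Fin n), ‖v‖ ≤ max δ ‖s0‖ →
      R.s v ∈ D1 ∪ R.s '' Metric.closedBall 0 (max δ ‖s0‖) := fun v hv =>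
    Or.inr ⟨v, by rwa [Metric.mem_closedBall, dist_zero_right], rfl⟩
  have hZ : 0 < 2 / δ := by positivity
  have hδZ : 2 / (2 / δ) = δ := div_div_cancel₀ two_ne_zero
  have hbs : ∀ (l : Fin n) (t : ℝ), 0 ≤ t → t ≤ 2 / (2 / δ) →
      ‖t • EuclideanSpace.basisFun (Fin n) ℝ l‖ ≤ δ := by
    intro l t ht0 ht
    rw [norm_smul, (EuclideanSpace.basisFun (Fin n) ℝ).norm_eq_one, mul_one, Real.norm_eq_abs,
      abs_of_nonneg ht0]
    rwa [hδZ] at ht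
  -- (1) the mass of the large labels
  have hfar := TrAct.IsLab.tail (EuclideanSpace.basisFun (Fin n) ℝ) R.s R.ps hlab
    (fun g hg ζ hζ => (hcmp g hg ζ hζ).1) 0 (2 / δ) ε hZ
    (fun l t ht0 ht => hmem _ ((hbs l t ht0 ht).trans (le_max_left _ _)))
    (fun l t ht0 ht => by
      have h1 := hprec _ (hbs l t ht0 ht)
      simpa only [inner_zero_left, ch_zero, one_smul] using h1)
  -- (2) the mass of the bad labels
  have hbad := hlab.mono (subset_rfl) (Set.subset_union_left : D1 ⊆ _) (min_le_left κ1 (ε / 10)) le_rfl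
  have hbad1 : ∑ i, (if θ i ∈ E then ‖T.ι (x i)‖ ^ 2 else 0) ≤ ε / 100 :=
    TrAct.IsLab.mass_le (by positivity) (fun J _ y r hy => hc1 J y r hy) hbad
  -- (3) the labels are almost periodic
  have hms : T.ms x ≤ 1 := hmsx.le.trans hms1
  have hpt : ∀ i, ‖ch ⟪θ i, s0⟫ - 1‖ ^ 2 * ‖T.ι (x i)‖ ^ 2
      ≤ 4 * (if √n * (2 / δ) < ‖θ i - 0‖ then ‖T.ι (x i)‖ ^ 2 else 0)
        + 4 * (if θ i ∈ E then ‖T.ι (x i)‖ ^ 2 else 0) + ε / 2 * ‖T.ι (x i)‖ ^ 2 := by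
    intro i
    have hx : 0 ≤ ‖T.ι (x i)‖ ^ 2 := sq_nonneg _
    have hch : ‖ch ⟪θ i, s0⟫ - 1‖ ^ 2 ≤ 4 := by
      have h1 : ‖ch ⟪θ i, s0⟫ - 1‖ ≤ 2 := by
        refine (norm_sub_le _ _).trans ?_
        rw [norm_ch, norm_one]
        norm_num
      have h2 := pow_le_pow_left₀ (norm_nonneg _) h1 2
      linarith
    have hec : 0 ≤ ε / 2 * ‖T.ι (x i)‖ ^ 2 := by positivity
    have h4 : ‖ch ⟪θ i, s0⟫ - 1‖ ^ 2 * ‖T.ι (x i)‖ ^ 2 ≤ 4 * ‖T.ι (x i)‖ ^ 2 :=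
      mul_le_mul_of_nonneg_right hch hx
    by_cases hb : √n * (2 / δ) < ‖θ i - 0‖
    · rw [if_pos hb]
      have h7 : 0 ≤ (if θ i ∈ E then ‖T.ι (x i)‖ ^ 2 else 0) := by
        split_ifs
        · exact hx
        · exact le_rfl
      linarith
    · rw [if_neg hb]
      by_cases he : θ i ∈ E
      · rw [if_pos he]
        linarith
      · rw [if_neg he]
        have h5 : ‖ch ⟪θ i, s0⟫ - 1‖ ^ 2 < ε / 2 := by
          by_contra hcon
          apply he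
          refine ⟨?_, not_lt.1 hcon⟩
          rw [Metric.mem_closedBall, dist_eq_norm]
          exact not_lt.1 hb
        have h6 : ‖ch ⟪θ i, s0⟫ - 1‖ ^ 2 * ‖T.ι (x i)‖ ^ 2 ≤ ε / 2 * ‖T.ι (x i)‖ ^ 2 :=
          mul_le_mul_of_nonneg_right h5.le hx
        linarith
  have hsum := Finset.sum_le_sum fun i (_ : i ∈ Finset.univ) => hpt i
  rw [Finset.sum_add_distrib, Finset.sum_add_distrib, ← Finset.mul_sum, ← Finset.mul_sum,
    ← Finset.mul_sum] at hsum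
  have hlast : ε / 2 * ∑ i, ‖T.ι (x i)‖ ^ 2 ≤ ε / 2 := by
    have h2 : T.ms x = ∑ i, ‖T.ι (x i)‖ ^ 2 := rfl
    calc ε / 2 * ∑ i, ‖T.ι (x i)‖ ^ 2 ≤ ε / 2 * 1 :=
          mul_le_mul_of_nonneg_left (h2 ▸ hms) (by positivity)
      _ = ε / 2 := mul_one _
  have hs0D := hmem s0 (le_max_right _ _)
  have g1 := hlab.ne _ hs0D
  have g2 := perV_disp_le S (p := R.p) x θ (R.s s0) 1
  have g3 := (hcmp _ hs0D 1 norm_one).2
  have g5 : ∑ i, ‖pch R.p (θ i) (R.s s0) - 1‖ ^ 2 * ‖T.ι (x i)‖ ^ 2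
      = ∑ i, ‖ch ⟪θ i, s0⟫ - 1‖ ^ 2 * ‖T.ι (x i)‖ ^ 2 := by
    refine Finset.sum_congr rfl fun i _ => ?_
    rw [pch, R.ps]
  have g4 : ∑ j, ‖T.ι (S.α (R.s s0) (y j) - (1 : ℂ) • y j)‖ ^ 2
      = ∑ j, ‖T.ι (S.α (R.s s0) (y j) - y j)‖ ^ 2 := by
    simp
  rw [g4] at g3
  rw [g5] at g2
  have hfin : (n : ℝ) * (4 * min κ1 (ε / 10) + 4 * ε) ≤ n * (44 / 10 * ε) :=
    mul_le_mul_of_nonneg_left (by linarith) hn0
  have hnε : 0 ≤ (n : ℝ) * ε := by positivity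
  nlinarith [hnε, hfin, hfar, hsum, hlast, hbad1, g1, g2, g3]

end

end Pool.Agent.AbCoc
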