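import Pool.Agent.Lib_MP_418a80_t4.CoreV
import Pool.Agent.Lib_MP_418a80_t4.EigV
import Pool.Agent.Lib_MP_418a80_t4.PerV
import Pool.Agent.Lib_MP_418a80_t4.AnnV
import Pool.Agent.Lib_MP_418a80_t3.Wt

/-!
# MP_418a80_an, T4 (abelian step): the types
-/

set_option autoImplicit false
set_option linter.unusedVariables false
set_option linter.unusedSectionVars false

open Topology Filter MeasureTheory
open scoped RealInnerProductSpace ComplexConjugate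

namespace Pool.Agent.AbCoc

universe u v w z

section
variable {A : Type u} [CStarAlgebra A] {K : Type v} [NormedAddCommGroup K]
  [InnerProductSpace ℂ K] [CompleteSpace K]
variable {G : Type w} [Group G] [TopologicalSpace G] [IsTopologicalGroup G] {T : TrAlg A K}
  (S : TrAct G T)

/-- the abelian step, for `ℝⁿ`: the label `q` is available in all corners if `ρ s - 1` is injective
for all `s` with `ch ⟪q, s⟫ ≠ 1` -/
theorem TrAct.labA_wtE {n : ℕ} (R : VSec G (EuclideanSpace ℝ (Fin n))) {U : Type}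
    [NormedAddCommGroup U] [NormedSpace ℝ U] [FiniteDimensional ℝ U] (W : WtV R U)
    (χ : U →L[ℝ] ℝ) (hχ : χ ≠ 0) (q : EuclideanSpace ℝ (Fin n))
    (hq : ∀ s, ch ⟪q, s⟫ ≠ 1 → ∀ l, W.ρ s l = l → l = 0)
    (hE : ∀ b : A, S.IsPrj b → b ≠ 0 → ∃ c : ℝ, 0 < c ∧ ∀ (r : ℝ) (D : Set G), IsCompact D →
      ∀ κ : ℝ, 0 < κ → ∃ e : A, b * e = e ∧ e * b = e ∧ ‖e‖ ≤ 1 ∧ c ≤ ‖T.ι e‖ ^ 2 ∧
        ∀ h ∈ D, R.p h = 0 → ‖T.ι (S.α h e - ch (r * χ (W.ξ h)) • e)‖ ≤ κ)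
    (ρ : ℝ) (hρ : 0 < ρ) (b : A) (hb : S.IsPrj b) (h0 : b ≠ 0) :
    S.LabA (pch R.p) (Metric.ball q ρ) b := by
  by_contra hn
  obtain ⟨Bk, hBk, hbase⟩ := exists_base (EuclideanSpace ℝ (Fin n))
  obtain ⟨bs, hdec, hbs0⟩ := S.exists_dec (pch R.p) Bk b hb h0
  have hno : ∀ n, ¬ S.LabA (pch R.p) (Metric.ball q ρ) (bs n) := by
    intro n h1
    refine hn (h1.of_le hb.star_eq (hdec.prj n).star_eq ?_)
    rw [← hbs0]
    exact hdec.le_of_le (Nat.zero_le n)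
  obtain ⟨H, hH⟩ := TrAct.Dec.exists_subgroup S hdec hBk hbase fun B1 B2 b' hb' =>
    S.hlabA_add B1 B2 b' hb'
  have hcl : IsClosed (H : Set (EuclideanSpace ℝ (Fin n))) := by
    rw [hH]
    exact TrAct.Dec.isClosed_SF S hdec hBk
  have hqH : q ∉ H := by
    intro h1
    rw [← SetLike.mem_coe, hH, TrAct.Dec.mem_SF_iff S hdec hBk hbase] at h1
    obtain ⟨n, h2⟩ := h1 ρ hρ
    exact hno n (h2.labA (hdec.prj n) (hdec.ne n))
  obtain ⟨s0, hs0, hqs0⟩ := exists_ann H hcl q hqH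
  have hn0 : (0 : ℝ) < n + 1 := by positivity
  have hq' : ∀ v, χ.comp (W.ρ v) = χ → ch ⟪q, v⟫ = 1 := by
    intro v hv
    by_contra hne
    apply hχ
    obtain ⟨F, hF⟩ : ∃ F : U →ₗ[ℝ] U, ∀ l, F l = W.ρ v l - l :=
      ⟨(W.ρ v : U →ₗ[ℝ] U) - LinearMap.id, fun _ => rfl⟩
    have hinj : Function.Injective F := by
      rw [← LinearMap.ker_eq_bot, LinearMap.ker_eq_bot']
      intro l hl
      refine hq v hne l ?_
      rw [hF, sub_eq_zero] at hl
      exact hl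
    have hsurj := LinearMap.surjective_of_injective hinj
    ext l
    obtain ⟨m, hm⟩ := hsurj l
    have h1 : W.ρ v m - m = l := (hF m).symm.trans hm
    have h2 : χ (W.ρ v m) = χ m := by
      have := congrArg (fun f : U →L[ℝ] ℝ => f m) hv
      exact this
    rw [← h1, map_sub, h2, sub_self]
    rfl
  obtain ⟨ε, δ, hε, hδ, hcore⟩ := S.types_of_perV R W χ q hq' s0 (fun l hl => hq s0 hqs0 l hl)
    (2 * (√n + 1) / ρ) (1 / (16 * (n + 1))) (1000 * (n + 1)) (by positivity) (by positivity)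
    (by positivity)
  obtain ⟨n0, hn1⟩ := TrAct.Dec.perV_of_dec S R hdec hBk s0
    (fun x hx => hs0 x (by rw [← SetLike.mem_coe, hH]; exact hx)) ε δ hε hδ
  refine hno n0 (S.labA_of_precV R (bs n0) (hdec.prj n0).fix q ρ hρ ?_)
  obtain ⟨C, c, hc, hfam⟩ := hcore (bs n0) (hdec.prj n0) (hn1 n0 le_rfl)
    (S.exists_neltV R W χ (bs n0) (hdec.prj n0) (hE (bs n0) (hdec.prj n0) (hdec.ne n0)))
  refine ⟨C, c, hc, fun D hD κ hκ => ?_⟩
  obtain ⟨J, hJ, y, h1, h2, h3, h4, h5, h6⟩ := hfam D hD κ hκ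
  refine ⟨J, hJ, y, h1, h2, h3, h4, h5, fun v hv => (h6 v hv).trans (le_of_eq ?_)⟩
  ring

variable {V : Type z} [NormedAddCommGroup V] [InnerProductSpace ℝ V] [FiniteDimensional ℝ V]

/-- the abelian step -/
theorem TrAct.labA_wtV (R : VSec G V) {U : Type} [NormedAddCommGroup U] [NormedSpace ℝ U]
    [FiniteDimensional ℝ U] (W : WtV R U) (χ : U →L[ℝ] ℝ) (hχ : χ ≠ 0) (q : V)
    (hq : ∀ s, ch ⟪q, s⟫ ≠ 1 → ∀ l, W.ρ s l = l → l = 0)
    (hE : ∀ b : A, S.IsPrj b → b ≠ 0 → ∃ c : ℝ, 0 < c ∧ ∀ (r : ℝ) (D : Set G), IsCompact D →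
      ∀ κ : ℝ, 0 < κ → ∃ e : A, b * e = e ∧ e * b = e ∧ ‖e‖ ≤ 1 ∧ c ≤ ‖T.ι e‖ ^ 2 ∧
        ∀ h ∈ D, R.p h = 0 → ‖T.ι (S.α h e - ch (r * χ (W.ξ h)) • e)‖ ≤ κ)
    (ρ : ℝ) (hρ : 0 < ρ) (b : A) (hb : S.IsPrj b) (h0 : b ≠ 0) :
    S.LabA (pch R.p) (Metric.ball q ρ) b := by
  classical
  obtain ⟨n, hn⟩ : ∃ n : ℕ, n = Module.finrank ℝ V := ⟨_, rfl⟩
  subst hn
  obtain ⟨L, -⟩ : ∃ L : V ≃ₗᵢ[ℝ] EuclideanSpace ℝ (Fin (Module.finrank ℝ V)), True :=
    ⟨(stdOrthonormalBasis ℝ V).repr, trivial⟩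
  have hL0 : ∀ v : V, L v = 0 ↔ v = 0 := fun v => L.toLinearEquiv.map_eq_zero_iff
  let R' : VSec G (EuclideanSpace ℝ (Fin (Module.finrank ℝ V))) :=
    { p := fun g => L (R.p g)
      hp := L.continuous.comp R.hp
      pmul := fun g h => by rw [R.pmul, map_add]
      s := fun v => R.s (L.symm v)
      hs := R.hs.comp L.symm.continuous
      s0 := by rw [map_zero, R.s0]
      ps := fun v => by rw [R.ps, LinearIsometryEquiv.apply_symm_apply] }
  let W' : WtV R' U :=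
    { ξ := W.ξ
      hξ := W.hξ
      ξ_mul := fun g h hg hh => W.ξ_mul g h ((hL0 _).1 hg) ((hL0 _).1 hh)
      ξ_surj := fun l => by
        obtain ⟨g, hg, hgl⟩ := W.ξ_surj l
        exact ⟨g, (hL0 _).2 hg, hgl⟩
      ρ := fun v => W.ρ (L.symm v)
      hρ := W.hρ.comp L.symm.continuous
      ρ_add := fun s t => by rw [map_add, W.ρ_add]
      ρ_zero := by rw [map_zero, W.ρ_zero]
      ξ_conj := fun v h hh => W.ξ_conj _ h ((hL0 _).1 hh) }
  have hin : ∀ (x : EuclideanSpace ℝ (Fin (Module.finrank ℝ V))) (v : V),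
      ⟪L.symm x, v⟫ = ⟪x, L v⟫ := by
    intro x v
    have h1 := L.inner_map_map (L.symm x) v
    rw [LinearIsometryEquiv.apply_symm_apply] at h1
    exact h1.symm
  have key : S.LabA (pch R'.p) (Metric.ball (L q) ρ) b := by
    refine S.labA_wtE R' W' χ hχ (L q) ?_ ?_ ρ hρ b hb h0
    · intro s hs l hl
      refine hq (L.symm s) ?_ l hl
      intro h1
      apply hs
      have h2 := L.inner_map_map q (L.symm s)
      rw [LinearIsometryEquiv.apply_symm_apply] at h2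
      rw [h2]
      exact h1
    · intro b' hb' h0'
      obtain ⟨c, hc, h1⟩ := hE b' hb' h0'
      refine ⟨c, hc, fun r D hD κ hκ => ?_⟩
      obtain ⟨e, h2, h3, h4, h5, h6⟩ := h1 r D hD κ hκ
      exact ⟨e, h2, h3, h4, h5, fun h hh hp => h6 h hh ((hL0 _).1 hp)⟩
  obtain ⟨C, c, hc, hfam⟩ := key
  refine ⟨C, c, hc, fun D hD κ hκ => ?_⟩
  obtain ⟨J, hJ, y, r, hy, hm⟩ := hfam D hD κ hκ
  refine ⟨J, hJ, y, fun j => L.symm (r j), ⟨hy.lft, hy.rgt, fun j => ?_, hy.dm, fun g hg => ?_⟩, hm⟩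
  · have h1 := hy.lab j
    rw [Metric.mem_ball] at h1 ⊢
    rw [← L.symm.dist_map, LinearIsometryEquiv.symm_apply_apply] at h1
    exact h1
  · have h1 := hy.ne g hg
    have h2 : ∀ j, pch R.p (L.symm (r j)) g = pch R'.p (r j) g := fun j => by
      unfold pch
      rw [hin]
    simp only [h2]
    exact h1

/-- the labels which are available in all corners form a closed subgroup -/
theorem TrAct.labA_ann (p : G → V) (hp : Continuous p) (hpm : ∀ g h, p (g * h) = p g + p h)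
    (Q : Set V) (hQ : ∀ q ∈ Q, ∀ ρ : ℝ, 0 < ρ → ∀ b : A, S.IsPrj b → b ≠ 0 →
      S.LabA (pch p) (Metric.ball q ρ) b) (q1 : V)
    (h : ∀ s : V, (∀ q ∈ Q, ch ⟪q, s⟫ = 1) → ch ⟪q1, s⟫ = 1) (ρ : ℝ) (hρ : 0 < ρ) (b : A)
    (hb : S.IsPrj b) (h0 : b ≠ 0) : S.LabA (pch p) (Metric.ball q1 ρ) b := by
  obtain ⟨H, hH⟩ : ∃ H : AddSubgroup V, ∀ q, q ∈ H ↔ ∀ ρ : ℝ, 0 < ρ →
      S.HLabA (pch p) (Metric.ball q ρ) (1 : A) := by
    refine ⟨{ carrier := {q | ∀ ρ : ℝ, 0 < ρ → S.HLabA (pch p) (Metric.ball q ρ) (1 : A)},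
              add_mem' := ?_, zero_mem' := ?_, neg_mem' := ?_ }, fun _ => Iff.rfl⟩
    · intro q1 q2 h1 h2 ρ hρ
      have h3 := h1 (ρ / 2) (by positivity)
      have h4 := h2 (ρ / 2) (by positivity)
      refine (S.hlabA_add _ _ _ ⟨fun g => map_one _, star_one _, one_mul _⟩ h3 h4).mono ?_
      rintro q ⟨x1, hx1, x2, hx2, rfl⟩
      rw [Metric.mem_ball, dist_eq_norm] at hx1 hx2 ⊢
      calc ‖x1 + x2 - (q1 + q2)‖ = ‖(x1 - q1) + (x2 - q2)‖ := by
            congr 1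
            abel
        _ ≤ ‖x1 - q1‖ + ‖x2 - q2‖ := norm_add_le _ _
        _ < ρ := by linarith
    · intro ρ hρ
      exact hlabA_zero (Metric.mem_ball_self hρ)
    · intro q hq ρ hρ
      refine (hq ρ hρ).neg.mono ?_
      intro x hx
      have hx' : -x ∈ Metric.ball q ρ := hx
      rw [Metric.mem_ball, dist_eq_norm] at hx' ⊢
      have h5 : x - -q = -(-x - q) := by abel
      rw [h5, norm_neg]
      exact hx'
  have hcl : IsClosed (H : Set V) := by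
    rw [← isOpen_compl_iff, Metric.isOpen_iff]
    intro q hq
    rw [Set.mem_compl_iff, SetLike.mem_coe, hH] at hq
    push Not at hq
    obtain ⟨ρ, hρ, hn⟩ := hq
    refine ⟨ρ / 2, by positivity, fun x hx hxH => ?_⟩
    rw [SetLike.mem_coe, hH] at hxH
    refine hn ((hxH (ρ / 2) (by positivity)).mono ?_)
    intro y hy
    rw [Metric.mem_ball] at hx hy ⊢
    calc dist y q ≤ dist y x + dist x q := dist_triangle _ _ _
      _ < ρ := by linarith
  have hq1 : q1 ∈ H := by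
    by_contra hn
    obtain ⟨s0, hs0, hqs0⟩ := exists_ann H hcl q1 hn
    refine hqs0 (h s0 fun q hq => hs0 q ?_)
    rw [hH]
    intro ρ hρ b' hb' h0' _
    exact hQ q hq ρ hρ b' hb' h0'
  exact (hH q1).1 hq1 ρ hρ b hb h0 (one_mul b)

end

end Pool.Agent.AbCoc
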