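import Pool.Agent.Lib_MP_418a80_t4.PkV
import Pool.Agent.Lib_MP_418a80_t4.AmpV

/-!
# MP_418a80_an, T4 (abelian step): translations of packets
-/

set_option autoImplicit false
set_option linter.unusedVariables false
set_option linter.unusedSectionVars false

open Topology Filter MeasureTheory
open scoped RealInnerProductSpace ComplexConjugate

namespace Pool.Agent.AbCoc

universe u v w z

section
variable {A : Type u} [CStarAlgebra A] {K : Type v} [NormedAddCommGroup K]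
  [InnerProductSpace ℂ K] [CompleteSpace K]
variable {G : Type w} [Group G] [TopologicalSpace G] {T : TrAlg A K} (S : TrAct G T)

/-- regularity of the translates of one element -/
theorem TrAct.regV {V : Type z} [NormedAddCommGroup V] [InnerProductSpace ℝ V]
    [FiniteDimensional ℝ V] (R : VSec G V) (e : A) (T1 η : ℝ) (hη : 0 < η) :
    ∃ a1 : ℝ, 0 < a1 ∧ ∀ v r : V, ‖v‖ ≤ T1 → ‖r‖ ≤ a1 →
      ‖T.ι (S.α (R.s (v + r)) e - S.α (R.s v) e)‖ ≤ η := by
  have hc : Continuous (fun v : V => T.ι (S.α (R.s v) e)) := (S.cont e).comp R.hs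
  have hK : IsCompact (Metric.closedBall (0 : V) (T1 + 1)) := isCompact_closedBall 0 (T1 + 1)
  have hu := hK.uniformContinuousOn_of_continuous hc.continuousOn
  rw [Metric.uniformContinuousOn_iff_le] at hu
  obtain ⟨δ, hδ, h⟩ := hu η hη
  refine ⟨min δ 1, lt_min hδ one_pos, fun v r hv hr => ?_⟩
  have hr1 : ‖r‖ ≤ δ := hr.trans (min_le_left _ _)
  have hr2 : ‖r‖ ≤ 1 := hr.trans (min_le_right _ _)
  have h1 := h (v + r) (by
    rw [Metric.mem_closedBall, dist_zero_right]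
    exact (norm_add_le v r).trans (by linarith)) v (by
    rw [Metric.mem_closedBall, dist_zero_right]
    linarith) (by
    rw [dist_eq_norm, add_sub_cancel_left]
    exact hr1)
  rw [dist_eq_norm, ← map_sub] at h1
  exact h1

variable {n : ℕ} (R : VSec G (EuclideanSpace ℝ (Fin n)))

private theorem MoveV_xg_norm (a : ℝ) {e : A} (he : ‖T.ι e‖ ≤ 1) (j : Fin n → ℤ) :
    ‖T.ι (S.xg R a e j)‖ ≤ 1 := by
  unfold TrAct.xg
  rw [S.norm_map]
  exact he

private theorem MoveV_M_pos (n : ℕ) : 0 < √(4 * 13 ^ n : ℝ) := Real.sqrt_pos.2 (by positivity)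

private theorem MoveV_M_sq (n : ℕ) : √(4 * 13 ^ n : ℝ) ^ 2 = 4 * 13 ^ n :=
  Real.sq_sqrt (by positivity)

/-- **Translation of packets.** If `g` acts on the translates of `e` as the translation by `p g` and
the multiplication by `ψ`, then it acts so on the packets (up to phases of the indices `c`). -/
theorem TrAct.move (T0 : ℝ) (hT0 : 0 < T0) (F ψ : EuclideanSpace ℝ (Fin n) → ℂ)
    (hF : CF (2 * T0) F) (hψc : Continuous ψ) (hψ : ∀ v, ‖ψ v‖ = 1) (ε : ℝ) (hε : 0 < ε) :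
    ∃ κ : ℝ, 0 < κ ∧ ∀ e : A, ‖T.ι e‖ ≤ 1 → ∃ a0 : ℝ, 0 < a0 ∧ a0 ≤ T0 ∧ ∀ a : ℝ, 0 < a →
      a ≤ a0 → ∀ g : G, sn (R.p g) ≤ T0 →
      (∀ v, sn v ≤ 2 * T0 →
        ‖T.ι (S.α g (S.α (R.s v) e) - ψ v • S.α (R.s (v + R.p g)) e)‖ ≤ κ) →
      ∀ E : Chs (Fin n → ℤ) (gbox n (gN (a / T0))),
        ∑ c, ‖T.ι (S.α g (S.pf R E e F c) - conj (E.χ c (rd a (R.p g)))
          • S.pf R E e (fun v => ψ (v - R.p g) * F (v - R.p g)) c)‖ ^ 2 ≤ ε ^ 2 := by
  set M : ℝ := √(4 * 13 ^ n : ℝ) with hM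
  have hMp : 0 < M := MoveV_M_pos n
  have hM2 : M ^ 2 = 4 * 13 ^ n := MoveV_M_sq n
  set κ : ℝ := ε / (3 * M) with hκ
  have hκp : 0 < κ := by positivity
  refine ⟨κ, hκp, fun e he => ?_⟩
  obtain ⟨a1, ha1, hreg⟩ := S.regV R e (√n * (3 * T0)) κ hκp
  have hψF : CF (2 * T0) (fun v => ψ v * F v) := hF.mul hψc hψ
  obtain ⟨δ, hδ, hunif⟩ := hψF.unif hκp
  have hsn : (0 : ℝ) ≤ √n := Real.sqrt_nonneg _
  refine ⟨min T0 (min (a1 / (√n + 1)) (δ / (√n + 1))), lt_min hT0 (lt_min (by positivity) (by positivity)),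
    min_le_left _ _, fun a ha haa g hg H E => ?_⟩
  have haT : a ≤ T0 := haa.trans (min_le_left _ _)
  have haa1 : √n * a ≤ a1 := by
    have h1 : a ≤ a1 / (√n + 1) := haa.trans ((min_le_right _ _).trans (min_le_left _ _))
    rw [le_div_iff₀ (by positivity)] at h1
    nlinarith
  have haδ : √n * a ≤ δ := by
    have h1 : a ≤ δ / (√n + 1) := haa.trans ((min_le_right _ _).trans (min_le_right _ _))
    rw [le_div_iff₀ (by positivity)] at h1
    nlinarith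
  set m := rd a (R.p g) with hm
  set w := a • gv m with hw
  have hrd : ‖R.p g - w‖ ≤ √n * a := rd_dist ha (R.p g)
  have hsnw : sn w ≤ T0 := (rd_sn ha (R.p g)).trans hg
  -- the pointwise estimate
  have hsupp : ∀ j, gf a T0 F j ≠ 0 → sn (a • gv j) ≤ 2 * T0 := fun j hj => gf_ne_zero hF hj
  have hjm : ∀ j : Fin n → ℤ, a • gv (j + m) = a • gv j + w := fun j => by
    rw [gv_add, smul_add]
  have h1 : ∀ j, gf a T0 F j ≠ 0 → j ∈ gbox n (gN (a / T0)) ∧ j + m ∈ gbox n (gN (a / T0)) := by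
    intro j hj
    have h2 := hsupp j hj
    refine ⟨mem_box ha hT0 (by linarith), mem_box ha hT0 ?_⟩
    rw [hjm]
    exact (sn_add_le _ _).trans (by linarith)
  have h3 : ∀ j ∈ gbox n (gN (a / T0)), gf a T0 F j ≠ 0 →
      ‖T.ι (S.α g (S.xg R a e j) - ψ (a • gv j) • S.xg R a e (j + m))‖ ≤ κ + κ := by
    intro j _ hj
    have h2 := hsupp j hj
    have h4 := H (a • gv j) h2
    have h5 : ‖T.ι (S.α (R.s ((a • gv j + w) + (R.p g - w))) e - S.α (R.s (a • gv j + w)) e)‖ ≤ κ := by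
      refine hreg (a • gv j + w) (R.p g - w) ?_ (hrd.trans haa1)
      refine (norm_le_sn _).trans (mul_le_mul_of_nonneg_left ?_ hsn)
      exact (sn_add_le _ _).trans (by linarith)
    have h6 : (a • gv j + w) + (R.p g - w) = a • gv j + R.p g := by abel
    rw [h6] at h5
    unfold TrAct.xg
    rw [hjm]
    have h7 : S.α g (S.α (R.s (a • gv j)) e) - ψ (a • gv j) • S.α (R.s (a • gv j + w)) e =
        (S.α g (S.α (R.s (a • gv j)) e) - ψ (a • gv j) • S.α (R.s (a • gv j + R.p g)) e) +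
        ψ (a • gv j) • (S.α (R.s (a • gv j + R.p g)) e - S.α (R.s (a • gv j + w)) e) := by
      rw [smul_sub]; abel
    rw [h7, map_add, map_smul]
    refine (norm_add_le _ _).trans (add_le_add h4 ?_)
    rw [norm_smul, hψ, one_mul]
    exact h5
  have h8 := S.act_pkx E (S.xg R a e) g m (gf a T0 F) (fun j => ψ (a • gv j)) h1 h3
  set G1 : EuclideanSpace ℝ (Fin n) → ℂ := fun v => ψ (v - w) * F (v - w) with hG1
  set G2 : EuclideanSpace ℝ (Fin n) → ℂ := fun v => ψ (v - R.p g) * F (v - R.p g) with hG2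
  have h9 : (fun j => ψ (a • gv (j - m)) * gf a T0 F (j - m)) = gf a T0 G1 := by
    funext j
    rw [gf_shift]
    have h10 : a • gv (j - m) = a • gv j - w := by
      have := hjm (j - m)
      rw [sub_add_cancel] at this
      rw [this]; abel
    unfold gf
    rw [hG1, h10]
    ring
  rw [h9] at h8
  have h11 : ∑ j ∈ gbox n (gN (a / T0)), ‖gf a T0 F j‖ ^ 2 ≤ M ^ 2 := by
    rw [hM2]; exact gf_sq ha haT hF.bd
  have hA : ∑ c, ‖T.ι (S.α g (S.pf R E e F c) - conj (E.χ c m) • pkx E (S.xg R a e) (gf a T0 G1) c)‖ ^ 2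
      ≤ ((κ + κ) * M) ^ 2 := by
    refine h8.trans ?_
    rw [mul_pow]
    exact mul_le_mul_of_nonneg_left h11 (sq_nonneg _)
  have hGG : ∀ v, ‖G1 v - G2 v‖ ≤ κ := by
    intro v
    refine hunif (v - w) (v - R.p g) ?_
    have h12 : v - w - (v - R.p g) = R.p g - w := by abel
    rw [h12]
    exact hrd.trans haδ
  have hB : ∑ c, ‖T.ι (conj (E.χ c m) • (pkx E (S.xg R a e) (gf a T0 G1) c - pkx E (S.xg R a e) (gf a T0 G2) c))‖ ^ 2
      ≤ (κ * M) ^ 2 := by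
    have h13 : ∀ c, ‖T.ι (conj (E.χ c m) • (pkx E (S.xg R a e) (gf a T0 G1) c - pkx E (S.xg R a e) (gf a T0 G2) c))‖ ^ 2
        = ‖T.ι (pkx E (S.xg R a e) (fun j => gf a T0 G1 j - gf a T0 G2 j) c)‖ ^ 2 := by
      intro c
      rw [map_smul, norm_smul, RCLike.norm_conj, E.unit, one_mul, pkx_sub]
    rw [Finset.sum_congr rfl fun c _ => h13 c]
    refine (pkx_norm_le E (S.xg R a e) T (MoveV_xg_norm S R a he) _).trans ?_
    refine (gf_sub_sq ha haT hGG).trans ?_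
    rw [mul_pow, hM2]
    linarith
  have hAB : ∀ c, S.α g (S.pf R E e F c) - conj (E.χ c m) • S.pf R E e G2 c =
      (S.α g (S.pf R E e F c) - conj (E.χ c m) • pkx E (S.xg R a e) (gf a T0 G1) c) +
      conj (E.χ c m) • (pkx E (S.xg R a e) (gf a T0 G1) c - pkx E (S.xg R a e) (gf a T0 G2) c) := by
    intro c
    rw [smul_sub]
    unfold TrAct.pf
    abel
  have h14 := T.sqrt_sum_add_le
    (fun c => S.α g (S.pf R E e F c) - conj (E.χ c m) • pkx E (S.xg R a e) (gf a T0 G1) c)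
    (fun c => conj (E.χ c m) • (pkx E (S.xg R a e) (gf a T0 G1) c - pkx E (S.xg R a e) (gf a T0 G2) c))
  have h15 := Real.sqrt_le_sqrt hA
  have h16 := Real.sqrt_le_sqrt hB
  rw [Real.sqrt_sq (by positivity)] at h15 h16
  have h17 : √(∑ c, ‖T.ι (S.α g (S.pf R E e F c) - conj (E.χ c m) • S.pf R E e G2 c)‖ ^ 2) ≤ ε := by
    simp only [hAB]
    refine h14.trans ((add_le_add h15 h16).trans ?_)
    rw [hκ]
    have : (ε / (3 * M) + ε / (3 * M)) * M + ε / (3 * M) * M = ε := by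
      field_simp
      ring
    rw [this]
  have h18 := Real.sqrt_le_left (x := 0) (y := 0) (le_refl 0)
  exact (Real.sqrt_le_iff.1 h17).2

/-- the Gram elements -/
theorem TrAct.move_gr (T0 : ℝ) (hT0 : 0 < T0) (F ψ : EuclideanSpace ℝ (Fin n) → ℂ)
    (hF : CF (2 * T0) F) (hψc : Continuous ψ) (hψ : ∀ v, ‖ψ v‖ = 1) (ε : ℝ) (hε : 0 < ε) :
    ∃ κ : ℝ, 0 < κ ∧ ∀ e : A, ‖T.ι e‖ ≤ 1 → ∃ a0 : ℝ, 0 < a0 ∧ a0 ≤ T0 ∧ ∀ a : ℝ, 0 < a →
      a ≤ a0 → ∀ g : G, sn (R.p g) ≤ T0 →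
      (∀ v, sn v ≤ 2 * T0 →
        ‖T.ι (S.α g (S.α (R.s v) e) - ψ v • S.α (R.s (v + R.p g)) e)‖ ≤ κ) →
      ∀ E : Chs (Fin n → ℤ) (gbox n (gN (a / T0))),
        ∑ c, T.n1 (S.α g (S.grf R E e F c)
          - S.grf R E e (fun v => ψ (v - R.p g) * F (v - R.p g)) c) ≤ ε := by
  set M : ℝ := √(4 * 13 ^ n : ℝ) with hM
  have hMp : 0 < M := MoveV_M_pos n
  have hM2 : M ^ 2 = 4 * 13 ^ n := MoveV_M_sq n
  obtain ⟨κ, hκ, h⟩ := S.move R T0 hT0 F ψ hF hψc hψ (ε / (2 * M)) (by positivity)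
  refine ⟨κ, hκ, fun e he => ?_⟩
  obtain ⟨a0, ha0, ha0T, h⟩ := h e he
  refine ⟨a0, ha0, ha0T, fun a ha haa g hg H E => ?_⟩
  have haT : a ≤ T0 := haa.trans ha0T
  have h1 := h a ha haa g hg H E
  have h2 : ∑ j ∈ gbox n (gN (a / T0)), ‖gf a T0 F j‖ ^ 2 ≤ M ^ 2 := by
    rw [hM2]; exact gf_sq ha haT hF.bd
  have h3 : ∑ j ∈ gbox n (gN (a / T0)),
      ‖gf a T0 (fun v => ψ (v - R.p g) * F (v - R.p g)) j‖ ^ 2 ≤ M ^ 2 := by
    rw [hM2]
    refine gf_sq ha haT fun v => ?_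
    rw [norm_mul, hψ, one_mul]
    exact hF.bd _
  have h4 := S.sum_n1_act_grx E (S.xg R a e) (MoveV_xg_norm S R a he) g h2 h3 hMp.le
    (fun c => conj (E.χ c (rd a (R.p g)))) (fun c => by rw [RCLike.norm_conj, E.unit])
    (δ := ε / (2 * M)) (by positivity) h1
  refine h4.trans (le_of_eq ?_)
  field_simp

/-- Gram elements of two amplitudes which are uniformly close -/
theorem TrAct.sum_n1_grf_sub {a T0 : ℝ} (ha : 0 < a) (haT : a ≤ T0)
    (E : Chs (Fin n → ℤ) (gbox n (gN (a / T0)))) {e : A} (he : ‖T.ι e‖ ≤ 1)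
    {F F' : EuclideanSpace ℝ (Fin n) → ℂ} (hF : ∀ v, ‖F v‖ ≤ 1) (hF' : ∀ v, ‖F' v‖ ≤ 1) {ω : ℝ}
    (h : ∀ v, ‖F v - F' v‖ ≤ ω) :
    ∑ c, T.n1 (S.grf R E e F c - S.grf R E e F' c) ≤ 8 * 13 ^ n * ω := by
  set M : ℝ := √(4 * 13 ^ n : ℝ) with hM
  have hMp : 0 < M := MoveV_M_pos n
  have hM2 : M ^ 2 = 4 * 13 ^ n := MoveV_M_sq n
  have hω : 0 ≤ ω := (norm_nonneg _).trans (h 0)
  have h1 := sum_n1_grx_sub E (S.xg R a e) T (MoveV_xg_norm S R a he) (gf a T0 F) (gf a T0 F')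
  have h2 : √(∑ j ∈ gbox n (gN (a / T0)), ‖gf a T0 F j - gf a T0 F' j‖ ^ 2) ≤ M * ω := by
    rw [← Real.sqrt_sq (show 0 ≤ M * ω by positivity)]
    refine Real.sqrt_le_sqrt ?_
    rw [mul_pow, hM2]
    exact gf_sub_sq ha haT h
  have h3 : √(∑ j ∈ gbox n (gN (a / T0)), ‖gf a T0 F j + gf a T0 F' j‖ ^ 2) ≤ M * 2 := by
    rw [← Real.sqrt_sq (show 0 ≤ M * 2 by positivity)]
    refine Real.sqrt_le_sqrt ?_
    rw [mul_pow, hM2]
    have h4 : ∀ j, gf a T0 F j + gf a T0 F' j = gf a T0 F j - gf a T0 (fun v => -F' v) j := by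
      intro j
      unfold gf
      ring
    simp only [h4]
    refine gf_sub_sq ha haT fun v => ?_
    rw [sub_neg_eq_add]
    exact (norm_add_le _ _).trans (by linarith [hF v, hF' v])
  refine h1.trans ((mul_le_mul h2 h3 (Real.sqrt_nonneg _) (by positivity)).trans (le_of_eq ?_))
  have : M * ω * (M * 2) = M ^ 2 * (2 * ω) := by ring
  rw [this, hM2]
  ring

end

end Pool.Agent.AbCoc
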