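import Pool.Agent.Lib_MP_418a80_t3.HSG
import Pool.Agent.Lib_MP_418a80_t3.Inv1
import Pool.Agent.Lib_MP_418a80_t3.Type1

/-!
# MP_418a80_an, T4: packets of one element along arbitrary group elements `t j`, `j ∈ Λ`
-/

set_option autoImplicit false
set_option linter.unusedVariables false
set_option linter.unusedSectionVars false

open Topology Filter MeasureTheory
open scoped RealInnerProductSpace ComplexConjugate

namespace Pool.Agent.AbCoc

universe u v w z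

section
variable {A : Type u} [CStarAlgebra A] {K : Type v} [NormedAddCommGroup K]
  [InnerProductSpace ℂ K] [CompleteSpace K]
variable {G : Type w} [Group G] [TopologicalSpace G] {T : TrAlg A K} (S : TrAct G T)
  {Λ : Type} [AddCommGroup Λ] {F : Finset Λ} (E : Chs Λ F) (t : Λ → G)

/-- the packet of `e` with amplitude `f` along the elements `t j` -/
noncomputable def TrAct.pkt (e : A) (f : Λ → ℂ) (c : E.C) : A :=
  E.X (fun j => f j • S.α (t j) e) c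

/-- its Gram element -/
noncomputable def TrAct.grt (e : A) (f : Λ → ℂ) (c : E.C) : A :=
  star (S.pkt E t e f c) * S.pkt E t e f c

/-- the square root of the Gram element -/
noncomputable def TrAct.sqt (e : A) (f : Λ → ℂ) (c : E.C) : A :=
  csqrt (S.grt E t e f c)

/-- `g` moves `t j` to `t (j + m)` on `e`, up to `κ`, for `j` in the support of `f` -/
def TrAct.Tr (F : Finset Λ) (e : A) (g : G) (m : Λ) (κ : ℝ) (f : Λ → ℂ) : Prop :=
  ∀ j, f j ≠ 0 → j ∈ F ∧ j + m ∈ F ∧ ‖T.ι (S.α g (S.α (t j) e) - S.α (t (j + m)) e)‖ ≤ κ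

variable {e : A}

theorem TrAct.pkt_norm (f : Λ → ℂ) :
    ∑ c, ‖T.ι (S.pkt E t e f c)‖ ^ 2 = (∑ j ∈ F, ‖f j‖ ^ 2) * ‖T.ι e‖ ^ 2 := by
  unfold TrAct.pkt
  rw [E.sum_norm_sq T, Finset.sum_mul]
  refine Finset.sum_congr rfl fun j _ => ?_
  rw [T.norm_smul_sq, S.norm_map]

theorem TrAct.pkt_sub (f f' : Λ → ℂ) (c : E.C) :
    S.pkt E t e f c - S.pkt E t e f' c = S.pkt E t e (fun j => f j - f' j) c := by
  unfold TrAct.pkt
  rw [← E.X_sub]
  simp only [sub_smul]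

theorem TrAct.pkt_add (f f' : Λ → ℂ) (c : E.C) :
    S.pkt E t e f c + S.pkt E t e f' c = S.pkt E t e (fun j => f j + f' j) c := by
  unfold TrAct.pkt
  rw [← E.X_add]
  simp only [add_smul]

theorem TrAct.pkt_smul (x : ℂ) (f : Λ → ℂ) (c : E.C) :
    S.pkt E t e (fun j => x * f j) c = x • S.pkt E t e f c := by
  unfold TrAct.pkt
  rw [← E.X_smul]
  simp only [mul_smul]

theorem TrAct.pkt_congr {f f' : Λ → ℂ} (h : ∀ j ∈ F, f j = f' j) (c : E.C) :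
    S.pkt E t e f c = S.pkt E t e f' c := by
  unfold TrAct.pkt
  exact E.X_congr (fun j hj => by rw [h j hj]) c

theorem TrAct.pkt_dm (f : Λ → ℂ) : T.Dm ((∑ j ∈ F, ‖f j‖ ^ 2) * ‖e‖ ^ 2) (S.pkt E t e f) := by
  have hn : ∀ j : Λ, ‖S.α (t j) e‖ ≤ ‖e‖ := fun j => S.norm_le _ _
  constructor
  · intro z
    unfold TrAct.pkt
    rw [E.sum_norm_sq_mul T, Finset.sum_mul, Finset.sum_mul]
    refine Finset.sum_le_sum fun j _ => ?_
    rw [smul_mul_assoc, T.norm_smul_sq, mul_assoc]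
    refine mul_le_mul_of_nonneg_left ?_ (sq_nonneg _)
    rw [← mul_pow]
    refine pow_le_pow_left₀ (norm_nonneg _) ?_ 2
    exact (T.mul_le _ _).trans (mul_le_mul_of_nonneg_right (hn j) (norm_nonneg _))
  · intro z
    unfold TrAct.pkt
    rw [E.sum_norm_sq_mul' T, Finset.sum_mul, Finset.sum_mul]
    refine Finset.sum_le_sum fun j _ => ?_
    rw [mul_smul_comm, T.norm_smul_sq, mul_assoc]
    refine mul_le_mul_of_nonneg_left ?_ (sq_nonneg _)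
    rw [← mul_pow]
    refine pow_le_pow_left₀ (norm_nonneg _) ?_ 2
    refine (T.mul_le' _ _).trans ?_
    rw [mul_comm]
    exact mul_le_mul_of_nonneg_right (hn j) (norm_nonneg _)

theorem TrAct.mul_pkt {b : A} (hb : S.Fixed b) (hbe : b * e = e) (f : Λ → ℂ) (c : E.C) :
    b * S.pkt E t e f c = S.pkt E t e f c := by
  unfold TrAct.pkt
  rw [E.mul_X]
  refine E.X_congr (fun j hj => ?_) c
  have h : b * S.α (t j) e = S.α (t j) (b * e) := by rw [map_mul, hb]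
  rw [mul_smul_comm, h, hbe]

theorem TrAct.pkt_mul {b : A} (hb : S.Fixed b) (heb : e * b = e) (f : Λ → ℂ) (c : E.C) :
    S.pkt E t e f c * b = S.pkt E t e f c := by
  unfold TrAct.pkt
  rw [E.X_mul]
  refine E.X_congr (fun j hj => ?_) c
  have h : S.α (t j) e * b = S.α (t j) (e * b) := by rw [map_mul, hb]
  rw [smul_mul_assoc, h, heb]

/-- an automorphism which multiplies the translates of `e` by the phases `ψ` -/
theorem TrAct.act_pkt (h : G) (f ψ : Λ → ℂ) {κ : ℝ}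
    (H : ∀ j ∈ F, f j ≠ 0 → ‖T.ι (S.α h (S.α (t j) e) - ψ j • S.α (t j) e)‖ ≤ κ) :
    ∑ c, ‖T.ι (S.α h (S.pkt E t e f c) - S.pkt E t e (fun j => ψ j * f j) c)‖ ^ 2
      ≤ κ ^ 2 * ∑ j ∈ F, ‖f j‖ ^ 2 := by
  unfold TrAct.pkt
  simp only [E.map_X]
  rw [E.sum_norm_sq_sub T, Finset.mul_sum]
  refine Finset.sum_le_sum fun j hj => ?_
  have h1 : S.α h (f j • S.α (t j) e) - (ψ j * f j) • S.α (t j) e
      = f j • (S.α h (S.α (t j) e) - ψ j • S.α (t j) e) := by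
    rw [map_smul, smul_sub, smul_smul, mul_comm (ψ j)]
  rw [h1, T.norm_smul_sq]
  rcases eq_or_ne (f j) 0 with h0 | h0
  · rw [h0, norm_zero]
    nlinarith [sq_nonneg κ]
  · have h2 := pow_le_pow_left₀ (norm_nonneg _) (H j hj h0) 2
    nlinarith [sq_nonneg ‖f j‖]

/-- the translate of a packet is, up to phases, the packet of the shifted amplitude -/
theorem TrAct.trans_pkt {g : G} {m : Λ} {κ : ℝ} {f : Λ → ℂ} (H : S.Tr t F e g m κ f) :
    ∑ c, ‖T.ι (S.α g (S.pkt E t e f c)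
        - conj (E.χ c m) • S.pkt E t e (fun j => f (j - m)) c)‖ ^ 2
      ≤ κ ^ 2 * ∑ j ∈ F, ‖f j‖ ^ 2 := by
  have e1 : ∀ c, conj (E.χ c m) • S.pkt E t e (fun j => f (j - m)) c
      = E.X (fun j => f j • S.α (t (j + m)) e) c := by
    intro c
    unfold TrAct.pkt
    rw [← E.X_shift (fun j => f (j - m) • S.α (t j) e) m]
    · refine E.X_congr (fun j hj => ?_) c
      rw [add_sub_cancel_right]
    · intro j hj
      have h2 : f (j - m) ≠ 0 := fun h0 => hj (by rw [h0, zero_smul])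
      have := (H _ h2).2.1
      rwa [sub_add_cancel] at this
    · intro j hj
      have h2 : f (j - m) ≠ 0 := fun h0 => hj (by rw [h0, zero_smul])
      exact (H _ h2).1
  simp only [e1]
  unfold TrAct.pkt
  simp only [E.map_X]
  rw [E.sum_norm_sq_sub T, Finset.mul_sum]
  refine Finset.sum_le_sum fun j hj => ?_
  have h1 : S.α g (f j • S.α (t j) e) - f j • S.α (t (j + m)) e
      = f j • (S.α g (S.α (t j) e) - S.α (t (j + m)) e) := by
    rw [map_smul, smul_sub]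
  rw [h1, T.norm_smul_sq]
  rcases eq_or_ne (f j) 0 with h0 | h0
  · rw [h0, norm_zero]
    nlinarith [sq_nonneg κ]
  · have h2 := pow_le_pow_left₀ (norm_nonneg _) (H j h0).2.2 2
    nlinarith [sq_nonneg ‖f j‖]

/-- the sesquilinear bound -/
theorem TrAct.sum_n1_pkt (f f' : Λ → ℂ) :
    ∑ c, T.n1 (star (S.pkt E t e f c) * S.pkt E t e f' c)
      ≤ ‖T.ι e‖ ^ 2 * (√(∑ j ∈ F, ‖f j‖ ^ 2) * √(∑ j ∈ F, ‖f' j‖ ^ 2)) := by
  refine (T.sum_n1_star_mul_le _ _).trans (le_of_eq ?_)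
  simp only [S.pkt_norm]
  rw [Real.sqrt_mul (Finset.sum_nonneg fun _ _ => sq_nonneg _),
    Real.sqrt_mul (Finset.sum_nonneg fun _ _ => sq_nonneg _), Real.sqrt_sq (norm_nonneg _)]
  ring

theorem TrAct.act_grt (h : G) (f : Λ → ℂ) (c : E.C) :
    S.α h (S.grt E t e f c) = star (S.α h (S.pkt E t e f c)) * S.α h (S.pkt E t e f c) := by
  unfold TrAct.grt
  rw [map_mul, map_star]

theorem TrAct.sqrt_pkt_le (he : ‖T.ι e‖ ≤ 1) {f : Λ → ℂ} (hf : ∑ j ∈ F, ‖f j‖ ^ 2 ≤ 1) :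
    √(∑ c, ‖T.ι (S.pkt E t e f c)‖ ^ 2) ≤ 1 := by
  rw [Real.sqrt_le_one]
  rw [S.pkt_norm]
  have h1 : ‖T.ι e‖ ^ 2 ≤ 1 := pow_le_one₀ (norm_nonneg _) he
  have h0 : 0 ≤ ∑ j ∈ F, ‖f j‖ ^ 2 := Finset.sum_nonneg fun _ _ => sq_nonneg _
  nlinarith [sq_nonneg ‖T.ι e‖]

/-- comparison of the Gram elements through phases -/
theorem TrAct.sum_n1_act_grt (he : ‖T.ι e‖ ≤ 1) (h : G) {f f' : Λ → ℂ}
    (hf : ∑ j ∈ F, ‖f j‖ ^ 2 ≤ 1) (hf' : ∑ j ∈ F, ‖f' j‖ ^ 2 ≤ 1) (η : E.C → ℂ)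
    (hη : ∀ c, ‖η c‖ = 1) {δ : ℝ} (hδ : 0 ≤ δ)
    (h1 : ∑ c, ‖T.ι (S.α h (S.pkt E t e f c) - η c • S.pkt E t e f' c)‖ ^ 2 ≤ δ ^ 2) :
    ∑ c, T.n1 (S.α h (S.grt E t e f c) - S.grt E t e f' c) ≤ 2 * δ := by
  have e1 : ∀ c, S.α h (S.grt E t e f c) - S.grt E t e f' c
      = star (S.α h (S.pkt E t e f c)) * S.α h (S.pkt E t e f c)
        - star (η c • S.pkt E t e f' c) * (η c • S.pkt E t e f' c) := by
    intro c
    rw [S.act_grt, star_mul_self_phase (hη c)]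
    rfl
  simp only [e1]
  refine (T.sum_n1_sq_sub_le _ _).trans ?_
  have h2 : √(∑ c, ‖T.ι (S.α h (S.pkt E t e f c) - η c • S.pkt E t e f' c)‖ ^ 2) ≤ δ := by
    rw [← Real.sqrt_sq hδ]
    exact Real.sqrt_le_sqrt h1
  have h3 : √(∑ c, ‖T.ι (S.α h (S.pkt E t e f c) + η c • S.pkt E t e f' c)‖ ^ 2) ≤ 2 := by
    refine (T.sqrt_sum_add_le _ _).trans ?_
    have h4 : √(∑ c, ‖T.ι (S.α h (S.pkt E t e f c))‖ ^ 2) ≤ 1 := by
      simp only [S.norm_map]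
      exact S.sqrt_pkt_le E t he hf
    have h5 : √(∑ c, ‖T.ι (η c • S.pkt E t e f' c)‖ ^ 2) ≤ 1 := by
      simp only [T.norm_smul_sq, hη, one_pow, one_mul]
      exact S.sqrt_pkt_le E t he hf'
    linarith
  rw [mul_comm 2 δ]
  exact mul_le_mul h2 h3 (Real.sqrt_nonneg _) hδ

/-- translation of the Gram elements -/
theorem TrAct.trans_grt (he : ‖T.ι e‖ ≤ 1) {g : G} {m : Λ} {κ : ℝ} {f : Λ → ℂ} (hκ : 0 ≤ κ)
    (hf : ∑ j ∈ F, ‖f j‖ ^ 2 ≤ 1) (hf' : ∑ j ∈ F, ‖f (j - m)‖ ^ 2 ≤ 1)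
    (H : S.Tr t F e g m κ f) :
    ∑ c, T.n1 (S.α g (S.grt E t e f c) - S.grt E t e (fun j => f (j - m)) c) ≤ 2 * κ := by
  refine S.sum_n1_act_grt E t he g hf hf' (fun c => conj (E.χ c m))
    (fun c => by rw [RCLike.norm_conj, E.unit]) hκ ?_
  refine (S.trans_pkt E t H).trans ?_
  nlinarith [sq_nonneg κ]

/-- change of the amplitude -/
theorem TrAct.sum_n1_grt_sub (he : ‖T.ι e‖ ≤ 1) {f f' : Λ → ℂ}
    (hf : ∑ j ∈ F, ‖f j‖ ^ 2 ≤ 1) (hf' : ∑ j ∈ F, ‖f' j‖ ^ 2 ≤ 1) {δ : ℝ} (hδ : 0 ≤ δ)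
    (h1 : ∑ j ∈ F, ‖f j - f' j‖ ^ 2 ≤ δ ^ 2) :
    ∑ c, T.n1 (S.grt E t e f c - S.grt E t e f' c) ≤ 2 * δ := by
  have h2 := S.sum_n1_act_grt E t he 1 hf hf' (fun _ => (1 : ℂ)) (fun _ => norm_one) hδ (by
    simp only [S.one, one_smul, S.pkt_sub]
    rw [S.pkt_norm]
    have h3 : ‖T.ι e‖ ^ 2 ≤ 1 := pow_le_one₀ (norm_nonneg _) he
    have h0 : 0 ≤ ∑ j ∈ F, ‖f j - f' j‖ ^ 2 := Finset.sum_nonneg fun _ _ => sq_nonneg _
    nlinarith [sq_nonneg ‖T.ι e‖])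
  simpa only [S.one] using h2

/-! ### square roots -/

theorem TrAct.posE_grt (f : Λ → ℂ) (c : E.C) : PosE (S.grt E t e f c) := ⟨_, rfl⟩

theorem TrAct.sqt_mul_self (f : Λ → ℂ) (c : E.C) :
    star (S.sqt E t e f c) * S.sqt E t e f c = S.grt E t e f c := by
  unfold TrAct.sqt
  rw [csqrt_star, csqrt_mul_self (S.posE_grt E t f c)]

theorem TrAct.sqt_corner {b : A} (hb : S.IsPrj b) (heb : e * b = e) (f : Λ → ℂ) (c : E.C) :
    b * S.sqt E t e f c = S.sqt E t e f c ∧ S.sqt E t e f c * b = S.sqt E t e f c := by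
  refine csqrt_corner hb.star_eq (S.posE_grt E t f c) ?_
  unfold TrAct.grt
  have h := S.pkt_mul E t hb.fix heb f c
  have h2 : b * star (S.pkt E t e f c) = star (S.pkt E t e f c) := by
    rw [← hb.star_eq, ← star_mul, h]
  rw [← mul_assoc, h2]

theorem TrAct.sqt_dm {f : Λ → ℂ} (hf : ∑ j ∈ F, ‖f j‖ ^ 2 ≤ 1) :
    T.Dm (‖e‖ ^ 2) (S.sqt E t e f) := by
  have h0 : 0 ≤ ∑ j ∈ F, ‖f j‖ ^ 2 := Finset.sum_nonneg fun _ _ => sq_nonneg _
  have h1 : T.Dm (‖e‖ ^ 2) (S.pkt E t e f) := by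
    refine (S.pkt_dm E t f).mono ?_
    nlinarith [sq_nonneg ‖e‖]
  constructor
  · intro z
    refine le_trans (le_of_eq (Finset.sum_congr rfl fun c _ => ?_)) (h1.1 z)
    unfold TrAct.sqt TrAct.grt
    rw [T.norm_csqrt_mul]
  · intro z
    have h2 := h1.1 (star z)
    rw [T.norm_star] at h2
    refine le_trans (le_of_eq (Finset.sum_congr rfl fun c _ => ?_)) h2
    unfold TrAct.sqt TrAct.grt
    rw [T.norm_mul_csqrt]

theorem TrAct.sqt_ms (he : ‖T.ι e‖ ≤ 1) {f : Λ → ℂ} (hf : ∑ j ∈ F, ‖f j‖ ^ 2 ≤ 1) :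
    T.ms (S.sqt E t e f) ≤ 1 := by
  have h1 : T.ms (S.sqt E t e f) = ∑ c, ‖T.ι (S.pkt E t e f c)‖ ^ 2 := by
    refine Finset.sum_congr rfl fun c _ => ?_
    have h2 := T.norm_csqrt_mul (S.pkt E t e f c) 1
    rw [mul_one, mul_one] at h2
    unfold TrAct.sqt TrAct.grt
    rw [h2]
  rw [h1, S.pkt_norm]
  have h3 : ‖T.ι e‖ ^ 2 ≤ 1 := pow_le_one₀ (norm_nonneg _) he
  have h0 : 0 ≤ ∑ j ∈ F, ‖f j‖ ^ 2 := Finset.sum_nonneg fun _ _ => sq_nonneg _
  nlinarith [sq_nonneg ‖T.ι e‖]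

/-- Powers-Stoermer for the square roots -/
theorem TrAct.sum_sqt_sub (h : G) (f f' : Λ → ℂ) :
    ∑ c, ‖T.ι (S.α h (S.sqt E t e f c) - S.sqt E t e f' c)‖ ^ 2
      ≤ ∑ c, T.n1 (S.α h (S.grt E t e f c) - S.grt E t e f' c) := by
  refine Finset.sum_le_sum fun c _ => ?_
  unfold TrAct.sqt
  rw [map_csqrt (S.α h) (S.posE_grt E t f c)]
  exact T.norm_csqrt_sub_sq_le ((S.posE_grt E t f c).map (S.α h)) (S.posE_grt E t f' c)

/-- from the square roots back to the Gram elements -/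
theorem TrAct.sum_n1_grt_of_sqt (he : ‖T.ι e‖ ≤ 1) (h : G) {f f' : Λ → ℂ}
    (hf : ∑ j ∈ F, ‖f j‖ ^ 2 ≤ 1) (hf' : ∑ j ∈ F, ‖f' j‖ ^ 2 ≤ 1) {δ : ℝ} (hδ : 0 ≤ δ)
    (h1 : ∑ c, ‖T.ι (S.α h (S.sqt E t e f c) - S.sqt E t e f' c)‖ ^ 2 ≤ δ ^ 2) :
    ∑ c, T.n1 (S.α h (S.grt E t e f c) - S.grt E t e f' c) ≤ 2 * δ := by
  have e1 : ∀ c, S.α h (S.grt E t e f c) - S.grt E t e f' c
      = star (S.α h (S.sqt E t e f c)) * S.α h (S.sqt E t e f c)
        - star (S.sqt E t e f' c) * S.sqt E t e f' c := by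
    intro c
    rw [S.sqt_mul_self, ← map_star, ← map_mul, S.sqt_mul_self]
  simp only [e1]
  refine (T.sum_n1_sq_sub_le _ _).trans ?_
  have h2 : √(∑ c, ‖T.ι (S.α h (S.sqt E t e f c) - S.sqt E t e f' c)‖ ^ 2) ≤ δ := by
    rw [← Real.sqrt_sq hδ]
    exact Real.sqrt_le_sqrt h1
  have hm : ∀ {f : Λ → ℂ}, ∑ j ∈ F, ‖f j‖ ^ 2 ≤ 1 →
      √(∑ c, ‖T.ι (S.sqt E t e f c)‖ ^ 2) ≤ 1 := by
    intro f hf
    rw [Real.sqrt_le_one]
    exact S.sqt_ms E t he hf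
  have h3 : √(∑ c, ‖T.ι (S.α h (S.sqt E t e f c) + S.sqt E t e f' c)‖ ^ 2) ≤ 2 := by
    refine (T.sqrt_sum_add_le _ _).trans ?_
    have h4 : √(∑ c, ‖T.ι (S.α h (S.sqt E t e f c))‖ ^ 2) ≤ 1 := by
      simp only [S.norm_map]
      exact hm hf
    have h5 := hm hf'
    linarith
  rw [mul_comm 2 δ]
  exact mul_le_mul h2 h3 (Real.sqrt_nonneg _) hδ

/-! ### Stone-Weierstrass and averages: 2241 (3) -/

/-- extension by zero -/
noncomputable def zxt {F : Finset Λ} [DecidableEq Λ] (f : F → ℂ) (j : Λ) : ℂ :=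
  if h : j ∈ F then f ⟨j, h⟩ else 0

theorem zxt_mem {F : Finset Λ} [DecidableEq Λ] (f : F → ℂ) (j : F) : zxt f j = f j := by
  unfold zxt
  rw [dif_pos j.2]

theorem zxt_sum {F : Finset Λ} [DecidableEq Λ] (f : F → ℂ) :
    ∑ j ∈ F, ‖zxt f j‖ ^ 2 = ∑ j : F, ‖f j‖ ^ 2 := by
  rw [← Finset.sum_coe_sort F]
  exact Finset.sum_congr rfl fun j _ => by rw [zxt_mem]

section
variable [DecidableEq Λ] (e)

/-- packets with amplitudes on `F` -/
noncomputable def TrAct.pzt (f : F → ℂ) (c : E.C) : A := S.pkt E t e (zxt f) c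

theorem TrAct.pzt_eq (f : Λ → ℂ) (c : E.C) :
    S.pzt E t e (fun j : F => f j) c = S.pkt E t e f c :=
  S.pkt_congr E t (fun j hj => zxt_mem (fun j : F => f j) ⟨j, hj⟩) c

theorem TrAct.pzt_add (f f' : F → ℂ) (c : E.C) :
    S.pzt E t e (f + f') c = S.pzt E t e f c + S.pzt E t e f' c := by
  unfold TrAct.pzt
  rw [S.pkt_add]
  refine S.pkt_congr E t (fun j hj => ?_) c
  have h1 := zxt_mem (f + f') ⟨j, hj⟩
  have h2 := zxt_mem f ⟨j, hj⟩
  have h3 := zxt_mem f' ⟨j, hj⟩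
  rw [h1, h2, h3]
  rfl

theorem TrAct.pzt_smul (x : ℂ) (f : F → ℂ) (c : E.C) :
    S.pzt E t e (x • f) c = x • S.pzt E t e f c := by
  unfold TrAct.pzt
  rw [← S.pkt_smul]
  refine S.pkt_congr E t (fun j hj => ?_) c
  have h1 := zxt_mem (x • f) ⟨j, hj⟩
  have h2 := zxt_mem f ⟨j, hj⟩
  rw [h1, h2]
  rfl

/-- the sesquilinear Gram map -/
noncomputable def TrAct.gramT (f f' : F → ℂ) : PiLp 1 (fun _ : E.C => A →L[ℂ] ℂ) :=
  WithLp.toLp 1 fun c => T.fn (star (S.pzt E t e f c) * S.pzt E t e f' c)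

theorem TrAct.norm_gramT_sub (f f' g g' : F → ℂ) :
    ‖S.gramT E t e f f' - S.gramT E t e g g'‖
      = ∑ c, T.n1 (star (S.pzt E t e f c) * S.pzt E t e f' c
        - star (S.pzt E t e g c) * S.pzt E t e g' c) := by
  rw [PiLp.norm_eq_of_L1]
  refine Finset.sum_congr rfl fun c _ => ?_
  unfold TrAlg.n1
  rw [T.fn_sub]
  rfl

theorem TrAct.norm_gramT (f f' : F → ℂ) :
    ‖S.gramT E t e f f'‖ = ∑ c, T.n1 (star (S.pzt E t e f c) * S.pzt E t e f' c) := by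
  rw [PiLp.norm_eq_of_L1]
  rfl

theorem TrAct.hs_gramT {U : Type*} [AddCommGroup U] (g : U → Λ → ℂ)
    (hg : ∀ l m j, g (l + m) j = g l j * g m j) (hg1 : ∀ l j, ‖g l j‖ = 1) (f u : Λ → ℂ)
    (hf : ∑ j ∈ F, ‖f j‖ ^ 2 ≤ 1) (hu : ∀ j, ‖u j‖ = 1) (n : ℕ) (k : Fin n → U) (h : Fin n → ℂ)
    (ε2 : ℝ) (hε2 : 0 ≤ ε2) (huh : ∀ j ∈ F, f j ≠ 0 → ‖u j - ∑ i, h i * g (k i) j‖ ≤ ε2)
    (N : ℕ) (hN : 0 < N) (ε : ℝ)
    (hinv : ∀ m : Fin n → ℕ, (∀ i, m i < N) →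
      ∑ c, T.n1 (S.grt E t e (fun j => g (∑ i, m i • k i) j * f j) c - S.grt E t e f c) ≤ ε ∧
      ∑ c, T.n1 (S.grt E t e (fun j => g (∑ i, m i • k i) j * (u j * f j)) c
        - S.grt E t e (fun j => u j * f j) c) ≤ ε) :
    ∑ c, T.n1 (S.grt E t e (fun j => u j * f j) c - S.grt E t e f c)
      ≤ 2 * ε + 2 * ε2 * ‖T.ι e‖ ^ 2 + 2 * ‖T.ι e‖ ^ 2 * (∑ i, ‖h i‖) / N := by
  have key := hs_trig (S.gramT E t e) (‖T.ι e‖ ^ 2) (sq_nonneg _) ?_ ?_ ?_ ?_ ?_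
    (fun l (j : F) => g l j) (fun l m j => hg l m j) (fun l j => hg1 l j) (fun j : F => f j)
    (fun j : F => u j) ?_ (fun j => hu j) n k h ε2 hε2 (fun j hj => huh j j.2 hj) N hN ε ?_
  · rw [S.norm_gramT_sub] at key
    refine le_trans (le_of_eq ?_) key
    refine Finset.sum_congr rfl fun c _ => ?_
    rw [S.pzt_eq E t e f c, S.pzt_eq E t e (fun j => u j * f j) c]
    rfl
  · intro F1 F2 F3
    unfold TrAct.gramT
    rw [← WithLp.toLp_add]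
    congr 1
    funext c
    rw [Pi.add_apply, ← T.fn_add, S.pzt_add, star_add, add_mul]
  · intro F1 F2 F3
    unfold TrAct.gramT
    rw [← WithLp.toLp_add]
    congr 1
    funext c
    rw [Pi.add_apply, ← T.fn_add, S.pzt_add, mul_add]
  · intro x F1 F2
    unfold TrAct.gramT
    rw [← WithLp.toLp_smul]
    congr 1
    funext c
    rw [Pi.smul_apply, ← T.fn_smul, S.pzt_smul, star_smul, smul_mul_assoc]
    rfl
  · intro x F1 F2
    unfold TrAct.gramT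
    rw [← WithLp.toLp_smul]
    congr 1
    funext c
    rw [Pi.smul_apply, ← T.fn_smul, S.pzt_smul, mul_smul_comm]
  · intro F1 F2
    rw [S.norm_gramT, ← zxt_sum, ← zxt_sum]
    exact S.sum_n1_pkt E t _ _
  · rw [Finset.sum_coe_sort F fun j => ‖f j‖ ^ 2]
    exact hf
  · intro m hm
    have h1 := hinv m hm
    constructor
    · rw [S.norm_gramT_sub]
      refine le_trans (le_of_eq ?_) h1.1
      refine Finset.sum_congr rfl fun c _ => ?_
      rw [S.pzt_eq E t e f c, S.pzt_eq E t e (fun j => g (∑ i, m i • k i) j * f j) c]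
      rfl
    · rw [S.norm_gramT_sub]
      refine le_trans (le_of_eq ?_) h1.2
      refine Finset.sum_congr rfl fun c _ => ?_
      rw [S.pzt_eq E t e (fun j => u j * f j) c,
        S.pzt_eq E t e (fun j => g (∑ i, m i • k i) j * (u j * f j)) c]
      rfl

end

/-! ### the type -/

variable (e) in
/-- near-eigenvectors from two packets -/
theorem TrAct.exists_typeT (b : A) (hb : S.IsPrj b) (hbe : b * e = e) (heb : e * b = e)
    (he : ‖T.ι e‖ ≤ 1) (f f' : Λ → ℂ) (hf : ∑ j ∈ F, ‖f j‖ ^ 2 = 1)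
    (hf' : ∑ j ∈ F, ‖f' j‖ ^ 2 = 1)
    (hG : ∑ c, T.n1 (S.grt E t e f' c - S.grt E t e f c) ≤ ‖T.ι e‖ ^ 2 / 2) :
    ∃ y : E.C → A, (∀ c, b * y c = y c) ∧ (∀ c, y c * b = y c) ∧ T.Dm (‖e‖ ^ 2) y ∧
      ‖T.ι e‖ ^ 2 / 8 ≤ T.ms y ∧
      (∀ (h : G) (κ : ℝ), 0 ≤ κ → (∀ j, f j ≠ 0 ∨ f' j ≠ 0 →
          ‖T.ι (S.α h (S.α (t j) e) - S.α (t j) e)‖ ≤ κ) →
        ∑ c, ‖T.ι (S.α h (y c) - y c)‖ ^ 2 ≤ 8 * κ) ∧
      ∀ (g : G) (m : Λ) (ζ : ℂ) (κ ε : ℝ), ‖ζ‖ = 1 → 0 ≤ κ → 0 ≤ ε →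
        S.Tr t F e g m κ f → S.Tr t F e g m κ f' →
        ∑ j ∈ F, ‖f (j - m) - f j‖ ^ 2 ≤ ε ^ 2 → ∑ j ∈ F, ‖ζ * f' (j - m) - f' j‖ ^ 2 ≤ ε ^ 2 →
        ∑ c, ‖T.ι (S.α g (y c) - ζ • y c)‖ ^ 2 ≤ 8 * (κ + ε) := by
  have hιe2 : ‖T.ι e‖ ^ 2 ≤ 1 := pow_le_one₀ (norm_nonneg _) he
  have hX : ∑ c, ‖T.ι (S.pkt E t e f c)‖ ^ 2 = ‖T.ι e‖ ^ 2 := by rw [S.pkt_norm, hf, one_mul]
  have hX' : ∑ c, ‖T.ι (S.pkt E t e f' c)‖ ^ 2 = ‖T.ι e‖ ^ 2 := by rw [S.pkt_norm, hf', one_mul]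
  refine ⟨fun c => py (S.pkt E t e f c) (S.pkt E t e f' c), ?_, ?_, ?_, ?_, ?_, ?_⟩
  · exact fun c => (py_corner hb.star_eq (S.mul_pkt E t hb.fix hbe f c)
      (S.mul_pkt E t hb.fix hbe f' c)).1
  · exact fun c => (py_corner hb.star_eq (S.mul_pkt E t hb.fix hbe f c)
      (S.mul_pkt E t hb.fix hbe f' c)).2
  · have hd := S.pkt_dm E t (e := e) f
    have hd' := S.pkt_dm E t (e := e) f'
    rw [hf, one_mul] at hd
    rw [hf', one_mul] at hd'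
    constructor
    · intro z
      calc ∑ c, ‖T.ι (py (S.pkt E t e f c) (S.pkt E t e f' c) * z)‖ ^ 2
          ≤ ∑ c, ‖T.ι (star (S.pkt E t e f' c) * z)‖ ^ 2 :=
            Finset.sum_le_sum fun c _ => T.norm_py_mul_le _ _ z
        _ = ∑ c, ‖T.ι (star z * S.pkt E t e f' c)‖ ^ 2 := by
            refine Finset.sum_congr rfl fun c _ => ?_
            rw [← T.norm_star, star_mul, star_star]
        _ ≤ ‖e‖ ^ 2 * ‖T.ι (star z)‖ ^ 2 := hd'.2 (star z)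
        _ = ‖e‖ ^ 2 * ‖T.ι z‖ ^ 2 := by rw [T.norm_star]
    · intro z
      calc ∑ c, ‖T.ι (z * py (S.pkt E t e f c) (S.pkt E t e f' c))‖ ^ 2
          ≤ ∑ c, ‖T.ι (z * S.pkt E t e f c)‖ ^ 2 :=
            Finset.sum_le_sum fun c _ => T.norm_mul_py_le _ _ z
        _ ≤ ‖e‖ ^ 2 * ‖T.ι z‖ ^ 2 := hd.2 z
  · have h1 := T.sum_py_mass (S.pkt E t e f) (S.pkt E t e f')
    rw [hX, hX'] at h1
    have h2 : ∑ c, T.n1 (star (S.pkt E t e f c) * S.pkt E t e f c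
        - star (S.pkt E t e f' c) * S.pkt E t e f' c) ≤ ‖T.ι e‖ ^ 2 / 2 := by
      refine le_trans (le_of_eq ?_) hG
      refine Finset.sum_congr rfl fun c _ => ?_
      rw [T.n1_sub_comm]
      rfl
    change ‖T.ι e‖ ^ 2 / 8 ≤ ∑ c, ‖T.ι (py (S.pkt E t e f c) (S.pkt E t e f' c))‖ ^ 2
    linarith
  · intro h κ hκ H
    have k1 : ∑ c, ‖T.ι (S.α h (S.pkt E t e f c) - S.pkt E t e f c)‖ ^ 2 ≤ κ ^ 2 := by
      have h1 := S.act_pkt E t (e := e) h f (fun _ => 1) (κ := κ) (fun j _ hj => by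
        rw [one_smul]
        exact H j (Or.inl hj))
      simp only [one_mul] at h1
      rwa [hf, mul_one] at h1
    have k2 : ∑ c, ‖T.ι (S.α h (S.pkt E t e f' c) - S.pkt E t e f' c)‖ ^ 2 ≤ κ ^ 2 := by
      have h1 := S.act_pkt E t (e := e) h f' (fun _ => 1) (κ := κ) (fun j _ hj => by
        rw [one_smul]
        exact H j (Or.inr hj))
      simp only [one_mul] at h1
      rwa [hf', mul_one] at h1
    simp only [map_py]
    refine T.py_family_le _ _ _ _ hκ (hX.le.trans hιe2) (hX'.le.trans hιe2) ?_ ?_ k1 k2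
    · simp only [S.norm_map]
      exact hX.le.trans hιe2
    · simp only [S.norm_map]
      exact hX'.le.trans hιe2
  · intro g m ζ κ ε hζ hκ hε H H' hs hs'
    -- phases
    have hχ : ∀ c, ‖conj (E.χ c m)‖ = 1 := fun c => by rw [RCLike.norm_conj, E.unit]
    have hζ' : ∀ c, ‖conj (E.χ c m) * conj ζ‖ = 1 := fun c => by
      rw [norm_mul, hχ, RCLike.norm_conj, hζ, one_mul]
    -- comparison
    have hcomb : ∀ (φ : Λ → ℂ) (η : E.C → ℂ) (ξ : ℂ), ‖ξ‖ = 1 →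
        (∀ c, η c = conj (E.χ c m) * conj ξ) →
        S.Tr t F e g m κ φ → ∑ j ∈ F, ‖φ j‖ ^ 2 = 1 → ∑ j ∈ F, ‖ξ * φ (j - m) - φ j‖ ^ 2 ≤ ε ^ 2 →
        ∑ c, ‖T.ι (S.α g (S.pkt E t e φ c) - η c • S.pkt E t e φ c)‖ ^ 2 ≤ (κ + ε) ^ 2 := by
      intro φ η ξ hξ hη hT hφ1 hsh
      have a1 := S.trans_pkt E t hT
      rw [hφ1, mul_one] at a1
      have a2 : ∑ c, ‖T.ι (conj (E.χ c m) • S.pkt E t e (fun j => φ (j - m)) c
          - η c • S.pkt E t e φ c)‖ ^ 2 ≤ ε ^ 2 := by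
        have e2 : ∀ c, conj (E.χ c m) • S.pkt E t e (fun j => φ (j - m)) c
            - η c • S.pkt E t e φ c
            = (conj (E.χ c m) * conj ξ) • S.pkt E t e (fun j => ξ * φ (j - m) - φ j) c := by
          intro c
          have e3 : conj ξ * ξ = 1 := by
            rw [← Complex.normSq_eq_conj_mul_self, Complex.normSq_eq_norm_sq, hξ]
            norm_num
          rw [hη, ← S.pkt_sub, S.pkt_smul, smul_sub, smul_smul, mul_assoc, e3, mul_one]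
        simp only [e2]
        have e4 : ∀ c, ‖conj (E.χ c m) * conj ξ‖ = 1 := fun c => by
          rw [norm_mul, hχ, RCLike.norm_conj, hξ, one_mul]
        simp only [T.norm_smul_sq, e4, one_pow, one_mul]
        rw [S.pkt_norm]
        have h0 : 0 ≤ ∑ j ∈ F, ‖ξ * φ (j - m) - φ j‖ ^ 2 :=
          Finset.sum_nonneg fun _ _ => sq_nonneg _
        nlinarith [sq_nonneg ‖T.ι e‖]
      have e5 : ∀ c, S.α g (S.pkt E t e φ c) - η c • S.pkt E t e φ c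
          = (S.α g (S.pkt E t e φ c) - conj (E.χ c m) • S.pkt E t e (fun j => φ (j - m)) c)
            + (conj (E.χ c m) • S.pkt E t e (fun j => φ (j - m)) c - η c • S.pkt E t e φ c) :=
        fun c => by abel
      simp only [e5]
      have h3 := T.sqrt_sum_add_le
        (fun c => S.α g (S.pkt E t e φ c) - conj (E.χ c m) • S.pkt E t e (fun j => φ (j - m)) c)
        (fun c => conj (E.χ c m) • S.pkt E t e (fun j => φ (j - m)) c - η c • S.pkt E t e φ c)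
      have h4 : √(∑ c, ‖T.ι (S.α g (S.pkt E t e φ c)
          - conj (E.χ c m) • S.pkt E t e (fun j => φ (j - m)) c)‖ ^ 2) ≤ κ := by
        rw [← Real.sqrt_sq hκ]
        exact Real.sqrt_le_sqrt a1
      have h5 : √(∑ c, ‖T.ι (conj (E.χ c m) • S.pkt E t e (fun j => φ (j - m)) c
          - η c • S.pkt E t e φ c)‖ ^ 2) ≤ ε := by
        rw [← Real.sqrt_sq hε]
        exact Real.sqrt_le_sqrt a2
      have h6 := h3.trans (add_le_add h4 h5)
      have h7 : (0 : ℝ) ≤ ∑ c, ‖T.ι ((S.α g (S.pkt E t e φ c)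
          - conj (E.χ c m) • S.pkt E t e (fun j => φ (j - m)) c)
          + (conj (E.χ c m) • S.pkt E t e (fun j => φ (j - m)) c
            - η c • S.pkt E t e φ c))‖ ^ 2 := Finset.sum_nonneg fun _ _ => sq_nonneg _
      rw [← Real.sq_sqrt h7]
      exact pow_le_pow_left₀ (Real.sqrt_nonneg _) h6 2
    have k1 := hcomb f (fun c => conj (E.χ c m)) 1 norm_one
      (fun c => by rw [map_one, mul_one]) H hf (by simpa only [one_mul] using hs)
    have k2 := hcomb f' (fun c => conj (E.χ c m) * conj ζ) ζ hζ (fun c => rfl) H' hf' hs'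
    have key := T.py_family_le (fun c => conj (E.χ c m) • S.pkt E t e f c)
      (fun c => (conj (E.χ c m) * conj ζ) • S.pkt E t e f' c)
      (fun c => S.α g (S.pkt E t e f c)) (fun c => S.α g (S.pkt E t e f' c)) (δ := κ + ε)
      (by positivity)
      (by
        simp only [T.norm_smul_sq, hχ, one_pow, one_mul]
        exact hX.le.trans hιe2)
      (by
        simp only [T.norm_smul_sq, hζ', one_pow, one_mul]
        exact hX'.le.trans hιe2)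
      (by
        simp only [S.norm_map]
        exact hX.le.trans hιe2)
      (by
        simp only [S.norm_map]
        exact hX'.le.trans hιe2) k1 k2
    refine le_trans (le_of_eq ?_) key
    refine Finset.sum_congr rfl fun c _ => ?_
    have hph : conj (E.χ c m) * conj (conj (E.χ c m) * conj ζ) = ζ := by
      rw [map_mul, Complex.conj_conj, ← mul_assoc, Complex.conj_conj,
        ← Complex.normSq_eq_conj_mul_self, Complex.normSq_eq_norm_sq, E.unit]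
      norm_num
    rw [map_py, py_phase (hχ c) (hζ' c), hph]

end

end Pool.Agent.AbCoc
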