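import Pool.Agent.Lib_MP_418a80_t4.V0

/-!
# MP_418a80_an, T4 (abelian step): packets of a family
-/

set_option autoImplicit false
set_option linter.unusedVariables false
set_option linter.unusedSectionVars false

open Topology Filter MeasureTheory
open scoped RealInnerProductSpace ComplexConjugate

namespace Pool.Agent.AbCoc

universe u v w z

section
variable {A : Type u} [CStarAlgebra A] {K : Type v} [NormedAddCommGroup K]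
  [InnerProductSpace ℂ K] [CompleteSpace K]
variable {T : TrAlg A K}
variable {I : Type} [AddCommGroup I] {F : Finset I} (E : Chs I F) (x : I → A)

theorem pkx_norm (T : TrAlg A K) (f : I → ℂ) :
    ∑ c, ‖T.ι (pkx E x f c)‖ ^ 2 = ∑ j ∈ F, ‖f j‖ ^ 2 * ‖T.ι (x j)‖ ^ 2 := by
  sorry

theorem pkx_norm_le (T : TrAlg A K) (hx : ∀ j, ‖T.ι (x j)‖ ≤ 1) (f : I → ℂ) :
    ∑ c, ‖T.ι (pkx E x f c)‖ ^ 2 ≤ ∑ j ∈ F, ‖f j‖ ^ 2 := by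
  sorry

theorem pkx_sub (f f' : I → ℂ) (c : E.C) :
    pkx E x f c - pkx E x f' c = pkx E x (fun j => f j - f' j) c := by
  sorry

theorem pkx_add (f f' : I → ℂ) (c : E.C) :
    pkx E x f c + pkx E x f' c = pkx E x (fun j => f j + f' j) c := by
  sorry

theorem pkx_smul (z : ℂ) (f : I → ℂ) (c : E.C) :
    pkx E x (fun j => z * f j) c = z • pkx E x f c := by
  sorry

theorem pkx_congr {f f' : I → ℂ} (h : ∀ j ∈ F, f j = f' j) (c : E.C) :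
    pkx E x f c = pkx E x f' c := by
  sorry

theorem pkx_dm (T : TrAlg A K) {C : ℝ} (hC : 0 ≤ C) (hx : ∀ j, ‖x j‖ ^ 2 ≤ C) (f : I → ℂ) :
    T.Dm ((∑ j ∈ F, ‖f j‖ ^ 2) * C) (pkx E x f) := by
  sorry

theorem mul_pkx {b : A} (hx : ∀ j, b * x j = x j) (f : I → ℂ) (c : E.C) :
    b * pkx E x f c = pkx E x f c := by
  sorry

theorem pkx_mul {b : A} (hx : ∀ j, x j * b = x j) (f : I → ℂ) (c : E.C) :
    pkx E x f c * b = pkx E x f c := by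
  sorry

theorem posE_grx (f : I → ℂ) (c : E.C) : PosE (grx E x f c) := ⟨_, rfl⟩

theorem sqx_mul_self (f : I → ℂ) (c : E.C) : star (sqx E x f c) * sqx E x f c = grx E x f c := by
  sorry

theorem sum_n1_grx_sub (T : TrAlg A K) (hx : ∀ j, ‖T.ι (x j)‖ ≤ 1) (f f' : I → ℂ) :
    ∑ c, T.n1 (grx E x f c - grx E x f' c)
      ≤ √(∑ j ∈ F, ‖f j - f' j‖ ^ 2) * √(∑ j ∈ F, ‖f j + f' j‖ ^ 2) := by
  sorry

theorem sqx_corner {b : A} (hb : star b = b) (hx : ∀ j, x j * b = x j) (f : I → ℂ) (c : E.C) :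
    b * sqx E x f c = sqx E x f c ∧ sqx E x f c * b = sqx E x f c := by
  sorry

theorem sqx_dm (T : TrAlg A K) {C : ℝ} (hC : 0 ≤ C) (hx : ∀ j, ‖x j‖ ^ 2 ≤ C) {f : I → ℂ}
    (hf : ∑ j ∈ F, ‖f j‖ ^ 2 ≤ 1) : T.Dm C (sqx E x f) := by
  sorry

theorem sqx_ms (T : TrAlg A K) (hx : ∀ j, ‖T.ι (x j)‖ ≤ 1) {f : I → ℂ}
    (hf : ∑ j ∈ F, ‖f j‖ ^ 2 ≤ 1) : T.ms (sqx E x f) ≤ 1 := by
  sorry

theorem sqx_ms_le (T : TrAlg A K) (hx : ∀ j, ‖T.ι (x j)‖ ≤ 1) (f : I → ℂ) :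
    T.ms (sqx E x f) ≤ ∑ j ∈ F, ‖f j‖ ^ 2 := by
  sorry

variable {G : Type w} [Group G] [TopologicalSpace G] (S : TrAct G T)

/-- an automorphism which moves the family by `m`, up to phases -/
theorem TrAct.act_pkx (h : G) (m : I) (f ψ : I → ℂ) {κ : ℝ} (h1 : ∀ j, f j ≠ 0 → j ∈ F ∧ j + m ∈ F)
    (H : ∀ j ∈ F, f j ≠ 0 → ‖T.ι (S.α h (x j) - ψ j • x (j + m))‖ ≤ κ) :
    ∑ c, ‖T.ι (S.α h (pkx E x f c)
      - conj (E.χ c m) • pkx E x (fun j => ψ (j - m) * f (j - m)) c)‖ ^ 2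
      ≤ κ ^ 2 * ∑ j ∈ F, ‖f j‖ ^ 2 := by
  sorry

/-- comparison of the Gram elements through phases -/
theorem TrAct.sum_n1_act_grx (hx : ∀ j, ‖T.ι (x j)‖ ≤ 1) (h : G) {f f' : I → ℂ} {M : ℝ}
    (hf : ∑ j ∈ F, ‖f j‖ ^ 2 ≤ M ^ 2) (hf' : ∑ j ∈ F, ‖f' j‖ ^ 2 ≤ M ^ 2) (hM : 0 ≤ M)
    (η : E.C → ℂ) (hη : ∀ c, ‖η c‖ = 1) {δ : ℝ} (hδ : 0 ≤ δ)
    (h1 : ∑ c, ‖T.ι (S.α h (pkx E x f c) - η c • pkx E x f' c)‖ ^ 2 ≤ δ ^ 2) :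
    ∑ c, T.n1 (S.α h (grx E x f c) - grx E x f' c) ≤ 2 * M * δ := by
  sorry

/-- Powers-Stoermer for the square roots -/
theorem TrAct.sum_sqx_sub (h : G) (f f' : I → ℂ) :
    ∑ c, ‖T.ι (S.α h (sqx E x f c) - sqx E x f' c)‖ ^ 2
      ≤ ∑ c, T.n1 (S.α h (grx E x f c) - grx E x f' c) := by
  sorry

/-- from the square roots back to the Gram elements -/
theorem TrAct.sum_n1_grx_of_sqx (hx : ∀ j, ‖T.ι (x j)‖ ≤ 1) (h : G) {f f' : I → ℂ} {M : ℝ}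
    (hf : ∑ j ∈ F, ‖f j‖ ^ 2 ≤ M ^ 2) (hf' : ∑ j ∈ F, ‖f' j‖ ^ 2 ≤ M ^ 2) (hM : 0 ≤ M) {δ : ℝ}
    (hδ : 0 ≤ δ) (h1 : ∑ c, ‖T.ι (S.α h (sqx E x f c) - sqx E x f' c)‖ ^ 2 ≤ δ ^ 2) :
    ∑ c, T.n1 (S.α h (grx E x f c) - grx E x f' c) ≤ 2 * M * δ := by
  sorry

/-- 2241 (3) for the Gram elements of packets -/
theorem hs_gramx (T : TrAlg A K) (hx : ∀ j, ‖T.ι (x j)‖ ≤ 1) {U : Type*} [AddCommGroup U]
    (g : U → I → ℂ) (hg : ∀ l m j, g (l + m) j = g l j * g m j) (hg1 : ∀ l j, ‖g l j‖ = 1)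
    (f u : I → ℂ) (hf : ∑ j ∈ F, ‖f j‖ ^ 2 ≤ 1) (hu : ∀ j, ‖u j‖ = 1) (n : ℕ) (k : Fin n → U)
    (h : Fin n → ℂ) (ε2 : ℝ) (hε2 : 0 ≤ ε2)
    (huh : ∀ j ∈ F, f j ≠ 0 → ‖u j - ∑ i, h i * g (k i) j‖ ≤ ε2) (N : ℕ) (hN : 0 < N) (ε : ℝ)
    (hinv : ∀ m : Fin n → ℕ, (∀ i, m i < N) →
      ∑ c, T.n1 (grx E x (fun j => g (∑ i, m i • k i) j * f j) c - grx E x f c) ≤ ε ∧
      ∑ c, T.n1 (grx E x (fun j => g (∑ i, m i • k i) j * (u j * f j)) c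
        - grx E x (fun j => u j * f j) c) ≤ ε) :
    ∑ c, T.n1 (grx E x (fun j => u j * f j) c - grx E x f c)
      ≤ 2 * ε + 2 * ε2 + 2 * (∑ i, ‖h i‖) / N := by
  sorry

/-- near-eigenvectors from two packets (2241 (4)) -/
theorem TrAct.exists_typex {C : ℝ} (hC : 0 ≤ C) (hxC : ∀ j, ‖x j‖ ^ 2 ≤ C)
    (hx : ∀ j, ‖T.ι (x j)‖ = 1) {b : A} (hb : star b = b) (hbx : ∀ j, b * x j = x j)
    (hxb : ∀ j, x j * b = x j) (f f' : I → ℂ) (hf : ∑ j ∈ F, ‖f j‖ ^ 2 = 1)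
    (hf' : ∑ j ∈ F, ‖f' j‖ ^ 2 = 1)
    (hG : ∑ c, T.n1 (grx E x f' c - grx E x f c) ≤ 1 / 2) :
    ∃ y : E.C → A, (∀ c, b * y c = y c) ∧ (∀ c, y c * b = y c) ∧ T.Dm C y ∧ 1 / 8 ≤ T.ms y ∧
      T.ms y ≤ 1 ∧
      ∀ (h : G) (ζ ζ' : E.C → ℂ) (δ : ℝ), (∀ c, ‖ζ c‖ = 1) → (∀ c, ‖ζ' c‖ = 1) → 0 ≤ δ →
        ∑ c, ‖T.ι (S.α h (pkx E x f c) - ζ c • pkx E x f c)‖ ^ 2 ≤ δ ^ 2 →
        ∑ c, ‖T.ι (S.α h (pkx E x f' c) - ζ' c • pkx E x f' c)‖ ^ 2 ≤ δ ^ 2 →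
        ∑ c, ‖T.ι (S.α h (y c) - (ζ c * conj (ζ' c)) • y c)‖ ^ 2 ≤ 8 * δ := by
  sorry

end

end Pool.Agent.AbCoc
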