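import Pool.Agent.Lib_MP_418a80_t3.SW

/-!
# MP_418a80_an, T4 [AB-SW]: Stone-Weierstrass for the phases `v ↦ ch (χ (ρ(-v) l))`

The functions `v ↦ ch (χ (ρ(-v) l))` are functions of `Φ(v) = χ ∘ ρ(-v) ∈ U*`, and `ch ⟪q, v⟫` is a
function of `Φ(v)`: if `Φ(v) = Φ(v')` then `χ ∘ ρ(-v) ∘ (1 - ρ(v - v')) = 0`, so `ρ(v - v') = 1`.
-/

set_option autoImplicit false
set_option linter.unusedVariables false
set_option linter.unusedSectionVars false

open Topology Filter MeasureTheory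
open scoped RealInnerProductSpace ComplexConjugate

namespace Pool.Agent.AbCoc

universe u v w z z'

/-- Stone-Weierstrass on a compact set of functionals -/
theorem sw_dual {U : Type z'} [NormedAddCommGroup U] [NormedSpace ℝ U]
    (Y : Set (U →L[ℝ] ℝ)) (hY : IsCompact Y) (F : Y → ℂ) (hF : Continuous F) (ε : ℝ) (hε : 0 < ε) :
    ∃ (n : ℕ) (k : Fin n → U) (h : Fin n → ℂ), ∀ y : Y,
      ‖F y - ∑ i, h i * ch ((y : U →L[ℝ] ℝ) (k i))‖ ≤ ε := by
  classical
  have hYc : CompactSpace Y := isCompact_iff_compactSpace.1 hY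
  have hfc : ∀ l : U, Continuous fun y : Y => ch ((y : U →L[ℝ] ℝ) l) := by
    intro l
    exact sw_ch_cont.comp (continuous_subtype_val.clm_apply continuous_const)
  let E : Multiplicative U →* C(Y, ℂ) :=
    { toFun := fun l => ⟨fun y : Y => ch ((y : U →L[ℝ] ℝ) (Multiplicative.toAdd l)), hfc _⟩
      map_one' := by
        ext y
        show ch ((y : U →L[ℝ] ℝ) 0) = 1
        rw [map_zero, sw_ch_zero]
      map_mul' := by
        intro a b
        ext y
        show ch ((y : U →L[ℝ] ℝ) (Multiplicative.toAdd a + Multiplicative.toAdd b)) =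
          ch ((y : U →L[ℝ] ℝ) (Multiplicative.toAdd a))
            * ch ((y : U →L[ℝ] ℝ) (Multiplicative.toAdd b))
        rw [map_add, sw_ch_add] }
  have hEs : ∀ l, star (E l) = E (l⁻¹) := by
    intro l
    ext y
    show star (ch ((y : U →L[ℝ] ℝ) (Multiplicative.toAdd l))) =
      ch ((y : U →L[ℝ] ℝ) (-(Multiplicative.toAdd l)))
    rw [map_neg, sw_ch_neg]
  have hstar : star (Set.range E) = Set.range E := by
    ext f
    rw [Set.mem_star]
    constructor
    · rintro ⟨l, hl⟩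
      exact ⟨l⁻¹, by rw [← hEs, hl, star_star]⟩
    · rintro ⟨l, hl⟩
      exact ⟨l⁻¹, by rw [← hEs, hl]⟩
  let A : StarSubalgebra ℂ C(Y, ℂ) := StarAlgebra.adjoin ℂ (Set.range E)
  have hAspan : ∀ f ∈ A, f ∈ Submodule.span ℂ (Set.range E) := by
    intro f hf
    have h1 : f ∈ A.toSubalgebra := hf
    rw [StarAlgebra.adjoin_toSubalgebra, hstar, Set.union_self] at h1
    have h2 : f ∈ Subalgebra.toSubmodule (Algebra.adjoin ℂ (Set.range E)) := h1
    rw [Algebra.adjoin_eq_span] at h2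
    have h3 : (Submonoid.closure (Set.range E) : Set C(Y, ℂ)) = Set.range E := by
      rw [← MonoidHom.coe_mrange, Submonoid.closure_eq]
    rwa [h3] at h2
  have hsep : A.SeparatesPoints := by
    intro y y' hyy
    have hl : ∃ l : U, ch ((y : U →L[ℝ] ℝ) l) ≠ ch ((y' : U →L[ℝ] ℝ) l) := by
      by_contra hcon
      push Not at hcon
      refine hyy (Subtype.ext (ContinuousLinearMap.ext fun l => ?_))
      by_contra h2
      set d := (y : U →L[ℝ] ℝ) l - (y' : U →L[ℝ] ℝ) l with hd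
      have hd0 : d ≠ 0 := sub_ne_zero.2 h2
      obtain ⟨n, hn⟩ := sw_ch_eq (hcon ((Real.pi / d) • l))
      rw [map_smul, map_smul, smul_eq_mul, smul_eq_mul, ← mul_sub, ← hd,
        div_mul_cancel₀ _ hd0] at hn
      have h3 : (1 : ℝ) = n * 2 := by
        have hpi := Real.pi_ne_zero
        have : Real.pi * 1 = Real.pi * (n * 2) := by linarith
        exact mul_left_cancel₀ hpi this
      have h4 : (1 : ℤ) = n * 2 := by exact_mod_cast h3
      omega
    obtain ⟨l, hl⟩ := hl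
    refine ⟨fun x => E (Multiplicative.ofAdd l) x, ⟨E (Multiplicative.ofAdd l), ?_, rfl⟩, hl⟩
    exact StarAlgebra.subset_adjoin ℂ _ ⟨_, rfl⟩
  have htop := ContinuousMap.starSubalgebra_topologicalClosure_eq_top_of_separatesPoints A hsep
  let f0 : C(Y, ℂ) := ⟨F, hF⟩
  have hf0 : f0 ∈ A.topologicalClosure := by
    rw [htop]
    trivial
  have hf1 : f0 ∈ closure (A : Set C(Y, ℂ)) := hf0
  rw [Metric.mem_closure_iff] at hf1
  obtain ⟨a, ha, hda⟩ := hf1 ε hε
  obtain ⟨n, c, gg, hsum⟩ := Submodule.mem_span_set'.1 (hAspan a ha)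
  choose kk hkk using fun i => (gg i).2
  refine ⟨n, fun i => Multiplicative.toAdd (kk i), c, fun y => ?_⟩
  have h1 : a y = ∑ i, c i * ch ((y : U →L[ℝ] ℝ) (Multiplicative.toAdd (kk i))) := by
    rw [← hsum, ContinuousMap.sum_apply]
    refine Finset.sum_congr rfl fun i _ => ?_
    rw [← hkk i]
    rfl
  rw [← h1]
  have h2 := ContinuousMap.dist_apply_le_dist (f := f0) (g := a) y
  rw [dist_eq_norm] at h2
  exact h2.trans hda.le

/-- [AB-SW] -/
theorem sw_phasesV {V : Type z} [NormedAddCommGroup V] [InnerProductSpace ℝ V]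
    [FiniteDimensional ℝ V] {U : Type z'} [NormedAddCommGroup U] [NormedSpace ℝ U]
    [FiniteDimensional ℝ U] (ρ : V → U →L[ℝ] U) (hρ : Continuous ρ)
    (hadd : ∀ s t, ρ (s + t) = (ρ s).comp (ρ t)) (h0 : ρ 0 = ContinuousLinearMap.id ℝ U)
    (hfix : ∀ v, ρ v ≠ ContinuousLinearMap.id ℝ U → ∀ l, ρ v l = l → l = 0)
    (χ : U →L[ℝ] ℝ) (hχ : χ ≠ 0) (q : V)
    (hq : ∀ v, ρ v = ContinuousLinearMap.id ℝ U → ch ⟪q, v⟫ = 1) (T ε : ℝ) (hε : 0 < ε) :
    ∃ (n : ℕ) (k : Fin n → U) (h : Fin n → ℂ), ∀ v : V, ‖v‖ ≤ T →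
      ‖ch ⟪q, v⟫ - ∑ i, h i * ch (χ (ρ (-v) (k i)))‖ ≤ ε := by
  classical
  have hprop : ProperSpace V := FiniteDimensional.proper_real V
  obtain ⟨Φ, hΦ⟩ : ∃ Φ : V → (U →L[ℝ] ℝ), Φ = fun v => χ.comp (ρ (-v)) := ⟨_, rfl⟩
  have hΦc : Continuous Φ := by
    rw [hΦ]
    exact continuous_const.clm_comp (hρ.comp continuous_neg)
  -- points with the same image
  have hinj : ∀ v v' : V, Φ v = Φ v' → ch ⟪q, v⟫ = ch ⟪q, v'⟫ := by
    intro v v' hvv
    have hid : ρ (v - v') = ContinuousLinearMap.id ℝ U := by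
      by_contra hne
      let f : U →ₗ[ℝ] U := (ρ (v - v') : U →ₗ[ℝ] U) - LinearMap.id
      have hfi : Function.Injective f := by
        rw [injective_iff_map_eq_zero]
        intro l hl
        refine hfix _ hne l ?_
        have : ρ (v - v') l - l = 0 := hl
        exact sub_eq_zero.1 this
      have hfs : Function.Surjective f := LinearMap.surjective_of_injective hfi
      have hz : ∀ l, χ (ρ (-v) l) = 0 := by
        intro l
        obtain ⟨l', hl'⟩ := hfs l
        have h3 : ρ (v - v') l' - l' = l := hl'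
        have h4 : ρ (-v') l' = ρ (-v) (ρ (v - v') l') := by
          have h5 := hadd (-v) (v - v')
          have h6 : -v + (v - v') = -v' := by abel
          rw [h6] at h5
          rw [h5]
          rfl
        have h7 : χ (ρ (-v) l') = χ (ρ (-v') l') := by
          have := congrArg (fun f : U →L[ℝ] ℝ => f l') hvv
          rw [hΦ] at this
          exact this
        rw [← h3, map_sub, map_sub, ← h4, h7, sub_self]
      apply hχ
      ext l
      have h5 := hadd (-v) v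
      rw [neg_add_cancel, h0] at h5
      have h6 : l = ρ (-v) (ρ v l) := congrArg (fun f : U →L[ℝ] U => f l) h5
      rw [h6, hz]
      rfl
    have h1 := hq _ hid
    rw [inner_sub_right, sub_eq_add_neg, sw_ch_add] at h1
    have h2 : ch (-⟪q, v'⟫) * ch ⟪q, v'⟫ = 1 := by
      rw [← sw_ch_add, neg_add_cancel, sw_ch_zero]
    calc ch ⟪q, v⟫ = ch ⟪q, v⟫ * (ch (-⟪q, v'⟫) * ch ⟪q, v'⟫) := by rw [h2, mul_one]
      _ = (ch ⟪q, v⟫ * ch (-⟪q, v'⟫)) * ch ⟪q, v'⟫ := (mul_assoc _ _ _).symm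
      _ = ch ⟪q, v'⟫ := by rw [h1, one_mul]
  obtain ⟨B, hB⟩ : ∃ B : Set V, B = Metric.closedBall (0 : V) T := ⟨_, rfl⟩
  have hBc : IsCompact B := by rw [hB]; exact isCompact_closedBall _ _
  have hBcs : CompactSpace B := isCompact_iff_compactSpace.1 hBc
  let π : B → (Φ '' B : Set (U →L[ℝ] ℝ)) := fun v => ⟨Φ v, ⟨v, v.2, rfl⟩⟩
  have hπc : Continuous π := (hΦc.comp continuous_subtype_val).subtype_mk _
  have hπs : Function.Surjective π := by
    rintro ⟨_, v, hv, rfl⟩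
    exact ⟨⟨v, hv⟩, rfl⟩
  have hπq : IsQuotientMap π := hπc.isClosedMap.isQuotientMap hπc hπs
  choose sec hsec using hπs
  obtain ⟨F, hF⟩ : ∃ F : (Φ '' B : Set (U →L[ℝ] ℝ)) → ℂ, F = fun y => ch ⟪q, (sec y : V)⟫ :=
    ⟨_, rfl⟩
  have hFπ : ∀ v : B, F (π v) = ch ⟪q, (v : V)⟫ := by
    intro v
    rw [hF]
    refine hinj _ _ ?_
    have h1 := hsec (π v)
    exact congrArg Subtype.val h1
  have hFc : Continuous F := by
    rw [hπq.continuous_iff]
    have e : F ∘ π = fun v : B => ch ⟪q, (v : V)⟫ := funext hFπ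
    rw [e]
    exact sw_ch_cont.comp (continuous_const.inner continuous_subtype_val)
  obtain ⟨n, k, h, hn⟩ := sw_dual (Φ '' B) (hBc.image hΦc) F hFc ε hε
  refine ⟨n, k, h, fun v hv => ?_⟩
  have hvB : v ∈ B := by rw [hB, mem_closedBall_zero_iff]; exact hv
  have h1 := hn (π ⟨v, hvB⟩)
  rw [hFπ] at h1
  have h2 : ∀ i, ((π ⟨v, hvB⟩ : (Φ '' B : Set (U →L[ℝ] ℝ))) : U →L[ℝ] ℝ) (k i)
      = χ (ρ (-v) (k i)) := by
    intro i
    change Φ v (k i) = _
    rw [hΦ]
    rfl
  simp only [h2] at h1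
  exact h1

end Pool.Agent.AbCoc
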