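import Pool.Agent.Lib_MP_418a80_t4.VDefs
import Pool.Agent.Lib_MP_418a80_t3.Dec
import Pool.Agent.Lib_MP_418a80_t3.CellsV

/-! # temporary: statement of [AB-PER], to be replaced by PerV.lean (helper94) -/

set_option autoImplicit false
set_option linter.unusedVariables false
set_option linter.unusedSectionVars false

open Topology Filter MeasureTheory
open scoped RealInnerProductSpace ComplexConjugate

namespace Pool.Agent.AbCoc

universe u v w z z'

section
variable {A : Type u} [CStarAlgebra A] {K : Type v} [NormedAddCommGroup K]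
  [InnerProductSpace ℂ K] [CompleteSpace K]
variable {G : Type w} [Group G] [TopologicalSpace G] [IsTopologicalGroup G] {T : TrAlg A K}
  (S : TrAct G T)
  {V : Type z} [NormedAddCommGroup V] [InnerProductSpace ℝ V] [FiniteDimensional ℝ V]
  {U : Type z'} [NormedAddCommGroup U] [NormedSpace ℝ U] [FiniteDimensional ℝ U]

/-- [AB-PER] PerV.lean -/
theorem TrAct.Dec.perAtV (R : VSec G V) {Bk : ℕ → Set V} {b : ℕ → A}
    (h : S.Dec (pch R.p) Bk b) (hBk : ∀ k, IsOpen (Bk k)) (s0 : V)
    (hs0 : ∀ q ∈ S.SF (pch R.p) Bk b, ch ⟪q, s0⟫ = 1) (ε δ : ℝ) (hε : 0 < ε) (hδ : 0 < δ) :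
    ∃ n0 : ℕ, ∀ n, n0 ≤ n → S.PerAtV R (b n) s0 ε δ := by
  sorry

end

end Pool.Agent.AbCoc
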