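import Pool.Agent.Lib_MP_418a80_sol.SH8
import Pool.Agent.Lib_MP_418a80_t4.KeyABInd
import Pool.Agent.Lib_MP_418a80_t3.NilClass

/-!
# MP_418a80_an, T4: the class of groups of the statement
-/

set_option autoImplicit false
set_option linter.unusedVariables false

open Topology TopologicalSpace
open scoped Pointwise

namespace Pool.Agent.AbCoc

universe u v w

section
variable {G : Type w} [Group G] [TopologicalSpace G] [IsTopologicalGroup G] [T2Space G]
  [SecondCountableTopology G] [LocallyCompactSpace G]

/-- nontrivial groups with `NilData` -/
theorem NilData.keyAll_self [Nontrivial G] (D : NilData G) : KeyAll.{u, v, w} G := by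
  have hN : D.V.ker = D.N := by
    ext g
    exact (D.ker g).symm
  have := D.lcN
  have : SecondCountableTopology D.N :=
    inferInstanceAs (SecondCountableTopology ((D.N : Set G) : Set G))
  have := D.nilp
  have := D.nontrivial
  obtain ⟨m, W, K, hKc, hKm, hKl⟩ := D.exists_weight
  refine keyAll_ab D.V (I := Unit) (fun _ => W) K hKc hKl (fun v hv => ?_) ?_ ?_ fun _ => ?_
  · rw [hKm]
    refine ⟨2, ?_⟩
    ext1 l
    have h := hv () l
    rw [pow_two, Module.End.mul_apply]
    simp only [LinearMap.sub_apply, ContinuousLinearMap.coe_coe, LinearMap.id_coe, id_eq]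
    rw [h]
    simp
  · rw [hN]
    exact nilpotent_keyAll D.R
  · rw [hN]
    exact D.N.ne_bot_iff_exists_ne_one.2 (exists_ne 1)
  · rw [hN]
    exact kTower_top D.R

/-- groups with an open normal nontrivial simply connected solvable subgroup -/
theorem keyAll_of_open_scsolv (S : Subgroup G) [S.Normal] (hS : IsOpen (S : Set G))
    [Nontrivial S] (h : SCSolv S) : KeyAll.{u, v, w} G := by
  have hcl : IsClosed (S : Set G) := S.isClosed_of_isOpen hS
  have : LocallyCompactSpace S := hcl.isClosedEmbedding_subtypeVal.locallyCompactSpace
  have : SecondCountableTopology S :=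
    inferInstanceAs (SecondCountableTopology ((S : Set G) : Set G))
  obtain ⟨D⟩ := h.exists_nilData
  exact keyAll_of_kTower S hS (S.ne_bot_iff_exists_ne_one.2 (exists_ne 1))
    (kTower_of_nilData S hcl D D.keyAll_self)

end

/-- the smallest class of topological groups which contains the noncompact groups with an open
subgroup `L` and a continuous homomorphism with compact kernel of `L` onto `ℝⁿ`, the groups with an
open normal nontrivial simply connected solvable Lie group, and the groups contracting to a closed
subgroup of the class -/
inductive SolvClass.{w'} : (G : Type w') → [Group G] → [TopologicalSpace G] → Prop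
  | base (G : Type w') [Group G] [TopologicalSpace G] [NoncompactSpace G] (L : Subgroup G)
      (hL : IsOpen (L : Set G)) (n : ℕ) (q : L →* Multiplicative (EuclideanSpace ℝ (Fin n)))
      (hq : Continuous q) (hs : Function.Surjective q) (hk : IsCompact (q.ker : Set L)) : SolvClass G
  | solvable (G : Type w') [Group G] [TopologicalSpace G] (S : Subgroup G) [S.Normal]
      (hS : IsOpen (S : Set G)) [Nontrivial S] (h : SCSolv S) : SolvClass G
  | contraction (G : Type w') [Group G] [TopologicalSpace G] (H : Subgroup G)
      (hH : IsClosed (H : Set G)) (hc : ∀ D : Set G, IsCompact D → ∃ C : Set G, IsCompact C ∧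
        C ⊆ (H : Set G) ∧ ∀ V ∈ 𝓝 (1 : G), ∃ z ∈ H, ∀ s ∈ D, z⁻¹ * s * z ∈ C * V)
      (h : SolvClass H) : SolvClass G

theorem SolvClass.keyAll {G : Type w} [Group G] [TopologicalSpace G] (h : SolvClass G) :
    ∀ [IsTopologicalGroup G] [T2Space G] [SecondCountableTopology G] [LocallyCompactSpace G],
      KeyAll.{u, v, w} G := by
  induction h with
  | base G L hL n q hq hs hk => exact keyAll_of_euclByCo L n q hL hq hs hk
  | solvable G S hS h => exact keyAll_of_open_scsolv S hS h
  | contraction G H hH hc h ih =>
    intro _ _ _ _
    have : LocallyCompactSpace H := hH.isClosedEmbedding_subtypeVal.locallyCompactSpace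
    have : SecondCountableTopology H :=
      inferInstanceAs (SecondCountableTopology ((H : Set G) : Set G))
    exact keyAll_of_contracts H.subtype hH.isClosedEmbedding_subtypeVal
      (contracts_of_subset H hH hc) ih

end Pool.Agent.AbCoc
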