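import Pool.Agent.Lib_MP_418a80_t4.V0
import Pool.Agent.Lib_MP_418a80_t3.KeyHeis
import Pool.Agent.Lib_MP_418a80_t3.KeyDom

/-!
# MP_418a80_an, T4 (abelian step): quotients `ℝᵃ × 𝕋ᵇ`, definitions
-/

set_option autoImplicit false
set_option linter.unusedVariables false
set_option linter.unusedSectionVars false

open Topology Filter MeasureTheory
open scoped RealInnerProductSpace ComplexConjugate

namespace Pool.Agent.AbCoc

universe u v w z

/-- a continuous homomorphism `(f, θ)` of `G` to `ℝᵃ × 𝕋ᵇ`, with one-parameter groups over the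
coordinate axes -/
structure ABS (G : Type w) [Group G] [TopologicalSpace G] (a b : ℕ) where
  f : G → EuclideanSpace ℝ (Fin a)
  hf : Continuous f
  fmul : ∀ g h, f (g * h) = f g + f h
  θ : Fin b → (G →* Circle)
  hθ : ∀ k, Continuous (θ k)
  x : Fin a → ℝ → G
  hx : ∀ i, Continuous (x i)
  xadd : ∀ i t u, x i (t + u) = x i t * x i u
  fx : ∀ i t, f (x i t) = EuclideanSpace.single i t
  θx : ∀ i t k, θ k (x i t) = 1
  y : Fin b → ℝ → G
  hy : ∀ k, Continuous (y k)
  yadd : ∀ k t u, y k (t + u) = y k t * y k u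
  fy : ∀ k t, f (y k t) = 0
  θy : ∀ k t l, θ l (y k t) = if l = k then Circle.exp t else 1

section
variable {G : Type w} [Group G] [TopologicalSpace G] {a b : ℕ}

/-- the kernel of `(f, θ)` -/
def ABS.Ker (B : ABS G a b) (g : G) : Prop := B.f g = 0 ∧ ∀ k, B.θ k g = 1

/-- the characters of `ℝᵃ × 𝕋ᵇ`, as functions on `G` -/
noncomputable def ABS.chr (B : ABS G a b) (q : EuclideanSpace ℝ (Fin a) × (Fin b → ℤ)) (g : G) : ℂ :=
  ch ⟪q.1, B.f g⟫ * ((∏ k, (B.θ k g) ^ (q.2 k) : Circle) : ℂ)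

/-- a weight: a homomorphism `ξ` of the kernel onto `U` on which `G` acts by `ρ` -/
structure WtT (B : ABS G a b) (U : Type) [NormedAddCommGroup U] [NormedSpace ℝ U] where
  /-- only the values on the kernel matter -/
  ξ : G → U
  hξ : Continuous ξ
  ξ_mul : ∀ g h, B.Ker g → B.Ker h → ξ (g * h) = ξ g + ξ h
  ξ_surj : ∀ l, ∃ g, B.Ker g ∧ ξ g = l
  ρ : G → U →L[ℝ] U
  hρ : Continuous ρ
  ξ_conj : ∀ g h, B.Ker h → ξ (g * h * g⁻¹) = ρ g (ξ h)

/-- the character `q` is given by a weight: `ρ g - 1` is injective whenever `q g ≠ 1` -/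
def ABS.Good (B : ABS G a b) (q : EuclideanSpace ℝ (Fin a) × (Fin b → ℤ)) : Prop :=
  ∃ (U : Type) (_ : NormedAddCommGroup U) (_ : NormedSpace ℝ U) (_ : FiniteDimensional ℝ U)
    (W : WtT B U) (χ : U →L[ℝ] ℝ), χ ≠ 0 ∧ ∀ g, B.chr q g ≠ 1 → ∀ l, W.ρ g l = l → l = 0

/-- the covering group `G ×_A V` -/
def ABS.cov (B : ABS G a b) :
    Subgroup (G × Multiplicative (EuclideanSpace ℝ (Fin a ⊕ Fin b))) where
  carrier := {x | (∀ i, B.f x.1 i = Multiplicative.toAdd x.2 (Sum.inl i)) ∧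
    ∀ k, B.θ k x.1 = Circle.exp (Multiplicative.toAdd x.2 (Sum.inr k))}
  one_mem' := by
    have h1 : B.f 1 = 0 := by
      have h := B.fmul 1 1
      rw [mul_one] at h
      exact left_eq_add.1 h
    refine ⟨fun i => ?_, fun k => ?_⟩
    · change B.f 1 i = (0 : EuclideanSpace ℝ (Fin a ⊕ Fin b)) (Sum.inl i)
      rw [h1]
      rfl
    · change B.θ k 1 = Circle.exp ((0 : EuclideanSpace ℝ (Fin a ⊕ Fin b)) (Sum.inr k))
      rw [map_one, PiLp.zero_apply, Circle.exp_zero]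
  mul_mem' {x y} hx hy := by
    refine ⟨fun i => ?_, fun k => ?_⟩
    · change B.f (x.1 * y.1) i
        = (Multiplicative.toAdd x.2 + Multiplicative.toAdd y.2) (Sum.inl i)
      rw [B.fmul, PiLp.add_apply, PiLp.add_apply, hx.1, hy.1]
    · change B.θ k (x.1 * y.1)
        = Circle.exp ((Multiplicative.toAdd x.2 + Multiplicative.toAdd y.2) (Sum.inr k))
      rw [map_mul, PiLp.add_apply, Circle.exp_add, hx.2, hy.2]
  inv_mem' {x} hx := by
    have h1 : B.f 1 = 0 := by
      have h := B.fmul 1 1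
      rw [mul_one] at h
      exact left_eq_add.1 h
    have h2 : B.f x.1⁻¹ = -B.f x.1 := by
      have h := B.fmul x.1 x.1⁻¹
      rw [mul_inv_cancel, h1] at h
      exact (neg_eq_of_add_eq_zero_right h.symm).symm
    refine ⟨fun i => ?_, fun k => ?_⟩
    · change B.f x.1⁻¹ i = (-Multiplicative.toAdd x.2) (Sum.inl i)
      rw [h2, PiLp.neg_apply, PiLp.neg_apply, hx.1]
    · change B.θ k x.1⁻¹ = Circle.exp ((-Multiplicative.toAdd x.2) (Sum.inr k))
      rw [map_inv, PiLp.neg_apply, Circle.exp_neg, hx.2]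

/-- the projection of the covering group -/
def ABS.pr (B : ABS G a b) : B.cov →* G :=
  (MonoidHom.fst G (Multiplicative (EuclideanSpace ℝ (Fin a ⊕ Fin b)))).comp B.cov.subtype

theorem ABS.continuous_pr (B : ABS G a b) : Continuous B.pr :=
  continuous_fst.comp continuous_subtype_val

/-- the homomorphism of the covering group onto `ℝᵃ⁺ᵇ` -/
def ABS.pt (B : ABS G a b) (x : B.cov) : EuclideanSpace ℝ (Fin a ⊕ Fin b) :=
  Multiplicative.toAdd (x : G × Multiplicative (EuclideanSpace ℝ (Fin a ⊕ Fin b))).2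

/-- the label of `ℝᵃ⁺ᵇ` given by a character of `ℝᵃ × 𝕋ᵇ` -/
noncomputable def ABS.lbl (q : EuclideanSpace ℝ (Fin a) × (Fin b → ℤ)) :
    EuclideanSpace ℝ (Fin a ⊕ Fin b) :=
  WithLp.toLp 2 (Sum.elim (fun i => q.1 i) fun k => (q.2 k : ℝ))

end

end Pool.Agent.AbCoc
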