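import Pool.Agent.Lib_MP_418a80_sol.SH9
import Pool.Agent.Lib_MP_418a80_t3.Heis8

/-!
# MP_418a80_an, T4: the class of groups
-/

set_option autoImplicit false
set_option linter.unusedVariables false
set_option linter.unusedSectionVars false

open MeasureTheory Topology Filter TopologicalSpace
open scoped ENNReal

namespace Pool.Agent.AbCoc

universe u v w z

/-- the class of groups -/
inductive T4Grp.{w'} : (G : Type w') → [Group G] → [TopologicalSpace G] → Prop
  /-- noncompact groups with an open subgroup which has a compact normal subgroup with quotient `ℝⁿ` -/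
  | base (G : Type w') [Group G] [TopologicalSpace G] [NoncompactSpace G] (L : Subgroup G) (n : ℕ)
      (q : L →* Multiplicative (EuclideanSpace ℝ (Fin n))) (hL : IsOpen (L : Set G))
      (hq : Continuous q) (hs : Function.Surjective q) (hk : IsCompact (q.ker : Set L)) : T4Grp G
  /-- simply connected solvable groups -/
  | solvable (G : Type w') [Group G] [TopologicalSpace G] [Nontrivial G] (h : SCSolv G) : T4Grp G
  /-- the abelian step: `G / H = ℝ ^ n`, `H = ker R.p ≠ 1`, and the elements `v` of `ℝ ^ n` which act on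
  the abelian quotient `ℝ ^ m` of `H` with `(ρ v - 1) ^ 2 = 0` belong to a closed subgroup `K` without
  lines; if `K ≠ 0` then `H` has a tower -/
  | abelian (G : Type w') [Group G] [TopologicalSpace G] (n m : ℕ)
      (R : VSec G (EuclideanSpace ℝ (Fin n))) (W : WtV R (EuclideanSpace ℝ (Fin m)))
      (K : AddSubgroup (EuclideanSpace ℝ (Fin n)))
      (hKc : IsClosed (K : Set (EuclideanSpace ℝ (Fin n))))
      (hKl : ∀ v : EuclideanSpace ℝ (Fin n), (∀ t : ℝ, t • v ∈ K) → v = 0)
      (hK : ∀ v, (∀ l, W.ρ v (W.ρ v l - l) = W.ρ v l - l) → v ∈ K) (hne : R.ker ≠ ⊥)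
      (hH : T4Grp R.ker) (k : ℕ) (N : ℕ → Subgroup R.ker) (h0 : K ≠ ⊥ → N 0 = ⊤) (hk : N k = ⊥)
      (d : ℕ → ℕ) (hd : ∀ i < k, 0 < d i) (p : ∀ i, R.ker → EuclideanSpace ℝ (Fin (d i)))
      (hcl : ∀ i < k, IsClosed (N i : Set R.ker)) (hp : ∀ i < k, IsLayer (N i) (N (i + 1)) (p i))
      (h : ∀ i < k, T4Grp (N i)) : T4Grp G
  /-- the Heisenberg step -/
  | heisenberg (G : Type w') [Group G] [TopologicalSpace G] [IsTopologicalGroup G] (n : ℕ)
      (H : HeisData G n) (hn : 0 < n) (hA : T4Grp H.toHData.kerA)
      (hX : ∀ χ0 : LV n, χ0 ≠ 0 → T4Grp (H.toHData.kerX χ0)) : T4Grp G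
  /-- the contraction step -/
  | contraction (G : Type w') [Group G] [TopologicalSpace G] (H : Subgroup G)
      (hH : IsClosed (H : Set G)) (hc : Contracts H.subtype) (h : T4Grp H) : T4Grp G
  /-- the open normal step -/
  | openNormal (G : Type w') [Group G] [TopologicalSpace G] (k : ℕ) (N : ℕ → Subgroup G)
      (hn : (N 0).Normal) (ho : IsOpen (N 0 : Set G)) (hne : N 0 ≠ ⊥) (hk : N k = ⊥)
      (m : ℕ → ℕ) (hm : ∀ i < k, 0 < m i) (p : ∀ i, G → EuclideanSpace ℝ (Fin (m i)))
      (hcl : ∀ i < k, IsClosed (N i : Set G)) (hp : ∀ i < k, IsLayer (N i) (N (i + 1)) (p i))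
      (h : ∀ i < k, T4Grp (N i)) : T4Grp G
  /-- groups with an open normal simply connected solvable subgroup -/
  | openSolvable (G : Type w') [Group G] [TopologicalSpace G] (H : Subgroup G) (hn : H.Normal)
      (ho : IsOpen (H : Set G)) (hne : Nontrivial H) (h : SCSolv H) : T4Grp G

/-- the tower of a chain of closed subgroups with `KeyAll` -/
theorem kTower_of_chain {G : Type w} [Group G] [TopologicalSpace G] [IsTopologicalGroup G]
    [T2Space G] [SecondCountableTopology G] [LocallyCompactSpace G] (k : ℕ) (N : ℕ → Subgroup G)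
    (hk : N k = ⊥) (m : ℕ → ℕ) (hm : ∀ i < k, 0 < m i)
    (p : ∀ i, G → EuclideanSpace ℝ (Fin (m i))) (hcl : ∀ i < k, IsClosed (N i : Set G))
    (hp : ∀ i < k, IsLayer (N i) (N (i + 1)) (p i)) (h : ∀ i < k, KeyAll.{u, v, w} (N i)) :
    KTower.{u, v, w} (N 0) := by
  have htow : ∀ j, j ≤ k → KTower.{u, v, w} (N (k - j)) := by
    intro j
    induction j with
    | zero =>
      intro _
      rw [Nat.sub_zero, hk]
      exact KTower.bot
    | succ j ihj =>
      intro hj
      have h1 := ihj (by omega)
      have hlt : k - (j + 1) < k := by omega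
      have e : k - (j + 1) + 1 = k - j := by omega
      have h2 := hp _ hlt
      rw [e] at h2
      exact KTower.step _ _ _ _ (hm _ hlt) (hcl _ hlt) h2 (h _ hlt) h1
  have h0 := htow k le_rfl
  rwa [Nat.sub_self] at h0

theorem T4Grp.keyAll {G : Type w} [Group G] [TopologicalSpace G] (h : T4Grp G) :
    ∀ [IsTopologicalGroup G] [T2Space G] [SecondCountableTopology G] [LocallyCompactSpace G],
      KeyAll.{u, v, w} G := by
  induction h with
  | base G L n q hL hq hs hk => exact keyAll_of_euclByCo L n q hL hq hs hk
  | solvable G h => exact h.keyAll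
  | abelian G n m R W K hKc hKl hK hne hH k N h0 hk d hd p hcl hp h ihH ih =>
    intro _ _ _ _
    have hker := R.isClosed_ker
    have : LocallyCompactSpace R.ker := hker.isClosedEmbedding_subtypeVal.locallyCompactSpace
    have : SecondCountableTopology R.ker :=
      inferInstanceAs (SecondCountableTopology ((R.ker : Set G) : Set G))
    refine keyAll_ab R (I := Unit) (U := fun _ => EuclideanSpace ℝ (Fin m)) (fun _ => W) K hKc
      hKl (fun v hv => hK v (hv ())) ihH hne fun hK0 => ?_
    rw [← h0 hK0]
    refine kTower_of_chain k N hk d hd p hcl hp fun i hi => ?_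
    have : LocallyCompactSpace (N i) :=
      (hcl i hi).isClosedEmbedding_subtypeVal.locallyCompactSpace
    have : SecondCountableTopology (N i) :=
      inferInstanceAs (SecondCountableTopology ((N i : Set R.ker) : Set R.ker))
    exact ih i hi
  | heisenberg G n H hn hA hX ihA ihX =>
    intro _ _ _ _
    have hcA := H.toHData.isClosed_kerA
    have : LocallyCompactSpace H.toHData.kerA := hcA.isClosedEmbedding_subtypeVal.locallyCompactSpace
    have : SecondCountableTopology H.toHData.kerA :=
      inferInstanceAs (SecondCountableTopology ((H.toHData.kerA : Set G) : Set G))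
    refine keyAll_heis H hn ihA fun χ0 hχ0 => ?_
    have hcX := H.toHData.isClosed_kerX χ0
    have : LocallyCompactSpace (H.toHData.kerX χ0) :=
      hcX.isClosedEmbedding_subtypeVal.locallyCompactSpace
    have : SecondCountableTopology (H.toHData.kerX χ0) :=
      inferInstanceAs (SecondCountableTopology ((H.toHData.kerX χ0 : Set G) : Set G))
    exact ihX χ0 hχ0
  | contraction G H hH hc h ih =>
    intro _ _ _ _
    have : LocallyCompactSpace H := hH.isClosedEmbedding_subtypeVal.locallyCompactSpace
    have : SecondCountableTopology H :=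
      inferInstanceAs (SecondCountableTopology ((H : Set G) : Set G))
    exact keyAll_of_contracts H.subtype hH.isClosedEmbedding_subtypeVal hc ih
  | openNormal G k N hn ho hne hk m hm p hcl hp h ih =>
    intro _ _ _ _
    refine keyAll_of_kTower (N 0) ho hne (kTower_of_chain k N hk m hm p hcl hp fun i hi => ?_)
    have : LocallyCompactSpace (N i) :=
      (hcl i hi).isClosedEmbedding_subtypeVal.locallyCompactSpace
    have : SecondCountableTopology (N i) :=
      inferInstanceAs (SecondCountableTopology ((N i : Set G) : Set G))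
    exact ih i hi
  | openSolvable G H hn ho hne h =>
    intro _ _ _ _
    exact keyAll_of_open_solvable H ho h

end Pool.Agent.AbCoc
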