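import Pool.Agent.Lib_MP_418a80_t3.Heis1
import Pool.Agent.Lib_MP_418a80_t3.Dec
import Pool.Agent.Lib_MP_418a80_t3.Prod

/-!
# MP_418a80_an, T4 (abelian step): definitions

`p : G → V` a continuous homomorphism onto a finite dimensional space with a continuous section `s`;
`ker p` acts through near-eigen elements, the packets are indexed by the grid `a ℤⁿ`, their amplitudes
are functions on `V = ℝⁿ`, restricted to the grid and normalised by the tent function.
-/

set_option autoImplicit false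
set_option linter.unusedVariables false
set_option linter.unusedSectionVars false

open Topology Filter MeasureTheory
open scoped RealInnerProductSpace ComplexConjugate

namespace Pool.Agent.AbCoc

universe u v w z

/-- a continuous homomorphism onto `V` with a continuous section -/
structure VSec (G : Type w) [Group G] [TopologicalSpace G] (V : Type z) [NormedAddCommGroup V]
    [InnerProductSpace ℝ V] where
  p : G → V
  hp : Continuous p
  pmul : ∀ g h, p (g * h) = p g + p h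
  s : V → G
  hs : Continuous s
  s0 : s 0 = 1
  ps : ∀ v, p (s v) = v

/-- a weight: a homomorphism `ξ` of `ker p` onto `U` on which `V` acts by `ρ` -/
structure WtV {G : Type w} [Group G] [TopologicalSpace G] {V : Type z} [NormedAddCommGroup V]
    [InnerProductSpace ℝ V] (R : VSec G V) (U : Type) [NormedAddCommGroup U]
    [NormedSpace ℝ U] where
  /-- only the values on `ker p` matter -/
  ξ : G → U
  hξ : Continuous ξ
  ξ_mul : ∀ g h, R.p g = 0 → R.p h = 0 → ξ (g * h) = ξ g + ξ h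
  ξ_surj : ∀ l, ∃ g, R.p g = 0 ∧ ξ g = l
  ρ : V → U →L[ℝ] U
  hρ : Continuous ρ
  ρ_add : ∀ s t, ρ (s + t) = (ρ s).comp (ρ t)
  ρ_zero : ρ 0 = ContinuousLinearMap.id ℝ U
  ξ_conj : ∀ v h, R.p h = 0 → ξ (R.s v * h * (R.s v)⁻¹) = ρ v (ξ h)

/-- the phases `g_l(v)` -/
noncomputable def WtV.ph {G : Type w} [Group G] [TopologicalSpace G] {V : Type z}
    [NormedAddCommGroup V] [InnerProductSpace ℝ V] {R : VSec G V} {U : Type}
    [NormedAddCommGroup U] [NormedSpace ℝ U] (W : WtV R U) (χ : U →L[ℝ] ℝ) (l : U) (v : V) : ℂ :=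
  ch (χ (W.ρ (-v) l))

/-! ### functions on `ℝⁿ` -/

/-- the sup norm -/
noncomputable def sn {n : ℕ} (v : EuclideanSpace ℝ (Fin n)) : ℝ := ‖(WithLp.ofLp v : Fin n → ℝ)‖

/-- the tent function -/
noncomputable def hatV {n : ℕ} (T0 : ℝ) (v : EuclideanSpace ℝ (Fin n)) : ℝ := max 0 (1 - sn v / T0)

/-- the amplitude on the grid `a ℤⁿ` given by the function `F`, normalised by the tent function of
width `T0` -/
noncomputable def gf {n : ℕ} (a T0 : ℝ) (F : EuclideanSpace ℝ (Fin n) → ℂ) (j : Fin n → ℤ) : ℂ :=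
  F (a • gv j) * (((√(hN n (a / T0)))⁻¹ : ℝ) : ℂ)

/-- continuous, bounded by `1`, zero outside the cube of size `T` -/
structure CF {n : ℕ} (T : ℝ) (F : EuclideanSpace ℝ (Fin n) → ℂ) : Prop where
  cont : Continuous F
  bd : ∀ v, ‖F v‖ ≤ 1
  supp : ∀ v, T < sn v → F v = 0

/-- continuous and below the tent function -/
structure SH {n : ℕ} (T0 : ℝ) (F : EuclideanSpace ℝ (Fin n) → ℂ) : Prop where
  cont : Continuous F
  le : ∀ v, ‖F v‖ ≤ hatV T0 v

/-- rounding towards zero -/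
noncomputable def rd {n : ℕ} (a : ℝ) (w : EuclideanSpace ℝ (Fin n)) : Fin n → ℤ :=
  fun i => if 0 ≤ w i then ⌊w i / a⌋ else ⌈w i / a⌉

section
variable {A : Type u} [CStarAlgebra A] {K : Type v} [NormedAddCommGroup K]
  [InnerProductSpace ℂ K] [CompleteSpace K]

/-! ### packets of a family -/

section pk
variable {I : Type} [AddCommGroup I] {F : Finset I} (E : Chs I F)

/-- the packet of the family `x` with amplitude `f` -/
noncomputable def pkx (x : I → A) (f : I → ℂ) (c : E.C) : A := E.X (fun j => f j • x j) c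

/-- its Gram element -/
noncomputable def grx (x : I → A) (f : I → ℂ) (c : E.C) : A :=
  star (pkx E x f c) * pkx E x f c

/-- the square root of the Gram element -/
noncomputable def sqx (x : I → A) (f : I → ℂ) (c : E.C) : A := csqrt (grx E x f c)

end pk

variable {G : Type w} [Group G] [TopologicalSpace G] {T : TrAlg A K} (S : TrAct G T)

/-- the conclusion of the periodic lemma in one corner, for families of mass `≤ 1` -/
def TrAct.PerV {V : Type z} [NormedAddCommGroup V] [InnerProductSpace ℝ V] (R : VSec G V) (b : A)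
    (s0 : V) (ε δ ε' : ℝ) : Prop :=
  ∀ C : ℝ, ∃ (D : Set G) (κ : ℝ), IsCompact D ∧ 0 < κ ∧
    ∀ (J : Type) [Fintype J] (y : J → A), (∀ j, b * y j = y j) → (∀ j, y j * b = y j) →
      T.Dm C y → T.ms y ≤ 1 → (∀ h ∈ D, R.p h = 0 → ∑ j, ‖T.ι (S.α h (y j) - y j)‖ ^ 2 ≤ κ) →
      (∀ v, ‖v‖ ≤ δ → ∑ j, ‖T.ι (S.α (R.s v) (y j) - y j)‖ ^ 2 ≤ ε) →
      ∑ j, ‖T.ι (S.α (R.s s0) (y j) - y j)‖ ^ 2 ≤ ε'

variable {n : ℕ} (R : VSec G (EuclideanSpace ℝ (Fin n)))

/-- normalised elements of the corner `b A b`: near-invariant under `ker p` and translated like the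
functions on `V` by all of `D`, with the phases `g l` for the elements `β l` of `ker p` -/
structure TrAct.NEltV {U : Type} (g : U → EuclideanSpace ℝ (Fin n) → ℂ) (b : A) (T1 : ℝ)
    (D : Set G) (κ : ℝ) (Λ : Set U) (C : ℝ) (e : A) (β : U → G) : Prop where
  lft : b * e = e
  rgt : e * b = e
  nrm : ‖T.ι e‖ = 1
  op : ‖e‖ ^ 2 ≤ C
  near : ∀ h ∈ D, ∀ v, sn v ≤ T1 →
    ‖T.ι (S.α h (S.α (R.s v) e) - S.α (R.s (v + R.p h)) e)‖ ≤ κ
  pβ : ∀ l, R.p (β l) = 0
  phase : ∀ l ∈ Λ, ∀ v, sn v ≤ T1 →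
    ‖T.ι (S.α (β l) (S.α (R.s v) e) - g l v • S.α (R.s v) e)‖ ≤ κ

/-- the translates of `e` on the grid `a ℤⁿ` -/
noncomputable def TrAct.xg (a : ℝ) (e : A) (j : Fin n → ℤ) : A := S.α (R.s (a • gv j)) e

variable {a T0 : ℝ} (E : Chs (Fin n → ℤ) (gbox n (gN (a / T0))))

/-- the packet of `e` with the amplitude `F` -/
noncomputable def TrAct.pf (e : A) (F : EuclideanSpace ℝ (Fin n) → ℂ) (c : E.C) : A :=
  pkx E (S.xg R a e) (gf a T0 F) c

/-- its Gram element -/
noncomputable def TrAct.grf (e : A) (F : EuclideanSpace ℝ (Fin n) → ℂ) (c : E.C) : A :=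
  grx E (S.xg R a e) (gf a T0 F) c

/-- the square root of the Gram element -/
noncomputable def TrAct.sqf (e : A) (F : EuclideanSpace ℝ (Fin n) → ℂ) (c : E.C) : A :=
  sqx E (S.xg R a e) (gf a T0 F) c

variable {S R}

theorem TrAct.PerV.mono {V : Type z} [NormedAddCommGroup V] [InnerProductSpace ℝ V] {R : VSec G V}
    {b : A} {s0 : V} {ε δ ε' : ℝ} (h : S.PerV R b s0 ε δ ε') {δ' : ℝ} (hδ : δ ≤ δ') :
    S.PerV R b s0 ε δ' ε' := by
  intro C
  obtain ⟨D, κ, hD, hκ, h⟩ := h C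
  exact ⟨D, κ, hD, hκ, fun J _ y h1 h2 h3 h4 h5 h6 => h J y h1 h2 h3 h4 h5
    fun v hv => h6 v (hv.trans hδ)⟩

theorem TrAct.NEltV.mono {U : Type} {g : U → EuclideanSpace ℝ (Fin n) → ℂ} {b : A} {T1 : ℝ}
    {D : Set G} {κ : ℝ} {Λ : Set U} {C : ℝ} {e : A} {β : U → G}
    (h : S.NEltV R g b T1 D κ Λ C e β) {T1' κ' : ℝ} {D' : Set G} {Λ' : Set U} (hT : T1' ≤ T1)
    (hD : D' ⊆ D) (hκ : κ ≤ κ') (hΛ : Λ' ⊆ Λ) : S.NEltV R g b T1' D' κ' Λ' C e β where
  lft := h.lft
  rgt := h.rgt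
  nrm := h.nrm
  op := h.op
  near := fun x hx v hv => (h.near x (hD hx) v (hv.trans hT)).trans hκ
  pβ := h.pβ
  phase := fun l hl v hv => (h.phase l (hΛ hl) v (hv.trans hT)).trans hκ

end

end Pool.Agent.AbCoc
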